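import Pool.Agent.NH90.CN.Stm

set_option autoImplicit false

open Set Classical
open Pool.Agent.Helper770.Crossing Pool.Agent.Helper770.Sep

namespace Pool.Agent.NH90.CN

namespace AVG

variable {V : Type} [Fintype V]

lemma flip_card {x y : V} (hxy : x ≠ y) :
    (Finset.univ.filter (fun π : V → Bool => π x = π y)).card =
      (Finset.univ.filter (fun π : V → Bool => ¬ π x = π y)).card := by
  refine Finset.card_nbij' (fun π => Function.update π y (!π y))
    (fun π => Function.update π y (!π y)) ?_ ?_ ?_ ?_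
  · intro π hπ
    simp only [Finset.coe_filter, Finset.mem_univ, true_and, Set.mem_ofPred_eq] at *
    rw [Function.update_self, Function.update_of_ne hxy, hπ]
    cases π y <;> simp
  · intro π hπ
    simp only [Finset.coe_filter, Finset.mem_univ, true_and, Set.mem_ofPred_eq] at *
    rw [Function.update_self, Function.update_of_ne hxy]
    cases h1 : π x <;> cases h2 : π y <;> simp_all
  · intro π _
    simp
  · intro π _
    simp

lemma two_mul_eq {x y : V} (hxy : x ≠ y) :
    2 * (Finset.univ.filter (fun π : V → Bool => π x = π y)).card = Fintype.card (V → Bool) := by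
  have h := Finset.card_filter_add_card_filter_not (s := (Finset.univ : Finset (V → Bool)))
    (fun π => π x = π y)
  rw [← flip_card hxy, Finset.card_univ] at h
  omega

lemma two_mul_ne {x y : V} (hxy : x ≠ y) :
    2 * (Finset.univ.filter (fun π : V → Bool => ¬ π x = π y)).card =
      Fintype.card (V → Bool) := by
  rw [← flip_card hxy, two_mul_eq hxy]

omit [Fintype V] in
lemma cmem {a b : V} {e : Sym2 V} (h : s(a, b) = e) : a ∈ e := by
  rw [← h]
  exact Sym2.mem_mk_left a b

omit [Fintype V] in
lemma toC_mem {e : Sym2 V} {v : V} (hv : v ∈ e) : (some v) ∈ toC e := by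
  unfold toC
  rw [Sym2.mem_map]
  exact ⟨v, hv, rfl⟩

end AVG

open AVG in
theorem t_AVG (h : S_II) : S_AVG := by
  intro V _ G D c o hfin hgood hco
  set N := Fintype.card (V → Bool) with hN
  have hNpos : 0 < N := Fintype.card_pos
  have h1 : ∑ _π : V → Bool, 2 * crossingNumber G ≤ ∑ π : V → Bool,
      ((∑ e ∈ eF G, ∑ f ∈ eF G, if π (c e) = π (c f) then DX D (toC e) (toC f) else 0) +
      2 * ∑ e ∈ eF G, if π (c e) = π (o e) then 0 else Cc D (o e)) :=
    Finset.sum_le_sum fun π _ => h V G D c o π hfin hgood hco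
  rw [Finset.sum_const, smul_eq_mul, Finset.card_univ, ← hN, Finset.sum_add_distrib,
    ← Finset.mul_sum, Finset.sum_comm, Finset.sum_comm (s := Finset.univ) (t := eF G)] at h1
  have hc : ∀ e ∈ eF G, s(c e, o e) = e := fun e he => hco e (Finset.mem_filter.1 he).2
  have h2 : ∀ e ∈ eF G, 2 * ∑ π : V → Bool, ∑ f ∈ eF G,
      (if π (c e) = π (c f) then DX D (toC e) (toC f) else 0) ≤
      N * ∑ f ∈ eF G, DX D (toC e) (toC f) := by
    intro e he
    rw [Finset.sum_comm, Finset.mul_sum, Finset.mul_sum]
    refine Finset.sum_le_sum fun f hf => ?_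
    rw [← Finset.sum_filter, Finset.sum_const, smul_eq_mul, ← mul_assoc]
    by_cases hcc : c e = c f
    · have h0 : DX D (toC e) (toC f) = 0 := by
        unfold DX
        split_ifs with hcond
        · rw [hgood _ hcond.1 _ hcond.2.1 hcond.2.2 (some (c e))
            (toC_mem (cmem (hc e he))) (toC_mem (by rw [hcc]; exact cmem (hc f hf))), ncard_empty]
        · rfl
      rw [h0]
      simp
    · rw [two_mul_eq hcc]
  have h3 : ∀ e ∈ eF G, 2 * ∑ π : V → Bool, (if π (c e) = π (o e) then 0 else Cc D (o e)) =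
      N * Cc D (o e) := by
    intro e he
    have hne : c e ≠ o e := by
      intro h4
      have h5 := hc e he
      have h6 : e ∈ G.edgeSet := (Finset.mem_filter.1 he).2
      rw [← h5, h4] at h6
      exact G.loopless.irrefl _ ((SimpleGraph.mem_edgeSet G).1 h6)
    have h7 : ∀ π : V → Bool, (if π (c e) = π (o e) then 0 else Cc D (o e)) =
        if ¬ π (c e) = π (o e) then Cc D (o e) else 0 := by
      intro π
      split_ifs <;> simp_all
    rw [Finset.sum_congr rfl fun π _ => h7 π, ← Finset.sum_filter, Finset.sum_const, smul_eq_mul,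
      ← mul_assoc, two_mul_ne hne]
  have h4 : ∑ e ∈ eF G, ∑ f ∈ eF G, DX D (toC e) (toC f) ≤ Kk D := by
    unfold Kk
    calc _ ≤ ∑ e ∈ eF G, ∑ f : Sym2 V, DX D (toC e) (toC f) :=
          Finset.sum_le_sum fun e _ => Finset.sum_le_sum_of_subset (Finset.subset_univ _)
      _ ≤ _ := Finset.sum_le_sum_of_subset (Finset.subset_univ _)
  have h5 : 2 * ∑ e ∈ eF G, ∑ π : V → Bool, ∑ f ∈ eF G,
      (if π (c e) = π (c f) then DX D (toC e) (toC f) else 0) ≤ N * Kk D := by
    rw [Finset.mul_sum]
    refine (Finset.sum_le_sum h2).trans ?_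
    rw [← Finset.mul_sum]
    exact Nat.mul_le_mul_left _ h4
  have h6 : 2 * ∑ e ∈ eF G, ∑ π : V → Bool, (if π (c e) = π (o e) then 0 else Cc D (o e)) =
      N * ∑ e ∈ eF G, Cc D (o e) := by
    rw [Finset.mul_sum, Finset.mul_sum]
    exact Finset.sum_congr rfl h3
  refine le_of_mul_le_mul_left (a := N) ?_ hNpos
  calc N * (4 * crossingNumber G) = 2 * (N * (2 * crossingNumber G)) := by ring
    _ ≤ 2 * _ := Nat.mul_le_mul_left _ h1
    _ ≤ _ := by
      rw [mul_add]
      have e1 : N * (Kk D + 2 * ∑ e ∈ eF G, Cc D (o e)) =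
          N * Kk D + 2 * (N * ∑ e ∈ eF G, Cc D (o e)) := by ring
      rw [e1, ← h6]
      omega

end Pool.Agent.NH90.CN
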