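import Pool.Agent.NH90.CN.Stm

/-!
# CN-3: the concatenation of two injective arcs contains an injective arc
-/

set_option autoImplicit false

open Set Classical

namespace Pool.Agent.NH90.CN

namespace CAT

lemma mem_aff {a b t : ℝ} (ha : 0 ≤ a) (hb : b ≤ 1) (hab : a ≤ b) (ht : t ∈ Icc (0 : ℝ) 1) :
    a + (b - a) * t ∈ Icc (0 : ℝ) 1 := by
  constructor
  · have := mul_nonneg (sub_nonneg.2 hab) ht.1
    linarith
  · have := mul_le_of_le_one_right (sub_nonneg.2 hab) ht.2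
    linarith

/-- a piece of an arc -/
lemma piece {S : Set ℂ} {γ : ℝ → ℂ} (hc : ContinuousOn γ (Icc 0 1)) (hi : InjOn γ (Icc 0 1))
    (hS : ∀ t ∈ Icc (0 : ℝ) 1, γ t ∈ S) {a b : ℝ} (ha : 0 ≤ a) (hb : b ≤ 1) (hab : a < b) :
    IsArc S (γ a) (γ b) := by
  refine ⟨fun t => γ (a + (b - a) * t), ?_, ?_, ?_, ?_, ?_⟩
  · exact hc.comp (by fun_prop) fun t ht => mem_aff ha hb hab.le ht
  · intro t ht t' ht' h
    have h1 := hi (mem_aff ha hb hab.le ht) (mem_aff ha hb hab.le ht') h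
    have h2 : (b - a) * t = (b - a) * t' := by linarith
    exact mul_left_cancel₀ (sub_pos.2 hab).ne' h2
  · show γ (a + (b - a) * 0) = γ a
    rw [mul_zero, add_zero]
  · show γ (a + (b - a) * 1) = γ b
    rw [mul_one, add_sub_cancel]
  · exact fun t ht => hS _ (mem_aff ha hb hab.le ht)

lemma mono {S T : Set ℂ} (h : S ⊆ T) {p q : ℂ} (hS : IsArc S p q) : IsArc T p q := by
  obtain ⟨γ, h1, h2, h3, h4, h5⟩ := hS
  exact ⟨γ, h1, h2, h3, h4, fun t ht => h (h5 t ht)⟩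

/-- the glued arc -/
noncomputable def gl (f g : ℝ → ℂ) (t : ℝ) : ℂ := if t ≤ 1 / 2 then f (2 * t) else g (2 * t - 1)

/-- gluing two arcs which meet in one point only -/
lemma glue {S T : Set ℂ} {f g : ℝ → ℂ} (hf : ContinuousOn f (Icc 0 1)) (hg : ContinuousOn g (Icc 0 1))
    (fi : InjOn f (Icc 0 1)) (gi : InjOn g (Icc 0 1)) (h1 : f 1 = g 0)
    (hfg : ∀ t ∈ Icc (0 : ℝ) 1, ∀ s ∈ Icc (0 : ℝ) 1, f t = g s → t = 1)
    (hS : ∀ t ∈ Icc (0 : ℝ) 1, f t ∈ S) (hT : ∀ t ∈ Icc (0 : ℝ) 1, g t ∈ T) :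
    IsArc (S ∪ T) (f 0) (g 1) := by
  have m1 : ∀ t : ℝ, 0 ≤ t → t ≤ 1 / 2 → 2 * t ∈ Icc (0 : ℝ) 1 := fun t h h' =>
    ⟨by linarith, by linarith⟩
  have m2 : ∀ t : ℝ, 1 / 2 ≤ t → t ≤ 1 → 2 * t - 1 ∈ Icc (0 : ℝ) 1 := fun t h h' =>
    ⟨by linarith, by linarith⟩
  have e1 : ∀ t : ℝ, t ≤ 1 / 2 → gl f g t = f (2 * t) := fun t ht => if_pos ht
  have e2 : ∀ t : ℝ, 1 / 2 ≤ t → gl f g t = g (2 * t - 1) := by
    intro t ht
    rcases eq_or_lt_of_le ht with h | h
    · rw [← h, e1 _ le_rfl]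
      norm_num
      exact h1
    · exact if_neg (not_le.2 h)
  have hcross : ∀ t t' : ℝ, 0 ≤ t → t ≤ 1 / 2 → 1 / 2 < t' → t' ≤ 1 →
      gl f g t = gl f g t' → False := by
    intro t t' a b c d h
    rw [e1 t b, e2 t' c.le] at h
    have h2 := hfg _ (m1 t a b) _ (m2 t' c.le d) h
    rw [h2, h1] at h
    have h3 := gi (by norm_num) (m2 t' c.le d) h
    linarith
  refine ⟨gl f g, ?_, ?_, ?_, ?_, ?_⟩
  · have hU : Icc (0 : ℝ) 1 = Icc 0 (1 / 2) ∪ Icc (1 / 2) 1 :=
      (Icc_union_Icc_eq_Icc (by norm_num) (by norm_num)).symm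
    rw [hU]
    refine ContinuousOn.union_of_isClosed ?_ ?_ isClosed_Icc isClosed_Icc
    · have h2 : ContinuousOn (fun t : ℝ => f (2 * t)) (Icc 0 (1 / 2)) :=
        hf.comp (by fun_prop) fun t ht => m1 t ht.1 ht.2
      exact h2.congr fun t ht => e1 t ht.2
    · have h2 : ContinuousOn (fun t : ℝ => g (2 * t - 1)) (Icc (1 / 2) 1) :=
        hg.comp (by fun_prop) fun t ht => m2 t ht.1 ht.2
      exact h2.congr fun t ht => e2 t ht.1
  · intro t ht t' ht' h
    by_cases a : t ≤ 1 / 2 <;> by_cases b : t' ≤ 1 / 2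
    · rw [e1 t a, e1 t' b] at h
      have := fi (m1 t ht.1 a) (m1 t' ht'.1 b) h
      linarith
    · exact (hcross t t' ht.1 a (not_le.1 b) ht'.2 h).elim
    · exact (hcross t' t ht'.1 b (not_le.1 a) ht.2 h.symm).elim
    · rw [e2 t (not_le.1 a).le, e2 t' (not_le.1 b).le] at h
      have := gi (m2 t (not_le.1 a).le ht.2) (m2 t' (not_le.1 b).le ht'.2) h
      linarith
  · rw [e1 0 (by norm_num), mul_zero]
  · rw [e2 1 (by norm_num)]
    norm_num
  · intro t ht
    by_cases a : t ≤ 1 / 2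
    · rw [e1 t a]
      exact Or.inl (hS _ (m1 t ht.1 a))
    · rw [e2 t (not_le.1 a).le]
      exact Or.inr (hT _ (m2 t (not_le.1 a).le ht.2))

end CAT

open CAT in
/-- **CN-3** -/
theorem t_CAT : S_CAT := by
  rintro S T p q r hpq ⟨f, fc, fi, f0, f1, fS⟩ ⟨g, gc, gi, g0, g1, gT⟩
  have hK : IsCompact (g '' Icc (0 : ℝ) 1) := isCompact_Icc.image_of_continuousOn gc
  have hC : IsCompact (Icc (0 : ℝ) 1 ∩ f ⁻¹' (g '' Icc (0 : ℝ) 1)) :=
    isCompact_Icc.of_isClosed_subset (fc.preimage_isClosed_of_isClosed isClosed_Icc hK.isClosed)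
      inter_subset_left
  obtain ⟨a, ⟨ha, s, hs, hsa⟩, hmin⟩ := hC.exists_isLeast
    ⟨1, by norm_num, 0, by norm_num, by rw [g0, f1]⟩
  have hm : ∀ t ∈ Icc (0 : ℝ) 1, ∀ u ∈ Icc (0 : ℝ) 1, f t = g u → a ≤ t := fun t ht u hu h =>
    hmin ⟨ht, u, hu, h.symm⟩
  rcases eq_or_lt_of_le ha.1 with h0 | h0
  · -- the start lies on the second arc
    have h1 : g s = p := by rw [hsa, ← h0, f0]
    have h2 : s < 1 := by
      refine lt_of_le_of_ne hs.2 fun h => hpq ?_
      rw [← h1, h, g1]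
    have := piece gc gi gT hs.1 le_rfl h2
    rw [h1, g1] at this
    exact mono subset_union_right this
  · rcases eq_or_lt_of_le hs.2 with h1 | h1
    · -- the first arc meets the end
      have h2 : f a = q := by rw [← hsa, h1, g1]
      have := piece fc fi fS le_rfl ha.2 h0
      rw [h2, f0] at this
      exact mono subset_union_left this
    · have key := glue (S := S) (T := T) (f := fun t => f (0 + (a - 0) * t))
        (g := fun t => g (s + (1 - s) * t))
        (fc.comp (by fun_prop) fun t ht => mem_aff le_rfl ha.2 ha.1 ht)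
        (gc.comp (by fun_prop) fun t ht => mem_aff hs.1 le_rfl hs.2 ht)
        ?_ ?_ ?_ ?_ ?_ ?_
      · have e0 : f (0 + (a - 0) * 0) = p := by rw [mul_zero, add_zero, f0]
        have e1 : g (s + (1 - s) * 1) = q := by rw [mul_one, add_sub_cancel, g1]
        rw [← e0, ← e1]
        exact key
      · intro t ht t' ht' h
        have h1 := fi (mem_aff le_rfl ha.2 ha.1 ht) (mem_aff le_rfl ha.2 ha.1 ht') h
        have h2 : a * t = a * t' := by linarith
        exact mul_left_cancel₀ h0.ne' h2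
      · intro t ht t' ht' h
        have h1 := gi (mem_aff hs.1 le_rfl hs.2 ht) (mem_aff hs.1 le_rfl hs.2 ht') h
        have h2 : (1 - s) * t = (1 - s) * t' := by linarith
        exact mul_left_cancel₀ (by linarith : (1 - s) ≠ 0) h2
      · show f (0 + (a - 0) * 1) = g (s + (1 - s) * 0)
        rw [mul_one, mul_zero, sub_zero, zero_add, add_zero, hsa]
      · intro t ht u hu h
        have h2 := hm _ (mem_aff le_rfl ha.2 ha.1 ht) _ (mem_aff hs.1 le_rfl hs.2 hu) h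
        have h3 : a * 1 ≤ a * t := by linarith
        exact le_antisymm ht.2 (le_of_mul_le_mul_left h3 h0)
      · exact fun t ht => fS _ (mem_aff le_rfl ha.2 ha.1 ht)
      · exact fun t ht => gT _ (mem_aff hs.1 le_rfl hs.2 ht)

end Pool.Agent.NH90.CN
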