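import Mathlib
import Pool.Agent.Helper770.CrossingDefs
import Pool.Agent.Helper770.Sep

set_option autoImplicit false

open Set Classical
open Pool.Agent.Helper770.Crossing Pool.Agent.Helper770.Sep

namespace Pool.Agent.NH90.CN

/-! ## Graphs and drawings -/

/-- The cone over `G`; the new vertex is `none`. -/
def cone {V : Type} (G : SimpleGraph V) : SimpleGraph (Option V) where
  Adj x y := x ≠ y ∧ (x = none ∨ y = none ∨ ∃ u v, x = some u ∧ y = some v ∧ G.Adj u v)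
  symm := ⟨fun x y h => ⟨h.1.symm, by
    rcases h.2 with h | h | ⟨u, v, h1, h2, h3⟩
    · exact Or.inr (Or.inl h)
    · exact Or.inl h
    · exact Or.inr (Or.inr ⟨v, u, h2, h1, h3.symm⟩)⟩⟩
  loopless := ⟨fun x h => h.1 rfl⟩

/-- The prism `G □ K₂`: two copies of `G` and a rung between the two copies of every vertex. -/
def prism {V : Type} (G : SimpleGraph V) : SimpleGraph (V × Bool) where
  Adj x y := (x.2 = y.2 ∧ G.Adj x.1 y.1) ∨ (x.1 = y.1 ∧ x.2 ≠ y.2)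
  symm := ⟨fun x y h => by
    rcases h with h | h
    · exact Or.inl ⟨h.1.symm, h.2.symm⟩
    · exact Or.inr ⟨h.1.symm, h.2.symm⟩⟩
  loopless := ⟨fun x h => by
    rcases h with h | h
    · exact h.2.ne rfl
    · exact h.2 rfl⟩

/-- The edges of `G` as a finset. -/
noncomputable def eF {V : Type} [Fintype V] (G : SimpleGraph V) : Finset (Sym2 V) :=
  Finset.univ.filter (fun e => e ∈ G.edgeSet)

/-- number of crossings of two different edges in a drawing (0 in all other cases) -/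
noncomputable def DX {V : Type} {G : SimpleGraph V} (D : Drawing G) (e f : Sym2 V) : ℕ :=
  if e ∈ G.edgeSet ∧ f ∈ G.edgeSet ∧ e ≠ f then
    (D.arc e '' Ioo (0 : ℝ) 1 ∩ D.arc f '' Ioo (0 : ℝ) 1).ncard else 0

/-- adjacent edges do not cross -/
def Good {V : Type} {G : SimpleGraph V} (D : Drawing G) : Prop :=
  ∀ e ∈ G.edgeSet, ∀ f ∈ G.edgeSet, e ≠ f → ∀ v, v ∈ e → v ∈ f →
    D.arc e '' Ioo (0 : ℝ) 1 ∩ D.arc f '' Ioo (0 : ℝ) 1 = ∅

/-- an edge of `G` inside the cone -/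
def toC {V : Type} (e : Sym2 V) : Sym2 (Option V) := e.map some

/-- the cone edge to `y` -/
def arm {V : Type} (y : V) : Sym2 (Option V) := s(none, some y)

/-- crossings of the arm of `y` with the edges of `G` -/
noncomputable def Cc {V : Type} [Fintype V] {G : SimpleGraph V} (D : Drawing (cone G)) (y : V) : ℕ :=
  ∑ f : Sym2 V, DX D (arm y) (toC f)

/-- twice the number of crossings between edges of `G` -/
noncomputable def Kk {V : Type} [Fintype V] {G : SimpleGraph V} (D : Drawing (cone G)) : ℕ :=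
  ∑ e : Sym2 V, ∑ f : Sym2 V, DX D (toC e) (toC f)

/-- crossings between the edges of `G` at `x` and those not at `x` -/
noncomputable def Rr {V : Type} [Fintype V] {G : SimpleGraph V} (D : Drawing (cone G)) (x : V) : ℕ :=
  ∑ e : Sym2 V, ∑ f : Sym2 V, if x ∈ e ∧ x ∉ f then DX D (toC e) (toC f) else 0

/-- edges of `G` inside the vertex set `U` -/
noncomputable def EI {V : Type} [Fintype V] (G : SimpleGraph V) (U : Finset V) : Finset (Sym2 V) :=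
  (eF G).filter (fun e => ∀ v ∈ e, v ∈ U)

/-- twice the number of crossings of edges inside `U` -/
noncomputable def XI {V : Type} [Fintype V] {G : SimpleGraph V} (D : Drawing G) (U : Finset V) : ℕ :=
  ∑ e ∈ EI G U, ∑ f ∈ EI G U, DX D e f

/-- copy of an edge in page `i` of the prism -/
def pg {V : Type} (i : Bool) (e : Sym2 V) : Sym2 (V × Bool) := e.map (fun x => (x, i))

/-- rung of the prism -/
def rung {V : Type} (y : V) : Sym2 (V × Bool) := s((y, false), (y, true))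

/-! ## Polylines -/

/-- the segment with the given ends -/
def sg (s : Sym2 ℂ) : Set ℂ := convexHull ℝ {z | z ∈ s}

/-- two segments without common endpoint that meet -/
def Xs (s s' : Sym2 ℂ) : Prop := (∀ q ∈ s, q ∉ s') ∧ (sg s ∩ sg s').Nonempty

/-- the segments of a polyline (list of its points) -/
def segL : List ℂ → List (Sym2 ℂ)
  | [] => []
  | [_] => []
  | a :: b :: l => s(a, b) :: segL (b :: l)

/-- number of segments of `l` that cross the segment `s` -/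
noncomputable def NS (s : Sym2 ℂ) (l : List ℂ) : ℕ := (segL l).countP (fun s' => decide (Xs s s'))

/-- number of pairs of crossing segments of two polylines -/
noncomputable def Nx (l l' : List ℂ) : ℕ := ((segL l).map (fun s => NS s l')).sum

/-- `q` is an end of the polyline `l` -/
def En (l : List ℂ) (q : ℂ) : Prop := l.head? = some q ∨ l.getLast? = some q

/-- a family of polylines: at least two points each, no repeated points, common points of two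
polylines are ends of both -/
structure PL {I : Type} (A : Finset I) (W : I → List ℂ) : Prop where
  len : ∀ i ∈ A, 2 ≤ (W i).length
  nd : ∀ i ∈ A, (W i).Nodup
  sep : ∀ i ∈ A, ∀ j ∈ A, i ≠ j → ∀ q ∈ W i, q ∈ W j → En (W i) q ∧ En (W j) q

/-- no point of the family lies on a segment, except at its ends -/
def PO {I : Type} (A : Finset I) (W : I → List ℂ) : Prop :=
  ∀ i ∈ A, ∀ j ∈ A, ∀ s ∈ segL (W i), ∀ q ∈ W j, q ∈ sg s → q ∈ s

/-- no three pairwise crossing segments have a common point -/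
def NT {I : Type} (A : Finset I) (W : I → List ℂ) : Prop :=
  ∀ i ∈ A, ∀ j ∈ A, ∀ k ∈ A, ∀ s ∈ segL (W i), ∀ s' ∈ segL (W j), ∀ s'' ∈ segL (W k),
    Xs s s' → Xs s' s'' → Xs s s'' → sg s ∩ sg s' ∩ sg s'' = ∅

/-- different polylines have no common segment -/
def DS {I : Type} (A : Finset I) (W : I → List ℂ) : Prop :=
  ∀ i ∈ A, ∀ j ∈ A, i ≠ j → ∀ s ∈ segL (W i), s ∉ segL (W j)

/-- labels: the polyline `W i` runs from `loc (hd i)` to `loc (tl i)` and different labels have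
different locations -/
structure Lb {V I : Type} (A : Finset I) (hd tl : I → V) (loc : V → ℂ) (W : I → List ℂ) :
    Prop where
  inj : ∀ i ∈ A, ∀ j ∈ A, ∀ u ∈ s(hd i, tl i), ∀ v ∈ s(hd j, tl j), loc u = loc v → u = v
  head : ∀ i ∈ A, (W i).head? = some (loc (hd i))
  last : ∀ i ∈ A, (W i).getLast? = some (loc (tl i))

/-- total number of crossings (counted twice) of different polylines -/
noncomputable def TT {I : Type} (A : Finset I) (W : I → List ℂ) : ℕ :=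
  ∑ i ∈ A, ∑ j ∈ A, if i = j then 0 else Nx (W i) (W j)

/-- an injective arc from `p` to `q` inside `S` -/
def IsArc (S : Set ℂ) (p q : ℂ) : Prop :=
  ∃ γ : ℝ → ℂ, ContinuousOn γ (Icc 0 1) ∧ InjOn γ (Icc 0 1) ∧ γ 0 = p ∧ γ 1 = q ∧
    ∀ t ∈ Icc (0 : ℝ) 1, γ t ∈ S

/-- consecutive elements of a finite set of reals -/
def Cons (F : Finset ℝ) (t t' : ℝ) : Prop :=
  t ∈ F ∧ t' ∈ F ∧ t < t' ∧ ∀ x ∈ F, ¬ (t < x ∧ x < t')

/-! ## Statements -/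

/-- counting crossings by pairs of edges -/
def S_CNT : Prop := ∀ (V : Type) [Fintype V] (G : SimpleGraph V) (D : Drawing G),
  (D.crossings.Finite ↔ ∀ e ∈ G.edgeSet, ∀ f ∈ G.edgeSet, e ≠ f →
    (D.arc e '' Ioo (0 : ℝ) 1 ∩ D.arc f '' Ioo (0 : ℝ) 1).Finite) ∧
  (D.crossings.Finite → 2 * D.crossings.ncard = ∑ e : Sym2 V, ∑ f : Sym2 V, DX D e f)

/-- counting crossings of a good drawing of the cone -/
def S_CNC : Prop := ∀ (V : Type) [Fintype V] (G : SimpleGraph V) (D : Drawing (cone G)),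
  D.crossings.Finite → Good D → 2 * D.crossings.ncard = Kk D + 2 * ∑ y : V, Cc D y

/-- concatenation of arcs -/
def S_CAT : Prop := ∀ (S T : Set ℂ) (p q r : ℂ), p ≠ q → IsArc S p r → IsArc T r q →
  IsArc (S ∪ T) p q

/-- from polylines to a drawing -/
def S_T3 : Prop := ∀ (V : Type) [Fintype V] (G : SimpleGraph V) (hd tl : Sym2 V → V)
  (loc : V → ℂ) (W : Sym2 V → List ℂ), (∀ e ∈ G.edgeSet, s(hd e, tl e) = e) →
  PL (eF G) W → PO (eF G) W → Lb (eF G) hd tl loc W →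
  ∃ D : Drawing G, D.crossings.Finite ∧ ∀ e ∈ G.edgeSet, ∀ f ∈ G.edgeSet, e ≠ f →
    DX D e f ≤ Nx (W e) (W f)

/-- topological part of the polygonal approximation -/
def S_TOP : Prop := ∀ (V : Type) [Fintype V] (G : SimpleGraph V) (D : Drawing G),
  D.crossings.Finite → ∃ (F : Sym2 V → Finset ℝ) (α : Sym2 V → ℂ → ℝ),
    (∀ e ∈ G.edgeSet, (∀ t ∈ F e, t ∈ Icc (0 : ℝ) 1) ∧ (0 : ℝ) ∈ F e ∧ (1 : ℝ) ∈ F e) ∧
    (∀ e ∈ G.edgeSet, ∀ f ∈ G.edgeSet, e ≠ f → ∀ t ∈ F e, ∀ u ∈ F f, D.arc e t = D.arc f u →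
      (t = 0 ∨ t = 1) ∧ (u = 0 ∨ u = 1)) ∧
    (∀ e ∈ G.edgeSet, ∀ f ∈ G.edgeSet, e ≠ f → ∀ t t' u u', Cons (F e) t t' → Cons (F f) u u' →
      Xs s(D.arc e t, D.arc e t') s(D.arc f u, D.arc f u') →
      ∃ z ∈ D.arc e '' Ioo (0 : ℝ) 1 ∩ D.arc f '' Ioo (0 : ℝ) 1, t = α e z ∧ u = α f z)

/-- polygonal approximation of a drawing -/
def S_T1 : Prop := ∀ (V : Type) [Fintype V] (G : SimpleGraph V) (D : Drawing G)
  (hd tl : Sym2 V → V), D.crossings.Finite → (∀ e ∈ G.edgeSet, s(hd e, tl e) = e) →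
  ∃ W : Sym2 V → List ℂ, PL (eF G) W ∧ Lb (eF G) hd tl D.pos W ∧
    ∀ e ∈ G.edgeSet, ∀ f ∈ G.edgeSet, e ≠ f → Nx (W e) (W f) ≤ DX D e f

/-- small perturbation of finitely many points -/
def S_GPG : Prop := ∀ P : Finset ℂ, ∃ φ : ℂ → ℂ,
  (∀ x ∈ P, ∀ y ∈ P, φ x = φ y → x = y) ∧
  (∀ x ∈ P, ∀ y ∈ P, ∀ z ∈ P, z ≠ x → z ≠ y → φ z ∉ segment ℝ (φ x) (φ y)) ∧
  (∀ x₁ ∈ P, ∀ y₁ ∈ P, ∀ x₂ ∈ P, ∀ y₂ ∈ P, ∀ x₃ ∈ P, ∀ y₃ ∈ P,
    x₁ ≠ y₁ → x₂ ≠ y₂ → x₃ ≠ y₃ → x₁ ≠ x₂ → x₁ ≠ y₂ → y₁ ≠ x₂ → y₁ ≠ y₂ →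
    x₁ ≠ x₃ → x₁ ≠ y₃ → y₁ ≠ x₃ → y₁ ≠ y₃ → x₂ ≠ x₃ → x₂ ≠ y₃ → y₂ ≠ x₃ → y₂ ≠ y₃ →
    segment ℝ (φ x₁) (φ y₁) ∩ segment ℝ (φ x₂) (φ y₂) ∩ segment ℝ (φ x₃) (φ y₃) = ∅) ∧
  (∀ x ∈ P, ∀ y ∈ P, ∀ z ∈ P, ∀ w ∈ P, Disjoint (segment ℝ x y) (segment ℝ z w) →
    Disjoint (segment ℝ (φ x) (φ y)) (segment ℝ (φ z) (φ w)))

/-- small perturbation of a family of polylines -/
def S_GP : Prop := ∀ (I : Type) (A : Finset I) (W : I → List ℂ), PL A W → ∃ φ : ℂ → ℂ,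
  (∀ i ∈ A, ∀ j ∈ A, ∀ x ∈ W i, ∀ y ∈ W j, φ x = φ y → x = y) ∧
  PL A (fun i => (W i).map φ) ∧ PO A (fun i => (W i).map φ) ∧ NT A (fun i => (W i).map φ) ∧
  ∀ i ∈ A, ∀ j ∈ A, Nx ((W i).map φ) ((W j).map φ) ≤ Nx (W i) (W j)

/-- removing self-crossings -/
def S_SIMP : Prop := ∀ (I : Type) (A : Finset I) (W : I → List ℂ), PL A W → PO A W → NT A W →
  ∃ W' : I → List ℂ, PL A W' ∧ PO A W' ∧ NT A W' ∧
    (∀ i ∈ A, (W' i).head? = (W i).head? ∧ (W' i).getLast? = (W i).getLast?) ∧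
    (∀ i ∈ A, Nx (W' i) (W' i) = 0) ∧
    ∀ i ∈ A, ∀ j ∈ A, Nx (W' i) (W' j) ≤ Nx (W i) (W j)

/-- smoothing of a crossing `p` of two segments -/
def S_SM : Prop := ∀ (u₁ u₂ w₁ w₂ p : ℂ) (Q : Finset ℂ) (S : Finset (Sym2 ℂ)),
  u₁ ∈ Q → u₂ ∈ Q → w₁ ∈ Q → w₂ ∈ Q → u₁ ≠ u₂ → w₁ ≠ w₂ →
  Xs s(u₁, u₂) s(w₁, w₂) → p ∈ segment ℝ u₁ u₂ → p ∈ segment ℝ w₁ w₂ →
  (∀ q ∈ Q, q ∈ segment ℝ u₁ u₂ → q = u₁ ∨ q = u₂) →
  (∀ q ∈ Q, q ∈ segment ℝ w₁ w₂ → q = w₁ ∨ q = w₂) →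
  (∀ s ∈ S, p ∉ sg s ∧ (∀ q ∈ s, q ∈ Q) ∧ ∀ q ∈ Q, q ∈ sg s → q ∈ s) →
  ∃ b b' : ℂ, b ≠ b' ∧ b ∉ Q ∧ b' ∉ Q ∧ (∀ s ∈ S, b ∉ sg s ∧ b' ∉ sg s) ∧
    (∀ q ∈ Q, (q ∈ segment ℝ w₁ b → q = w₁) ∧ (q ∈ segment ℝ b u₂ → q = u₂) ∧
      (q ∈ segment ℝ u₁ b' → q = u₁) ∧ (q ∈ segment ℝ b' w₂ → q = w₂)) ∧
    (∀ z ∈ segment ℝ w₁ b ∪ segment ℝ b u₂, z ∉ segment ℝ u₁ b' ∪ segment ℝ b' w₂) ∧
    (∀ g ∈ S, (Xs g s(w₁, b) → Xs g s(w₁, w₂)) ∧ (Xs g s(b', w₂) → Xs g s(w₁, w₂)) ∧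
      ¬ (Xs g s(w₁, b) ∧ Xs g s(b', w₂)) ∧
      (Xs g s(u₁, b') → Xs g s(u₁, u₂)) ∧ (Xs g s(b, u₂) → Xs g s(u₁, u₂)) ∧
      ¬ (Xs g s(u₁, b') ∧ Xs g s(b, u₂)))

/-- uncrossing two polylines with a common end -/
def S_UNX : Prop := ∀ (I : Type) (A : Finset I) (W : I → List ℂ), PL A W → PO A W → NT A W →
  DS A W → (∀ i ∈ A, Nx (W i) (W i) = 0) → ∀ i ∈ A, ∀ j ∈ A, i ≠ j →
  (∃ q, En (W i) q ∧ En (W j) q) → Nx (W i) (W j) ≠ 0 →
  ∃ W' : I → List ℂ, PL A W' ∧ PO A W' ∧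
    (∀ k ∈ A, (W' k).head? = (W k).head? ∧ (W' k).getLast? = (W k).getLast?) ∧
    TT A W' < TT A W

/-- there is a good optimal drawing -/
def S_GOOD : Prop := ∀ (V : Type) [Fintype V] (G : SimpleGraph V),
  ∃ D : Drawing G, D.crossings.Finite ∧ Good D ∧ D.crossings.ncard = crossingNumber G

/-- moving the point `a` along the segment `(a, p)`: geometry -/
def S_MOVE : Prop := ∀ (a p : ℂ) (N Q : Finset ℂ) (S : Finset (Sym2 ℂ)),
  a ≠ p → p ∈ Q → p ∉ N → a ∉ Q → N ⊆ Q →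
  (∀ q ∈ Q, q ∈ segment ℝ a p → q = p) →
  (∀ g ∈ N, ∀ q ∈ Q, q ∈ segment ℝ a g → q = g) →
  (∀ s ∈ S, a ∉ sg s ∧ (∀ q ∈ s, q ∈ Q) ∧ ∀ q ∈ Q, q ∈ sg s → q ∈ s) →
  ∃ b : ℂ → ℂ, (∀ g ∈ N, b g ∈ openSegment ℝ a g ∧ b g ∉ Q) ∧
    (∀ g ∈ N, ∀ s ∈ S, b g ∉ sg s) ∧
    (∀ g ∈ N, ∀ h ∈ N, g ≠ h → Disjoint (segment ℝ (b g) p) (segment ℝ h (b h)) ∧
      b g ∉ segment ℝ (b h) p ∧ b g ∉ segment ℝ h (b h)) ∧
    (∀ g ∈ N, ∀ q ∈ Q, q ∈ segment ℝ (b g) p → q = p) ∧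
    (∀ g ∈ N, ∀ s ∈ S, Xs s s(b g, p) → Xs s s(a, p))

/-- moving the end `w₀` of `W r` along the first segment of `W r` -/
def S_MV : Prop := ∀ (I : Type) (A : Finset I) (W : I → List ℂ) (r : I) (w₀ p : ℂ)
  (rest : List ℂ), PL A W → PO A W → DS A W → r ∈ A → W r = w₀ :: p :: rest →
  Nx (W r) (W r) = 0 → (∀ i ∈ A, i ≠ r → w₀ ∈ W i → p ∉ W i) →
  ∃ W' : I → List ℂ, PL (A.erase r) W' ∧ PO (A.erase r) W' ∧
    (rest ≠ [] → PL A W' ∧ PO A W') ∧ W' r = p :: rest ∧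
    (∀ i ∈ A, i ≠ r → w₀ ∉ W i → W' i = W i) ∧
    (∀ i ∈ A, i ≠ r → (W' i).head? = if (W i).head? = some w₀ then some p else (W i).head?) ∧
    (∀ i ∈ A, i ≠ r →
      (W' i).getLast? = if (W i).getLast? = some w₀ then some p else (W i).getLast?) ∧
    (∀ i ∈ A, ∀ j ∈ A, i ≠ r → j ≠ r → i ≠ j → Nx (W' i) (W' j) ≤ Nx (W i) (W j) +
      (if w₀ ∈ W i then NS s(w₀, p) (W j) else 0) + if w₀ ∈ W j then NS s(w₀, p) (W i) else 0) ∧
    (∀ j ∈ A, j ≠ r → Nx (p :: rest) (W' j) ≤ Nx (p :: rest) (W j))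

/-- contraction of one polyline `W r` -/
def S_RC : Prop := ∀ (V I : Type) (A : Finset I) (hd tl : I → V) (loc : V → ℂ)
  (W : I → List ℂ) (r : I) (κ : V → V), r ∈ A → PL A W → PO A W → Lb A hd tl loc W →
  (∀ i ∈ A, ∀ j ∈ A, i ≠ j → s(hd i, tl i) ≠ s(hd j, tl j)) → Nx (W r) (W r) = 0 →
  (∀ v, κ v = if v = hd r then tl r else v) → (∀ i ∈ A.erase r, κ (hd i) ≠ κ (tl i)) →
  ∃ W' : I → List ℂ, PL (A.erase r) W' ∧ PO (A.erase r) W' ∧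
    Lb (A.erase r) (fun i => κ (hd i)) (fun i => κ (tl i)) loc W' ∧
    (∀ i ∈ A.erase r, hd r ∉ s(hd i, tl i) → W' i = W i) ∧
    ∀ i ∈ A.erase r, ∀ j ∈ A.erase r, i ≠ j → Nx (W' i) (W' j) ≤ Nx (W i) (W j) +
      (if hd r ∈ s(hd i, tl i) then Nx (W r) (W j) else 0) +
      if hd r ∈ s(hd j, tl j) then Nx (W r) (W i) else 0

/-- contraction of several polylines -/
def S_MRC : Prop := ∀ (V I : Type) (A R : Finset I) (hd tl : I → V) (loc : V → ℂ)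
  (W : I → List ℂ) (κ : V → V), R ⊆ A → PL A W → PO A W → Lb A hd tl loc W →
  (∀ r ∈ R, ∀ r' ∈ R, Nx (W r) (W r') = 0) →
  (∀ r ∈ R, ∀ r' ∈ R, hd r = hd r' → r = r') → (∀ r ∈ R, ∀ r' ∈ R, hd r ≠ tl r') →
  (∀ r ∈ R, κ (hd r) = tl r) → (∀ v, (∀ r ∈ R, v ≠ hd r) → κ v = v) →
  (∀ i ∈ A \ R, κ (hd i) ≠ κ (tl i)) →
  (∀ i ∈ A \ R, ∀ j ∈ A \ R, i ≠ j → s(κ (hd i), κ (tl i)) ≠ s(κ (hd j), κ (tl j))) →
  ∃ W' : I → List ℂ, PL (A \ R) W' ∧ PO (A \ R) W' ∧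
    Lb (A \ R) (fun i => κ (hd i)) (fun i => κ (tl i)) loc W' ∧
    ∀ i ∈ A \ R, ∀ j ∈ A \ R, i ≠ j → Nx (W' i) (W' j) ≤ Nx (W i) (W j) +
      (∑ r ∈ R, if hd r ∈ s(hd i, tl i) then Nx (W r) (W j) else 0) +
      ∑ r ∈ R, if hd r ∈ s(hd j, tl j) then Nx (W r) (W i) else 0

/-- doubling a good drawing of the cone -/
def S_PRISM : Prop := ∀ (V : Type) [Fintype V] (G : SimpleGraph V) (D : Drawing (cone G)),
  D.crossings.Finite → Good D → ∃ P : Drawing (prism G), P.crossings.Finite ∧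
    (∀ e ∈ G.edgeSet, ∀ f ∈ G.edgeSet, e ≠ f → ∀ i, DX P (pg i e) (pg i f) ≤ DX D (toC e) (toC f)) ∧
    (∀ e ∈ G.edgeSet, ∀ f ∈ G.edgeSet, ∀ i j, i ≠ j → DX P (pg i e) (pg j f) = 0) ∧
    (∀ y, ∀ e ∈ G.edgeSet, ∀ i, DX P (rung y) (pg i e) ≤ DX D (arm y) (toC e)) ∧
    (∀ y z, DX P (rung y) (rung z) = 0)

/-- every choice of pages gives a drawing of `G` -/
def S_II : Prop := ∀ (V : Type) [Fintype V] (G : SimpleGraph V) (D : Drawing (cone G))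
  (c o : Sym2 V → V) (π : V → Bool), D.crossings.Finite → Good D →
  (∀ e ∈ G.edgeSet, s(c e, o e) = e) →
  2 * crossingNumber G ≤
    (∑ e ∈ eF G, ∑ f ∈ eF G, if π (c e) = π (c f) then DX D (toC e) (toC f) else 0) +
    2 * ∑ e ∈ eF G, if π (c e) = π (o e) then 0 else Cc D (o e)

/-- average over the choice of pages -/
def S_AVG : Prop := ∀ (V : Type) [Fintype V] (G : SimpleGraph V) (D : Drawing (cone G))
  (c o : Sym2 V → V), D.crossings.Finite → Good D → (∀ e ∈ G.edgeSet, s(c e, o e) = e) →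
  4 * crossingNumber G ≤ Kk D + 2 * ∑ e ∈ eF G, Cc D (o e)

/-- relocating `x` to the apex, and restriction to `G` -/
def S_REL : Prop := ∀ (V : Type) [Fintype V] (G : SimpleGraph V) (D : Drawing (cone G)),
  D.crossings.Finite → Good D →
  (∀ x, 2 * crossingNumber G + 2 * Rr D x ≤ Kk D + 2 * ∑ y : V, Cc D y) ∧
  ∃ D' : Drawing G, D'.crossings.Finite ∧ Good D' ∧ ∀ e f, DX D' e f = DX D (toC e) (toC f)

/-- Mader: graphs without `K₅` minor are sparse -/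
def S_MAD : Prop := ∀ (Z : Type) [Fintype Z] (P : SimpleGraph Z), NoK5 P →
  (eF P).card ≤ 4 * Fintype.card Z

/-- crossing-free drawings have few edges -/
def S_PLN : Prop := ∀ (V : Type) [Fintype V] (G : SimpleGraph V) (D : Drawing G),
  D.crossings = ∅ → (eF G).card ≤ 4 * Fintype.card V

/-- deleting one edge for every crossing -/
def S_DEL : Prop := ∀ (V : Type) [Fintype V] (G : SimpleGraph V) (D : Drawing G),
  D.crossings.Finite → ∀ U : Finset V, 2 * (EI G U).card ≤ 8 * U.card + XI D U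

/-- crossing lemma -/
def S_CL : Prop := ∀ (V : Type) [Fintype V] (G : SimpleGraph V) (D : Drawing G),
  D.crossings.Finite → Good D → ∀ U : Finset V, 6 * U.card ≤ (EI G U).card →
    (EI G U).card ^ 3 ≤ 54 * U.card ^ 2 * XI D U

end Pool.Agent.NH90.CN
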