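import Mathlib
import Pool.Agent.NH90.CN.Stm

set_option autoImplicit false

open Set Classical
open Pool.Agent.Helper770.Crossing Pool.Agent.Helper770.Sep

namespace Pool.Agent.NH90.CN

namespace CL

/-- the weight of a subset -/
noncomputable def wt {V : Type} (U : Finset V) (p : ℝ) (T : Finset V) : ℝ :=
  p ^ T.card * (1 - p) ^ (U \ T).card

theorem wt_nonneg {V : Type} (U : Finset V) (p : ℝ) (h0 : 0 ≤ p) (h1 : p ≤ 1) (T : Finset V) :
    0 ≤ wt U p T :=
  mul_nonneg (pow_nonneg h0 _) (pow_nonneg (by linarith) _)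

theorem sum_wt {V : Type} (U S : Finset V) (p : ℝ) (hS : S ⊆ U) :
    ∑ T ∈ U.powerset, (if S ⊆ T then wt U p T else 0) = p ^ S.card := by
  have key := Finset.prod_add (fun _ : V => p) (fun i => if i ∈ S then (0 : ℝ) else 1 - p) U
  have hL : ∏ i ∈ U, ((fun _ : V => p) i + (fun i => if i ∈ S then (0 : ℝ) else 1 - p) i)
      = p ^ S.card := by
    have h1 : ∀ i ∈ U, ((fun _ : V => p) i + (fun i => if i ∈ S then (0 : ℝ) else 1 - p) i)
        = if i ∈ S then p else 1 := by
      intro i _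
      by_cases hi : i ∈ S
      · simp [hi]
      · simp [hi]
    rw [Finset.prod_congr rfl h1, Finset.prod_ite_mem, Finset.prod_const,
      Finset.inter_eq_right.mpr hS]
  rw [← hL, key]
  refine Finset.sum_congr rfl ?_
  intro T hT
  rw [Finset.mem_powerset] at hT
  rw [Finset.prod_const]
  by_cases hST : S ⊆ T
  · rw [if_pos hST]
    unfold wt
    congr 1
    rw [Finset.prod_congr rfl (g := fun _ => 1 - p), Finset.prod_const]
    intro i hi
    rw [Finset.mem_sdiff] at hi
    have : i ∉ S := fun h => hi.2 (hST h)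
    simp [this]
  · rw [if_neg hST]
    obtain ⟨i, hi, hiT⟩ := Finset.not_subset.mp hST
    rw [Finset.prod_eq_zero (i := i) (Finset.mem_sdiff.mpr ⟨hS hi, hiT⟩) (by simp [hi]), mul_zero]

theorem card_toFinset {V : Type} {G : SimpleGraph V} {e : Sym2 V} (he : e ∈ G.edgeSet) :
    e.toFinset.card = 2 := by
  apply Sym2.card_toFinset_of_not_isDiag
  exact G.not_isDiag_of_mem_edgeSet he

theorem mem_EI {V : Type} [Fintype V] {G : SimpleGraph V} {U : Finset V} {e : Sym2 V} :
    e ∈ EI G U ↔ e ∈ G.edgeSet ∧ e.toFinset ⊆ U := by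
  unfold EI eF
  simp only [Finset.mem_filter, Finset.mem_univ, true_and, Finset.subset_iff, Sym2.mem_toFinset]

theorem EI_mono {V : Type} [Fintype V] (G : SimpleGraph V) {U T : Finset V} (h : T ⊆ U) :
    EI G T = (EI G U).filter (fun e => e.toFinset ⊆ T) := by
  ext e
  simp only [Finset.mem_filter, mem_EI]
  constructor
  · rintro ⟨h1, h2⟩
    exact ⟨⟨h1, h2.trans h⟩, h2⟩
  · rintro ⟨⟨h1, _⟩, h3⟩
    exact ⟨h1, h3⟩

theorem sum1 {V : Type} (U : Finset V) (p : ℝ) :
    ∑ T ∈ U.powerset, wt U p T * (T.card : ℝ) = p * U.card := by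
  have h : ∀ T ∈ U.powerset, wt U p T * (T.card : ℝ)
      = ∑ v ∈ U, (if ({v} : Finset V) ⊆ T then wt U p T else 0) := by
    intro T hT
    rw [Finset.mem_powerset] at hT
    rw [← Finset.sum_filter, Finset.sum_const]
    have : U.filter (fun v => ({v} : Finset V) ⊆ T) = T := by
      ext v
      simp only [Finset.mem_filter, Finset.singleton_subset_iff]
      exact ⟨fun h => h.2, fun h => ⟨hT h, h⟩⟩
    rw [this, nsmul_eq_mul, mul_comm]
  rw [Finset.sum_congr rfl h, Finset.sum_comm]
  have h2 : ∀ v ∈ U, ∑ T ∈ U.powerset, (if ({v} : Finset V) ⊆ T then wt U p T else 0) = p := by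
    intro v hv
    rw [sum_wt U {v} p (Finset.singleton_subset_iff.mpr hv)]
    simp
  rw [Finset.sum_congr rfl h2, Finset.sum_const, nsmul_eq_mul, mul_comm]

theorem sum2 {V : Type} [Fintype V] (G : SimpleGraph V) (U : Finset V) (p : ℝ) :
    ∑ T ∈ U.powerset, wt U p T * ((EI G T).card : ℝ) = p ^ 2 * (EI G U).card := by
  have h : ∀ T ∈ U.powerset, wt U p T * ((EI G T).card : ℝ)
      = ∑ e ∈ EI G U, (if e.toFinset ⊆ T then wt U p T else 0) := by
    intro T hT
    rw [Finset.mem_powerset] at hT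
    rw [← Finset.sum_filter, Finset.sum_const, ← EI_mono G hT, nsmul_eq_mul, mul_comm]
  rw [Finset.sum_congr rfl h, Finset.sum_comm]
  have h2 : ∀ e ∈ EI G U, ∑ T ∈ U.powerset, (if e.toFinset ⊆ T then wt U p T else 0) = p ^ 2 := by
    intro e he
    rw [mem_EI] at he
    rw [sum_wt U e.toFinset p he.2, card_toFinset he.1]
  rw [Finset.sum_congr rfl h2, Finset.sum_const, nsmul_eq_mul, mul_comm]

theorem DX_ne {V : Type} {G : SimpleGraph V} {D : Drawing G} (hG : Good D) {e f : Sym2 V}
    (h : DX D e f ≠ 0) : (e.toFinset ∪ f.toFinset).card = 4 := by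
  unfold DX at h
  split_ifs at h with h1
  · obtain ⟨he, hf, hef⟩ := h1
    have hdis : Disjoint e.toFinset f.toFinset := by
      rw [Finset.disjoint_left]
      intro v hv hv'
      rw [Sym2.mem_toFinset] at hv hv'
      apply h
      rw [hG e he f hf hef v hv hv', Set.ncard_empty]
    rw [Finset.card_union_of_disjoint hdis, card_toFinset he, card_toFinset hf]
  · exact absurd rfl h

theorem sum3 {V : Type} [Fintype V] {G : SimpleGraph V} {D : Drawing G} (hG : Good D)
    (U : Finset V) (p : ℝ) :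
    ∑ T ∈ U.powerset, wt U p T * ((XI D T : ℕ) : ℝ) = p ^ 4 * (XI D U : ℕ) := by
  have h : ∀ T ∈ U.powerset, wt U p T * ((XI D T : ℕ) : ℝ)
      = ∑ e ∈ EI G U, ∑ f ∈ EI G U, (DX D e f : ℝ) *
        (if e.toFinset ∪ f.toFinset ⊆ T then wt U p T else 0) := by
    intro T hT
    rw [Finset.mem_powerset] at hT
    unfold XI
    rw [EI_mono G hT, Finset.sum_filter]
    push_cast
    rw [Finset.mul_sum]
    refine Finset.sum_congr rfl ?_
    intro e _
    by_cases he : e.toFinset ⊆ T
    · rw [if_pos he, Finset.sum_filter, Finset.mul_sum]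
      refine Finset.sum_congr rfl ?_
      intro f _
      by_cases hf : f.toFinset ⊆ T
      · rw [if_pos hf, if_pos (Finset.union_subset he hf), mul_comm]
      · rw [if_neg hf, if_neg (fun h => hf (Finset.subset_union_right.trans h)), mul_zero,
          mul_zero]
    · rw [if_neg he, mul_zero]
      symm
      refine Finset.sum_eq_zero ?_
      intro f _
      rw [if_neg (fun h => he (Finset.subset_union_left.trans h)), mul_zero]
  rw [Finset.sum_congr rfl h, Finset.sum_comm]
  unfold XI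
  push_cast
  rw [Finset.mul_sum]
  refine Finset.sum_congr rfl ?_
  intro e he
  rw [Finset.sum_comm, Finset.mul_sum]
  refine Finset.sum_congr rfl ?_
  intro f hf
  rw [← Finset.mul_sum]
  rw [mem_EI] at he hf
  rw [sum_wt U _ p (Finset.union_subset he.2 hf.2)]
  by_cases h0 : DX D e f = 0
  · rw [h0]; simp
  · rw [DX_ne hG h0, mul_comm]

end CL

theorem t_CL (h : S_DEL) : S_CL := by
  intro V _ G D hfin hG U h6
  have hdel := h V G D hfin
  rcases Nat.eq_zero_or_pos (EI G U).card with he0 | hepos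
  · rw [he0]; simp
  have hn : 0 < U.card := by
    rcases Nat.eq_zero_or_pos U.card with h0 | h0
    · exfalso
      rw [Finset.card_eq_zero] at h0
      obtain ⟨e, he⟩ := Finset.card_pos.mp hepos
      rw [CL.mem_EI, h0, Finset.subset_empty] at he
      have := CL.card_toFinset he.1
      rw [he.2] at this
      simp at this
    · exact h0
  set n : ℝ := (U.card : ℝ) with hndef
  set e : ℝ := ((EI G U).card : ℝ) with hedef
  set x : ℝ := ((XI D U : ℕ) : ℝ) with hxdef
  have hnr : 0 < n := by rw [hndef]; exact_mod_cast hn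
  have her : 0 < e := by rw [hedef]; exact_mod_cast hepos
  have h6r : 6 * n ≤ e := by rw [hndef, hedef]; exact_mod_cast h6
  set p : ℝ := 6 * n / e with hp
  have hp0 : 0 < p := by positivity
  have hp1 : p ≤ 1 := by rw [hp, div_le_one her]; exact h6r
  have hmain : 2 * (p ^ 2 * e) ≤ 8 * (p * n) + p ^ 4 * x := by
    have h1 := CL.sum1 U p
    have h2 := CL.sum2 G U p
    have h3 := CL.sum3 hG U p
    have hle : ∑ T ∈ U.powerset, CL.wt U p T * (2 * ((EI G T).card : ℝ))
        ≤ ∑ T ∈ U.powerset, CL.wt U p T * (8 * (T.card : ℝ) + ((XI D T : ℕ) : ℝ)) := by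
      refine Finset.sum_le_sum ?_
      intro T _
      refine mul_le_mul_of_nonneg_left ?_ (CL.wt_nonneg U p hp0.le hp1 T)
      exact_mod_cast hdel T
    have e1 : ∑ T ∈ U.powerset, CL.wt U p T * (2 * ((EI G T).card : ℝ)) = 2 * (p ^ 2 * e) := by
      rw [← h2, Finset.mul_sum]
      refine Finset.sum_congr rfl ?_
      intro T _
      ring
    have e2 : ∑ T ∈ U.powerset, CL.wt U p T * (8 * (T.card : ℝ) + ((XI D T : ℕ) : ℝ))
        = 8 * (p * n) + p ^ 4 * x := by
      rw [← h1, ← h3, Finset.mul_sum, ← Finset.sum_add_distrib]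
      refine Finset.sum_congr rfl ?_
      intro T _
      ring
    rw [e1, e2] at hle
    exact hle
  have hpe : p * e = 6 * n := by rw [hp]; field_simp
  -- multiply by e^4 / p
  have h5 : 4 * n * e ^ 3 ≤ 216 * n ^ 3 * x := by
    have h6' : p * (2 * (p * e)) ≤ p * (8 * n + p ^ 3 * x) := by nlinarith [hmain]
    have h7 : 2 * (p * e) ≤ 8 * n + p ^ 3 * x := le_of_mul_le_mul_left h6' hp0
    rw [hpe] at h7
    have h8 : 4 * n ≤ p ^ 3 * x := by linarith
    have h9 : 4 * n * e ^ 3 ≤ p ^ 3 * x * e ^ 3 := mul_le_mul_of_nonneg_right h8 (by positivity)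
    have h10 : p ^ 3 * x * e ^ 3 = (p * e) ^ 3 * x := by ring
    rw [h10, hpe] at h9
    calc 4 * n * e ^ 3 ≤ (6 * n) ^ 3 * x := h9
      _ = 216 * n ^ 3 * x := by ring
  have hfinal : e ^ 3 ≤ 54 * n ^ 2 * x := by
    have h11 : (4 * n) * e ^ 3 ≤ (4 * n) * (54 * n ^ 2 * x) := by
      calc (4 * n) * e ^ 3 = 4 * n * e ^ 3 := by ring
        _ ≤ 216 * n ^ 3 * x := h5
        _ = (4 * n) * (54 * n ^ 2 * x) := by ring
    exact le_of_mul_le_mul_left h11 (by positivity)
  rw [hndef, hedef, hxdef] at hfinal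
  exact_mod_cast hfinal

end Pool.Agent.NH90.CN
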