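import Pool.Agent.NH90.CN.Stm

/-!
Project CN, part CNC: crossings of a good drawing of the cone.
-/

set_option autoImplicit false

open Set Classical
open Pool.Agent.Helper770.Crossing Pool.Agent.Helper770.Sep

namespace Pool.Agent.NH90.CN

namespace CNC

variable {V : Type}

theorem toC_injective : Function.Injective (toC : Sym2 V → Sym2 (Option V)) :=
  Sym2.map.injective (Option.some_injective V)

theorem arm_injective : Function.Injective (arm : V → Sym2 (Option V)) := by
  intro a b h
  unfold arm at h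
  rw [Sym2.eq_iff] at h
  rcases h with ⟨_, h⟩ | ⟨h, _⟩
  · exact Option.some_injective V h
  · exact absurd h (by simp)

theorem toC_ne_arm (e : Sym2 V) (y : V) : toC e ≠ arm y := by
  intro h
  have h1 : (none : Option V) ∈ toC e := by
    rw [h]; unfold arm; exact Sym2.mem_mk_left _ _
  unfold toC at h1
  rw [Sym2.mem_map] at h1
  obtain ⟨a, _, ha⟩ := h1
  exact absurd ha (by simp)

/-- all edges of the cone -/
def phi : Sym2 V ⊕ V → Sym2 (Option V) := Sum.elim toC arm

theorem phi_injective : Function.Injective (phi : Sym2 V ⊕ V → Sym2 (Option V)) := by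
  intro a b h
  rcases a with a | a <;> rcases b with b | b
  · exact congrArg Sum.inl (toC_injective h)
  · exact absurd h (toC_ne_arm a b)
  · exact absurd h.symm (toC_ne_arm b a)
  · exact congrArg Sum.inr (arm_injective h)

theorem mem_range {G : SimpleGraph V} {e : Sym2 (Option V)} (he : e ∈ (cone G).edgeSet) :
    e ∈ Set.range (phi : Sym2 V ⊕ V → Sym2 (Option V)) := by
  induction e using Sym2.ind with
  | _ x y =>
    rw [SimpleGraph.mem_edgeSet] at he
    obtain ⟨hne, h⟩ := he
    rcases h with h | h | ⟨u, v, h1, h2, _⟩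
    · subst h
      cases y with
      | none => exact absurd rfl hne
      | some b => exact ⟨Sum.inr b, rfl⟩
    · subst h
      cases x with
      | none => exact absurd rfl hne
      | some a => exact ⟨Sum.inr a, Sym2.eq_swap⟩
    · subst h1; subst h2
      exact ⟨Sum.inl s(u, v), by simp [phi, toC]⟩

theorem split [Fintype V] [Fintype (Sym2 (Option V))] {G : SimpleGraph V}
    (F : Sym2 (Option V) → ℕ)
    (hF : ∀ e, e ∉ (cone G).edgeSet → F e = 0) :
    ∑ e, F e = ∑ e : Sym2 V, F (toC e) + ∑ y : V, F (arm y) := by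
  rw [← Fintype.sum_of_injective (phi : Sym2 V ⊕ V → Sym2 (Option V)) phi_injective
    (fun x => F (phi x)) F (fun e he => hF e (fun h => he (mem_range h))) (fun x => rfl)]
  rw [Fintype.sum_sum_type]
  rfl

theorem DX_left {G : SimpleGraph V} (D : Drawing G) {e : Sym2 V} (f : Sym2 V)
    (he : e ∉ G.edgeSet) : DX D e f = 0 := by
  unfold DX
  rw [if_neg (fun h => he h.1)]

theorem DX_right {G : SimpleGraph V} (D : Drawing G) (e : Sym2 V) {f : Sym2 V}
    (hf : f ∉ G.edgeSet) : DX D e f = 0 := by
  unfold DX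
  rw [if_neg (fun h => hf h.2.1)]

theorem DX_comm {G : SimpleGraph V} (D : Drawing G) (e f : Sym2 V) : DX D e f = DX D f e := by
  unfold DX
  by_cases h : e ∈ G.edgeSet ∧ f ∈ G.edgeSet ∧ e ≠ f
  · rw [if_pos h, if_pos ⟨h.2.1, h.1, h.2.2.symm⟩, Set.inter_comm]
  · rw [if_neg h, if_neg (fun h' => h ⟨h'.2.1, h'.1, h'.2.2.symm⟩)]

theorem DX_arm {G : SimpleGraph V} (D : Drawing (cone G)) (hD : Good D) (y z : V) :
    DX D (arm y) (arm z) = 0 := by
  unfold DX
  by_cases h : arm y ∈ (cone G).edgeSet ∧ arm z ∈ (cone G).edgeSet ∧ arm y ≠ arm z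
  · rw [if_pos h, hD _ h.1 _ h.2.1 h.2.2 none (Sym2.mem_mk_left _ _) (Sym2.mem_mk_left _ _),
      Set.ncard_empty]
  · rw [if_neg h]

end CNC

open CNC in
/-- counting crossings of a good drawing of the cone -/
theorem t_CNC (h1 : S_CNT) : S_CNC := by
  intro V _ G D hfin hD
  rw [(h1 (Option V) (cone G) D).2 hfin]
  rw [split (G := G) (fun e => ∑ f, DX D e f)
    (fun e he => Finset.sum_eq_zero fun f _ => DX_left D f he)]
  have e1 : ∀ e : Sym2 V, ∑ f, DX D (toC e) f =
      ∑ f : Sym2 V, DX D (toC e) (toC f) + ∑ y : V, DX D (arm y) (toC e) := by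
    intro e
    rw [split (G := G) (fun f => DX D (toC e) f) (fun f hf => DX_right D _ hf)]
    congr 1
    exact Finset.sum_congr rfl fun y _ => DX_comm D _ _
  have e2 : ∀ y : V, ∑ f, DX D (arm y) f = Cc D y := by
    intro y
    rw [split (G := G) (fun f => DX D (arm y) f) (fun f hf => DX_right D _ hf)]
    rw [Finset.sum_eq_zero (s := Finset.univ) (f := fun z : V => DX D (arm y) (arm z))
      (fun z _ => DX_arm D hD y z), add_zero]
    rfl
  simp only [e1, e2]
  rw [Finset.sum_add_distrib, Finset.sum_comm (f := fun (e : Sym2 V) (y : V) => DX D (arm y) (toC e))]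
  have e3 : ∑ y : V, ∑ e : Sym2 V, DX D (arm y) (toC e) = ∑ y : V, Cc D y := rfl
  rw [e3]
  unfold Kk
  ring

end Pool.Agent.NH90.CN
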