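import Pool.Agent.NH90.CN.Stm

set_option autoImplicit false

open Set Classical
open Pool.Agent.Helper770.Crossing Pool.Agent.Helper770.Sep

namespace Pool.Agent.NH90.CN

namespace CNT

variable {V : Type} {G : SimpleGraph V}

/-- crossing points of two different edges -/
def X (D : Drawing G) (e f : Sym2 V) : Set ℂ :=
  {z | e ∈ G.edgeSet ∧ f ∈ G.edgeSet ∧ e ≠ f ∧
    z ∈ D.arc e '' Ioo (0 : ℝ) 1 ∩ D.arc f '' Ioo (0 : ℝ) 1}

lemma X_eq (D : Drawing G) {e f : Sym2 V} (he : e ∈ G.edgeSet) (hf : f ∈ G.edgeSet)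
    (hef : e ≠ f) : X D e f = D.arc e '' Ioo (0 : ℝ) 1 ∩ D.arc f '' Ioo (0 : ℝ) 1 := by
  ext z
  exact ⟨fun h => h.2.2.2, fun h => ⟨he, hf, hef, h⟩⟩

lemma X_symm (D : Drawing G) (e f : Sym2 V) : X D e f = X D f e := by
  ext z
  exact ⟨fun h => ⟨h.2.1, h.1, h.2.2.1.symm, h.2.2.2.2, h.2.2.2.1⟩,
    fun h => ⟨h.2.1, h.1, h.2.2.1.symm, h.2.2.2.2, h.2.2.2.1⟩⟩

lemma DX_eq (D : Drawing G) (e f : Sym2 V) : DX D e f = (X D e f).ncard := by
  unfold DX
  split_ifs with h
  · rw [X_eq D h.1 h.2.1 h.2.2]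
  · have : X D e f = ∅ := by
      ext z
      simp only [mem_empty_iff_false, iff_false]
      intro hz
      exact h ⟨hz.1, hz.2.1, hz.2.2.1⟩
    rw [this, ncard_empty]

lemma mem_crossings (D : Drawing G) (x : Sym2 (Sym2 V) × ℂ) :
    x ∈ D.crossings ↔ ∃ e f, x.1 = s(e, f) ∧ x.2 ∈ X D e f := by
  constructor
  · rintro ⟨e, he, f, hf, hef, h1, h2, h3⟩
    exact ⟨e, f, h1, he, hf, hef, h2, h3⟩
  · rintro ⟨e, f, h1, he, hf, hef, h2, h3⟩
    exact ⟨e, he, f, hf, hef, h1, h2, h3⟩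

lemma finite_iff [Fintype V] (D : Drawing G) :
    D.crossings.Finite ↔ ∀ e f, (X D e f).Finite := by
  constructor
  · intro h e f
    have h1 : (fun z => (s(e, f), z)) '' X D e f ⊆ D.crossings := by
      rintro _ ⟨z, hz, rfl⟩
      exact (mem_crossings D _).2 ⟨e, f, rfl, hz⟩
    exact (h.subset h1).of_finite_image (fun a _ b _ hab => (Prod.mk.inj hab).2)
  · intro h
    have h1 : D.crossings ⊆ ⋃ e : Sym2 V, ⋃ f : Sym2 V, (fun z => (s(e, f), z)) '' X D e f := by
      intro x hx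
      obtain ⟨e, f, h1, h2⟩ := (mem_crossings D x).1 hx
      simp only [mem_iUnion]
      refine ⟨e, f, x.2, h2, ?_⟩
      rw [← h1]
    exact (finite_iUnion fun e => finite_iUnion fun f => (h e f).image _).subset h1

end CNT

open CNT in
theorem t_CNT : S_CNT := by
  intro V _ G D
  refine ⟨?_, ?_⟩
  · rw [finite_iff]
    constructor
    · intro h e he f hf hef
      rw [← X_eq D he hf hef]
      exact h e f
    · intro h e f
      by_cases hc : e ∈ G.edgeSet ∧ f ∈ G.edgeSet ∧ e ≠ f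
      · rw [X_eq D hc.1 hc.2.1 hc.2.2]
        exact h e hc.1 f hc.2.1 hc.2.2
      · have : X D e f = ∅ := by
          ext z
          simp only [mem_empty_iff_false, iff_false]
          intro hz
          exact hc ⟨hz.1, hz.2.1, hz.2.2.1⟩
        rw [this]
        exact finite_empty
  · intro hfin
    have hX := (finite_iff D).1 hfin
    set T : Finset (Σ _ : Sym2 V × Sym2 V, ℂ) :=
      Finset.univ.sigma (fun p : Sym2 V × Sym2 V => (hX p.1 p.2).toFinset) with hT
    have hTc : T.card = ∑ e : Sym2 V, ∑ f : Sym2 V, DX D e f := by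
      rw [hT, Finset.card_sigma, Fintype.sum_prod_type]
      refine Finset.sum_congr rfl fun e _ => Finset.sum_congr rfl fun f _ => ?_
      rw [DX_eq, ncard_eq_toFinset_card _ (hX e f)]
    have hmemT : ∀ t, t ∈ T ↔ t.2 ∈ X D t.1.1 t.1.2 := by
      intro t
      rw [hT, Finset.mem_sigma]
      simp
    have hmap : ∀ t ∈ T, ((s(t.1.1, t.1.2), t.2) : Sym2 (Sym2 V) × ℂ) ∈ hfin.toFinset := by
      intro t ht
      rw [Set.Finite.mem_toFinset]
      exact (mem_crossings D _).2 ⟨t.1.1, t.1.2, rfl, (hmemT t).1 ht⟩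
    rw [← hTc, Finset.card_eq_sum_card_fiberwise hmap, ncard_eq_toFinset_card _ hfin,
      mul_comm]
    refine (Finset.sum_const_nat fun x hx => ?_).symm
    rw [Set.Finite.mem_toFinset] at hx
    obtain ⟨e, f, h1, h2⟩ := (mem_crossings D x).1 hx
    obtain ⟨y, z⟩ := x
    simp only at h1 h2
    subst h1
    have hef : e ≠ f := h2.2.2.1
    have h3 : T.filter (fun t => ((s(t.1.1, t.1.2), t.2) : Sym2 (Sym2 V) × ℂ) = (s(e, f), z)) =
        {⟨(e, f), z⟩, ⟨(f, e), z⟩} := by
      ext t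
      rw [Finset.mem_filter, Finset.mem_insert, Finset.mem_singleton, hmemT]
      constructor
      · rintro ⟨-, h⟩
        obtain ⟨⟨a, b⟩, w⟩ := t
        have h4 := (Prod.mk.inj h).1
        have h5 : w = z := (Prod.mk.inj h).2
        subst h5
        simp only at h4
        rw [Sym2.eq_iff] at h4
        rcases h4 with ⟨rfl, rfl⟩ | ⟨rfl, rfl⟩
        · exact Or.inl rfl
        · exact Or.inr rfl
      · rintro (rfl | rfl)
        · exact ⟨h2, rfl⟩
        · refine ⟨?_, ?_⟩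
          · show z ∈ X D f e
            rw [X_symm]
            exact h2
          · show ((s(f, e), z) : Sym2 (Sym2 V) × ℂ) = (s(e, f), z)
            rw [Sym2.eq_swap]
    rw [h3, Finset.card_pair]
    intro h
    have h6 := congrArg (fun t : (Σ _ : Sym2 V × Sym2 V, ℂ) => t.1.1) h
    exact hef h6

end Pool.Agent.NH90.CN
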