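import Mathlib
import Pool.Agent.NH90.CN.Stm
import Pool.Agent.Helper770.Straight
import Pool.Agent.Helper770.Levels

set_option autoImplicit false

open Set Classical
open Pool.Agent.Helper770.Crossing Pool.Agent.Helper770.Sep
open Pool.Agent.Helper770.Straight (pull)
open Pool.Agent.Helper770.Levels (restrict_crossings_subset)

namespace Pool.Agent.NH90.CN

namespace DEL

theorem mem_eF {V : Type} [Fintype V] {G : SimpleGraph V} {e : Sym2 V} :
    e ∈ eF G ↔ e ∈ G.edgeSet := by
  unfold eF
  simp

theorem DX_comm {V : Type} {G : SimpleGraph V} (D : Drawing G) (e f : Sym2 V) :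
    DX D e f = DX D f e := by
  unfold DX
  by_cases h : e ∈ G.edgeSet ∧ f ∈ G.edgeSet ∧ e ≠ f
  · rw [if_pos h, if_pos ⟨h.2.1, h.1, h.2.2.symm⟩, Set.inter_comm]
  · rw [if_neg h, if_neg (fun h' => h ⟨h'.2.1, h'.1, h'.2.2.symm⟩)]

theorem DX_restrict {V : Type} {G H : SimpleGraph V} (D : Drawing G) (h : H ≤ G)
    {e f : Sym2 V} (he : e ∈ H.edgeSet) (hf : f ∈ H.edgeSet) :
    DX (Pool.Agent.Helper770.Levels.restrict D h) e f = DX D e f := by
  have hsub : H.edgeSet ⊆ G.edgeSet := SimpleGraph.edgeSet_mono h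
  unfold DX
  by_cases hne : e = f
  · rw [if_neg (fun h' => h'.2.2 hne), if_neg (fun h' => h'.2.2 hne)]
  · rw [if_pos ⟨he, hf, hne⟩, if_pos ⟨hsub he, hsub hf, hne⟩]
    rfl

theorem genDel (h0 : S_CNT) (h : S_PLN) (V : Type) [Fintype V] : ∀ (k : ℕ) (G : SimpleGraph V)
    (D : Drawing G), (eF G).card = k → D.crossings.Finite →
    2 * (eF G).card ≤ 8 * Fintype.card V + ∑ e ∈ eF G, ∑ f ∈ eF G, DX D e f := by
  intro k
  induction k using Nat.strong_induction_on with
  | _ k ih =>
    intro G D hk hfin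
    by_cases hex : ∃ e ∈ eF G, ∃ f ∈ eF G, DX D e f ≠ 0
    · obtain ⟨e, he, f, hf, hDX⟩ := hex
      have hne : e ≠ f := by
        intro hef
        apply hDX
        unfold DX
        rw [if_neg (fun h' => h'.2.2 hef)]
      have hle : G.deleteEdges {e} ≤ G := SimpleGraph.deleteEdges_le _
      have heF : eF (G.deleteEdges {e}) = (eF G).erase e := by
        ext g
        rw [mem_eF, Finset.mem_erase, mem_eF, SimpleGraph.edgeSet_deleteEdges]
        simp only [Set.mem_diff, Set.mem_singleton_iff]
        tauto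
      have hcard : (eF (G.deleteEdges {e})).card + 1 = (eF G).card := by
        rw [heF, Finset.card_erase_add_one he]
      have hfin' : (Pool.Agent.Helper770.Levels.restrict D hle).crossings.Finite :=
        hfin.subset (restrict_crossings_subset D hle)
      have hih := ih (eF (G.deleteEdges {e})).card (by omega) (G.deleteEdges {e})
        (Pool.Agent.Helper770.Levels.restrict D hle) rfl hfin'
      have hsum : ∑ a ∈ eF (G.deleteEdges {e}), ∑ b ∈ eF (G.deleteEdges {e}),
          DX (Pool.Agent.Helper770.Levels.restrict D hle) a b = ∑ a ∈ (eF G).erase e, ∑ b ∈ (eF G).erase e, DX D a b := by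
        rw [← heF]
        refine Finset.sum_congr rfl ?_
        intro a ha
        refine Finset.sum_congr rfl ?_
        intro b hb
        exact DX_restrict D hle (mem_eF.mp ha) (mem_eF.mp hb)
      rw [hsum] at hih
      have hf' : f ∈ (eF G).erase e := Finset.mem_erase.mpr ⟨hne.symm, hf⟩
      have hbig : ∑ a ∈ (eF G).erase e, ∑ b ∈ (eF G).erase e, DX D a b + 2
          ≤ ∑ a ∈ eF G, ∑ b ∈ eF G, DX D a b := by
        rw [← Finset.add_sum_erase (eF G) (fun a => ∑ b ∈ eF G, DX D a b) he]
        have h1 : ∑ a ∈ (eF G).erase e, ∑ b ∈ eF G, DX D a b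
            = ∑ a ∈ (eF G).erase e, (DX D a e + ∑ b ∈ (eF G).erase e, DX D a b) := by
          refine Finset.sum_congr rfl ?_
          intro a _
          rw [Finset.add_sum_erase (eF G) (fun b => DX D a b) he]
        rw [h1, Finset.sum_add_distrib]
        have h2 : DX D f e ≤ ∑ a ∈ (eF G).erase e, DX D a e :=
          Finset.single_le_sum (f := fun a => DX D a e) (fun _ _ => Nat.zero_le _) hf'
        have h3 : DX D e f ≤ ∑ b ∈ eF G, DX D e b :=
          Finset.single_le_sum (f := fun b => DX D e b) (fun _ _ => Nat.zero_le _) hf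
        have h4 : DX D f e = DX D e f := DX_comm D f e
        have h5 : 1 ≤ DX D e f := Nat.one_le_iff_ne_zero.mpr hDX
        omega
      omega
    · push Not at hex
      have hcr : D.crossings = ∅ := by
        rw [Set.eq_empty_iff_forall_notMem]
        rintro x ⟨e, he, f, hf, hne, -, h1, h2⟩
        have hz := hex e (mem_eF.mpr he) f (mem_eF.mpr hf)
        unfold DX at hz
        rw [if_pos ⟨he, hf, hne⟩] at hz
        have hfi := ((h0 V G D).1.mp hfin) e he f hf hne
        rw [Set.ncard_eq_zero hfi] at hz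
        have : x.2 ∈ D.arc e '' Ioo (0 : ℝ) 1 ∩ D.arc f '' Ioo (0 : ℝ) 1 := ⟨h1, h2⟩
        rw [hz] at this
        exact this
      have := h V G D hcr
      omega

end DEL

theorem t_DEL (h0 : S_CNT) (h : S_PLN) : S_DEL := by
  intro V _ G D hfin U
  set F : {v // v ∈ U} ↪ V := Function.Embedding.subtype (fun v => v ∈ U) with hF
  have hedge : ∀ e : Sym2 {v // v ∈ U}, e ∈ (G.comap F).edgeSet ↔ e.map F ∈ G.edgeSet := by
    intro e
    induction e with
    | _ x y => exact Iff.rfl
  have hinj : Function.Injective (Sym2.map F) := Sym2.map.injective F.injective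
  have hDX : ∀ e f : Sym2 {v // v ∈ U}, DX (pull D F) e f = DX D (e.map F) (f.map F) := by
    intro e f
    unfold DX
    by_cases hc : e ∈ (G.comap F).edgeSet ∧ f ∈ (G.comap F).edgeSet ∧ e ≠ f
    · rw [if_pos hc, if_pos ⟨(hedge e).mp hc.1, (hedge f).mp hc.2.1, fun h' => hc.2.2 (hinj h')⟩]
      rfl
    · rw [if_neg hc, if_neg]
      rintro ⟨h1, h2, h3⟩
      exact hc ⟨(hedge e).mpr h1, (hedge f).mpr h2, fun h' => h3 (by rw [h'])⟩
  have hfin' : (pull D F).crossings.Finite := by
    rw [(h0 _ _ (pull D F)).1]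
    intro e he f hf hne
    exact ((h0 V G D).1.mp hfin) (e.map F) ((hedge e).mp he) (f.map F) ((hedge f).mp hf)
      (fun h' => hne (hinj h'))
  have himg : EI G U = (eF (G.comap F)).image (Sym2.map F) := by
    ext e
    unfold EI
    rw [Finset.mem_filter, Finset.mem_image, DEL.mem_eF]
    constructor
    · rintro ⟨h1, h2⟩
      induction e with
      | _ x y =>
        have hx : x ∈ U := h2 x (Sym2.mem_mk_left x y)
        have hy : y ∈ U := h2 y (Sym2.mem_mk_right x y)
        refine ⟨s(⟨x, hx⟩, ⟨y, hy⟩), ?_, rfl⟩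
        rw [DEL.mem_eF, hedge]
        exact h1
    · rintro ⟨a, ha, rfl⟩
      rw [DEL.mem_eF, hedge] at ha
      refine ⟨ha, ?_⟩
      intro v hv
      rw [Sym2.mem_map] at hv
      obtain ⟨w, _, rfl⟩ := hv
      exact w.2
  have hcard : (EI G U).card = (eF (G.comap F)).card := by
    rw [himg, Finset.card_image_of_injective _ hinj]
  have hsum : XI D U = ∑ e ∈ eF (G.comap F), ∑ f ∈ eF (G.comap F), DX (pull D F) e f := by
    unfold XI
    rw [himg, Finset.sum_image (fun a _ b _ hab => hinj hab)]
    refine Finset.sum_congr rfl ?_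
    intro a _
    rw [Finset.sum_image (fun a _ b _ hab => hinj hab)]
    refine Finset.sum_congr rfl ?_
    intro b _
    rw [hDX]
  have := DEL.genDel h0 h {v // v ∈ U} _ (G.comap F) (pull D F) rfl hfin'
  rw [hcard, hsum]
  rw [Fintype.card_coe] at this
  exact this

end Pool.Agent.NH90.CN
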