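import Pool.Agent.NH90.CN.Stm

set_option autoImplicit false

open Set Classical
open Pool.Agent.Helper770.Crossing Pool.Agent.Helper770.Sep

namespace Pool.Agent.NH90.CN

section
variable {V : Type} [Fintype V] {G : SimpleGraph V}

lemma mem_eF {e : Sym2 V} : e ∈ eF G ↔ e ∈ G.edgeSet := by simp [eF]

lemma mem_EI {U : Finset V} {e : Sym2 V} : e ∈ EI G U ↔ e ∈ G.edgeSet ∧ ∀ v ∈ e, v ∈ U := by
  simp [EI, mem_eF]

/-- layer-cake summation -/
lemma layer {ι : Type} (s : Finset ι) (f : ι → ℕ) (B : ℕ) (hB : ∀ i ∈ s, f i ≤ B) :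
    ∑ i ∈ s, f i = ∑ n ∈ Finset.range B, (s.filter (fun i => n + 1 ≤ f i)).card := by
  have h1 : ∀ i ∈ s, f i = ∑ n ∈ Finset.range B, if n + 1 ≤ f i then 1 else 0 := by
    intro i hi
    rw [← Finset.card_filter]
    have : (Finset.range B).filter (fun n => n + 1 ≤ f i) = Finset.range (f i) := by
      ext n
      simp only [Finset.mem_filter, Finset.mem_range]
      have := hB i hi
      omega
    rw [this, Finset.card_range]
  rw [Finset.sum_congr rfl h1, Finset.sum_comm]
  refine Finset.sum_congr rfl fun n _ => ?_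
  rw [Finset.card_filter]

/-- crossings inside `U` are seen from the vertices of `U` -/
lemma XI_le (D : Drawing (cone G)) (D' : Drawing G) (hG : Good D')
    (hD : ∀ e f, DX D' e f = DX D (toC e) (toC f)) (U : Finset V) :
    2 * XI D' U ≤ ∑ x ∈ U, Rr D x := by
  have key : ∀ e ∈ EI G U, ∀ f ∈ EI G U,
      2 * DX D' e f ≤ ∑ x ∈ U, if x ∈ e ∧ x ∉ f then DX D' e f else 0 := by
    intro e he f hf
    rw [mem_EI] at he hf
    by_cases h0 : DX D' e f = 0
    · rw [h0]; simp
    have hne : e ≠ f := by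
      rintro rfl
      exact h0 (by simp [DX])
    have hno : ∀ v, v ∈ e → v ∉ f := by
      intro v hv hv'
      apply h0
      rw [DX]
      split_ifs
      · rw [hG e he.1 f hf.1 hne v hv hv', ncard_empty]
      · rfl
    induction e with
    | _ a b =>
      have hab : a ≠ b := by
        have := he.1
        rw [SimpleGraph.mem_edgeSet] at this
        exact this.ne
      have ha : a ∈ U := he.2 a (Sym2.mem_mk_left a b)
      have hb : b ∈ U := he.2 b (Sym2.mem_mk_right a b)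
      have hsub : ({a, b} : Finset V) ⊆ U := by
        intro x hx
        rw [Finset.mem_insert, Finset.mem_singleton] at hx
        rcases hx with rfl | rfl <;> assumption
      refine le_trans ?_ (Finset.sum_le_sum_of_subset hsub)
      rw [Finset.sum_pair hab, if_pos ⟨Sym2.mem_mk_left a b, hno a (Sym2.mem_mk_left a b)⟩,
        if_pos ⟨Sym2.mem_mk_right a b, hno b (Sym2.mem_mk_right a b)⟩, two_mul]
  unfold XI Rr
  rw [Finset.mul_sum]
  calc ∑ e ∈ EI G U, 2 * ∑ f ∈ EI G U, DX D' e f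
      ≤ ∑ e ∈ EI G U, ∑ f ∈ EI G U, ∑ x ∈ U, (if x ∈ e ∧ x ∉ f then DX D' e f else 0) := by
        refine Finset.sum_le_sum fun e he => ?_
        rw [Finset.mul_sum]
        exact Finset.sum_le_sum fun f hf => key e he f hf
    _ = ∑ x ∈ U, ∑ e ∈ EI G U, ∑ f ∈ EI G U, (if x ∈ e ∧ x ∉ f then DX D' e f else 0) := by
        rw [Finset.sum_comm]
        rw [Finset.sum_congr rfl fun f _ => Finset.sum_comm]
        rw [Finset.sum_comm]
        refine Finset.sum_congr rfl fun x _ => ?_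
        rw [Finset.sum_comm]
    _ ≤ ∑ x ∈ U, ∑ e : Sym2 V, ∑ f : Sym2 V,
          (if x ∈ e ∧ x ∉ f then DX D (toC e) (toC f) else 0) := by
        refine Finset.sum_le_sum fun x _ => ?_
        simp only [hD]
        refine le_trans ?_ (Finset.sum_le_sum_of_subset (Finset.subset_univ (EI G U)))
        refine Finset.sum_le_sum fun e _ => ?_
        exact Finset.sum_le_sum_of_subset (Finset.subset_univ _)

end

/-- The bound for the crossing number in terms of the increase `t` under coning. -/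
theorem t_FIN (h0 : S_CNT) (h1 : S_CNC) (h2 : S_GOOD) (h3 : S_AVG) (h4 : S_REL) (h5 : S_CL)
    (V : Type) [Fintype V] (G : SimpleGraph V) :
    ∃ t : ℕ, crossingNumber (cone G) = crossingNumber G + t ∧
      (crossingNumber G : ℝ) ≤ max 6 (3 * (t : ℝ) ^ ((1 : ℝ) / 3)) * t := by
  obtain ⟨D, hfin, hgood, hopt⟩ := h2 (Option V) (cone G)
  obtain ⟨hrel, D', hfin', hgood', hDX⟩ := h4 V G D hfin hgood
  have hcnc := h1 V G D hfin hgood
  set k := crossingNumber G with hk
  set C := ∑ y : V, Cc D y with hC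
  have hk2 : 2 * k ≤ Kk D := by
    have e1 := (h0 V G D').2 hfin'
    have e2 : k ≤ D'.crossings.ncard := Nat.sInf_le ⟨D', hfin', rfl⟩
    have e3 : ∑ e : Sym2 V, ∑ f : Sym2 V, DX D' e f = Kk D := by
      unfold Kk
      simp only [hDX]
    omega
  obtain ⟨t, ht⟩ : ∃ t, D.crossings.ncard = k + t := ⟨D.crossings.ncard - k, by omega⟩
  refine ⟨t, by rw [← hopt, ht], ?_⟩
  have hCt : C ≤ t := by omega
  have hR : ∀ x, Rr D x ≤ t := by
    intro x
    have := hrel x
    omega
  -- controllers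
  have hch : ∀ e : Sym2 V, ∃ c o : V, s(c, o) = e ∧ Cc D o ≤ Cc D c := by
    intro e
    induction e with
    | _ a b =>
      rcases le_total (Cc D a) (Cc D b) with h | h
      · exact ⟨b, a, Sym2.eq_swap, h⟩
      · exact ⟨a, b, rfl, h⟩
  choose c o hco hle using hch
  have havg := h3 V G D c o hfin hgood (fun e _ => hco e)
  set SS := ∑ e ∈ eF G, Cc D (o e) with hSS
  set M : ℝ := max 6 (3 * (t : ℝ) ^ ((1 : ℝ) / 3)) with hM
  have hM6 : (6 : ℝ) ≤ M := le_max_left _ _
  have hW : ∀ U : Finset V, ((EI G U).card : ℝ) ≤ M * U.card := by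
    intro U
    by_cases h6 : 6 * U.card ≤ (EI G U).card
    · have e1 := h5 V G D' hfin' hgood' U h6
      have e2 := XI_le D D' hgood' hDX U
      have e3 : ∑ x ∈ U, Rr D x ≤ U.card * t := by
        calc ∑ x ∈ U, Rr D x ≤ ∑ _x ∈ U, t := Finset.sum_le_sum fun x _ => hR x
          _ = U.card * t := by simp
      have e4 : (EI G U).card ^ 3 ≤ 27 * t * U.card ^ 3 := by
        calc (EI G U).card ^ 3 ≤ 54 * U.card ^ 2 * XI D' U := e1
          _ = 27 * U.card ^ 2 * (2 * XI D' U) := by ring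
          _ ≤ 27 * U.card ^ 2 * (U.card * t) := Nat.mul_le_mul_left _ (e2.trans e3)
          _ = 27 * t * U.card ^ 3 := by ring
      have e5 : (((EI G U).card : ℝ)) ^ 3 ≤ (3 * (t : ℝ) ^ ((1 : ℝ) / 3) * U.card) ^ 3 := by
        have e6 : ((t : ℝ) ^ ((1 : ℝ) / 3)) ^ 3 = t := by
          rw [← Real.rpow_natCast, ← Real.rpow_mul (by positivity)]
          norm_num
        rw [mul_pow, mul_pow, e6]
        have : ((EI G U).card : ℝ) ^ 3 ≤ 27 * t * (U.card : ℝ) ^ 3 := by exact_mod_cast e4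
        calc ((EI G U).card : ℝ) ^ 3 ≤ 27 * t * (U.card : ℝ) ^ 3 := this
          _ = 3 ^ 3 * (t : ℝ) * (U.card : ℝ) ^ 3 := by norm_num
      have e7 := (pow_le_pow_iff_left₀ (by positivity) (by positivity) (by norm_num)).1 e5
      refine e7.trans ?_
      exact mul_le_mul_of_nonneg_right (le_max_right _ _) (by positivity)
    · have : ((EI G U).card : ℝ) ≤ 6 * U.card := by exact_mod_cast (not_le.1 h6).le
      exact this.trans (mul_le_mul_of_nonneg_right hM6 (by positivity))
  -- layer cake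
  obtain ⟨B, hB⟩ : ∃ B, ∀ v : V, Cc D v ≤ B := ⟨C, fun v =>
    Finset.single_le_sum (f := fun y => Cc D y) (fun _ _ => Nat.zero_le _) (Finset.mem_univ v)⟩
  have hl1 := layer (Finset.univ : Finset V) (fun v => Cc D v) B (fun v _ => hB v)
  have hl2 := layer (eF G) (fun e => Cc D (o e)) B (fun e _ => hB _)
  have hsum : (SS : ℝ) ≤ M * C := by
    have e1 : (SS : ℝ) = ∑ n ∈ Finset.range B,
        (((eF G).filter (fun e => n + 1 ≤ Cc D (o e))).card : ℝ) := by
      rw [hSS, hl2]; push_cast; rfl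
    have e2 : (C : ℝ) = ∑ n ∈ Finset.range B,
        ((Finset.univ.filter (fun v : V => n + 1 ≤ Cc D v)).card : ℝ) := by
      rw [hC, hl1]; push_cast; rfl
    rw [e1, e2, Finset.mul_sum]
    refine Finset.sum_le_sum fun n _ => ?_
    have hset : (eF G).filter (fun e => n + 1 ≤ Cc D (o e)) =
        EI G (Finset.univ.filter (fun v => n + 1 ≤ Cc D v)) := by
      ext e
      simp only [Finset.mem_filter, mem_eF, mem_EI, Finset.mem_univ, true_and]
      constructor
      · rintro ⟨he, hn⟩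
        refine ⟨he, fun v hv => ?_⟩
        rw [← hco e, Sym2.mem_iff] at hv
        rcases hv with rfl | rfl
        · exact hn.trans (hle e)
        · exact hn
      · rintro ⟨he, hn⟩
        have hmem : o e ∈ s(c e, o e) := Sym2.mem_mk_right _ _
        rw [hco e] at hmem
        exact ⟨he, hn _ hmem⟩
    rw [hset]
    exact hW _
  have hnat : k + C ≤ t + SS := by omega
  have hreal : (k : ℝ) + C ≤ t + SS := by exact_mod_cast hnat
  have hCt' : (C : ℝ) ≤ t := by exact_mod_cast hCt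
  have hM1 : (0 : ℝ) ≤ M - 1 := by linarith
  have : (M - 1) * (C : ℝ) ≤ (M - 1) * (t : ℝ) := mul_le_mul_of_nonneg_left hCt' hM1
  nlinarith [this, hsum, hreal]

/-- consequence for graphs of crossing number at least 43 -/
theorem order_of_magnitude {k t : ℕ} (h : (k : ℝ) ≤ max 6 (3 * (t : ℝ) ^ ((1 : ℝ) / 3)) * t)
    (hk : 43 ≤ k) : ((k : ℝ) / 3) ^ ((3 : ℝ) / 4) ≤ t := by
  have ht0 : (0 : ℝ) ≤ t := by positivity
  have h8 : 8 ≤ t := by
    by_contra hcon
    have ht7 : (t : ℝ) ≤ 7 := by exact_mod_cast (by omega : t ≤ 7)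
    have h2 : (t : ℝ) ^ ((1 : ℝ) / 3) ≤ 2 := by
      have : (8 : ℝ) ^ ((1 : ℝ) / 3) = 2 := by
        rw [show (8 : ℝ) = 2 ^ (3 : ℝ) by norm_num, ← Real.rpow_mul (by norm_num)]; norm_num
      rw [← this]
      exact Real.rpow_le_rpow ht0 (by linarith) (by norm_num)
    have h3 : max 6 (3 * (t : ℝ) ^ ((1 : ℝ) / 3)) = 6 := max_eq_left (by linarith)
    rw [h3] at h
    have : (43 : ℝ) ≤ k := by exact_mod_cast hk
    linarith
  have h8' : (8 : ℝ) ≤ t := by exact_mod_cast h8
  have h2 : 2 ≤ (t : ℝ) ^ ((1 : ℝ) / 3) := by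
    have : (8 : ℝ) ^ ((1 : ℝ) / 3) = 2 := by
      rw [show (8 : ℝ) = 2 ^ (3 : ℝ) by norm_num, ← Real.rpow_mul (by norm_num)]; norm_num
    rw [← this]
    exact Real.rpow_le_rpow (by norm_num) h8' (by norm_num)
  rw [max_eq_right (by linarith)] at h
  have h3 : (k : ℝ) / 3 ≤ (t : ℝ) ^ ((4 : ℝ) / 3) := by
    have : (t : ℝ) ^ ((4 : ℝ) / 3) = (t : ℝ) ^ ((1 : ℝ) / 3) * t := by
      rw [show (4 : ℝ) / 3 = 1 / 3 + 1 by norm_num, Real.rpow_add (by linarith), Real.rpow_one]
    rw [this]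
    linarith
  calc ((k : ℝ) / 3) ^ ((3 : ℝ) / 4) ≤ ((t : ℝ) ^ ((4 : ℝ) / 3)) ^ ((3 : ℝ) / 4) :=
        Real.rpow_le_rpow (by positivity) h3 (by norm_num)
    _ = t := by rw [← Real.rpow_mul ht0]; norm_num

end Pool.Agent.NH90.CN
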