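import Pool.Agent.NH90.CN.Stm
import Pool.Agent.Helper770.Exist

/-!
# CN-12: existence of a good optimal drawing
-/

set_option autoImplicit false

open Set Classical
open Pool.Agent.Helper770.Crossing Pool.Agent.Helper770.Sep

namespace Pool.Agent.NH90.CN

namespace GOOD

theorem segL_two {l : List ℂ} (hl : l.Nodup) {s : Sym2 ℂ} (hs : s ∈ segL l) :
    ∃ x y : ℂ, s = s(x, y) ∧ x ≠ y ∧ x ∈ l ∧ y ∈ l := by
  induction l with
  | nil => simp [segL] at hs
  | cons a l ih =>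
    cases l with
    | nil => simp [segL] at hs
    | cons b l =>
      simp only [segL, List.mem_cons] at hs
      rcases hs with hs | hs
      · refine ⟨a, b, hs, ?_, by simp, by simp⟩
        rintro rfl
        simp at hl
      · obtain ⟨x, y, h1, h2, h3, h4⟩ := ih (List.nodup_cons.1 hl).2 hs
        exact ⟨x, y, h1, h2, List.mem_cons_of_mem _ h3, List.mem_cons_of_mem _ h4⟩

section

variable {V I : Type} {A : Finset I} {hd tl : I → V} {loc : V → ℂ} {W : I → List ℂ}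

theorem lb_en (h : Lb A hd tl loc W) {i : I} (hi : i ∈ A) {u : V} (hu : u ∈ s(hd i, tl i)) :
    En (W i) (loc u) := by
  rw [Sym2.mem_iff] at hu
  rcases hu with rfl | rfl
  · exact Or.inl (h.head i hi)
  · exact Or.inr (h.last i hi)

theorem en_lb (h : Lb A hd tl loc W) {i : I} (hi : i ∈ A) {q : ℂ} (hq : En (W i) q) :
    ∃ u ∈ s(hd i, tl i), loc u = q := by
  rcases hq with hq | hq
  · rw [h.head i hi] at hq
    exact ⟨hd i, by simp, Option.some.inj hq⟩
  · rw [h.last i hi] at hq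
    exact ⟨tl i, by simp, Option.some.inj hq⟩

theorem en_mem {l : List ℂ} {q : ℂ} (h : En l q) : q ∈ l := by
  rcases h with h | h
  · exact List.mem_of_head? h
  · exact List.mem_of_getLast? h

theorem lb_of (h : Lb A hd tl loc W) {W' : I → List ℂ}
    (h' : ∀ i ∈ A, (W' i).head? = (W i).head? ∧ (W' i).getLast? = (W i).getLast?) :
    Lb A hd tl loc W' :=
  ⟨h.inj, fun i hi => (h' i hi).1.trans (h.head i hi), fun i hi => (h' i hi).2.trans (h.last i hi)⟩

theorem lb_map (h : Lb A hd tl loc W) {φ : ℂ → ℂ}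
    (hφ : ∀ i ∈ A, ∀ j ∈ A, ∀ x ∈ W i, ∀ y ∈ W j, φ x = φ y → x = y) :
    Lb A hd tl (fun v => φ (loc v)) (fun i => (W i).map φ) := by
  refine ⟨fun i hi j hj u hu v hv huv => ?_, fun i hi => ?_, fun i hi => ?_⟩
  · exact h.inj i hi j hj u hu v hv
      (hφ i hi j hj _ (en_mem (lb_en h hi hu)) _ (en_mem (lb_en h hj hv)) huv)
  · rw [List.head?_map, h.head i hi]
    rfl
  · rw [List.getLast?_map, h.last i hi]
    rfl

end

theorem ds_of {V : Type} [Fintype V] {G : SimpleGraph V} {hd tl : Sym2 V → V} {loc : V → ℂ}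
    {W : Sym2 V → List ℂ} (he : ∀ e ∈ G.edgeSet, s(hd e, tl e) = e) (hP : PL (eF G) W)
    (hL : Lb (eF G) hd tl loc W) : DS (eF G) W := by
  intro e hee f hff hne s hs hs'
  apply hne
  have hee' : e ∈ G.edgeSet := (Finset.mem_filter.1 hee).2
  have hff' : f ∈ G.edgeSet := (Finset.mem_filter.1 hff).2
  obtain ⟨x, y, rfl, hxy, hx, hy⟩ := segL_two (hP.nd e hee) hs
  obtain ⟨x', y', h1, -, hx', hy'⟩ := segL_two (hP.nd f hff) hs'
  have hxf : x ∈ W f := by
    have : x ∈ s(x', y') := by rw [← h1]; simp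
    rw [Sym2.mem_iff] at this
    rcases this with rfl | rfl <;> assumption
  have hyf : y ∈ W f := by
    have : y ∈ s(x', y') := by rw [← h1]; simp
    rw [Sym2.mem_iff] at this
    rcases this with rfl | rfl <;> assumption
  obtain ⟨a1, a2⟩ := hP.sep e hee f hff hne x hx hxf
  obtain ⟨b1, b2⟩ := hP.sep e hee f hff hne y hy hyf
  obtain ⟨u, hu, hux⟩ := en_lb hL hee a1
  obtain ⟨u', hu', hux'⟩ := en_lb hL hff a2
  obtain ⟨v, hv, hvy⟩ := en_lb hL hee b1
  obtain ⟨v', hv', hvy'⟩ := en_lb hL hff b2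
  have huu : u = u' := hL.inj e hee f hff u hu u' hu' (hux.trans hux'.symm)
  have hvv : v = v' := hL.inj e hee f hff v hv v' hv' (hvy.trans hvy'.symm)
  have huv : u ≠ v := by
    rintro rfl
    exact hxy (hux.symm.trans hvy)
  rw [he e hee'] at hu hv
  rw [he f hff', ← huu] at hu'
  rw [he f hff', ← hvv] at hv'
  rw [(Sym2.mem_and_mem_iff huv).1 ⟨hu, hv⟩, (Sym2.mem_and_mem_iff huv).1 ⟨hu', hv'⟩]

theorem sumDX {V : Type} [Fintype V] {G : SimpleGraph V} (D : Drawing G) :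
    ∑ e : Sym2 V, ∑ f : Sym2 V, DX D e f =
      ∑ e ∈ eF G, ∑ f ∈ eF G, if e = f then 0 else DX D e f := by
  have h1 : ∀ e f : Sym2 V, (e ∉ eF G ∨ f ∉ eF G) → DX D e f = 0 := by
    intro e f h
    unfold DX
    rw [if_neg]
    rintro ⟨h2, h3, -⟩
    rcases h with h | h
    · exact h (Finset.mem_filter.2 ⟨Finset.mem_univ _, h2⟩)
    · exact h (Finset.mem_filter.2 ⟨Finset.mem_univ _, h3⟩)
  have h2 : ∀ e : Sym2 V, DX D e e = 0 := by
    intro e
    unfold DX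
    rw [if_neg]
    rintro ⟨-, -, h3⟩
    exact h3 rfl
  have h3 : ∀ e : Sym2 V, ∑ f : Sym2 V, DX D e f = ∑ f ∈ eF G, DX D e f := by
    intro e
    exact (Finset.sum_subset (Finset.subset_univ _) fun f _ hf => h1 e f (Or.inr hf)).symm
  rw [Finset.sum_congr rfl fun e _ => h3 e,
    ← Finset.sum_subset (Finset.subset_univ (eF G)) fun e _ he =>
      Finset.sum_eq_zero fun f _ => h1 e f (Or.inl he)]
  refine Finset.sum_congr rfl fun e _ => Finset.sum_congr rfl fun f _ => ?_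
  by_cases hef : e = f
  · rw [if_pos hef, hef, h2]
  · rw [if_neg hef]

theorem sum_le {V : Type} [Fintype V] {G : SimpleGraph V} (D : Drawing G) {W : Sym2 V → List ℂ}
    (h : ∀ e ∈ G.edgeSet, ∀ f ∈ G.edgeSet, e ≠ f → DX D e f ≤ Nx (W e) (W f)) :
    ∑ e : Sym2 V, ∑ f : Sym2 V, DX D e f ≤ TT (eF G) W := by
  rw [sumDX]
  unfold TT
  refine Finset.sum_le_sum fun e he => Finset.sum_le_sum fun f hf => ?_
  split_ifs with hef
  · exact le_rfl
  · exact h e (Finset.mem_filter.1 he).2 f (Finset.mem_filter.1 hf).2 hef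

theorem le_sum {V : Type} [Fintype V] {G : SimpleGraph V} (D : Drawing G) {W : Sym2 V → List ℂ}
    (h : ∀ e ∈ G.edgeSet, ∀ f ∈ G.edgeSet, e ≠ f → Nx (W e) (W f) ≤ DX D e f) :
    TT (eF G) W ≤ ∑ e : Sym2 V, ∑ f : Sym2 V, DX D e f := by
  rw [sumDX]
  unfold TT
  refine Finset.sum_le_sum fun e he => Finset.sum_le_sum fun f hf => ?_
  split_ifs with hef
  · exact le_rfl
  · exact h e (Finset.mem_filter.1 he).2 f (Finset.mem_filter.1 hf).2 hef

theorem cr_le {V : Type} {G : SimpleGraph V} (D : Drawing G) (h : D.crossings.Finite) :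
    crossingNumber G ≤ D.crossings.ncard := Nat.sInf_le ⟨D, h, rfl⟩

end GOOD

open GOOD in
/-- CN-12 -/
theorem t_GOOD (h0 : S_CNT) (h1 : S_T1) (h2 : S_GP) (h3 : S_SIMP) (h4 : S_UNX) (h5 : S_T3) :
    S_GOOD := by
  intro V _ G
  obtain ⟨D0, hf0, hn0⟩ := Pool.Agent.Helper770.Exist.crossingNumber_attained G
  obtain ⟨hd, tl, he⟩ : ∃ hd tl : Sym2 V → V, ∀ e ∈ G.edgeSet, s(hd e, tl e) = e :=
    ⟨fun e => (Quot.out e).1, fun e => (Quot.out e).2, fun e _ => Quot.out_eq e⟩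
  obtain ⟨W0, hP0, hL0, hN0⟩ := h1 V G D0 hd tl hf0 he
  obtain ⟨φ, hφ, hP1, hO1, hT1, hN1⟩ := h2 (Sym2 V) (eF G) W0 hP0
  have hL1 := lb_map hL0 hφ
  obtain ⟨W2, hP2, hO2, hT2, hE2, hS2, hN2⟩ := h3 (Sym2 V) (eF G) _ hP1 hO1 hT1
  have hL2 := lb_of hL1 hE2
  have hD2 := ds_of he hP2 hL2
  have mem : ∀ {e : Sym2 V}, e ∈ G.edgeSet → e ∈ eF G := fun {e} h =>
    Finset.mem_filter.2 ⟨Finset.mem_univ _, h⟩
  have hTT : TT (eF G) W2 ≤ 2 * crossingNumber G := by
    rw [← hn0, (h0 V G D0).2 hf0]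
    refine le_sum D0 fun e hee f hff hef => ?_
    exact (hN2 e (mem hee) f (mem hff)).trans
      ((hN1 e (mem hee) f (mem hff)).trans (hN0 e hee f hff hef))
  have key : ∀ e ∈ G.edgeSet, ∀ f ∈ G.edgeSet, e ≠ f → ∀ v, v ∈ e → v ∈ f →
      Nx (W2 e) (W2 f) = 0 := by
    intro e hee f hff hef v hve hvf
    by_contra hcon
    obtain ⟨W3, hP3, hO3, hE3, hT3⟩ := h4 (Sym2 V) (eF G) W2 hP2 hO2 hT2 hD2 hS2 e (mem hee) f
      (mem hff) hef ⟨_, lb_en hL2 (mem hee) (u := v) (by rw [he e hee]; exact hve),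
        lb_en hL2 (mem hff) (u := v) (by rw [he f hff]; exact hvf)⟩ hcon
    have hL3 := lb_of hL2 hE3
    obtain ⟨D3, hf3, hD3⟩ := h5 V G hd tl _ W3 he hP3 hO3 hL3
    have g1 := (h0 V G D3).2 hf3
    have g2 := sum_le D3 hD3
    have g3 := cr_le D3 hf3
    omega
  obtain ⟨D, hf, hD⟩ := h5 V G hd tl _ W2 he hP2 hO2 hL2
  refine ⟨D, hf, ?_, ?_⟩
  · intro e hee f hff hef v hve hvf
    have g1 := hD e hee f hff hef
    rw [key e hee f hff hef v hve hvf] at g1
    have g2 : (D.arc e '' Ioo (0 : ℝ) 1 ∩ D.arc f '' Ioo (0 : ℝ) 1).ncard = 0 := by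
      unfold DX at g1
      rw [if_pos ⟨hee, hff, hef⟩] at g1
      omega
    exact (Set.ncard_eq_zero (((h0 V G D).1.1 hf) e hee f hff hef)).1 g2
  · have g1 := (h0 V G D).2 hf
    have g2 := sum_le D hD
    have g3 := cr_le D hf
    omega

end Pool.Agent.NH90.CN
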