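import Pool.Agent.NH90.CN.Stm

/-!
# Project CN: perturbing a family of polylines
-/

set_option autoImplicit false

open Set Classical
open Pool.Agent.Helper770.Crossing Pool.Agent.Helper770.Sep

namespace Pool.Agent.NH90.CN

namespace GPX

theorem sg_mk (a b : ℂ) : sg s(a, b) = segment ℝ a b := by
  unfold sg
  rw [← convexHull_pair]
  congr 1
  ext z
  simp [Sym2.mem_iff]

theorem segL_map (φ : ℂ → ℂ) : ∀ l : List ℂ, segL (l.map φ) = (segL l).map (Sym2.map φ)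
  | [] => rfl
  | [_] => rfl
  | a :: b :: l => by
    have ih := segL_map φ (b :: l)
    simp only [List.map_cons] at ih ⊢
    show s(φ a, φ b) :: segL (φ b :: l.map φ) = _
    rw [ih]
    show _ = (s(a, b) :: segL (b :: l)).map (Sym2.map φ)
    rw [List.map_cons, Sym2.map_mk]

theorem mem_segL : ∀ (l : List ℂ) (s : Sym2 ℂ), s ∈ segL l →
    ∃ x y, s = s(x, y) ∧ x ∈ l ∧ y ∈ l ∧ (l.Nodup → x ≠ y)
  | [], s, h => by simp [segL] at h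
  | [_], s, h => by simp [segL] at h
  | a :: b :: l, s, h => by
    change s ∈ s(a, b) :: segL (b :: l) at h
    rcases List.mem_cons.1 h with h | h
    · refine ⟨a, b, h, by simp, by simp, fun hn hab => ?_⟩
      rw [List.nodup_cons] at hn
      exact hn.1 (by rw [hab]; simp)
    · obtain ⟨x, y, h1, h2, h3, h4⟩ := mem_segL (b :: l) s h
      exact ⟨x, y, h1, List.mem_cons_of_mem _ h2, List.mem_cons_of_mem _ h3,
        fun hn => h4 (List.nodup_cons.1 hn).2⟩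

/-- the conditions on the map -/
structure Ok (P : Finset ℂ) (φ : ℂ → ℂ) : Prop where
  inj : ∀ x ∈ P, ∀ y ∈ P, φ x = φ y → x = y
  off : ∀ x ∈ P, ∀ y ∈ P, ∀ z ∈ P, z ≠ x → z ≠ y → φ z ∉ segment ℝ (φ x) (φ y)
  tri : ∀ x₁ ∈ P, ∀ y₁ ∈ P, ∀ x₂ ∈ P, ∀ y₂ ∈ P, ∀ x₃ ∈ P, ∀ y₃ ∈ P,
    x₁ ≠ y₁ → x₂ ≠ y₂ → x₃ ≠ y₃ → x₁ ≠ x₂ → x₁ ≠ y₂ → y₁ ≠ x₂ → y₁ ≠ y₂ →
    x₁ ≠ x₃ → x₁ ≠ y₃ → y₁ ≠ x₃ → y₁ ≠ y₃ → x₂ ≠ x₃ → x₂ ≠ y₃ → y₂ ≠ x₃ → y₂ ≠ y₃ →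
    segment ℝ (φ x₁) (φ y₁) ∩ segment ℝ (φ x₂) (φ y₂) ∩ segment ℝ (φ x₃) (φ y₃) = ∅
  dis : ∀ x ∈ P, ∀ y ∈ P, ∀ z ∈ P, ∀ w ∈ P, Disjoint (segment ℝ x y) (segment ℝ z w) →
    Disjoint (segment ℝ (φ x) (φ y)) (segment ℝ (φ z) (φ w))

theorem ne_of_xs {φ : ℂ → ℂ} {x y z w : ℂ} (h : Xs s(φ x, φ y) s(φ z, φ w)) :
    x ≠ z ∧ x ≠ w ∧ y ≠ z ∧ y ≠ w := by
  refine ⟨?_, ?_, ?_, ?_⟩ <;> rintro rfl
  · exact h.1 (φ x) (by simp) (by simp)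
  · exact h.1 (φ x) (by simp) (by simp)
  · exact h.1 (φ y) (by simp) (by simp)
  · exact h.1 (φ y) (by simp) (by simp)

theorem xs_of {P : Finset ℂ} {φ : ℂ → ℂ} (hφ : Ok P φ) {x y z w : ℂ} (hx : x ∈ P) (hy : y ∈ P)
    (hz : z ∈ P) (hw : w ∈ P) (h : Xs s(φ x, φ y) s(φ z, φ w)) : Xs s(x, y) s(z, w) := by
  obtain ⟨h1, h2, h3, h4⟩ := ne_of_xs h
  refine ⟨?_, ?_⟩
  · intro q hq hq'
    rw [Sym2.mem_iff] at hq hq'
    rcases hq with rfl | rfl <;> rcases hq' with rfl | rfl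
    · exact h1 rfl
    · exact h2 rfl
    · exact h3 rfl
    · exact h4 rfl
  · by_contra hc
    rw [Set.not_nonempty_iff_eq_empty, sg_mk, sg_mk, ← Set.disjoint_iff_inter_eq_empty] at hc
    have h5 := hφ.dis x hx y hy z hz w hw hc
    have h6 := h.2
    rw [sg_mk, sg_mk] at h6
    rw [Set.disjoint_iff_inter_eq_empty] at h5
    rw [h5] at h6
    exact Set.not_nonempty_empty h6

theorem ns_le {P : Finset ℂ} {φ : ℂ → ℂ} (hφ : Ok P φ) {x y : ℂ} (hx : x ∈ P) (hy : y ∈ P)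
    {l : List ℂ} (hl : ∀ q ∈ l, q ∈ P) : NS s(φ x, φ y) (l.map φ) ≤ NS s(x, y) l := by
  unfold NS
  rw [segL_map, List.countP_map]
  refine List.countP_mono_left fun s hs h => ?_
  obtain ⟨z, w, rfl, hz, hw, -⟩ := mem_segL l s hs
  simp only [Function.comp_apply, Sym2.map_mk] at h
  exact decide_eq_true (xs_of hφ hx hy (hl z hz) (hl w hw) (of_decide_eq_true h))

theorem nx_le {P : Finset ℂ} {φ : ℂ → ℂ} (hφ : Ok P φ) {l l' : List ℂ} (hl : ∀ q ∈ l, q ∈ P)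
    (hl' : ∀ q ∈ l', q ∈ P) : Nx (l.map φ) (l'.map φ) ≤ Nx l l' := by
  unfold Nx
  rw [segL_map, List.map_map]
  refine List.sum_le_sum fun s hs => ?_
  obtain ⟨x, y, rfl, hx, hy, -⟩ := mem_segL l s hs
  simp only [Function.comp_apply, Sym2.map_mk]
  exact ns_le hφ (hl x hx) (hl y hy) hl'

theorem en_map {φ : ℂ → ℂ} {l : List ℂ} {x : ℂ} (h : En l x) : En (l.map φ) (φ x) := by
  unfold En at *
  rw [List.head?_map, List.getLast?_map]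
  rcases h with h | h
  · left; rw [h]; rfl
  · right; rw [h]; rfl

end GPX

open GPX in
theorem t_GP (h : S_GPG) : S_GP := by
  intro I A W hPL
  set P : Finset ℂ := A.biUnion fun i => (W i).toFinset with hP
  obtain ⟨φ, h1, h2, h3, h4⟩ := h P
  have hφ : Ok P φ := ⟨h1, h2, h3, h4⟩
  have hmem : ∀ i ∈ A, ∀ q ∈ W i, q ∈ P := by
    intro i hi q hq
    rw [hP, Finset.mem_biUnion]
    exact ⟨i, hi, List.mem_toFinset.2 hq⟩
  have hseg : ∀ i ∈ A, ∀ s ∈ segL ((W i).map φ), ∃ x y, s = s(φ x, φ y) ∧ x ∈ P ∧ y ∈ P ∧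
      x ≠ y := by
    intro i hi s hs
    rw [segL_map, List.mem_map] at hs
    obtain ⟨s0, hs0, rfl⟩ := hs
    obtain ⟨x, y, rfl, hx, hy, hxy⟩ := mem_segL _ _ hs0
    exact ⟨x, y, by rw [Sym2.map_mk], hmem i hi x hx, hmem i hi y hy, hxy (hPL.nd i hi)⟩
  refine ⟨φ, fun i hi j hj x hx y hy hxy => h1 x (hmem i hi x hx) y (hmem j hj y hy) hxy,
    ⟨fun i hi => ?_, fun i hi => ?_, fun i hi j hj hij q hq hq' => ?_⟩,
    fun i hi j hj s hs q hq hqs => ?_,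
    fun i hi j hj k hk s hs s' hs' s'' hs'' x1 x2 x3 => ?_, fun i hi j hj => ?_⟩
  · show 2 ≤ ((W i).map φ).length
    rw [List.length_map]
    exact hPL.len i hi
  · show ((W i).map φ).Nodup
    exact List.Nodup.map_on (fun x hx y hy hxy => h1 x (hmem i hi x hx) y (hmem i hi y hy) hxy)
      (hPL.nd i hi)
  · obtain ⟨x, hx, rfl⟩ := List.mem_map.1 hq
    obtain ⟨y, hy, hxy⟩ := List.mem_map.1 hq'
    have e := h1 y (hmem j hj y hy) x (hmem i hi x hx) hxy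
    subst e
    obtain ⟨g1, g2⟩ := hPL.sep i hi j hj hij y hx hy
    exact ⟨en_map g1, en_map g2⟩
  · obtain ⟨x, y, rfl, hx, hy, hxy⟩ := hseg i hi s hs
    obtain ⟨z, hz, rfl⟩ := List.mem_map.1 hq
    rw [sg_mk] at hqs
    by_contra hc
    rw [Sym2.mem_iff, not_or] at hc
    refine h2 x hx y hy z (hmem j hj z hz) ?_ ?_ hqs
    · rintro rfl
      exact hc.1 rfl
    · rintro rfl
      exact hc.2 rfl
  · obtain ⟨a1, b1, rfl, ha1, hb1, hab1⟩ := hseg i hi s hs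
    obtain ⟨a2, b2, rfl, ha2, hb2, hab2⟩ := hseg j hj s' hs'
    obtain ⟨a3, b3, rfl, ha3, hb3, hab3⟩ := hseg k hk s'' hs''
    obtain ⟨p1, p2, p3, p4⟩ := ne_of_xs x1
    obtain ⟨q1, q2, q3, q4⟩ := ne_of_xs x2
    obtain ⟨r1, r2, r3, r4⟩ := ne_of_xs x3
    rw [sg_mk, sg_mk, sg_mk]
    exact h3 a1 ha1 b1 hb1 a2 ha2 b2 hb2 a3 ha3 b3 hb3 hab1 hab2 hab3 p1 p2 p3 p4 r1 r2 r3 r4
      q1 q2 q3 q4
  · exact nx_le hφ (hmem i hi) (hmem j hj)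

end Pool.Agent.NH90.CN
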