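import Pool.Agent.NH90.CN.Stm
import Pool.Agent.TH639.J31

set_option autoImplicit false

/-!
# CN-7: small generic perturbation of finitely many points of the plane
-/

open Set Classical Filter Topology
open Pool.Agent.Helper770.Crossing Pool.Agent.Helper770.Sep Pool.Agent.Helper770.Straight
open Pool.Agent.TH639.J31

namespace Pool.Agent.NH90.CN

/-- points of a segment and the parametrisation `seg` -/
theorem gpg_mem_seg {a b z : ℂ} (h : z ∈ segment ℝ a b) : ∃ t : ℝ, seg a b t = z := by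
  rw [segment_eq_image] at h
  obtain ⟨t, -, rfl⟩ := h
  refine ⟨t, ?_⟩
  apply Complex.ext <;> simp [seg]

theorem gpg_segment_subset {x y x' y' : ℂ} {δ : ℝ} (hx : dist x' x < δ)
    (hy : dist y' y < δ) : segment ℝ x' y' ⊆ Metric.thickening δ (segment ℝ x y) := by
  intro z hz
  obtain ⟨a, b, ha, hb, hab, rfl⟩ := hz
  rw [Metric.mem_thickening_iff]
  refine ⟨a • x + b • y, ⟨a, b, ha, hb, hab, rfl⟩, ?_⟩
  rw [dist_eq_norm] at hx hy ⊢
  have e : a • x' + b • y' - (a • x + b • y) = a • (x' - x) + b • (y' - y) := by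
    rw [smul_sub, smul_sub]; abel
  rw [e]
  have h1 : ‖a • (x' - x) + b • (y' - y)‖ ≤ a * ‖x' - x‖ + b * ‖y' - y‖ := by
    refine (norm_add_le _ _).trans (le_of_eq ?_)
    rw [norm_smul, norm_smul, Real.norm_of_nonneg ha, Real.norm_of_nonneg hb]
  refine h1.trans_lt ?_
  rcases lt_or_eq_of_le ha with h | h
  · have h2 : a * ‖x' - x‖ < a * δ := mul_lt_mul_of_pos_left hx h
    have h3 : b * ‖y' - y‖ ≤ b * δ := mul_le_mul_of_nonneg_left hy.le hb
    have h4 : a * δ + b * δ = δ := by rw [← add_mul, hab, one_mul]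
    linarith
  · have hb1 : b = 1 := by linarith
    rw [← h, hb1]
    linarith

theorem gpg_compact_segment (x y : ℂ) : IsCompact (segment ℝ x y) := by
  rw [segment_eq_image]
  refine isCompact_Icc.image ?_
  fun_prop

/-- one radius for all pairs of disjoint segments -/
theorem gpg_exists_radius (P : Finset ℂ) : ∃ δ : ℝ, 0 < δ ∧ ∀ p : P × P × P × P,
    Disjoint (segment ℝ (p.1 : ℂ) p.2.1) (segment ℝ (p.2.2.1 : ℂ) p.2.2.2) →
    Disjoint (Metric.thickening δ (segment ℝ (p.1 : ℂ) p.2.1))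
      (Metric.thickening δ (segment ℝ (p.2.2.1 : ℂ) p.2.2.2)) := by
  have h1 : ∀ᶠ δ : ℝ in 𝓝[>] 0, ∀ p : P × P × P × P,
      Disjoint (segment ℝ (p.1 : ℂ) p.2.1) (segment ℝ (p.2.2.1 : ℂ) p.2.2.2) →
      Disjoint (Metric.thickening δ (segment ℝ (p.1 : ℂ) p.2.1))
        (Metric.thickening δ (segment ℝ (p.2.2.1 : ℂ) p.2.2.2)) := by
    rw [eventually_all]
    intro p
    by_cases hd : Disjoint (segment ℝ (p.1 : ℂ) p.2.1) (segment ℝ (p.2.2.1 : ℂ) p.2.2.2)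
    · obtain ⟨δ₀, h0, hδ₀⟩ := hd.exists_thickenings (gpg_compact_segment _ _)
        (gpg_compact_segment _ _).isClosed
      have h2 : ∀ᶠ δ : ℝ in 𝓝[>] 0, δ < δ₀ :=
        mem_nhdsWithin_of_mem_nhds (Iio_mem_nhds h0)
      filter_upwards [h2] with δ hδ _
      exact hδ₀.mono (Metric.thickening_mono hδ.le _) (Metric.thickening_mono hδ.le _)
    · exact Eventually.of_forall fun δ h => absurd h hd
  obtain ⟨δ, h2, h3⟩ := (h1.and self_mem_nhdsWithin).exists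
  exact ⟨δ, h3, h2⟩

theorem t_GPG : S_GPG := by
  intro P
  obtain ⟨δ, hδ, hd⟩ := gpg_exists_radius P
  let q : P × Bool → ℝ := fun i => if i.2 then (i.1 : ℂ).im else (i.1 : ℂ).re
  obtain ⟨x, hx, hgen, hconc⟩ := exists_general q (δ / 2) (by positivity)
  let φ : ℂ → ℂ := fun z => if h : z ∈ P then pt x ⟨z, h⟩ else z
  have hφ : ∀ z (h : z ∈ P), φ z = pt x ⟨z, h⟩ := fun z h => by
    simp only [φ, dif_pos h]
  have hclose : ∀ z ∈ P, dist (φ z) z < δ := by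
    intro z hz
    rw [hφ z hz, dist_eq_norm]
    have h1 := hx (⟨z, hz⟩, false)
    have h2 := hx (⟨z, hz⟩, true)
    refine (Complex.norm_le_abs_re_add_abs_im _).trans_lt ?_
    have e1 : (pt x ⟨z, hz⟩ - z).re = x (⟨z, hz⟩, false) - q (⟨z, hz⟩, false) := by
      simp [pt, q]
    have e2 : (pt x ⟨z, hz⟩ - z).im = x (⟨z, hz⟩, true) - q (⟨z, hz⟩, true) := by
      simp [pt, q]
    rw [e1, e2]
    linarith
  have hinj : ∀ a ∈ P, ∀ b ∈ P, φ a = φ b → a = b := by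
    intro a ha b hb h
    rw [hφ a ha, hφ b hb] at h
    have := hgen.inj h
    exact congrArg Subtype.val this
  refine ⟨φ, hinj, ?_, ?_, ?_⟩
  · intro a ha b hb c hc hca hcb hmem
    by_cases hab : a = b
    · subst hab
      rw [segment_same, mem_singleton_iff] at hmem
      exact hca (hinj c hc a ha hmem)
    · obtain ⟨t, ht⟩ := gpg_mem_seg hmem
      have h1 := hgen.gen ⟨a, ha⟩ ⟨b, hb⟩ ⟨c, hc⟩ (fun h => hab (congrArg Subtype.val h))
        (fun h => hca (congrArg Subtype.val h)) (fun h => hcb (congrArg Subtype.val h))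
      rw [← hφ a ha, ← hφ b hb, ← hφ c hc, ← ht] at h1
      apply h1
      simp only [ori, seg]
      ring
  · intro x₁ hx₁ y₁ hy₁ x₂ hx₂ y₂ hy₂ x₃ hx₃ y₃ hy₃ h1 h2 h3 h4 h5 h6 h7 h8 h9 h10 h11 h12 h13 h14 h15
    rw [Set.eq_empty_iff_forall_notMem]
    rintro z ⟨⟨hz1, hz2⟩, hz3⟩
    obtain ⟨r, hr⟩ := gpg_mem_seg hz1
    obtain ⟨s, hs⟩ := gpg_mem_seg hz2
    obtain ⟨t, ht⟩ := gpg_mem_seg hz3
    have h0 := conc_eq_zero hr hs ht
    rw [hφ _ hx₁, hφ _ hy₁, hφ _ hx₂, hφ _ hy₂, hφ _ hx₃, hφ _ hy₃] at h0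
    have ne : ∀ {a b : ℂ} (ha : a ∈ P) (hb : b ∈ P), a ≠ b → (⟨a, ha⟩ : P) ≠ ⟨b, hb⟩ :=
      fun ha hb h h' => h (congrArg Subtype.val h')
    exact hconc ⟨x₁, hx₁⟩ ⟨y₁, hy₁⟩ ⟨x₂, hx₂⟩ ⟨y₂, hy₂⟩ ⟨x₃, hx₃⟩ ⟨y₃, hy₃⟩
      ⟨ne _ _ h1, ne _ _ h4, ne _ _ h5, ne _ _ h8, ne _ _ h9, ne _ _ h6, ne _ _ h7, ne _ _ h10,
        ne _ _ h11, ne _ _ h2, ne _ _ h12, ne _ _ h13, ne _ _ h14, ne _ _ h15, ne _ _ h3⟩ h0
  · intro a ha b hb c hc d hd' hdis
    have h1 := hd (⟨a, ha⟩, ⟨b, hb⟩, ⟨c, hc⟩, ⟨d, hd'⟩) hdis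
    exact h1.mono (gpg_segment_subset (hclose a ha) (hclose b hb))
      (gpg_segment_subset (hclose c hc) (hclose d hd'))

end Pool.Agent.NH90.CN
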