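import Pool.Agent.NH90.CN.Stm

set_option autoImplicit false

open Set Classical
open Pool.Agent.Helper770.Crossing Pool.Agent.Helper770.Sep

namespace Pool.Agent.NH90.CN

namespace IIa

variable {V : Type}

theorem mem_eF [Fintype V] {G : SimpleGraph V} {e : Sym2 V} : e ∈ eF G ↔ e ∈ G.edgeSet := by
  unfold eF; simp

theorem msd {I : Type} {A R : Finset I} {i : I} : i ∈ A \ R ↔ i ∈ A ∧ i ∉ R := Finset.mem_sdiff

theorem rung_inj {y z : V} (h : rung y = rung z) : y = z := by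
  unfold rung at h
  rw [Sym2.eq_iff] at h
  rcases h with ⟨h, -⟩ | ⟨h, -⟩
  · exact (Prod.mk.inj h).1
  · exact (Prod.mk.inj h).1

theorem pg_mk (i : Bool) (a b : V) : pg i s(a, b) = s((a, i), (b, i)) := rfl

theorem fst_pg (i : Bool) (e : Sym2 V) : (pg i e).map Prod.fst = e := by
  induction e using Sym2.ind with
  | _ a b => rfl

theorem pg_inj {i j : Bool} {e f : Sym2 V} (h : pg i e = pg j f) : e = f := by
  rw [← fst_pg i e, h, fst_pg]

theorem rung_ne_pg (y : V) (i : Bool) (e : Sym2 V) : rung y ≠ pg i e := by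
  induction e using Sym2.ind with
  | _ a b =>
    rw [pg_mk]
    unfold rung
    intro h
    rw [Sym2.eq_iff] at h
    rcases h with ⟨h, h'⟩ | ⟨h, h'⟩
    · have h1 := (Prod.mk.inj h).2
      have h2 := (Prod.mk.inj h').2
      rw [← h1] at h2
      exact absurd h2 (by decide)
    · have h1 := (Prod.mk.inj h).2
      have h2 := (Prod.mk.inj h').2
      rw [← h1] at h2
      exact absurd h2 (by decide)

theorem rung_mem {G : SimpleGraph V} (y : V) : rung y ∈ (prism G).edgeSet := by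
  unfold rung
  rw [SimpleGraph.mem_edgeSet]
  exact Or.inr ⟨rfl, by simp⟩

theorem pg_mem {G : SimpleGraph V} {i : Bool} {e : Sym2 V} (he : e ∈ G.edgeSet) :
    pg i e ∈ (prism G).edgeSet := by
  induction e using Sym2.ind with
  | _ a b =>
    rw [pg_mk, SimpleGraph.mem_edgeSet]
    exact Or.inl ⟨rfl, he⟩

/-- the labels -/
theorem labels {G : SimpleGraph V} (c o : Sym2 V → V) (π : V → Bool)
    (hco : ∀ e ∈ G.edgeSet, s(c e, o e) = e) :
    ∃ hd tl : Sym2 (V × Bool) → V × Bool, (∀ x, s(hd x, tl x) = x) ∧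
      (∀ y, hd (rung y) = (y, !π y) ∧ tl (rung y) = (y, π y)) ∧
      ∀ e ∈ G.edgeSet, hd (pg (π (c e)) e) = (c e, π (c e)) ∧
        tl (pg (π (c e)) e) = (o e, π (c e)) := by
  have h : ∀ x : Sym2 (V × Bool), ∃ a b : V × Bool, s(a, b) = x ∧
      (∀ y, x = rung y → a = (y, !π y) ∧ b = (y, π y)) ∧
      ∀ e ∈ G.edgeSet, x = pg (π (c e)) e → a = (c e, π (c e)) ∧ b = (o e, π (c e)) := by
    intro x
    by_cases h1 : ∃ y, x = rung y
    · obtain ⟨y, rfl⟩ := h1
      refine ⟨(y, !π y), (y, π y), ?_, ?_, ?_⟩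
      · unfold rung
        cases π y
        · exact Sym2.eq_swap
        · rfl
      · intro z hz
        rw [rung_inj hz]
        exact ⟨rfl, rfl⟩
      · intro e _ h
        exact absurd h (rung_ne_pg y _ e)
    · by_cases h2 : ∃ e ∈ G.edgeSet, x = pg (π (c e)) e
      · obtain ⟨e, he, rfl⟩ := h2
        refine ⟨(c e, π (c e)), (o e, π (c e)), ?_, fun y hy => absurd ⟨y, hy⟩ h1, ?_⟩
        · rw [← pg_mk, hco e he]
        · intro f _ h
          have := pg_inj h
          subst this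
          exact ⟨rfl, rfl⟩
      · induction x using Sym2.ind with
        | _ a b =>
          exact ⟨a, b, rfl, fun y hy => absurd ⟨y, hy⟩ h1, fun e he h => absurd ⟨e, he, h⟩ h2⟩
  choose hd tl h1 h2 h3 using h
  exact ⟨hd, tl, h1, fun y => h2 _ y rfl, fun e he => h3 _ e he rfl⟩

theorem PL_mono {I : Type} {A B : Finset I} {W : I → List ℂ} (h : PL B W) (hAB : A ⊆ B) :
    PL A W :=
  ⟨fun i hi => h.len i (hAB hi), fun i hi => h.nd i (hAB hi),
    fun i hi j hj => h.sep i (hAB hi) j (hAB hj)⟩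

theorem PO_mono {I : Type} {A B : Finset I} {W : I → List ℂ} (h : PO B W) (hAB : A ⊆ B) :
    PO A W := fun i hi j hj => h i (hAB hi) j (hAB hj)

theorem Lb_mono {I : Type} {A B : Finset I} {hd tl : I → V} {loc : V → ℂ} {W : I → List ℂ}
    (h : Lb B hd tl loc W) (hAB : A ⊆ B) : Lb A hd tl loc W :=
  ⟨fun i hi j hj => h.inj i (hAB hi) j (hAB hj), fun i hi => h.head i (hAB hi),
    fun i hi => h.last i (hAB hi)⟩

theorem Lb_mem {I : Type} {A : Finset I} {hd tl : I → V} {loc : V → ℂ} {W : I → List ℂ}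
    (h : Lb A hd tl loc W) {i : I} (hi : i ∈ A) {u : V} (hu : u ∈ s(hd i, tl i)) :
    loc u ∈ W i := by
  rw [Sym2.mem_iff] at hu
  rcases hu with rfl | rfl
  · exact List.mem_of_head? (h.head i hi)
  · exact List.mem_of_getLast? (h.last i hi)

theorem Lb_map {I : Type} {A : Finset I} {hd tl : I → V} {loc : V → ℂ} {W : I → List ℂ}
    (h : Lb A hd tl loc W) (φ : ℂ → ℂ)
    (hφ : ∀ i ∈ A, ∀ j ∈ A, ∀ x ∈ W i, ∀ y ∈ W j, φ x = φ y → x = y) :
    Lb A hd tl (fun v => φ (loc v)) (fun i => (W i).map φ) := by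
  refine ⟨fun i hi j hj u hu v hv he => ?_, fun i hi => ?_, fun i hi => ?_⟩
  · exact h.inj i hi j hj u hu v hv (hφ i hi j hj _ (Lb_mem h hi hu) _ (Lb_mem h hj hv) he)
  · rw [List.head?_map, h.head i hi]; rfl
  · rw [List.getLast?_map, h.last i hi]; rfl

theorem Lb_of {I : Type} {A : Finset I} {hd tl : I → V} {loc : V → ℂ} {W W' : I → List ℂ}
    (h : Lb A hd tl loc W)
    (h' : ∀ i ∈ A, (W' i).head? = (W i).head? ∧ (W' i).getLast? = (W i).getLast?) :
    Lb A hd tl loc W' :=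
  ⟨h.inj, fun i hi => by rw [(h' i hi).1]; exact h.head i hi,
    fun i hi => by rw [(h' i hi).2]; exact h.last i hi⟩

end IIa

open IIa in
theorem t_II (h0 : S_CNT) (h1 : S_PRISM) (h2 : S_T1) (h3 : S_GP) (h4 : S_SIMP) (h5 : S_MRC)
    (h6 : S_T3) : S_II := by
  intro V _ G D c o π hDf hDg hco
  obtain ⟨P, hPf, hPp, hPd, hPr, hPrr⟩ := h1 V G D hDf hDg
  obtain ⟨hd, tl, hlab, hlr, hlp⟩ := labels c o π hco
  obtain ⟨W0, hPL0, hLb0, hN0⟩ := h2 (V × Bool) (prism G) P hd tl hPf (fun x _ => hlab x)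
  obtain ⟨φ, hφ, hPL1, hPO1, hNT1, hN1⟩ := h3 _ (eF (prism G)) W0 hPL0
  have hLb1 := Lb_map hLb0 φ hφ
  obtain ⟨W, hPL, hPO, -, hends, hself, hN2⟩ := h4 _ (eF (prism G)) _ hPL1 hPO1 hNT1
  have hLb := Lb_of hLb1 hends
  -- bounds for the numbers of crossings
  have hN : ∀ x ∈ (prism G).edgeSet, ∀ x' ∈ (prism G).edgeSet, x ≠ x' →
      Nx (W x) (W x') ≤ DX P x x' := by
    intro x hx x' hx' hne
    have hx1 := mem_eF.mpr hx
    have hx2 := mem_eF.mpr hx'
    exact (hN2 x hx1 x' hx2).trans ((hN1 x hx1 x' hx2).trans (hN0 x hx x' hx' hne))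
  -- the page edges
  obtain ⟨pe, hpe⟩ : ∃ pe : Sym2 V → Sym2 (V × Bool), ∀ e, pe e = pg (π (c e)) e :=
    ⟨fun e => pg (π (c e)) e, fun _ => rfl⟩
  have hpinj : ∀ e f, pe e = pe f → e = f := fun e f h => by
    rw [hpe, hpe] at h; exact pg_inj h
  have hpmem : ∀ e ∈ G.edgeSet, pe e ∈ (prism G).edgeSet := fun e he => by
    rw [hpe]; exact pg_mem he
  have hrp : ∀ y e, rung y ≠ pe e := fun y e => by rw [hpe]; exact rung_ne_pg y _ e
  have hhd : ∀ e ∈ G.edgeSet, hd (pe e) = (c e, π (c e)) := fun e he => by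
    rw [hpe]; exact (hlp e he).1
  have htl : ∀ e ∈ G.edgeSet, tl (pe e) = (o e, π (c e)) := fun e he => by
    rw [hpe]; exact (hlp e he).2
  have hcone : ∀ e ∈ G.edgeSet, c e ≠ o e := fun e he h => by
    have h7 := hco e he
    rw [← h7, SimpleGraph.mem_edgeSet, h] at he
    exact he.ne rfl
  obtain ⟨R, hR⟩ : ∃ R : Finset (Sym2 (V × Bool)), R = Finset.univ.image (fun y : V => rung y) :=
    ⟨_, rfl⟩
  have hRmem : ∀ x, x ∈ R ↔ ∃ y, x = rung y := by
    intro x
    rw [hR, Finset.mem_image]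
    exact ⟨fun ⟨y, _, h⟩ => ⟨y, h.symm⟩, fun ⟨y, h⟩ => ⟨y, Finset.mem_univ _, h.symm⟩⟩
  obtain ⟨A, hA⟩ : ∃ A : Finset (Sym2 (V × Bool)), A = R ∪ (eF G).image pe := ⟨_, rfl⟩
  have hAmem : ∀ x, x ∈ A ↔ (∃ y, x = rung y) ∨ ∃ e ∈ G.edgeSet, x = pe e := by
    intro x
    rw [hA, Finset.mem_union, hRmem, Finset.mem_image]
    refine or_congr Iff.rfl ⟨fun ⟨e, he, h⟩ => ⟨e, mem_eF.mp he, h.symm⟩,
      fun ⟨e, he, h⟩ => ⟨e, mem_eF.mpr he, h.symm⟩⟩
  have hAsub : A ⊆ eF (prism G) := by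
    intro x hx
    rw [mem_eF]
    rcases (hAmem x).mp hx with ⟨y, rfl⟩ | ⟨e, he, rfl⟩
    · exact rung_mem y
    · exact hpmem e he
  have hRA : R ⊆ A := fun x hx => (hAmem x).mpr (Or.inl ((hRmem x).mp hx))
  have hpeA : ∀ e ∈ G.edgeSet, pe e ∈ A ∧ pe e ∉ R := fun e he =>
    ⟨(hAmem _).mpr (Or.inr ⟨e, he, rfl⟩), fun h => by
      obtain ⟨y, hy⟩ := (hRmem _).mp h
      exact hrp y e hy.symm⟩
  have hAR : ∀ x, x ∈ A → x ∉ R → ∃ e ∈ G.edgeSet, x = pe e := by
    intro x hx hxR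
    rcases (hAmem x).mp hx with h | h
    · exact absurd ((hRmem x).mpr h) hxR
    · exact h
  -- the contraction
  obtain ⟨κ, hκ⟩ : ∃ κ : V × Bool → V × Bool, ∀ v, κ v = (v.1, π v.1) :=
    ⟨fun v => (v.1, π v.1), fun _ => rfl⟩
  have hκhd : ∀ e ∈ G.edgeSet, κ (hd (pe e)) = (c e, π (c e)) := fun e he => by
    rw [hhd e he, hκ]
  have hκtl : ∀ e ∈ G.edgeSet, κ (tl (pe e)) = (o e, π (o e)) := fun e he => by
    rw [htl e he, hκ]
  obtain ⟨W', hPL', hPO', hLb', hN'⟩ := h5 (V × Bool) (Sym2 (V × Bool)) A R hd tl _ W κ hRA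
    (PL_mono hPL hAsub) (PO_mono hPO hAsub) (Lb_mono hLb hAsub)
    (by
      intro r hr r' hr'
      obtain ⟨y, rfl⟩ := (hRmem _).mp hr
      obtain ⟨z, rfl⟩ := (hRmem _).mp hr'
      by_cases h : rung y = rung z
      · rw [← h]
        exact hself _ (mem_eF.mpr (rung_mem y))
      · have := hN _ (rung_mem y) _ (rung_mem z) h
        rw [hPrr y z] at this
        exact Nat.le_zero.mp this)
    (by
      intro r hr r' hr' h
      obtain ⟨y, rfl⟩ := (hRmem _).mp hr
      obtain ⟨z, rfl⟩ := (hRmem _).mp hr'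
      rw [(hlr y).1, (hlr z).1] at h
      rw [(Prod.mk.inj h).1])
    (by
      intro r hr r' hr' h
      obtain ⟨y, rfl⟩ := (hRmem _).mp hr
      obtain ⟨z, rfl⟩ := (hRmem _).mp hr'
      rw [(hlr y).1, (hlr z).2] at h
      obtain ⟨h7, h8⟩ := Prod.mk.inj h
      rw [h7] at h8
      cases hz : π z <;> rw [hz] at h8 <;> exact absurd h8 (by decide))
    (by
      intro r hr
      obtain ⟨y, rfl⟩ := (hRmem _).mp hr
      rw [(hlr y).1, (hlr y).2, hκ])
    (by
      rintro ⟨y, b⟩ hv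
      rw [hκ]
      have h7 := hv (rung y) ((hRmem _).mpr ⟨y, rfl⟩)
      rw [(hlr y).1] at h7
      have h8 : b ≠ !π y := fun h => h7 (by rw [h])
      have h9 : b = π y := by
        cases hb : b <;> cases hp : π y <;> rw [hb, hp] at h8 <;> first | rfl | exact absurd rfl h8
      rw [h9])
    (by
      intro i hi
      rw [msd] at hi
      obtain ⟨e, he, rfl⟩ := hAR i hi.1 hi.2
      rw [hκhd e he, hκtl e he]
      intro h
      exact hcone e he (Prod.mk.inj h).1)
    (by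
      intro i hi j hj hij h
      rw [msd] at hi hj
      obtain ⟨e, he, rfl⟩ := hAR i hi.1 hi.2
      obtain ⟨f, hf, rfl⟩ := hAR j hj.1 hj.2
      rw [hκhd e he, hκtl e he, hκhd f hf, hκtl f hf] at h
      have h7 := congrArg (Sym2.map Prod.fst) h
      simp only [Sym2.map_mk] at h7
      rw [hco e he, hco f hf] at h7
      exact hij (by rw [h7]))
  have hsd := fun (e : Sym2 V) (he : e ∈ eF G) =>
    (msd (A := A) (R := R) (i := pe e)).mpr (hpeA e (mem_eF.mp he))
  -- the drawing of `G`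
  obtain ⟨D', hD'f, hD'⟩ := h6 V G c o (fun v => (fun v => φ (P.pos v)) (v, π v))
    (fun e => W' (pe e)) hco
    ⟨fun i hi => hPL'.len _ (hsd i hi), fun i hi => hPL'.nd _ (hsd i hi),
      fun i hi j hj hij => hPL'.sep _ (hsd i hi) _ (hsd j hj) fun h => hij (hpinj i j h)⟩
    (fun i hi j hj => hPO' _ (hsd i hi) _ (hsd j hj))
    (by
      refine ⟨fun i hi j hj u hu v hv huv => ?_, fun i hi => ?_, fun i hi => ?_⟩
      · have h7 := hLb'.inj _ (hsd i hi) _ (hsd j hj) (u, π u) (by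
          rw [hκhd i (mem_eF.mp hi), hκtl i (mem_eF.mp hi), Sym2.mem_iff]
          rw [Sym2.mem_iff] at hu
          rcases hu with rfl | rfl
          · exact Or.inl rfl
          · exact Or.inr rfl) (v, π v) (by
          rw [hκhd j (mem_eF.mp hj), hκtl j (mem_eF.mp hj), Sym2.mem_iff]
          rw [Sym2.mem_iff] at hv
          rcases hv with rfl | rfl
          · exact Or.inl rfl
          · exact Or.inr rfl) huv
        exact (Prod.mk.inj h7).1
      · have h7 := hLb'.head _ (hsd i hi)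
        rw [hκhd i (mem_eF.mp hi)] at h7
        exact h7
      · have h7 := hLb'.last _ (hsd i hi)
        rw [hκtl i (mem_eF.mp hi)] at h7
        exact h7)
  -- counting
  have hcr : crossingNumber G ≤ D'.crossings.ncard := Nat.sInf_le ⟨D', hD'f, rfl⟩
  have hcnt := (h0 V G D').2 hD'f
  obtain ⟨T1, hT1⟩ : ∃ T1 : Sym2 V → Sym2 V → ℕ, ∀ e f, T1 e f =
    if π (c e) = π (c f) then DX D (toC e) (toC f) else 0 := ⟨_, fun _ _ => rfl⟩
  obtain ⟨T2, hT2⟩ : ∃ T2 : Sym2 V → Sym2 V → ℕ, ∀ e f, T2 e f =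
    if π (c e) = π (o e) then 0 else DX D (arm (o e)) (toC f) := ⟨_, fun _ _ => rfl⟩
  -- the rungs
  have hrung : ∀ e ∈ G.edgeSet, ∀ f ∈ G.edgeSet,
      (∑ r ∈ R, if hd r ∈ s(hd (pe e), tl (pe e)) then Nx (W r) (W (pe f)) else 0) ≤ T2 e f := by
    intro e he f hf
    rw [hR, Finset.sum_image (fun y _ z _ h => rung_inj h), hT2]
    have hterm : ∀ y : V, (if hd (rung y) ∈ s(hd (pe e), tl (pe e)) then
        Nx (W (rung y)) (W (pe f)) else 0) ≤
        if y = o e then (if π (c e) = π (o e) then 0 else DX D (arm (o e)) (toC f)) else 0 := by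
      intro y
      by_cases hm : hd (rung y) ∈ s(hd (pe e), tl (pe e))
      · rw [if_pos hm]
        rw [(hlr y).1, hhd e he, htl e he, Sym2.mem_iff] at hm
        have hy : y = o e ∧ π (c e) ≠ π (o e) := by
          rcases hm with h | h
          · obtain ⟨h7, h8⟩ := Prod.mk.inj h
            rw [h7] at h8
            cases hz : π (c e) <;> rw [hz] at h8 <;> exact absurd h8 (by decide)
          · obtain ⟨h7, h8⟩ := Prod.mk.inj h
            refine ⟨h7, fun h9 => ?_⟩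
            rw [h7, h9] at h8
            cases hz : π (o e) <;> rw [hz] at h8 <;> exact absurd h8 (by decide)
        rw [if_pos hy.1, if_neg hy.2, ← hy.1]
        refine (hN _ (rung_mem y) _ (hpmem f hf) (hrp y f)).trans ?_
        rw [hpe f]
        exact hPr y f hf _
      · rw [if_neg hm]; exact Nat.zero_le _
    refine (Finset.sum_le_sum fun y _ => hterm y).trans ?_
    rw [Finset.sum_ite_eq' Finset.univ (o e), if_pos (Finset.mem_univ _)]
  have hkey : ∀ e ∈ G.edgeSet, ∀ f ∈ G.edgeSet, e ≠ f →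
      DX D' e f ≤ T1 e f + T2 e f + T2 f e := by
    intro e he f hf hef
    refine (hD' e he f hf hef).trans ?_
    have hpne : pe e ≠ pe f := fun h => hef (hpinj e f h)
    refine (hN' _ (hsd e (mem_eF.mpr he)) _ (hsd f (mem_eF.mpr hf)) hpne).trans ?_
    refine add_le_add (add_le_add ?_
      (le_trans (le_of_eq (Finset.sum_congr rfl fun r _ => by congr)) (hrung e he f hf)))
      (le_trans (le_of_eq (Finset.sum_congr rfl fun r _ => by congr)) (hrung f hf e he))
    refine (hN _ (hpmem e he) _ (hpmem f hf) hpne).trans ?_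
    rw [hT1, hpe e, hpe f]
    by_cases h : π (c e) = π (c f)
    · rw [if_pos h, ← h]
      exact hPp e he f hf hef _
    · rw [if_neg h, hPd e he f hf _ _ h]
  have hsum : ∑ e : Sym2 V, ∑ f : Sym2 V, DX D' e f ≤
      ∑ e ∈ eF G, ∑ f ∈ eF G, (T1 e f + T2 e f + T2 f e) := by
    have hz : ∀ e f : Sym2 V, ¬ (e ∈ G.edgeSet ∧ f ∈ G.edgeSet ∧ e ≠ f) → DX D' e f = 0 := by
      intro e f h; unfold DX; rw [if_neg h]
    have e1 : ∑ e : Sym2 V, ∑ f : Sym2 V, DX D' e f = ∑ e ∈ eF G, ∑ f ∈ eF G, DX D' e f := by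
      symm
      rw [Finset.sum_subset (Finset.subset_univ (eF G)) (f := fun e => ∑ f ∈ eF G, DX D' e f)]
      · refine Finset.sum_congr rfl fun e _ => ?_
        exact Finset.sum_subset (Finset.subset_univ _) fun f _ hf =>
          hz e f fun h => hf (mem_eF.mpr h.2.1)
      · intro e _ he
        exact Finset.sum_eq_zero fun f _ => hz e f fun h => he (mem_eF.mpr h.1)
    rw [e1]
    refine Finset.sum_le_sum fun e he => Finset.sum_le_sum fun f hf => ?_
    by_cases hef : e = f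
    · rw [hz e f fun h => h.2.2 hef]; exact Nat.zero_le _
    · exact hkey e (mem_eF.mp he) f (mem_eF.mp hf) hef
  have hT2s : ∀ e, ∑ f ∈ eF G, T2 e f ≤ if π (c e) = π (o e) then 0 else Cc D (o e) := by
    intro e
    simp only [hT2]
    by_cases h : π (c e) = π (o e)
    · simp [h]
    · simp only [if_neg h]
      unfold Cc
      exact Finset.sum_le_sum_of_subset (Finset.subset_univ _)
  have hfin : ∑ e ∈ eF G, ∑ f ∈ eF G, (T1 e f + T2 e f + T2 f e) ≤
      (∑ e ∈ eF G, ∑ f ∈ eF G, T1 e f) +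
        2 * ∑ e ∈ eF G, if π (c e) = π (o e) then 0 else Cc D (o e) := by
    have e2 : ∑ e ∈ eF G, ∑ f ∈ eF G, T2 f e = ∑ e ∈ eF G, ∑ f ∈ eF G, T2 e f :=
      Finset.sum_comm
    simp only [Finset.sum_add_distrib]
    rw [e2]
    have e3 : ∑ e ∈ eF G, ∑ f ∈ eF G, T2 e f ≤
        ∑ e ∈ eF G, if π (c e) = π (o e) then 0 else Cc D (o e) :=
      Finset.sum_le_sum fun e _ => hT2s e
    omega
  have hT1s : ∑ e ∈ eF G, ∑ f ∈ eF G, T1 e f = ∑ e ∈ eF G, ∑ f ∈ eF G,
      if π (c e) = π (c f) then DX D (toC e) (toC f) else 0 :=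
    Finset.sum_congr rfl fun e _ => Finset.sum_congr rfl fun f _ => hT1 e f
  rw [hT1s] at hfin
  calc 2 * crossingNumber G ≤ 2 * D'.crossings.ncard := Nat.mul_le_mul_left 2 hcr
    _ = ∑ e : Sym2 V, ∑ f : Sym2 V, DX D' e f := hcnt
    _ ≤ _ := hsum
    _ ≤ _ := hfin

end Pool.Agent.NH90.CN
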