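import Pool.Agent.NH90.CN.Stm
import Pool.Agent.Helper805.CHS.Density

set_option autoImplicit false

open Set Classical
open Pool.Agent.Helper770.Crossing Pool.Agent.Helper770.Sep
open Pool.Agent.Helper805.CHS

namespace Pool.Agent.NH90.CN

namespace Mad

theorem triangle {V : Type} (G : SimpleGraph V) : ∀ n : ℕ, ∀ P : Finset (Set V), P.card = n →
    Fam G P → 0 < n → 2 * P.card ≤ (prs G P).card → Mod G P 3 := by
  intro n
  induction n with
  | zero => intro P _ _ h; exact absurd h (lt_irrefl 0)
  | succ n ihn =>
    intro P hn hP _ hc
    have hpos : 0 < (prs G P).card := by omega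
    obtain ⟨p, hp⟩ := Finset.card_pos.1 hpos
    obtain ⟨g1, g2, g3, g4⟩ := mem_prs.1 hp
    by_cases hex : (cmn G P p.1 p.2).Nonempty
    · obtain ⟨D, hD⟩ := hex
      obtain ⟨d1, d2, d3, d4, d5⟩ := mem_cmn.1 hD
      refine ⟨![p.1, p.2, D], ?_, ?_, ?_, ?_, ?_⟩
      · intro i
        fin_cases i
        · exact hP.conn _ g1
        · exact hP.conn _ g2
        · exact hP.conn _ d1
      · intro i j hij
        fin_cases i <;> fin_cases j
        · exact absurd rfl hij
        · exact hP.disj _ g1 _ g2 g3
        · exact hP.disj _ g1 _ d1 d2.symm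
        · exact hP.disj _ g2 _ g1 g3.symm
        · exact absurd rfl hij
        · exact hP.disj _ g2 _ d1 d3.symm
        · exact hP.disj _ d1 _ g1 d2
        · exact hP.disj _ d1 _ g2 d3
        · exact absurd rfl hij
      · intro i j hij
        fin_cases i <;> fin_cases j
        · exact absurd rfl hij
        · exact g4
        · exact d4
        · exact g4.symm
        · exact absurd rfl hij
        · exact d5
        · exact d4.symm
        · exact d5.symm
        · exact absurd rfl hij
      · intro i
        fin_cases i
        · exact ⟨p.1, g1, le_rfl⟩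
        · exact ⟨p.2, g2, le_rfl⟩
        · exact ⟨D, d1, le_rfl⟩
      · intro i v hv
        fin_cases i
        · exact ⟨p.1, g1, hv⟩
        · exact ⟨p.2, g2, hv⟩
        · exact ⟨D, d1, hv⟩
    · obtain ⟨P', hF, hcard, hcount, hm1, hm2⟩ := contract_step hP g1 g2 g3 g4
      have h0 : (cmn G P p.1 p.2).card = 0 :=
        Finset.card_eq_zero.2 (Finset.not_nonempty_iff_eq_empty.1 hex)
      have h1 : P'.card = n := by omega
      have h2 : 2 ≤ P.card := by
        have : ({p.1, p.2} : Finset (Set V)) ⊆ P := by
          intro x hx
          rcases Finset.mem_insert.1 hx with h | h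
          · rw [h]; exact g1
          · rw [Finset.mem_singleton.1 h]; exact g2
        have h3 := Finset.card_le_card this
        rwa [Finset.card_pair g3] at h3
      obtain ⟨f, f1, f2, f3, f4, f5⟩ := ihn P' h1 hF (by omega) (by omega)
      refine ⟨f, f1, f2, f3, ?_, ?_⟩
      · intro i
        obtain ⟨D, hD, hDs⟩ := f4 i
        obtain ⟨D', hD', hDs'⟩ := hm1 D hD
        exact ⟨D', hD', hDs'.trans hDs⟩
      · intro i v hv
        obtain ⟨D, hD, hvD⟩ := f5 i v hv
        exact hm2 D hD v hvD

theorem mader {V : Type} (G : SimpleGraph V) (k : ℕ) : ∀ P : Finset (Set V), Fam G P →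
    P.Nonempty → 2 * 2 ^ k * P.card ≤ (prs G P).card → Mod G P (k + 3) := by
  induction k with
  | zero =>
    intro P hP hne hc
    exact triangle G P.card P rfl hP (Finset.card_pos.2 hne) (by omega)
  | succ k ih =>
    have key : ∀ n : ℕ, ∀ P : Finset (Set V), P.card = n → Fam G P → 0 < n →
        2 * 2 ^ (k + 1) * P.card ≤ (prs G P).card → Mod G P (k + 1 + 3) := by
      intro n
      induction n with
      | zero => intro P _ _ h; exact absurd h (lt_irrefl 0)
      | succ n ihn =>
        intro P hn hP _ hc
        have hc1 : 2 ^ (k + 1) = 2 * 2 ^ k := by rw [pow_succ]; ring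
        set c : ℕ := 2 ^ (k + 1) with hcdef
        have hcpos : 0 < c := by rw [hcdef]; positivity
        have hpos : 0 < (prs G P).card := by
          refine lt_of_lt_of_le ?_ hc
          have : 0 < P.card := by omega
          positivity
        by_cases hex : ∃ A ∈ P, ∃ B ∈ P, A ≠ B ∧ Rl G A B ∧ (cmn G P A B).card < c
        · obtain ⟨A, hA, B, hB, hAB, hR, hT⟩ := hex
          obtain ⟨P', hF, hcard, hcount, hm1, hm2⟩ := contract_step hP hA hB hAB hR
          have h1 : P'.card = n := by omega
          have h2 : 2 * c * P'.card ≤ (prs G P').card := by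
            have h3 : 2 * c * P.card = 2 * c * P'.card + 2 * c := by
              rw [← hcard]; ring
            omega
          have h4 : 2 ≤ P.card := by
            have : ({A, B} : Finset (Set V)) ⊆ P := by
              intro x hx
              rcases Finset.mem_insert.1 hx with h | h
              · rw [h]; exact hA
              · rw [Finset.mem_singleton.1 h]; exact hB
            have h3 := Finset.card_le_card this
            rwa [Finset.card_pair hAB] at h3
          obtain ⟨f, f1, f2, f3, f4, f5⟩ := ihn P' h1 hF (by omega) h2
          refine ⟨f, f1, f2, f3, ?_, ?_⟩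
          · intro i
            obtain ⟨D, hD, hDs⟩ := f4 i
            obtain ⟨D', hD', hDs'⟩ := hm1 D hD
            exact ⟨D', hD', hDs'.trans hDs⟩
          · intro i v hv
            obtain ⟨D, hD, hvD⟩ := f5 i v hv
            exact hm2 D hD v hvD
        · push Not at hex
          obtain ⟨p, hp⟩ := Finset.card_pos.1 hpos
          obtain ⟨g1, g2, g3, g4⟩ := mem_prs.1 hp
          set A := p.1 with hA
          set Q := P.filter (fun B => B ≠ A ∧ Rl G A B) with hQ
          have hQP : Q ⊆ P := Finset.filter_subset _ _
          have hQF : Fam G Q := ⟨fun B hB => hP.conn B (hQP hB),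
            fun B hB D hD => hP.disj B (hQP hB) D (hQP hD)⟩
          have hQne : Q.Nonempty := ⟨p.2, Finset.mem_filter.2 ⟨g2, g3.symm, g4⟩⟩
          have hcnt : c * Q.card ≤ (prs G Q).card := by
            rw [mul_comm]
            apply prs_card_ge
            intro B hB
            obtain ⟨b1, b2, b3⟩ := Finset.mem_filter.1 hB
            refine ⟨cmn G P A B, hex A g1 B b1 b2.symm b3, ?_⟩
            intro D hD
            obtain ⟨d1, d2, d3, d4, d5⟩ := mem_cmn.1 hD
            exact ⟨Finset.mem_filter.2 ⟨d1, d2, d4⟩, d3.symm, d5⟩
          obtain ⟨f, f1, f2, f3, f4, f5⟩ := ih Q hQF hQne (by rw [← hc1]; exact hcnt)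
          have hdisj : ∀ i, Disjoint A (f i) := by
            intro i
            rw [Set.disjoint_left]
            intro v hvA hvf
            obtain ⟨D, hD, hvD⟩ := f5 i v hvf
            obtain ⟨d1, d2, -⟩ := Finset.mem_filter.1 hD
            exact Set.disjoint_left.1 (hP.disj A g1 D d1 d2.symm) hvA hvD
          have hadj : ∀ i, Rl G A (f i) := by
            intro i
            obtain ⟨D, hD, hDs⟩ := f4 i
            obtain ⟨d1, d2, d3⟩ := Finset.mem_filter.1 hD
            exact d3.mono le_rfl hDs
          refine ⟨Fin.cons A f, ?_, ?_, ?_, ?_, ?_⟩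
          · intro i
            refine Fin.cases ?_ ?_ i
            · exact hP.conn A g1
            · intro j; exact f1 j
          · intro i j
            refine Fin.cases ?_ ?_ i
            · refine Fin.cases ?_ ?_ j
              · intro h; exact absurd rfl h
              · intro j _; exact hdisj j
            · intro i
              refine Fin.cases ?_ ?_ j
              · intro _; exact (hdisj i).symm
              · intro j h
                exact f2 i j (fun e => h (by rw [e]))
          · intro i j
            refine Fin.cases ?_ ?_ i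
            · refine Fin.cases ?_ ?_ j
              · intro h; exact absurd rfl h
              · intro j _; exact hadj j
            · intro i
              refine Fin.cases ?_ ?_ j
              · intro _; exact (hadj i).symm
              · intro j h
                exact f3 i j (fun e => h (by rw [e]))
          · intro i
            refine Fin.cases ?_ ?_ i
            · exact ⟨A, g1, le_rfl⟩
            · intro j
              obtain ⟨D, hD, hDs⟩ := f4 j
              exact ⟨D, hQP hD, hDs⟩
          · intro i
            refine Fin.cases ?_ ?_ i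
            · intro v hv; exact ⟨A, g1, hv⟩
            · intro j v hv
              obtain ⟨D, hD, hDs⟩ := f5 j v hv
              exact ⟨D, hQP hD, hDs⟩
    intro P hP hne hc
    exact key P.card P rfl hP (Finset.card_pos.2 hne) hc

/-- connectedness of a set of vertices, in the formalism of `Helper770` -/
theorem conn_of_induce {Z : Type} [Fintype Z] {P : SimpleGraph Z} {S : Set Z}
    (h : (P.induce S).Connected) : Conn P S.toFinset := by
  refine conn_of_induct ?_ ?_
  · obtain ⟨a, ha⟩ := nonempty_of_conn h
    exact ⟨a, Set.mem_toFinset.2 ha⟩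
  · rintro p ⟨x, hx, hpx⟩ hs y hy
    obtain ⟨w⟩ := h.preconnected ⟨x, Set.mem_toFinset.1 hx⟩ ⟨y, Set.mem_toFinset.1 hy⟩
    have key : ∀ (u v : S), (P.induce S).Walk u v → p u → p v := by
      intro u v w
      induction w with
      | nil => exact id
      | cons hadj _ ih =>
        intro hu
        exact ih (hs _ (Set.mem_toFinset.2 (Subtype.mem _)) _ (Set.mem_toFinset.2 (Subtype.mem _))
          hadj hu)
    exact key _ _ w hpx

end Mad

theorem t_MAD : S_MAD := by
  intro Z _ P hP
  rcases isEmpty_or_nonempty Z with hZ | hZ
  · have : eF P = ∅ := by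
      refine Finset.eq_empty_of_forall_notMem fun e => ?_
      induction e with | _ a b => exact isEmptyElim a
    rw [this, Finset.card_empty]
    exact Nat.zero_le _
  by_contra hcon
  have hcon := not_le.1 hcon
  set F : Finset (Set Z) := Finset.univ.image (fun z : Z => ({z} : Set Z)) with hF
  have hFc : F.card = Fintype.card Z := by
    rw [hF, Finset.card_image_of_injective _ Set.singleton_injective, Finset.card_univ]
  have hFam : Fam P F := by
    constructor
    · intro A hA
      obtain ⟨z, -, rfl⟩ := Finset.mem_image.1 hA
      rw [SimpleGraph.connected_iff]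
      refine ⟨?_, ⟨⟨z, rfl⟩⟩⟩
      rintro ⟨a, ha⟩ ⟨b, hb⟩
      have ha' : a = z := ha
      have hb' : b = z := hb
      subst ha'
      subst hb'
      exact SimpleGraph.Reachable.refl _
    · intro A hA B hB hAB
      obtain ⟨z, -, rfl⟩ := Finset.mem_image.1 hA
      obtain ⟨y, -, rfl⟩ := Finset.mem_image.1 hB
      rw [Set.disjoint_singleton]
      rintro rfl
      exact hAB rfl
  have hne : F.Nonempty := by
    obtain ⟨z⟩ := hZ
    exact ⟨{z}, Finset.mem_image_of_mem _ (Finset.mem_univ z)⟩
  have hedge : (eF P).card = P.edgeFinset.card := by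
    congr 1
    ext e
    simp only [eF, Finset.mem_filter, Finset.mem_univ, true_and, SimpleGraph.mem_edgeFinset]
  have hdart : Fintype.card P.Dart ≤ (prs P F).card := by
    rw [← Finset.card_univ]
    apply Finset.card_le_card_of_injOn (fun d : P.Dart => (({d.fst} : Set Z), ({d.snd} : Set Z)))
    · intro d _
      apply Finset.mem_coe.2
      rw [mem_prs]
      refine ⟨Finset.mem_image_of_mem _ (Finset.mem_univ _),
        Finset.mem_image_of_mem _ (Finset.mem_univ _), ?_, d.fst, rfl, d.snd, rfl, d.adj⟩
      intro h
      exact d.adj.ne (Set.singleton_injective h)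
    · intro d _ d' _ h
      obtain ⟨h1, h2⟩ := Prod.mk.inj h
      exact SimpleGraph.Dart.ext _ _ (Prod.ext (Set.singleton_injective h1)
        (Set.singleton_injective h2))
  rw [P.dart_card_eq_twice_card_edges, ← hedge] at hdart
  obtain ⟨f, f1, f2, f3, -, -⟩ := Mad.mader P 2 F hFam hne (by rw [hFc]; omega)
  refine hP (fun i => (f i).toFinset) (fun i => Mad.conn_of_induce (f1 i)) ?_ ?_
  · intro i j hij
    rw [Set.disjoint_toFinset]
    exact f2 i j hij
  · intro i j hij
    obtain ⟨a, ha, b, hb, hab⟩ := f3 i j hij
    exact ⟨a, Set.mem_toFinset.2 ha, b, Set.mem_toFinset.2 hb, hab⟩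

end Pool.Agent.NH90.CN
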