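import Pool.Agent.NH90.CN.Stm

/-!
# Project CN: moving a vertex along a segment (geometry)
-/

set_option autoImplicit false

open Set Classical Filter Topology

namespace Pool.Agent.NH90.CN

namespace MOVE

theorem sg_eq (u v : ℂ) : sg s(u, v) = segment ℝ u v := by
  have h : {z : ℂ | z ∈ s(u, v)} = {u, v} := by
    ext z
    simp
  rw [sg, h, convexHull_pair]

theorem sg_closed (s : Sym2 ℂ) : IsClosed (sg s) := by
  induction s with
  | _ u v =>
    rw [sg_eq]
    have : IsCompact (segment ℝ u v) := by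
      rw [segment_eq_image]
      exact isCompact_Icc.image (by fun_prop)
    exact this.isClosed

theorem seg_compact (u v : ℂ) : IsCompact (segment ℝ u v) := by
  rw [segment_eq_image]
  exact isCompact_Icc.image (by fun_prop)

/-- a closed set disjoint from the segment is disjoint from the nearby segments -/
theorem ev_disj {a p : ℂ} {K : Set ℂ} (hK : IsClosed K) (hd : Disjoint K (segment ℝ a p)) :
    ∀ᶠ b in 𝓝 a, Disjoint K (segment ℝ b p) := by
  obtain ⟨δ, hδ, hdis⟩ := hd.symm.exists_thickenings (seg_compact a p) hK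
  filter_upwards [Metric.ball_mem_nhds a hδ] with b hb
  rw [Set.disjoint_left]
  intro z hz hzb
  rw [segment_eq_image] at hzb
  obtain ⟨t, ht, rfl⟩ := hzb
  have h1 : (1 - t) • b + t • p ∈ Metric.thickening δ (segment ℝ a p) := by
    rw [Metric.mem_thickening_iff]
    refine ⟨(1 - t) • a + t • p, ?_, ?_⟩
    · rw [segment_eq_image]
      exact ⟨t, ht, rfl⟩
    · rw [dist_add_right, dist_eq_norm, ← smul_sub, norm_smul, Real.norm_eq_abs,
        abs_of_nonneg (by linarith [ht.2])]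
      have h2 : ‖b - a‖ < δ := by
        rw [← dist_eq_norm]
        exact hb
      have h3 : (1 - t) * ‖b - a‖ ≤ ‖b - a‖ := by
        have := norm_nonneg (b - a)
        nlinarith [ht.1]
      linarith
  have h2 : (1 - t) • b + t • p ∈ Metric.thickening δ K :=
    Metric.self_subset_thickening hδ K hz
  exact Set.disjoint_left.1 hdis h1 h2

/-- the exponents -/
noncomputable def kk (z : ℂ) : ℝ := Real.exp (-(z.re / |z.im|))

theorem kk_pos (z : ℂ) : 0 < kk z := Real.exp_pos _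

theorem tendsto_rpow {k : ℝ} (hk : 0 < k) :
    Tendsto (fun ε : ℝ => ε ^ k) (𝓝[>] 0) (𝓝 0) := by
  have h := (Real.continuousAt_rpow_const 0 k (Or.inr hk.le)).tendsto
  rw [Real.zero_rpow hk.ne'] at h
  exact h.mono_left nhdsWithin_le_nhds

theorem ev_lt {z w : ℂ} (h : 0 < z.im * w.im) (hc : z.re * |w.im| < w.re * |z.im|) :
    ∀ᶠ ε : ℝ in 𝓝[>] 0, ε ^ kk z * |z.im| < ε ^ kk w * |w.im| := by
  have hz : z.im ≠ 0 := by rintro h0; rw [h0] at h; simp at h
  have hw : w.im ≠ 0 := by rintro h0; rw [h0] at h; simp at h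
  have hz' := abs_pos.2 hz
  have hw' := abs_pos.2 hw
  have hk : kk w < kk z := by
    unfold kk
    rw [Real.exp_lt_exp, neg_lt_neg_iff, div_lt_div_iff₀ hz' hw']
    exact hc
  have h1 := tendsto_rpow (sub_pos.2 hk)
  have h2 : ∀ᶠ ε : ℝ in 𝓝[>] 0, ε ^ (kk z - kk w) < |w.im| / |z.im| :=
    h1.eventually (gt_mem_nhds (div_pos hw' hz'))
  filter_upwards [h2, self_mem_nhdsWithin] with ε h3 h4
  have h4' : (0 : ℝ) < ε := h4
  have h5 : ε ^ kk z = ε ^ (kk z - kk w) * ε ^ kk w := by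
    rw [← Real.rpow_add h4']
    congr 1
    ring
  have h6 : 0 < ε ^ kk w := Real.rpow_pos_of_pos h4' _
  rw [lt_div_iff₀ hz'] at h3
  calc ε ^ kk z * |z.im| = (ε ^ (kk z - kk w) * |z.im|) * ε ^ kk w := by rw [h5]; ring
    _ < |w.im| * ε ^ kk w := by exact mul_lt_mul_of_pos_right h3 h6
    _ = ε ^ kk w * |w.im| := by ring

/-- proportional vectors -/
theorem prop_of {z w : ℂ} (h : 0 < z.im * w.im) (hc : z.re * |w.im| = w.re * |z.im|) :
    ∃ r : ℝ, 0 < r ∧ z = r * w := by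
  have hz : z.im ≠ 0 := by rintro h0; rw [h0] at h; simp at h
  have hw : w.im ≠ 0 := by rintro h0; rw [h0] at h; simp at h
  refine ⟨z.im / w.im, ?_, ?_⟩
  · rw [← mul_div_mul_right z.im w.im hw]
    exact div_pos h (mul_self_pos.2 hw)
  · apply Complex.ext
    · rw [Complex.re_ofReal_mul]
      field_simp
      rcases mul_pos_iff.1 h with ⟨h1, h2⟩ | ⟨h1, h2⟩
      · rw [abs_of_pos h1, abs_of_pos h2] at hc
        linarith
      · rw [abs_of_neg h1, abs_of_neg h2] at hc
        linarith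
    · rw [Complex.im_ofReal_mul]
      field_simp

theorem core1 {z w : ℂ} {t τ s μ : ℝ} (ht : 0 < t) (hτ : 0 < τ) (hs0 : 0 ≤ s) (hs1 : s ≤ 1)
    (hμ : τ ≤ μ) (hw : ¬ ∃ r : ℝ, 0 < r ∧ w = r) (hz : ¬ ∃ r : ℝ, 0 < r ∧ z = r) (w0 : w ≠ 0)
    (z0 : z ≠ 0) (hzw : ¬ ∃ r : ℝ, 0 < r ∧ z = r * w)
    (hk : 0 < z.im * w.im → z.re * |w.im| < w.re * |z.im| → t * |z.im| < τ * |w.im|)
    (e : ((1 - s) * t : ℝ) * z + (s : ℝ) = (μ : ℝ) * w) : False := by
  have hre : (1 - s) * t * z.re + s = μ * w.re := by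
    have := congrArg Complex.re e
    rwa [Complex.add_re, Complex.re_ofReal_mul, Complex.ofReal_re, Complex.re_ofReal_mul] at this
  have him : (1 - s) * t * z.im = μ * w.im := by
    have := congrArg Complex.im e
    rwa [Complex.add_im, Complex.im_ofReal_mul, Complex.ofReal_im, Complex.im_ofReal_mul,
      add_zero] at this
  have hμ0 : 0 < μ := hτ.trans_le hμ
  have negre : ∀ v : ℂ, v ≠ 0 → (¬ ∃ r : ℝ, 0 < r ∧ v = r) → v.im = 0 → v.re < 0 := by
    intro v v0 hv hi
    rcases lt_trichotomy v.re 0 with h | h | h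
    · exact h
    · exact absurd (Complex.ext h hi) v0
    · exact absurd ⟨v.re, h, Complex.ext (by simp) (by simp [hi])⟩ hv
  by_cases hwi : w.im = 0
  · have hwr := negre w w0 hw hwi
    rw [hwi, mul_zero] at him
    rcases mul_eq_zero.1 him with h | h
    · rcases mul_eq_zero.1 h with h | h
      · have hs : s = 1 := by linarith
        rw [hs] at hre
        have : μ * w.re < 0 := mul_neg_of_pos_of_neg hμ0 hwr
        linarith
      · exact ht.ne' h
    · have hzr := negre z z0 hz h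
      refine hzw ⟨z.re / w.re, div_pos_of_neg_of_neg hzr hwr, Complex.ext ?_ ?_⟩
      · rw [Complex.re_ofReal_mul, div_mul_cancel₀ _ hwr.ne]
      · rw [Complex.im_ofReal_mul, h, hwi, mul_zero]
  · have hw' := abs_pos.2 hwi
    have h1 : (1 - s) * t * |z.im| = μ * |w.im| := by
      have := congrArg abs him
      rwa [abs_mul, abs_mul, abs_mul, abs_of_nonneg (by linarith : 0 ≤ 1 - s), abs_of_pos ht,
        abs_of_pos hμ0] at this
    have h2 : 0 < μ * |w.im| := mul_pos hμ0 hw'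
    have h3 : 0 < z.im * w.im := by
      have h4 : 0 < (1 - s) * t * (z.im * w.im) := by
        have : (1 - s) * t * (z.im * w.im) = μ * (w.im * w.im) := by
          rw [← mul_assoc, him]; ring
        rw [this]
        exact mul_pos hμ0 (mul_self_pos.2 hwi)
      have h5 : 0 ≤ (1 - s) * t := mul_nonneg (by linarith) ht.le
      by_contra h6
      push_neg at h6
      nlinarith
    have h4 : s * |w.im| = (1 - s) * t * (w.re * |z.im| - z.re * |w.im|) := by
      have : s = μ * w.re - (1 - s) * t * z.re := by linarith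
      calc s * |w.im| = (μ * w.re - (1 - s) * t * z.re) * |w.im| := by rw [← this]
        _ = w.re * (μ * |w.im|) - (1 - s) * t * z.re * |w.im| := by ring
        _ = w.re * ((1 - s) * t * |z.im|) - (1 - s) * t * z.re * |w.im| := by rw [h1]
        _ = _ := by ring
    have h5 : 0 < (1 - s) * t := by
      by_contra h6
      have h7 : (1 - s) * t = 0 := le_antisymm (not_lt.1 h6) (mul_nonneg (by linarith) ht.le)
      rw [h7, zero_mul] at h1
      linarith
    have h6 : 0 ≤ w.re * |z.im| - z.re * |w.im| := by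
      by_contra h7
      push_neg at h7
      have := mul_nonneg hs0 hw'.le
      nlinarith [mul_neg_of_pos_of_neg h5 h7]
    rcases h6.lt_or_eq with h7 | h7
    · have h8 := hk h3 (by linarith)
      have h9 : (1 - s) * t * |z.im| ≤ t * |z.im| := by
        have := mul_nonneg ht.le (abs_nonneg z.im)
        nlinarith
      have h10 : τ * |w.im| ≤ μ * |w.im| := mul_le_mul_of_nonneg_right hμ hw'.le
      linarith
    · exact hzw (prop_of h3 (by linarith))

theorem core2 {z w : ℂ} {t τ s : ℝ} (ht : 0 < t) (hτ : 0 < τ) (hs0 : 0 ≤ s) (hs1 : s ≤ 1)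
    (hw : ¬ ∃ r : ℝ, 0 < r ∧ w = r) (hz : ¬ ∃ r : ℝ, 0 < r ∧ z = r) (w0 : w ≠ 0)
    (z0 : z ≠ 0) (hzw : ¬ ∃ r : ℝ, 0 < r ∧ z = r * w)
    (hk : 0 < w.im * z.im → w.re * |z.im| < z.re * |w.im| → τ * |w.im| < t * |z.im|)
    (e : (t : ℝ) * z = ((1 - s) * τ : ℝ) * w + (s : ℝ)) : False := by
  have hwz : ¬ ∃ r : ℝ, 0 < r ∧ w = r * z := by
    rintro ⟨r, hr, h⟩
    refine hzw ⟨r⁻¹, inv_pos.2 hr, ?_⟩
    rw [h, ← mul_assoc, ← Complex.ofReal_mul, inv_mul_cancel₀ hr.ne']
    simp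
  exact core1 (z := w) (w := z) (t := τ) (τ := t) (s := s) (μ := t) hτ ht hs0 hs1 le_rfl hz hw z0 w0
    hwz hk e.symm

end MOVE

open MOVE in
/-- MOVE -/
theorem t_MOVE : S_MOVE := by
  intro a p N Q S hap hpQ hpN haQ hNQ hQp hQg hS
  have hpa : p - a ≠ 0 := sub_ne_zero.2 hap.symm
  set zz : ℂ → ℂ := fun g => (g - a) / (p - a) with hzz
  have hg : ∀ g, g - a = zz g * (p - a) := fun g => by rw [hzz]; field_simp
  set b : ℝ → ℂ → ℂ := fun ε g => a + ((ε ^ kk (zz g) : ℝ) : ℂ) * (g - a) with hb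
  have hba : ∀ g, Tendsto (fun ε => b ε g) (𝓝[>] 0) (𝓝 a) := by
    intro g
    have h1 := tendsto_rpow (kk_pos (zz g))
    have h2 : Tendsto (fun ε : ℝ => a + ((ε ^ kk (zz g) : ℝ) : ℂ) * (g - a)) (𝓝[>] 0)
        (𝓝 (a + ((0 : ℝ) : ℂ) * (g - a))) :=
      ((Complex.continuous_ofReal.tendsto _).comp h1 |>.mul_const _).const_add _
    simpa using h2
  have c1 : ∀ᶠ ε : ℝ in 𝓝[>] 0, 0 < ε ∧ ε < 1 := by
    have := Ioo_mem_nhdsGT (zero_lt_one (α := ℝ))
    filter_upwards [this] with ε hε using hε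
  have c2 : ∀ᶠ ε : ℝ in 𝓝[>] 0, ∀ g ∈ N, ∀ s ∈ S, b ε g ∉ sg s := by
    rw [Finset.eventually_all]
    intro g _
    rw [Finset.eventually_all]
    intro s hs
    exact (hba g).eventually ((sg_closed s).isOpen_compl.mem_nhds (hS s hs).1)
  have c3 : ∀ᶠ ε : ℝ in 𝓝[>] 0, ∀ g ∈ N, ∀ q ∈ Q, q ≠ p → q ∉ segment ℝ (b ε g) p := by
    rw [Finset.eventually_all]
    intro g _
    rw [Finset.eventually_all]
    intro q hq
    by_cases hqp : q = p
    · exact Eventually.of_forall fun ε h => absurd hqp h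
    · have h1 : Disjoint ({q} : Set ℂ) (segment ℝ a p) := by
        rw [Set.disjoint_singleton_left]
        exact fun h => hqp (hQp q hq h)
      filter_upwards [(hba g).eventually (ev_disj isClosed_singleton h1)] with ε h2 _
      rwa [Set.disjoint_singleton_left] at h2
  have c4 : ∀ᶠ ε : ℝ in 𝓝[>] 0, ∀ g ∈ N, ∀ s ∈ S, Disjoint (sg s) (segment ℝ a p) →
      Disjoint (sg s) (segment ℝ (b ε g) p) := by
    rw [Finset.eventually_all]
    intro g _
    rw [Finset.eventually_all]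
    intro s hs
    by_cases hd : Disjoint (sg s) (segment ℝ a p)
    · filter_upwards [(hba g).eventually (ev_disj (sg_closed s) hd)] with ε h2 _ using h2
    · exact Eventually.of_forall fun ε h => absurd h hd
  have c5 : ∀ᶠ ε : ℝ in 𝓝[>] 0, ∀ g ∈ N, ∀ h ∈ N, 0 < (zz g).im * (zz h).im →
      (zz g).re * |(zz h).im| < (zz h).re * |(zz g).im| →
      ε ^ kk (zz g) * |(zz g).im| < ε ^ kk (zz h) * |(zz h).im| := by
    rw [Finset.eventually_all]
    intro g _
    rw [Finset.eventually_all]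
    intro h _
    by_cases h1 : 0 < (zz g).im * (zz h).im
    · by_cases h2 : (zz g).re * |(zz h).im| < (zz h).re * |(zz g).im|
      · filter_upwards [ev_lt h1 h2] with ε h3 _ _ using h3
      · exact Eventually.of_forall fun ε _ h => absurd h h2
    · exact Eventually.of_forall fun ε h => absurd h h1
  obtain ⟨ε, ⟨⟨ε0, ε1⟩, d2⟩, ⟨d3, d4⟩, d5⟩ := ((c1.and c2).and ((c3.and c4).and c5)).exists
  have tp : ∀ g, 0 < ε ^ kk (zz g) := fun g => Real.rpow_pos_of_pos ε0 _
  have tl : ∀ g, ε ^ kk (zz g) < 1 := fun g => Real.rpow_lt_one ε0.le ε1 (kk_pos _)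
  have ga : ∀ g ∈ N, g ≠ a := fun g hg h => haQ (h ▸ hNQ hg)
  have bo : ∀ g ∈ N, b ε g ∈ openSegment ℝ a g := by
    intro g _
    rw [openSegment_eq_image]
    refine ⟨ε ^ kk (zz g), ⟨tp g, tl g⟩, ?_⟩
    simp only [hb, Complex.real_smul]
    push_cast
    ring
  -- the rays are different
  have same : ∀ g ∈ Q, ∀ h ∈ Q, (∀ q ∈ Q, q ∈ segment ℝ a g → q = g) →
      (∀ q ∈ Q, q ∈ segment ℝ a h → q = h) → (∃ r : ℝ, 0 < r ∧ g - a = r * (h - a)) → g = h := by
    rintro g hgQ h hhQ hg1 hh1 ⟨r, hr, hrr⟩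
    rcases le_total r 1 with h1 | h1
    · refine hh1 g hgQ ?_
      rw [segment_eq_image]
      refine ⟨r, ⟨hr.le, h1⟩, ?_⟩
      simp only [Complex.real_smul]
      push_cast
      linear_combination -hrr
    · refine (hg1 h hhQ ?_).symm
      rw [segment_eq_image]
      refine ⟨r⁻¹, ⟨(inv_pos.2 hr).le, inv_le_one_of_one_le₀ h1⟩, ?_⟩
      simp only [Complex.real_smul]
      have hrc : (r : ℂ) ≠ 0 := by exact_mod_cast hr.ne'
      push_cast
      field_simp
      linear_combination hrr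
  have z0 : ∀ g ∈ N, zz g ≠ 0 := by
    intro g hgN h
    have h1 := hg g
    rw [h, zero_mul, sub_eq_zero] at h1
    exact ga g hgN h1
  have zr : ∀ g ∈ N, ¬ ∃ r : ℝ, 0 < r ∧ zz g = r := by
    rintro g hgN ⟨r, hr, h⟩
    have h1 := hg g
    rw [h] at h1
    have h2 := same g (hNQ hgN) p hpQ (hQg g hgN) hQp ⟨r, hr, h1⟩
    exact hpN (h2 ▸ hgN)
  have zw : ∀ g ∈ N, ∀ h ∈ N, g ≠ h → ¬ ∃ r : ℝ, 0 < r ∧ zz g = r * zz h := by
    rintro g hgN h hhN hgh ⟨r, hr, h1⟩
    refine hgh (same g (hNQ hgN) h (hNQ hhN) (hQg g hgN) (hQg h hhN) ⟨r, hr, ?_⟩)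
    rw [hg g, h1, hg h]
    ring
  refine ⟨b ε, fun g hgN => ⟨bo g hgN, fun hbQ => ?_⟩, d2, fun g hgN h hhN hgh => ⟨?_, ?_, ?_⟩,
    fun g hgN q hq hqs => ?_, fun g hgN s hs hX => ?_⟩
  · have h1 := hQg g hgN _ hbQ (openSegment_subset_segment ℝ a g (bo g hgN))
    have h2 : (((ε ^ kk (zz g) : ℝ) : ℂ) - 1) * (g - a) = 0 := by
      have h3 : a + ((ε ^ kk (zz g) : ℝ) : ℂ) * (g - a) = g := h1
      linear_combination h3
    rcases mul_eq_zero.1 h2 with h3 | h3
    · have h4 : ε ^ kk (zz g) = 1 := by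
        rw [sub_eq_zero] at h3
        exact_mod_cast h3
      exact (tl g).ne h4
    · exact ga g hgN (sub_eq_zero.1 h3)
  · rw [Set.disjoint_left]
    intro x hx1 hx2
    rw [segment_eq_image] at hx1 hx2
    obtain ⟨s, hs, rfl⟩ := hx1
    obtain ⟨u, hu, he⟩ := hx2
    simp only [Complex.real_smul, hb] at he
    refine core1 (z := zz g) (w := zz h) (t := ε ^ kk (zz g)) (τ := ε ^ kk (zz h)) (s := s)
      (μ := (1 - u) + u * ε ^ kk (zz h)) (tp g) (tp h) hs.1 hs.2 ?_ (zr h hhN) (zr g hgN)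
      (z0 h hhN) (z0 g hgN) (zw g hgN h hhN hgh) (d5 g hgN h hhN) ?_
    · nlinarith [hu.1, hu.2, tl h, tp h]
    · apply mul_right_cancel₀ hpa
      push_cast at he ⊢
      rw [hg g] at he
      have h1 : h = a + zz h * (p - a) := by rw [← hg h]; ring
      have h2 : h - a = zz h * (p - a) := hg h
      rw [h2] at he
      linear_combination -he + (1 - (u : ℂ)) * h1
  · intro hx
    rw [segment_eq_image] at hx
    obtain ⟨s, hs, he⟩ := hx
    simp only [Complex.real_smul, hb] at he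
    refine core2 (z := zz g) (w := zz h) (t := ε ^ kk (zz g)) (τ := ε ^ kk (zz h)) (s := s)
      (tp g) (tp h) hs.1 hs.2 (zr h hhN) (zr g hgN)
      (z0 h hhN) (z0 g hgN) (zw g hgN h hhN hgh) (d5 h hhN g hgN) ?_
    apply mul_right_cancel₀ hpa
    push_cast at he ⊢
    rw [hg g, hg h] at he
    linear_combination -he
  · intro hx
    rw [segment_eq_image] at hx
    obtain ⟨u, hu, he⟩ := hx
    simp only [Complex.real_smul, hb] at he
    refine hgh (same g (hNQ hgN) h (hNQ hhN) (hQg g hgN) (hQg h hhN)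
      ⟨((1 - u) + u * ε ^ kk (zz h)) / ε ^ kk (zz g), ?_, ?_⟩)
    · refine div_pos ?_ (tp g)
      nlinarith [hu.1, hu.2, tl h, tp h]
    · have h1 : ((ε ^ kk (zz g) : ℝ) : ℂ) ≠ 0 := by exact_mod_cast (tp g).ne'
      rw [Complex.ofReal_div, div_mul_eq_mul_div, eq_div_iff h1]
      push_cast at he ⊢
      linear_combination -he
  · by_contra hqp
    exact d3 g hgN q hq hqp hqs
  · rw [Xs] at hX ⊢
    rw [sg_eq] at hX ⊢
    refine ⟨fun q hq => ?_, ?_⟩
    · have h1 := hX.1 q hq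
      rw [Sym2.mem_iff, not_or] at h1 ⊢
      exact ⟨fun h => haQ (h ▸ (hS s hs).2.1 q hq), h1.2⟩
    · by_contra hne
      rw [Set.not_nonempty_iff_eq_empty, ← Set.disjoint_iff_inter_eq_empty] at hne
      have h1 := d4 g hgN s hs hne
      rw [Set.disjoint_iff_inter_eq_empty] at h1
      rw [h1] at hX
      exact Set.not_nonempty_empty hX.2

end Pool.Agent.NH90.CN
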