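import Pool.Agent.NH90.CN.Stm

/-!
# CN-16: contracting several polylines
-/

set_option autoImplicit false

open Set Classical
open Pool.Agent.Helper770.Crossing Pool.Agent.Helper770.Sep

namespace Pool.Agent.NH90.CN

namespace MRC

variable {V I : Type}

/-- the map which contracts the rung `r0` -/
noncomputable def k0 (hd tl : I → V) (r0 : I) (v : V) : V := if v = hd r0 then tl r0 else v

/-- the statement for a fixed set `R` -/
def Goal (V I : Type) (R : Finset I) : Prop := ∀ (A : Finset I) (hd tl : I → V) (loc : V → ℂ)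
  (W : I → List ℂ) (κ : V → V), R ⊆ A → PL A W → PO A W → Lb A hd tl loc W →
  (∀ r ∈ R, ∀ r' ∈ R, Nx (W r) (W r') = 0) →
  (∀ r ∈ R, ∀ r' ∈ R, hd r = hd r' → r = r') → (∀ r ∈ R, ∀ r' ∈ R, hd r ≠ tl r') →
  (∀ r ∈ R, κ (hd r) = tl r) → (∀ v, (∀ r ∈ R, v ≠ hd r) → κ v = v) →
  (∀ i ∈ A \ R, κ (hd i) ≠ κ (tl i)) →
  (∀ i ∈ A \ R, ∀ j ∈ A \ R, i ≠ j → s(κ (hd i), κ (tl i)) ≠ s(κ (hd j), κ (tl j))) →
  ∃ W' : I → List ℂ, PL (A \ R) W' ∧ PO (A \ R) W' ∧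
    Lb (A \ R) (fun i => κ (hd i)) (fun i => κ (tl i)) loc W' ∧
    ∀ i ∈ A \ R, ∀ j ∈ A \ R, i ≠ j → Nx (W' i) (W' j) ≤ Nx (W i) (W j) +
      (∑ r ∈ R, if hd r ∈ s(hd i, tl i) then Nx (W r) (W j) else 0) +
      ∑ r ∈ R, if hd r ∈ s(hd j, tl j) then Nx (W r) (W i) else 0

theorem base : Goal V I ∅ := by
  intro A hd tl loc W κ _ hPL hPO hLb _ _ _ _ hκ _ _
  have hid : ∀ v, κ v = v := fun v => hκ v fun r hr => absurd hr (Finset.notMem_empty r)
  refine ⟨W, ?_, ?_, ?_, ?_⟩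
  · rw [Finset.sdiff_empty]; exact hPL
  · rw [Finset.sdiff_empty]; exact hPO
  · rw [Finset.sdiff_empty]
    simp only [hid]
    exact hLb
  · intro i _ j _ _
    simp

theorem nonpar {A R : Finset I} {hd tl : I → V} {κ : V → V}
    (h1 : ∀ r ∈ R, ∀ r' ∈ R, hd r = hd r' → r = r') (h2 : ∀ r ∈ R, ∀ r' ∈ R, hd r ≠ tl r')
    (h3 : ∀ r ∈ R, κ (hd r) = tl r) (h4 : ∀ v, (∀ r ∈ R, v ≠ hd r) → κ v = v)
    (h5 : ∀ i ∈ A \ R, κ (hd i) ≠ κ (tl i))
    (h6 : ∀ i ∈ A \ R, ∀ j ∈ A \ R, i ≠ j → s(κ (hd i), κ (tl i)) ≠ s(κ (hd j), κ (tl j))) :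
    ∀ i ∈ A, ∀ j ∈ A, i ≠ j → s(hd i, tl i) ≠ s(hd j, tl j) := by
  have ht : ∀ r ∈ R, κ (tl r) = tl r := fun r hr => h4 _ fun r' hr' h => h2 r' hr' r hr h.symm
  have hmap : ∀ i j, s(hd i, tl i) = s(hd j, tl j) →
      s(κ (hd i), κ (tl i)) = s(κ (hd j), κ (tl j)) := by
    intro i j h
    have := congrArg (Sym2.map κ) h
    simpa only [Sym2.map_mk] using this
  have key : ∀ i ∈ A \ R, ∀ r ∈ R, s(hd i, tl i) ≠ s(hd r, tl r) := by
    intro i hi r hr h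
    have h7 := hmap i r h
    rw [h3 r hr, ht r hr] at h7
    rcases Sym2.eq_iff.1 h7 with ⟨a, b⟩ | ⟨a, b⟩
    · exact h5 i hi (a.trans b.symm)
    · exact h5 i hi (a.trans b.symm)
  intro i hi j hj hij h
  by_cases hiR : i ∈ R
  · by_cases hjR : j ∈ R
    · rcases Sym2.eq_iff.1 h with ⟨a, _⟩ | ⟨a, _⟩
      · exact hij (h1 i hiR j hjR a)
      · exact h2 i hiR j hjR a
    · exact key j (Finset.mem_sdiff.2 ⟨hj, hjR⟩) i hiR h.symm
  · by_cases hjR : j ∈ R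
    · exact key i (Finset.mem_sdiff.2 ⟨hi, hiR⟩) j hjR h
    · exact h6 i (Finset.mem_sdiff.2 ⟨hi, hiR⟩) j (Finset.mem_sdiff.2 ⟨hj, hjR⟩) hij (hmap i j h)

theorem step (h : S_RC) {r0 : I} {R : Finset I} (hr0 : r0 ∉ R) (ih : Goal V I R) :
    Goal V I (insert r0 R) := by
  intro A hd tl loc W κ hRA hPL hPO hLb hNx h1 h2 h3 h4 h5 h6
  have m0 : r0 ∈ insert r0 R := Finset.mem_insert_self _ _
  have mR : ∀ r ∈ R, r ∈ insert r0 R := fun r hr => Finset.mem_insert_of_mem hr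
  have hnp := nonpar h1 h2 h3 h4 h5 h6
  have ht : ∀ r ∈ insert r0 R, κ (tl r) = tl r :=
    fun r hr => h4 _ fun r' hr' h => h2 r' hr' r hr h.symm
  set κ0 : V → V := fun v => if v = hd r0 then tl r0 else v with hκ0
  have k0_ne : ∀ v, v ≠ hd r0 → κ0 v = v := fun v hv => if_neg hv
  have k0_eq : κ0 (hd r0) = tl r0 := if_pos rfl
  have hκκ0 : ∀ v, κ (κ0 v) = κ v := by
    intro v
    by_cases hv : v = hd r0
    · rw [hv, k0_eq, ht r0 m0, h3 r0 m0]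
    · rw [k0_ne v hv]
  have hdne : ∀ r ∈ R, hd r ≠ hd r0 := by
    intro r hr he
    have := h1 r (mR r hr) r0 m0 he
    exact hr0 (this ▸ hr)
  have k0hd : ∀ r ∈ R, κ0 (hd r) = hd r := fun r hr => k0_ne _ (hdne r hr)
  have k0tl : ∀ r ∈ R, κ0 (tl r) = tl r := fun r hr =>
    k0_ne _ fun he => h2 r0 m0 r (mR r hr) he.symm
  have hsd : (A.erase r0) \ R = A \ insert r0 R := by
    ext i
    simp only [Finset.mem_sdiff, Finset.mem_erase, Finset.mem_insert, not_or]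
    tauto
  have hcond : ∀ i ∈ A.erase r0, κ0 (hd i) ≠ κ0 (tl i) := by
    intro i hi he
    by_cases hiR : i ∈ R
    · rw [k0hd i hiR, k0tl i hiR] at he
      exact h2 i (mR i hiR) i (mR i hiR) he
    · have hi' : i ∈ A \ insert r0 R := by
        rw [← hsd]
        exact Finset.mem_sdiff.2 ⟨hi, hiR⟩
      apply h5 i hi'
      rw [← hκκ0 (hd i), ← hκκ0 (tl i), he]
  obtain ⟨W1, hPL1, hPO1, hLb1, hW1, hN1⟩ := h V I A hd tl loc W r0 κ0 (hRA m0) hPL hPO hLb hnp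
    (hNx r0 m0 r0 m0) (fun v => rfl) hcond
  have hnot : ∀ r ∈ R, hd r0 ∉ s(hd r, tl r) := by
    intro r hr hm
    rcases Sym2.mem_iff.1 hm with he | he
    · exact hdne r hr he.symm
    · exact h2 r0 m0 r (mR r hr) he
  have hmem1 : ∀ r ∈ R, r ∈ A.erase r0 := fun r hr =>
    Finset.mem_erase.2 ⟨fun he => hr0 (he ▸ hr), hRA (mR r hr)⟩
  have hWR : ∀ r ∈ R, W1 r = W r := fun r hr => hW1 r (hmem1 r hr) (hnot r hr)
  set κ1 : V → V := fun v => if ∃ r ∈ R, v = hd r then κ v else v with hκ1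
  have k1_pos : ∀ r ∈ R, κ1 (hd r) = κ (hd r) := fun r hr => if_pos ⟨r, hr, rfl⟩
  have k1_neg : ∀ v, (∀ r ∈ R, v ≠ hd r) → κ1 v = v := fun v hv =>
    if_neg fun ⟨r, hr, he⟩ => hv r hr he
  have hκ1κ0 : ∀ v, κ1 (κ0 v) = κ v := by
    intro v
    by_cases hv : v = hd r0
    · rw [hv, k0_eq, k1_neg, h3 r0 m0]
      intro r hr he
      exact h2 r (mR r hr) r0 m0 he.symm
    · rw [k0_ne v hv]
      by_cases hv2 : ∃ r ∈ R, v = hd r
      · obtain ⟨r, hr, rfl⟩ := hv2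
        exact k1_pos r hr
      · rw [k1_neg v fun r hr he => hv2 ⟨r, hr, he⟩, h4 v]
        intro r hr
        rcases Finset.mem_insert.1 hr with rfl | hr
        · exact hv
        · exact fun he => hv2 ⟨r, hr, he⟩
  obtain ⟨W', hPL', hPO', hLb', hN'⟩ := ih (A.erase r0) (fun i => κ0 (hd i))
    (fun i => κ0 (tl i)) loc W1 κ1 (fun r hr => hmem1 r hr) hPL1 hPO1 hLb1
    (fun r hr r' hr' => by rw [hWR r hr, hWR r' hr']; exact hNx r (mR r hr) r' (mR r' hr'))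
    (fun r hr r' hr' he => by
      simp only [k0hd r hr, k0hd r' hr'] at he
      exact h1 r (mR r hr) r' (mR r' hr') he)
    (fun r hr r' hr' => by
      simp only [k0hd r hr, k0tl r' hr']
      exact h2 r (mR r hr) r' (mR r' hr'))
    (fun r hr => by
      simp only [k0hd r hr, k0tl r hr]
      rw [k1_pos r hr, h3 r (mR r hr)])
    (fun v hv => k1_neg v fun r hr he => hv r hr (by rw [k0hd r hr]; exact he))
    (fun i hi => by
      simp only [hκ1κ0]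
      exact h5 i (hsd ▸ hi))
    (fun i hi j hj hij => by
      simp only [hκ1κ0]
      exact h6 i (hsd ▸ hi) j (hsd ▸ hj) hij)
  rw [hsd] at hPL' hPO' hLb' hN'
  simp only [hκ1κ0] at hLb'
  refine ⟨W', hPL', hPO', hLb', ?_⟩
  intro i hi j hj hij
  have hi1 : i ∈ A.erase r0 := (Finset.mem_sdiff.1 (hsd.symm ▸ hi : i ∈ (A.erase r0) \ R)).1
  have hj1 : j ∈ A.erase r0 := (Finset.mem_sdiff.1 (hsd.symm ▸ hj : j ∈ (A.erase r0) \ R)).1
  have hiR : i ∉ R := (Finset.mem_sdiff.1 (hsd.symm ▸ hi : i ∈ (A.erase r0) \ R)).2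
  have hjR : j ∉ R := (Finset.mem_sdiff.1 (hsd.symm ▸ hj : j ∈ (A.erase r0) \ R)).2
  have hmemk : ∀ r ∈ R, ∀ l, κ0 (hd r) ∈ s(κ0 (hd l), κ0 (tl l)) → hd r ∈ s(hd l, tl l) := by
    intro r hr l hm
    have hinv : ∀ v, κ0 v = hd r → v = hd r := by
      intro v hv
      by_cases hv0 : v = hd r0
      · rw [hv0, k0_eq] at hv
        exact absurd hv.symm (h2 r (mR r hr) r0 m0)
      · rwa [k0_ne v hv0] at hv
    rw [k0hd r hr] at hm
    rcases Sym2.mem_iff.1 hm with he | he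
    · exact Sym2.mem_iff.2 (Or.inl (hinv _ he.symm).symm)
    · exact Sym2.mem_iff.2 (Or.inr (hinv _ he.symm).symm)
  have hterm : ∀ r ∈ R, ∀ l ∈ A.erase r0, r ≠ l → Nx (W1 r) (W1 l) ≤ Nx (W r) (W l) := by
    intro r hr l hl hrl
    have h7 := hN1 r (hmem1 r hr) l hl hrl
    rw [if_neg (hnot r hr), hNx r0 m0 r (mR r hr), ite_self, add_zero, add_zero] at h7
    exact h7
  have hsum : ∀ k l : I, l ∈ A.erase r0 → l ∉ R →
      (∑ r ∈ R, if κ0 (hd r) ∈ s(κ0 (hd k), κ0 (tl k)) then Nx (W1 r) (W1 l) else 0) ≤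
      ∑ r ∈ R, if hd r ∈ s(hd k, tl k) then Nx (W r) (W l) else 0 := by
    intro k l hl hlR
    refine Finset.sum_le_sum fun r hr => ?_
    by_cases hm : κ0 (hd r) ∈ s(κ0 (hd k), κ0 (tl k))
    · rw [if_pos hm, if_pos (hmemk r hr k hm)]
      exact hterm r hr l hl fun he => hlR (he ▸ hr)
    · rw [if_neg hm]
      exact Nat.zero_le _
  have e1 := hN' i hi j hj hij
  have e2 := hN1 i hi1 j hj1 hij
  have e3 := hsum i j hj1 hjR
  have e4 := hsum j i hi1 hiR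
  rw [Finset.sum_insert hr0, Finset.sum_insert hr0]
  omega

end MRC

open MRC in
theorem t_MRC (h : S_RC) : S_MRC := by
  intro V I A R
  have key : Goal V I R := by
    induction R using Finset.induction_on with
    | empty => exact base
    | insert r0 R hr0 ih => exact step h hr0 ih
  exact key A

end Pool.Agent.NH90.CN
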