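import Pool.Agent.NH90.CN.Stm
import Pool.Agent.Helper770.Planar

set_option autoImplicit false

/-!
# CN-22: a crossing-free drawing has at most `4 |V|` edges
-/

open Set Classical
open Pool.Agent.Helper770.Crossing Pool.Agent.Helper770.Sep Pool.Agent.Helper770.Planar

namespace Pool.Agent.NH90.CN

theorem pln_mem_eF {V : Type} [Fintype V] {G : SimpleGraph V} {e : Sym2 V} :
    e ∈ eF G ↔ e ∈ G.edgeSet := by
  simp [eF]

theorem t_PLN (h : S_MAD) : S_PLN := by
  intro V _ G D hD
  let N : Finset ℂ := Finset.univ.image D.pos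
  have hpos : ∀ v, D.pos v ∈ N := fun v => Finset.mem_image_of_mem _ (Finset.mem_univ v)
  have hN : ∀ z ∈ N, ∃ v, D.pos v = z := by
    intro z hz
    obtain ⟨v, -, hv⟩ := Finset.mem_image.1 hz
    exact ⟨v, hv⟩
  have hk : ∀ x ∈ D.crossings, x.2 ∈ N := by
    intro x hx
    rw [hD] at hx
    exact absurd hx (Set.notMem_empty x)
  have h1 := h N (planar D N) (noK5 D N hk)
  have h2 : Fintype.card N = Fintype.card V := by
    rw [Fintype.card_coe, Finset.card_image_of_injective _ D.pos_injective, Finset.card_univ]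
  rw [h2] at h1
  let ψ : V → N := fun v => ⟨D.pos v, hpos v⟩
  have hψ : Function.Injective ψ := fun u v huv => D.pos_injective (congrArg Subtype.val huv)
  refine (Finset.card_le_card_of_injOn (Sym2.map ψ) ?_ ?_).trans h1
  · intro e he
    rw [Finset.mem_coe, pln_mem_eF] at he
    rw [Finset.mem_coe, pln_mem_eF]
    induction e with
    | _ u v =>
      rw [Sym2.map_mk, SimpleGraph.mem_edgeSet]
      have huv : G.Adj u v := he
      refine ⟨fun h' => huv.ne (hψ h'), s(u, v), 0, 1, ⟨he, le_rfl, one_pos, le_rfl, ?_⟩, ?_⟩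
      · intro r hr0 hr1 hr
        obtain ⟨w, hw⟩ := hN _ hr
        exact D.arc_avoids _ he r ⟨hr0, hr1⟩ w hw.symm
      · rcases D.arc_ends u v huv with ⟨h3, h4⟩ | ⟨h3, h4⟩
        · exact Or.inl ⟨h3, h4⟩
        · exact Or.inr ⟨h3, h4⟩
  · exact (Sym2.map.injective hψ).injOn

end Pool.Agent.NH90.CN
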