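import Pool.Agent.NH90.CN.Stm

/-!
CN-17 (helper75): doubling a good drawing of the cone by inversion in a small circle.
-/

set_option autoImplicit false

open Set Classical
open Pool.Agent.Helper770.Crossing Pool.Agent.Helper770.Sep

namespace Pool.Agent.NH90.CN

namespace PRISM

/-! ### Inversion -/

/-- inversion in the circle with center `v` and radius `r` -/
noncomputable def inv (v : ℂ) (r : ℝ) (z : ℂ) : ℂ := v + (r : ℂ) ^ 2 / (starRingEnd ℂ) (z - v)

lemma inv_sub (v : ℂ) (r : ℝ) (z : ℂ) :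
    inv v r z - v = (r : ℂ) ^ 2 / (starRingEnd ℂ) (z - v) := by
  unfold inv
  ring

lemma norm_inv (v : ℂ) {r : ℝ} (hr : 0 < r) (z : ℂ) : ‖inv v r z - v‖ = r ^ 2 / ‖z - v‖ := by
  rw [inv_sub, norm_div, norm_pow, Complex.norm_real, Real.norm_of_nonneg hr.le]
  congr 1
  exact RCLike.norm_conj (z - v)

lemma inv_inv' (v : ℂ) {r : ℝ} (hr : 0 < r) (z : ℂ) : inv v r (inv v r z) = z := by
  have h : (r : ℂ) ^ 2 ≠ 0 := pow_ne_zero _ (by exact_mod_cast hr.ne')
  have e : inv v r (inv v r z) = v + (r : ℂ) ^ 2 / (starRingEnd ℂ) (inv v r z - v) := rfl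
  rw [e, inv_sub, map_div₀, map_pow, Complex.conj_ofReal, Complex.conj_conj, div_div_cancel₀ h]
  ring

lemma inv_inj (v : ℂ) {r : ℝ} (hr : 0 < r) : Function.Injective (inv v r) :=
  Function.LeftInverse.injective (inv_inv' v hr)

lemma inv_circle (v : ℂ) {r : ℝ} (hr : 0 < r) {z : ℂ} (h : ‖z - v‖ = r) : inv v r z = z := by
  have hz : z - v ≠ 0 := by
    intro h0
    rw [h0, norm_zero] at h
    exact hr.ne h
  have h1 : (z - v) * (starRingEnd ℂ) (z - v) = (r : ℂ) ^ 2 := by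
    rw [Complex.mul_conj, Complex.normSq_eq_norm_sq, h]
    push_cast
    ring
  have h2 : (starRingEnd ℂ) (z - v) ≠ 0 := (map_ne_zero _).2 hz
  unfold inv
  rw [← h1, mul_div_assoc, div_self h2]
  ring

lemma inv_cont (v : ℂ) (r : ℝ) : ContinuousOn (inv v r) {z | z ≠ v} := by
  unfold inv
  refine continuousOn_const.add (continuousOn_const.div ?_ ?_)
  · exact (Complex.continuous_conj.comp (continuous_id.sub continuous_const)).continuousOn
  · intro z hz
    exact (map_ne_zero _).2 (sub_ne_zero.2 hz)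

lemma inv_lt (v : ℂ) {r : ℝ} (hr : 0 < r) {z : ℂ} (h : r < ‖z - v‖) : ‖inv v r z - v‖ < r := by
  rw [norm_inv v hr, div_lt_iff₀ (hr.trans h)]
  nlinarith

/-! ### The arms -/

section arms

variable {V : Type} {G : SimpleGraph V}

lemma arm_mem (y : V) : arm y ∈ (cone G).edgeSet := by
  rw [arm, SimpleGraph.mem_edgeSet]
  exact ⟨by simp, Or.inl rfl⟩

lemma toC_mem {e : Sym2 V} (he : e ∈ G.edgeSet) : toC e ∈ (cone G).edgeSet := by
  induction e with
  | h a b =>
    rw [SimpleGraph.mem_edgeSet] at he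
    rw [toC, Sym2.map_mk, SimpleGraph.mem_edgeSet]
    refine ⟨?_, Or.inr (Or.inr ⟨a, b, rfl, rfl, he⟩)⟩
    intro h
    exact he.ne (Option.some.inj h)

lemma toC_inj : Function.Injective (toC : Sym2 V → Sym2 (Option V)) :=
  Sym2.map.injective (Option.some_injective V)

lemma arm_ne_toC (y : V) (e : Sym2 V) : arm y ≠ toC e := by
  intro h
  have h1 : (none : Option V) ∈ toC e := h ▸ Sym2.mem_mk_left _ _
  rw [toC, Sym2.mem_map] at h1
  obtain ⟨a, -, ha⟩ := h1
  exact Option.some_ne_none a ha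

lemma arm_inj {y z : V} (h : arm y = arm z) : y = z := by
  rw [arm, arm, Sym2.eq_iff] at h
  rcases h with h | h
  · exact Option.some.inj h.2
  · exact absurd h.1 (by simp)

lemma exists_arm (D : Drawing (cone G)) {r : ℝ} (hr : 0 < r) (y : V)
    (hy : r < ‖D.pos (some y) - D.pos none‖) :
    ∃ (γ : ℝ → ℂ) (τ : ℝ), 0 < τ ∧ τ < 1 ∧ ContinuousOn γ (Icc 0 1) ∧ InjOn γ (Icc 0 1) ∧
      γ 0 = D.pos (some y) ∧ ‖γ τ - D.pos none‖ = r ∧
      (∀ t, 0 ≤ t → t < τ → r < ‖γ t - D.pos none‖) ∧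
      ∀ t ∈ Ioo (0 : ℝ) 1, γ t ∈ D.arc (arm y) '' Ioo 0 1 := by
  have hc := D.arc_continuousOn _ (arm_mem (G := G) y)
  have hi := D.arc_injOn _ (arm_mem (G := G) y)
  have hadj : (cone G).Adj none (some y) := ⟨by simp, Or.inl rfl⟩
  obtain ⟨γ, h1, h2, h3, h4, h5⟩ : ∃ γ : ℝ → ℂ, ContinuousOn γ (Icc 0 1) ∧ InjOn γ (Icc 0 1) ∧
      γ 0 = D.pos (some y) ∧ γ 1 = D.pos none ∧
      ∀ t ∈ Ioo (0 : ℝ) 1, γ t ∈ D.arc (arm y) '' Ioo 0 1 := by
    rcases D.arc_ends _ _ hadj with h | h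
    · refine ⟨fun t => D.arc (arm y) (1 - t), ?_, ?_, ?_, ?_, ?_⟩
      · refine hc.comp (by fun_prop) ?_
        intro t ht
        exact ⟨by linarith [ht.2], by linarith [ht.1]⟩
      · intro s hs t ht hst
        have := hi (⟨by linarith [hs.2], by linarith [hs.1]⟩ : 1 - s ∈ Icc (0 : ℝ) 1)
          (⟨by linarith [ht.2], by linarith [ht.1]⟩ : 1 - t ∈ Icc (0 : ℝ) 1) hst
        linarith
      · show D.arc (arm y) (1 - 0) = _
        rw [sub_zero]
        exact h.2
      · show D.arc (arm y) (1 - 1) = _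
        rw [sub_self]
        exact h.1
      · intro t ht
        exact ⟨1 - t, ⟨by linarith [ht.2], by linarith [ht.1]⟩, rfl⟩
    · exact ⟨D.arc (arm y), hc, hi, h.1, h.2, fun t ht => ⟨t, ht, rfl⟩⟩
  have hn : ContinuousOn (fun t => ‖γ t - D.pos none‖) (Icc 0 1) :=
    (h1.sub continuousOn_const).norm
  have hS : IsCompact (Icc (0 : ℝ) 1 ∩ (fun t => ‖γ t - D.pos none‖) ⁻¹' Iic r) :=
    isCompact_Icc.of_isClosed_subset (hn.preimage_isClosed_of_isClosed isClosed_Icc isClosed_Iic)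
      inter_subset_left
  obtain ⟨τ, ⟨hτ1, hτ2⟩, hτ3⟩ := hS.exists_isLeast ⟨1, ⟨by norm_num, by norm_num⟩, by
    show ‖γ 1 - D.pos none‖ ≤ r
    rw [h4, sub_self, norm_zero]
    exact hr.le⟩
  have hτ2' : ‖γ τ - D.pos none‖ ≤ r := hτ2
  have hlt : ∀ t, 0 ≤ t → t < τ → r < ‖γ t - D.pos none‖ := by
    intro t ht0 ht
    by_contra hcon
    have hle : t ≤ 1 := by linarith [hτ1.2]
    have hmem : t ∈ Icc (0 : ℝ) 1 ∩ (fun t => ‖γ t - D.pos none‖) ⁻¹' Iic r :=
      ⟨⟨ht0, hle⟩, not_lt.1 hcon⟩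
    have := hτ3 hmem
    linarith
  have hτ0 : 0 < τ := by
    rcases hτ1.1.eq_or_lt with h | h
    · rw [← h, h3] at hτ2'
      linarith
    · exact h
  have heq : ‖γ τ - D.pos none‖ = r := by
    obtain ⟨t, ht, htr⟩ := intermediate_value_Icc' hτ0.le
      (hn.mono (Icc_subset_Icc_right hτ1.2)) (⟨hτ2', by rw [h3]; exact hy.le⟩ :
        r ∈ Icc (‖γ τ - D.pos none‖) (‖γ 0 - D.pos none‖))
    have htr' : ‖γ t - D.pos none‖ = r := htr
    rcases ht.2.eq_or_lt with h | h
    · rw [← h]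
      exact htr'
    · have := hlt t ht.1 h
      linarith
  refine ⟨γ, τ, hτ0, ?_, h1, h2, h3, heq, hlt, h5⟩
  rcases hτ1.2.eq_or_lt with h | h
  · rw [h, h4, sub_self, norm_zero] at heq
    linarith
  · exact h

end arms

/-! ### The rungs -/

/-- the rung: first along the arm to the circle, then back along the image of the arm -/
noncomputable def rg (v : ℂ) (r : ℝ) (γ : ℝ → ℂ) (τ : ℝ) (t : ℝ) : ℂ :=
  if t ≤ 1 / 2 then γ (2 * t * τ) else inv v r (γ (2 * (1 - t) * τ))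

section rungs

variable {v : ℂ} {r : ℝ} {γ : ℝ → ℂ} {τ : ℝ}

lemma rg_le {t : ℝ} (h : t ≤ 1 / 2) : rg v r γ τ t = γ (2 * t * τ) := if_pos h

lemma rg_gt {t : ℝ} (h : 1 / 2 < t) : rg v r γ τ t = inv v r (γ (2 * (1 - t) * τ)) :=
  if_neg (not_le.2 h)

lemma rg_cont (hr : 0 < r) (h0 : 0 < τ) (h1 : τ < 1) (hc : ContinuousOn γ (Icc 0 1))
    (hτ : ‖γ τ - v‖ = r) (hlt : ∀ t, 0 ≤ t → t < τ → r < ‖γ t - v‖) :
    ContinuousOn (rg v r γ τ) (Icc 0 1) := by
  have hsplit : Icc (0 : ℝ) 1 = Icc 0 (1 / 2) ∪ Icc (1 / 2) 1 :=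
    (Icc_union_Icc_eq_Icc (by norm_num) (by norm_num)).symm
  have hge : ∀ s, 0 ≤ s → s ≤ τ → r ≤ ‖γ s - v‖ := by
    intro s hs hs'
    rcases hs'.eq_or_lt with h | h
    · rw [h, hτ]
    · exact (hlt s hs h).le
  rw [hsplit]
  refine ContinuousOn.union_of_isClosed ?_ ?_ isClosed_Icc isClosed_Icc
  · have h2 : ContinuousOn (fun t => γ (2 * t * τ)) (Icc 0 (1 / 2)) := by
      refine hc.comp (by fun_prop) ?_
      intro t ht
      exact ⟨by nlinarith [ht.1], by nlinarith [ht.1, ht.2]⟩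
    exact h2.congr fun t ht => rg_le ht.2
  · have h2 : ContinuousOn (fun t => inv v r (γ (2 * (1 - t) * τ))) (Icc (1 / 2) 1) := by
      refine (inv_cont v r).comp (hc.comp (by fun_prop) ?_) ?_
      · intro t ht
        exact ⟨by nlinarith [ht.2], by nlinarith [ht.1, ht.2]⟩
      · intro t ht
        have h3 := hge (2 * (1 - t) * τ) (by nlinarith [ht.2]) (by nlinarith [ht.1])
        intro h4
        have h4' : γ (2 * (1 - t) * τ) = v := h4
        rw [h4', sub_self, norm_zero] at h3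
        linarith
    refine h2.congr fun t ht => ?_
    rcases ht.1.eq_or_lt with h | h
    · rw [← h, rg_le le_rfl]
      have e1 : 2 * (1 / 2) * τ = τ := by ring
      have e2 : 2 * (1 - 1 / 2) * τ = τ := by ring
      rw [e1]
      show γ τ = inv v r (γ (2 * (1 - 1 / 2) * τ))
      rw [e2, inv_circle v hr hτ]
    · exact rg_gt h

/-- the position of the points of the rung -/
lemma rg_norm (hr : 0 < r) (h0 : 0 < τ) 
    (hτ : ‖γ τ - v‖ = r) (hlt : ∀ t, 0 ≤ t → t < τ → r < ‖γ t - v‖) {t : ℝ}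
    (ht : t ∈ Icc (0 : ℝ) 1) :
    (t ≤ 1 / 2 → r ≤ ‖rg v r γ τ t - v‖) ∧ (1 / 2 < t → ‖rg v r γ τ t - v‖ < r) := by
  constructor
  · intro h
    rw [rg_le h]
    rcases h.eq_or_lt with h' | h'
    · rw [h']
      have e1 : 2 * (1 / 2) * τ = τ := by ring
      rw [e1, hτ]
    · exact (hlt _ (by nlinarith [ht.1]) (by nlinarith)).le
  · intro h
    rw [rg_gt h]
    exact inv_lt v hr (hlt _ (by nlinarith [ht.2]) (by nlinarith))

lemma rg_inj (hr : 0 < r) (h0 : 0 < τ) (h1 : τ < 1) (hi : InjOn γ (Icc 0 1))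
    (hτ : ‖γ τ - v‖ = r) (hlt : ∀ t, 0 ≤ t → t < τ → r < ‖γ t - v‖) :
    InjOn (rg v r γ τ) (Icc 0 1) := by
  have key : ∀ s ∈ Icc (0 : ℝ) 1, ∀ t ∈ Icc (0 : ℝ) 1, s ≤ 1 / 2 → 1 / 2 < t →
      rg v r γ τ s ≠ rg v r γ τ t := by
    intro s hs t ht h h' he
    have a1 := (rg_norm hr h0 hτ hlt hs).1 h
    have a2 := (rg_norm hr h0 hτ hlt ht).2 h'
    rw [he] at a1
    linarith
  intro s hs t ht hst
  by_cases h : s ≤ 1 / 2
  · by_cases h' : t ≤ 1 / 2
    · rw [rg_le h, rg_le h'] at hst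
      have := hi (⟨by nlinarith [hs.1], by nlinarith [hs.1]⟩ : 2 * s * τ ∈ Icc (0 : ℝ) 1)
        (⟨by nlinarith [ht.1], by nlinarith [ht.1]⟩ : 2 * t * τ ∈ Icc (0 : ℝ) 1) hst
      have h3 : 2 * s = 2 * t := mul_right_cancel₀ h0.ne' this
      linarith
    · exact absurd hst (key s hs t ht h (not_le.1 h'))
  · by_cases h' : t ≤ 1 / 2
    · exact absurd hst.symm (key t ht s hs h' (not_le.1 h))
    · rw [not_le] at h h'
      rw [rg_gt h, rg_gt h'] at hst
      have := hi (⟨by nlinarith [hs.2], by nlinarith [hs.2]⟩ : 2 * (1 - s) * τ ∈ Icc (0 : ℝ) 1)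
        (⟨by nlinarith [ht.2], by nlinarith [ht.2]⟩ : 2 * (1 - t) * τ ∈ Icc (0 : ℝ) 1)
        (inv_inj v hr hst)
      have h3 : 2 * (1 - s) = 2 * (1 - t) := mul_right_cancel₀ h0.ne' this
      linarith

/-- the inner points of the rung -/
lemma rg_mem (h0 : 0 < τ) {t : ℝ} (ht : t ∈ Ioo (0 : ℝ) 1) :
    (t ≤ 1 / 2 ∧ ∃ s, 0 < s ∧ s ≤ τ ∧ rg v r γ τ t = γ s) ∨
      (1 / 2 < t ∧ ∃ s, 0 < s ∧ s < τ ∧ rg v r γ τ t = inv v r (γ s)) := by
  by_cases h : t ≤ 1 / 2
  · refine Or.inl ⟨h, 2 * t * τ, by nlinarith [ht.1, mul_pos ht.1 h0], by nlinarith, rg_le h⟩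
  · rw [not_le] at h
    refine Or.inr ⟨h, 2 * (1 - t) * τ, ?_, by nlinarith, rg_gt h⟩
    have : 0 < (1 - t) * τ := mul_pos (by linarith [ht.2]) h0
    linarith

end rungs

/-! ### The edges of the prism -/

section edges

variable {V : Type} {G : SimpleGraph V}

lemma pg_inj {i j : Bool} {e f : Sym2 V} (h : pg i e = pg j f) : i = j ∧ e = f := by
  induction e with
  | h a b =>
    induction f with
    | h c d =>
      rw [pg, pg, Sym2.map_mk, Sym2.map_mk, Sym2.eq_iff] at h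
      simp only [Prod.mk.injEq] at h
      rcases h with ⟨⟨h1, h2⟩, ⟨h3, h4⟩⟩ | ⟨⟨h1, h2⟩, ⟨h3, h4⟩⟩
      · exact ⟨h2, by rw [h1, h3]⟩
      · exact ⟨h2, by rw [h1, h3, Sym2.eq_swap]⟩

lemma rung_inj {y z : V} (h : rung y = rung z) : y = z := by
  rw [rung, rung, Sym2.eq_iff] at h
  rcases h with ⟨h, -⟩ | ⟨h, -⟩
  · exact (Prod.mk.inj h).1
  · exact (Prod.mk.inj h).1

lemma pg_ne_rung (i : Bool) (e : Sym2 V) (y : V) : pg i e ≠ rung y := by
  intro h
  have h1 : (y, false) ∈ pg i e := h ▸ Sym2.mem_mk_left _ _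
  have h2 : (y, true) ∈ pg i e := h ▸ Sym2.mem_mk_right _ _
  rw [pg, Sym2.mem_map] at h1 h2
  obtain ⟨a, -, ha⟩ := h1
  obtain ⟨b, -, hb⟩ := h2
  have e1 := (Prod.mk.inj ha).2
  have e2 := (Prod.mk.inj hb).2
  rw [e1] at e2
  exact Bool.false_ne_true e2

lemma edge_cases {x : Sym2 (V × Bool)} (hx : x ∈ (prism G).edgeSet) :
    (∃ i e, e ∈ G.edgeSet ∧ x = pg i e) ∨ ∃ y, x = rung y := by
  induction x with
  | h a b =>
    obtain ⟨a, i⟩ := a
    obtain ⟨b, j⟩ := b
    rw [SimpleGraph.mem_edgeSet] at hx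
    rcases hx with ⟨h1, h2⟩ | ⟨h1, h2⟩
    · dsimp only at h1 h2
      subst h1
      exact Or.inl ⟨i, s(a, b), (SimpleGraph.mem_edgeSet _).2 h2, rfl⟩
    · dsimp only at h1 h2
      subst h1
      refine Or.inr ⟨a, ?_⟩
      cases i <;> cases j
      · exact absurd rfl h2
      · rfl
      · exact Sym2.eq_swap
      · exact absurd rfl h2

lemma pg_mem (i : Bool) {e : Sym2 V} (he : e ∈ G.edgeSet) : pg i e ∈ (prism G).edgeSet := by
  induction e with
  | h a b =>
    rw [SimpleGraph.mem_edgeSet] at he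
    rw [pg, Sym2.map_mk, SimpleGraph.mem_edgeSet]
    exact Or.inl ⟨rfl, he⟩

lemma rung_mem (y : V) : rung y ∈ (prism G).edgeSet := by
  rw [rung, SimpleGraph.mem_edgeSet]
  exact Or.inr ⟨rfl, Bool.false_ne_true⟩

lemma exists_arc (P : Bool → Sym2 V → ℝ → ℂ) (R : V → ℝ → ℂ) :
    ∃ A : Sym2 (V × Bool) → ℝ → ℂ, (∀ i e, A (pg i e) = P i e) ∧ ∀ y, A (rung y) = R y := by
  refine ⟨fun x => if h : ∃ p : Bool × Sym2 V, x = pg p.1 p.2 then P h.choose.1 h.choose.2
    else if h : ∃ y, x = rung y then R h.choose else fun _ => 0, fun i e => ?_, fun y => ?_⟩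
  · have h : ∃ p : Bool × Sym2 V, pg i e = pg p.1 p.2 := ⟨(i, e), rfl⟩
    show dite _ _ _ = _
    rw [dif_pos h]
    obtain ⟨h1, h2⟩ := pg_inj h.choose_spec
    rw [← h1, ← h2]
  · have h : ¬ ∃ p : Bool × Sym2 V, rung y = pg p.1 p.2 := fun ⟨p, hp⟩ =>
      pg_ne_rung _ _ _ hp.symm
    have h' : ∃ z, rung y = rung z := ⟨y, rfl⟩
    show dite _ _ _ = _
    rw [dif_neg h, dif_pos h', ← rung_inj h'.choose_spec]

lemma exists_radius [Fintype V] (D : Drawing (cone G)) : ∃ r : ℝ, 0 < r ∧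
    (∀ y, r < ‖D.pos (some y) - D.pos none‖) ∧
    ∀ e ∈ G.edgeSet, ∀ t ∈ Icc (0 : ℝ) 1, r < ‖D.arc (toC e) t - D.pos none‖ := by
  have hK : IsClosed ((⋃ e ∈ {e | e ∈ G.edgeSet}, D.arc (toC e) '' Icc (0 : ℝ) 1) ∪
      range (fun y => D.pos (some y))) := by
    refine IsClosed.union ?_ (finite_range _).isClosed
    exact ((toFinite {e | e ∈ G.edgeSet}).isCompact_biUnion fun e he =>
      isCompact_Icc.image_of_continuousOn (D.arc_continuousOn _ (toC_mem he))).isClosed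
  have hv : D.pos none ∉ ((⋃ e ∈ {e | e ∈ G.edgeSet}, D.arc (toC e) '' Icc (0 : ℝ) 1) ∪
      range (fun y => D.pos (some y))) := by
    rintro (h | ⟨y, hy⟩)
    · obtain ⟨e, he, h⟩ := mem_iUnion₂.1 h
      obtain ⟨t, ht, hte⟩ := h
      have he' : e ∈ G.edgeSet := he
      rcases ht.1.eq_or_lt with h0 | h0
      · induction e with
        | h a b =>
          rw [SimpleGraph.mem_edgeSet] at he'
          have hadj : (cone G).Adj (some a) (some b) :=
            (SimpleGraph.mem_edgeSet _).1 (toC_mem ((SimpleGraph.mem_edgeSet _).2 he'))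
          rw [← h0] at hte
          rcases D.arc_ends _ _ hadj with h | h
          · exact Option.some_ne_none a (D.pos_injective (h.1.symm.trans hte))
          · exact Option.some_ne_none b (D.pos_injective (h.1.symm.trans hte))
      · rcases ht.2.eq_or_lt with h1 | h1
        · induction e with
          | h a b =>
            rw [SimpleGraph.mem_edgeSet] at he'
            have hadj : (cone G).Adj (some a) (some b) :=
              (SimpleGraph.mem_edgeSet _).1 (toC_mem ((SimpleGraph.mem_edgeSet _).2 he'))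
            rw [h1] at hte
            rcases D.arc_ends _ _ hadj with h | h
            · exact Option.some_ne_none b (D.pos_injective (h.2.symm.trans hte))
            · exact Option.some_ne_none a (D.pos_injective (h.2.symm.trans hte))
        · exact D.arc_avoids _ (toC_mem he') t ⟨h0, h1⟩ none hte
    · exact Option.some_ne_none y (D.pos_injective hy)
  obtain ⟨ε, hε, hball⟩ := Metric.isOpen_iff.1 hK.isOpen_compl _ hv
  have key : ∀ z ∈ ((⋃ e ∈ {e | e ∈ G.edgeSet}, D.arc (toC e) '' Icc (0 : ℝ) 1) ∪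
      range (fun y => D.pos (some y))), ε / 2 < ‖z - D.pos none‖ := by
    intro z hz
    by_contra hcon
    refine hball ?_ hz
    rw [Metric.mem_ball, dist_eq_norm]
    linarith
  refine ⟨ε / 2, by linarith, fun y => key _ (Or.inr ⟨y, rfl⟩), fun e he t ht => key _ (Or.inl ?_)⟩
  exact mem_iUnion₂.2 ⟨e, he, t, ht, rfl⟩

end edges

/-! ### The pages -/

/-- the page `false` is outside of the circle, the page `true` is the image under the inversion -/
noncomputable def pgm (v : ℂ) (r : ℝ) (i : Bool) (z : ℂ) : ℂ := bif i then inv v r z else z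

lemma pgm_inj (v : ℂ) {r : ℝ} (hr : 0 < r) (i : Bool) : Function.Injective (pgm v r i) := by
  cases i
  · exact Function.injective_id
  · exact inv_inj v hr

lemma pgm_cont (v : ℂ) (r : ℝ) (i : Bool) : ContinuousOn (pgm v r i) {z | z ≠ v} := by
  cases i
  · exact continuousOn_id
  · exact inv_cont v r

lemma pgm_ne (v : ℂ) {r : ℝ} (hr : 0 < r) {i j : Bool} (hij : i ≠ j) {z w : ℂ}
    (hz : r < ‖z - v‖) (hw : r < ‖w - v‖) : pgm v r i z ≠ pgm v r j w := by
  intro h
  cases i <;> cases j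
  · exact hij rfl
  · have h' : z = inv v r w := h
    have := inv_lt v hr hw
    rw [← h'] at this
    linarith
  · have h' : inv v r z = w := h
    have := inv_lt v hr hz
    rw [h'] at this
    linarith
  · exact hij rfl

/-- the rung meets the page `i` only in images of points of the arm -/
lemma rg_page {v : ℂ} {r : ℝ} {γ : ℝ → ℂ} {τ : ℝ} (hr : 0 < r) (h0 : 0 < τ)
    (hτ : ‖γ τ - v‖ = r) (hlt : ∀ t, 0 ≤ t → t < τ → r < ‖γ t - v‖) {t : ℝ}
    (ht : t ∈ Ioo (0 : ℝ) 1) {i : Bool} {z : ℂ} (hz : r < ‖z - v‖)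
    (h : rg v r γ τ t = pgm v r i z) : ∃ s, 0 < s ∧ s ≤ τ ∧ z = γ s := by
  have hn := rg_norm hr h0 hτ hlt (Ioo_subset_Icc_self ht)
  cases i
  · have h' : rg v r γ τ t = z := h
    rcases rg_mem (v := v) (r := r) (γ := γ) h0 ht with ⟨h1, s, hs0, hs1, hs⟩ | ⟨h1, s, hs0, hs1, hs⟩
    · exact ⟨s, hs0, hs1, h'.symm.trans hs⟩
    · have := hn.2 h1
      rw [h'] at this
      linarith
  · have h' : rg v r γ τ t = inv v r z := h
    rcases rg_mem (v := v) (r := r) (γ := γ) h0 ht with ⟨h1, s, hs0, hs1, hs⟩ | ⟨h1, s, hs0, hs1, hs⟩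
    · have h3 := hn.1 h1
      rw [h'] at h3
      have := inv_lt v hr hz
      linarith
    · exact ⟨s, hs0, hs1.le, inv_inj v hr (h'.symm.trans hs)⟩

end PRISM

open PRISM in
theorem t_PRISM (h0 : S_CNT) : S_PRISM := by
  intro V _ G D hfin hgood
  obtain ⟨r, hr, hry, hre⟩ := exists_radius D
  set v : ℂ := D.pos none with hv
  choose γ τ hτ0 hτ1 hc hi hγ0 hτr hlt hγm using fun y => exists_arm D hr y (hry y)
  obtain ⟨A, hA1, hA2⟩ := exists_arc (V := V) (fun i e t => pgm v r i (D.arc (toC e) t))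
    (fun y => rg v r (γ y) (τ y))
  have hX : ∀ e ∈ (cone G).edgeSet, ∀ f ∈ (cone G).edgeSet, e ≠ f →
      (D.arc e '' Ioo (0 : ℝ) 1 ∩ D.arc f '' Ioo (0 : ℝ) 1).Finite :=
    ((h0 (Option V) (cone G) D).1).1 hfin
  -- the drawing
  let P : Drawing (prism G) :=
    { pos := fun x => pgm v r x.2 (D.pos (some x.1))
      pos_injective := by
        rintro ⟨a, i⟩ ⟨b, j⟩ h
        by_cases hij : i = j
        · subst hij
          have h1 := pgm_inj v hr i h
          have h2 : a = b := Option.some.inj (D.pos_injective h1)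
          rw [h2]
        · exact absurd h (pgm_ne v hr hij (hry a) (hry b))
      arc := A
      arc_continuousOn := by
        intro x hx
        rcases edge_cases hx with ⟨i, e, he, rfl⟩ | ⟨y, rfl⟩
        · rw [hA1]
          refine (pgm_cont v r i).comp (D.arc_continuousOn _ (toC_mem he)) ?_
          intro t ht h
          have h1 := hre e he t ht
          have h2 : D.arc (toC e) t = v := h
          rw [h2, sub_self, norm_zero] at h1
          linarith
        · rw [hA2]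
          exact rg_cont hr (hτ0 y) (hτ1 y) (hc y) (hτr y) (hlt y)
      arc_injOn := by
        intro x hx
        rcases edge_cases hx with ⟨i, e, he, rfl⟩ | ⟨y, rfl⟩
        · rw [hA1]
          intro s hs t ht hst
          exact D.arc_injOn _ (toC_mem he) hs ht (pgm_inj v hr i hst)
        · rw [hA2]
          exact rg_inj hr (hτ0 y) (hτ1 y) (hi y) (hτr y) (hlt y)
      arc_ends := by
        rintro ⟨a, i⟩ ⟨b, j⟩ h
        rcases h with ⟨h1, h2⟩ | ⟨h1, h2⟩
        · dsimp only at h1 h2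
          subst h1
          have e1 : A s((a, i), (b, i)) = fun t => pgm v r i (D.arc (toC s(a, b)) t) :=
            hA1 i s(a, b)
          have hadj : (cone G).Adj (some a) (some b) :=
            (SimpleGraph.mem_edgeSet _).1 (toC_mem ((SimpleGraph.mem_edgeSet _).2 h2))
          rw [e1]
          rcases D.arc_ends _ _ hadj with h | h
          · exact Or.inl ⟨congrArg (pgm v r i) h.1, congrArg (pgm v r i) h.2⟩
          · exact Or.inr ⟨congrArg (pgm v r i) h.1, congrArg (pgm v r i) h.2⟩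
        · dsimp only at h1 h2
          subst h1
          have k0 : rg v r (γ a) (τ a) 0 = pgm v r false (D.pos (some a)) := by
            rw [rg_le (by norm_num)]
            have e1 : 2 * 0 * τ a = 0 := by ring
            rw [e1, hγ0]
            rfl
          have k1 : rg v r (γ a) (τ a) 1 = pgm v r true (D.pos (some a)) := by
            rw [rg_gt (by norm_num)]
            have e1 : 2 * (1 - 1) * τ a = 0 := by ring
            rw [e1, hγ0]
            rfl
          cases i <;> cases j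
          · exact absurd rfl h2
          · left
            have e1 : A s((a, false), (a, true)) = _ := hA2 a
            rw [e1]
            exact ⟨k0, k1⟩
          · right
            have e1 : A s((a, true), (a, false)) = rg v r (γ a) (τ a) := by
              rw [Sym2.eq_swap]
              exact hA2 a
            rw [e1]
            exact ⟨k0, k1⟩
          · exact absurd rfl h2
      arc_avoids := by
        rintro x hx t ht ⟨w, j⟩
        rcases edge_cases hx with ⟨i, e, he, rfl⟩ | ⟨y, rfl⟩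
        · rw [hA1]
          intro h
          by_cases hij : i = j
          · subst hij
            exact D.arc_avoids _ (toC_mem he) t ht (some w) (pgm_inj v hr i h)
          · exact pgm_ne v hr hij (hre e he t (Ioo_subset_Icc_self ht)) (hry w) h
        · rw [hA2]
          intro h
          obtain ⟨s, hs0, hs1, hs⟩ := rg_page hr (hτ0 y) (hτr y) (hlt y) ht (hry w) h
          obtain ⟨u, hu, hu'⟩ := hγm y s ⟨hs0, hs1.trans_lt (hτ1 y)⟩
          exact D.arc_avoids _ (arm_mem y) u hu (some w) (hu'.trans hs.symm) }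
  have hP1 : ∀ i e, P.arc (pg i e) = fun t => pgm v r i (D.arc (toC e) t) := hA1
  have hP2 : ∀ y, P.arc (rung y) = rg v r (γ y) (τ y) := hA2
  -- the crossings
  have c1 : ∀ i e f, P.arc (pg i e) '' Ioo (0 : ℝ) 1 ∩ P.arc (pg i f) '' Ioo (0 : ℝ) 1 =
      pgm v r i '' (D.arc (toC e) '' Ioo (0 : ℝ) 1 ∩ D.arc (toC f) '' Ioo (0 : ℝ) 1) := by
    intro i e f
    rw [image_inter (pgm_inj v hr i), image_image, image_image, hP1, hP1]
  have c2 : ∀ i j, i ≠ j → ∀ e ∈ G.edgeSet, ∀ f ∈ G.edgeSet,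
      P.arc (pg i e) '' Ioo (0 : ℝ) 1 ∩ P.arc (pg j f) '' Ioo (0 : ℝ) 1 = ∅ := by
    intro i j hij e he f hf
    rw [hP1, hP1]
    refine eq_empty_of_forall_notMem ?_
    rintro x ⟨⟨s, hs, rfl⟩, ⟨t, ht, hst⟩⟩
    exact pgm_ne v hr hij (hre e he s (Ioo_subset_Icc_self hs))
      (hre f hf t (Ioo_subset_Icc_self ht)) hst.symm
  have c3 : ∀ y i, ∀ e ∈ G.edgeSet,
      P.arc (rung y) '' Ioo (0 : ℝ) 1 ∩ P.arc (pg i e) '' Ioo (0 : ℝ) 1 ⊆
      pgm v r i '' (D.arc (arm y) '' Ioo (0 : ℝ) 1 ∩ D.arc (toC e) '' Ioo (0 : ℝ) 1) := by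
    intro y i e he
    rw [hP1, hP2]
    rintro x ⟨⟨s, hs, rfl⟩, ⟨t, ht, hst⟩⟩
    obtain ⟨u, hu0, hu1, hu⟩ := rg_page hr (hτ0 y) (hτr y) (hlt y) hs
      (hre e he t (Ioo_subset_Icc_self ht)) hst.symm
    refine ⟨D.arc (toC e) t, ⟨?_, ⟨t, ht, rfl⟩⟩, hst⟩
    rw [hu]
    exact hγm y u ⟨hu0, hu1.trans_lt (hτ1 y)⟩
  have c4 : ∀ y z, y ≠ z →
      P.arc (rung y) '' Ioo (0 : ℝ) 1 ∩ P.arc (rung z) '' Ioo (0 : ℝ) 1 = ∅ := by
    intro y z hyz
    have hempty := hgood _ (arm_mem y) _ (arm_mem z) (fun h => hyz (arm_inj h)) none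
      (Sym2.mem_mk_left _ _) (Sym2.mem_mk_left _ _)
    have hno : ∀ s s', 0 < s → s ≤ τ y → 0 < s' → s' ≤ τ z → γ y s ≠ γ z s' := by
      intro s s' h1 h2 h3 h4 h
      have m1 := hγm y s ⟨h1, h2.trans_lt (hτ1 y)⟩
      have m2 := hγm z s' ⟨h3, h4.trans_lt (hτ1 z)⟩
      rw [← h] at m2
      have : γ y s ∈ (∅ : Set ℂ) := by
        rw [← hempty]
        exact ⟨m1, m2⟩
      exact this
    refine eq_empty_of_forall_notMem ?_
    rw [hP2, hP2]
    rintro x ⟨⟨s, hs, rfl⟩, ⟨t, ht, hst⟩⟩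
    have ns := rg_norm (v := v) hr (hτ0 y) (hτr y) (hlt y) (Ioo_subset_Icc_self hs)
    have nt := rg_norm (v := v) hr (hτ0 z) (hτr z) (hlt z) (Ioo_subset_Icc_self ht)
    rw [hst] at nt
    rcases rg_mem (v := v) (r := r) (γ := γ y) (hτ0 y) hs with
      ⟨h1, u, hu0, hu1, hu⟩ | ⟨h1, u, hu0, hu1, hu⟩
    · rcases rg_mem (v := v) (r := r) (γ := γ z) (hτ0 z) ht with
        ⟨h2, w, hw0, hw1, hw⟩ | ⟨h2, w, hw0, hw1, hw⟩
      · exact hno u w hu0 hu1 hw0 hw1 (by rw [← hu, ← hw, hst])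
      · have := ns.1 h1
        have := nt.2 h2
        linarith
    · rcases rg_mem (v := v) (r := r) (γ := γ z) (hτ0 z) ht with
        ⟨h2, w, hw0, hw1, hw⟩ | ⟨h2, w, hw0, hw1, hw⟩
      · have := ns.2 h1
        have := nt.1 h2
        linarith
      · exact hno u w hu0 hu1.le hw0 hw1.le (inv_inj v hr (by rw [← hu, ← hw, hst]))
  have hne1 : ∀ {e f : Sym2 V}, e ≠ f → toC e ≠ toC f := fun h h' => h (toC_inj h')
  refine ⟨P, ((h0 (V × Bool) (prism G) P).1).2 ?_, ?_, ?_, ?_, ?_⟩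
  · intro x hx y hy hxy
    rcases edge_cases hx with ⟨i, e, he, rfl⟩ | ⟨a, rfl⟩
    · rcases edge_cases hy with ⟨j, f, hf, rfl⟩ | ⟨b, rfl⟩
      · by_cases hij : i = j
        · subst hij
          have hef : e ≠ f := fun h => hxy (by rw [h])
          rw [c1]
          exact (hX _ (toC_mem he) _ (toC_mem hf) (hne1 hef)).image _
        · rw [c2 i j hij e he f hf]
          exact finite_empty
      · rw [inter_comm]
        exact ((hX _ (arm_mem b) _ (toC_mem he) (arm_ne_toC b e)).image _).subset (c3 b i e he)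
    · rcases edge_cases hy with ⟨j, f, hf, rfl⟩ | ⟨b, rfl⟩
      · exact ((hX _ (arm_mem a) _ (toC_mem hf) (arm_ne_toC a f)).image _).subset (c3 a j f hf)
      · rw [c4 a b (fun h => hxy (by rw [h]))]
        exact finite_empty
  · intro e he f hf hef i
    unfold DX
    rw [if_pos (⟨toC_mem he, toC_mem hf, hne1 hef⟩ : toC e ∈ (cone G).edgeSet ∧
      toC f ∈ (cone G).edgeSet ∧ toC e ≠ toC f)]
    split_ifs
    · rw [c1, ncard_image_of_injective _ (pgm_inj v hr i)]
    · exact Nat.zero_le _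
  · intro e he f hf i j hij
    unfold DX
    split_ifs
    · rw [c2 i j hij e he f hf, ncard_empty]
    · rfl
  · intro y e he i
    unfold DX
    rw [if_pos (⟨arm_mem y, toC_mem he, arm_ne_toC y e⟩ : arm y ∈ (cone G).edgeSet ∧
      toC e ∈ (cone G).edgeSet ∧ arm y ≠ toC e)]
    split_ifs
    · refine (ncard_le_ncard (c3 y i e he) ?_).trans (ncard_image_le ?_)
      · exact (hX _ (arm_mem y) _ (toC_mem he) (arm_ne_toC y e)).image _
      · exact hX _ (arm_mem y) _ (toC_mem he) (arm_ne_toC y e)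
    · exact Nat.zero_le _
  · intro y z
    unfold DX
    split_ifs with h
    · rw [c4 y z (fun h' => h.2.2 (by rw [h'])), ncard_empty]
    · rfl

end Pool.Agent.NH90.CN
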