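import Pool.Agent.NH90.CN.Stm

set_option autoImplicit false

open Set Classical
open Pool.Agent.Helper770.Crossing Pool.Agent.Helper770.Sep

namespace Pool.Agent.NH90.CN

namespace Rc

theorem segL_cc (a b : ℂ) (l : List ℂ) : segL (a :: b :: l) = s(a, b) :: segL (b :: l) := rfl

theorem Nx_cc (a b : ℂ) (l l' : List ℂ) : Nx (a :: b :: l) l' = NS s(a, b) l' + Nx (b :: l) l' := by
  unfold Nx
  rw [segL_cc, List.map_cons, List.sum_cons]

theorem Nx_one (a : ℂ) (l' : List ℂ) : Nx [a] l' = 0 := rfl

theorem NS_le (s : Sym2 ℂ) (a b : ℂ) (l : List ℂ) : NS s (b :: l) ≤ NS s (a :: b :: l) := by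
  unfold NS
  rw [segL_cc, List.countP_cons]
  omega

theorem Nx_le (a b : ℂ) (l l' : List ℂ) : Nx l' (b :: l) ≤ Nx l' (a :: b :: l) := by
  unfold Nx
  exact List.sum_le_sum fun s _ => NS_le s a b l

theorem mem_of_segL {x y : ℂ} : ∀ l : List ℂ, s(x, y) ∈ segL l → x ∈ l ∧ y ∈ l := by
  intro l
  induction l with
  | nil => intro h; exact absurd h (by simp [segL])
  | cons a l ih =>
    cases l with
    | nil => intro h; exact absurd h (by simp [segL])
    | cons b l =>
      intro h
      rw [segL_cc, List.mem_cons] at h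
      rcases h with h | h
      · rcases Sym2.eq_iff.1 h with ⟨rfl, rfl⟩ | ⟨rfl, rfl⟩
        · simp
        · simp
      · obtain ⟨h1, h2⟩ := ih h
        exact ⟨List.mem_cons_of_mem _ h1, List.mem_cons_of_mem _ h2⟩

theorem ne_of_segL {x y : ℂ} : ∀ l : List ℂ, l.Nodup → s(x, y) ∈ segL l → x ≠ y := by
  intro l
  induction l with
  | nil => intro _ h; exact absurd h (by simp [segL])
  | cons a l ih =>
    cases l with
    | nil => intro _ h; exact absurd h (by simp [segL])
    | cons b l =>
      intro hn h
      rw [segL_cc, List.mem_cons] at h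
      rcases h with h | h
      · have hab : a ≠ b := by
          rintro rfl
          exact (List.nodup_cons.1 hn).1 List.mem_cons_self
        rcases Sym2.eq_iff.1 h with ⟨rfl, rfl⟩ | ⟨rfl, rfl⟩
        · exact hab
        · exact hab.symm
      · exact ih (List.nodup_cons.1 hn).2 h

section

variable {V I : Type} {A : Finset I} {hd tl : I → V} {loc : V → ℂ} {W : I → List ℂ}

theorem lab_of_En (hL : Lb A hd tl loc W) {i : I} (hi : i ∈ A) {q : ℂ} (h : En (W i) q) :
    ∃ u ∈ s(hd i, tl i), loc u = q := by
  rcases h with h | h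
  · rw [hL.head i hi] at h
    exact ⟨hd i, Sym2.mem_mk_left _ _, Option.some.inj h⟩
  · rw [hL.last i hi] at h
    exact ⟨tl i, Sym2.mem_mk_right _ _, Option.some.inj h⟩

theorem mem_of_lab (hL : Lb A hd tl loc W) {i : I} (hi : i ∈ A) {u : V} (h : u ∈ s(hd i, tl i)) :
    loc u ∈ W i := by
  rcases Sym2.mem_iff.1 h with rfl | rfl
  · exact List.mem_of_mem_head? (hL.head i hi)
  · exact List.mem_of_mem_getLast? (hL.last i hi)

theorem common (hP : PL A W) (hL : Lb A hd tl loc W) {i j : I} (hi : i ∈ A) (hj : j ∈ A)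
    (hij : i ≠ j) {q : ℂ} (h1 : q ∈ W i) (h2 : q ∈ W j) :
    ∃ u, u ∈ s(hd i, tl i) ∧ u ∈ s(hd j, tl j) ∧ loc u = q := by
  obtain ⟨e1, e2⟩ := hP.sep i hi j hj hij q h1 h2
  obtain ⟨u, hu, hu'⟩ := lab_of_En hL hi e1
  obtain ⟨v, hv, hv'⟩ := lab_of_En hL hj e2
  have := hL.inj i hi j hj u hu v hv (hu'.trans hv'.symm)
  subst this
  exact ⟨u, hu, hv, hu'⟩

theorem head_ne_last {l : List ℂ} (hl : 2 ≤ l.length) (hn : l.Nodup) {a b : ℂ}
    (ha : l.head? = some a) (hb : l.getLast? = some b) : a ≠ b := by
  cases l with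
  | nil => simp at hl
  | cons x l =>
    cases l with
    | nil => simp at hl
    | cons y l =>
      rw [List.head?_cons] at ha
      have hxa : x = a := Option.some.inj ha
      rw [List.getLast?_cons_cons] at hb
      have hb' : b ∈ y :: l := List.mem_of_mem_getLast? hb
      rintro rfl
      rw [← hxa] at hb'
      exact (List.nodup_cons.1 hn).1 hb'

theorem hd_ne_tl (hP : PL A W) (hL : Lb A hd tl loc W) {i : I} (hi : i ∈ A) : hd i ≠ tl i := by
  intro h
  apply head_ne_last (hP.len i hi) (hP.nd i hi) (hL.head i hi) (hL.last i hi)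
  rw [h]

theorem two_lab {a b u v : V} (huv : u ≠ v) (hu : u ∈ s(a, b)) (hv : v ∈ s(a, b)) :
    s(u, v) = s(a, b) := ((Sym2.mem_and_mem_iff huv).1 ⟨hu, hv⟩).symm

theorem ds (hP : PL A W) (hL : Lb A hd tl loc W)
    (hpar : ∀ i ∈ A, ∀ j ∈ A, i ≠ j → s(hd i, tl i) ≠ s(hd j, tl j)) : DS A W := by
  intro i hi j hj hij s h1 h2
  induction s with | _ x y =>
  obtain ⟨a1, a2⟩ := mem_of_segL _ h1
  obtain ⟨b1, b2⟩ := mem_of_segL _ h2
  have hne := ne_of_segL _ (hP.nd i hi) h1
  obtain ⟨u, u1, u2, u3⟩ := common hP hL hi hj hij a1 b1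
  obtain ⟨v, v1, v2, v3⟩ := common hP hL hi hj hij a2 b2
  have huv : u ≠ v := by
    rintro rfl
    exact hne (u3.symm.trans v3)
  exact hpar i hi j hj hij ((two_lab huv u1 v1).symm.trans (two_lab huv u2 v2))

end

end Rc

open Rc in
theorem t_RC (h : S_MV) : S_RC := by
  intro V I A hd tl loc W r κ hr hPL hPO hLb hpar hN hκ hκn
  obtain ⟨n, hn⟩ : ∃ n, (W r).length = n := ⟨_, rfl⟩
  induction n generalizing loc W with
  | zero =>
    have := hPL.len r hr
    omega
  | succ n ih =>
    -- the first two points
    obtain ⟨w₀, p, rest, hW⟩ : ∃ w₀ p rest, W r = w₀ :: p :: rest := by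
      have h2 := hPL.len r hr
      match hWr : W r with
      | [] => rw [hWr] at h2; simp at h2
      | [a] => rw [hWr] at h2; simp at h2
      | a :: b :: l => exact ⟨a, b, l, rfl⟩
    have hw₀ : loc (hd r) = w₀ := by
      have := hLb.head r hr
      rw [hW, List.head?_cons] at this
      exact (Option.some.inj this).symm
    have hnd := hPL.nd r hr
    rw [hW] at hnd
    have hne := hd_ne_tl hPL hLb hr
    have hκr : κ (hd r) = tl r := by rw [hκ, if_pos rfl]
    have hκo : ∀ v, v ≠ hd r → κ v = v := fun v hv => by rw [hκ, if_neg hv]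
    have hwi : ∀ i ∈ A, i ≠ r → (w₀ ∈ W i ↔ hd r ∈ s(hd i, tl i)) := by
      intro i hi hir
      constructor
      · intro hw
        obtain ⟨u, u1, u2, u3⟩ := common hPL hLb hi hr hir hw (by rw [hW]; exact List.mem_cons_self)
        have : u = hd r := hLb.inj r hr r hr u u2 (hd r) (Sym2.mem_mk_left _ _) (u3.trans hw₀.symm)
        rwa [this] at u1
      · intro hu
        have := mem_of_lab hLb hi hu
        rwa [hw₀] at this
    have hloc : ∀ i ∈ A, ∀ u ∈ s(hd i, tl i), (loc u = w₀ ↔ u = hd r) := by
      intro i hi u hu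
      constructor
      · intro h'
        exact hLb.inj i hi r hr u hu (hd r) (Sym2.mem_mk_left _ _) (h'.trans hw₀.symm)
      · rintro rfl
        exact hw₀
    have hDS := ds hPL hLb hpar
    by_cases hrest : rest = []
    · subst hrest
      have hp : loc (tl r) = p := by
        have := hLb.last r hr
        rw [hW] at this
        exact (Option.some.inj this).symm
      have hpn : ∀ i ∈ A, i ≠ r → w₀ ∈ W i → p ∉ W i := by
        intro i hi hir hw hpi
        obtain ⟨u, u1, u2, u3⟩ := common hPL hLb hi hr hir hpi (by rw [hW]; simp)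
        have hu : u = tl r := hLb.inj r hr r hr u u2 (tl r) (Sym2.mem_mk_right _ _) (u3.trans hp.symm)
        rw [hu] at u1
        exact hpar i hi r hr hir (two_lab hne ((hwi i hi hir).1 hw) u1).symm
      obtain ⟨W', m1, m2, -, m4, m5, m6, m7, m8, -⟩ := h I A W r w₀ p [] hPL hPO hDS hr hW hN hpn
      have hNr : ∀ l, Nx (W r) l = NS s(w₀, p) l := by
        intro l
        rw [hW, Nx_cc, Nx_one, add_zero]
      -- labels of the contracted family
      have hlab : ∀ i ∈ A.erase r, ∀ u ∈ s(κ (hd i), κ (tl i)), ∃ a ∈ A, u ∈ s(hd a, tl a) := by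
        intro i hi u hu
        have hκm : ∀ v ∈ s(hd i, tl i), ∃ a ∈ A, κ v ∈ s(hd a, tl a) := by
          intro v hv
          by_cases hvr : v = hd r
          · rw [hvr, hκr]
            exact ⟨r, hr, Sym2.mem_mk_right _ _⟩
          · rw [hκo v hvr]
            exact ⟨i, Finset.mem_of_mem_erase hi, hv⟩
        rcases Sym2.mem_iff.1 hu with rfl | rfl
        · exact hκm _ (Sym2.mem_mk_left _ _)
        · exact hκm _ (Sym2.mem_mk_right _ _)
      refine ⟨W', m1, m2, ⟨?_, ?_, ?_⟩, ?_, ?_⟩
      · intro i hi j hj u hu v hv huv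
        obtain ⟨a, ha, hua⟩ := hlab i hi u hu
        obtain ⟨b, hb, hvb⟩ := hlab j hj v hv
        exact hLb.inj a ha b hb u hua v hvb huv
      · intro i hi
        obtain ⟨hir, hiA⟩ := Finset.mem_erase.1 hi
        rw [m6 i hiA hir, hLb.head i hiA]
        by_cases hc : hd i = hd r
        · rw [if_pos (by rw [hc, hw₀]), hc, hκr, hp]
        · have hc' : loc (hd i) ≠ w₀ := fun h' => hc ((hloc i hiA _ (Sym2.mem_mk_left _ _)).1 h')
          rw [if_neg (fun h' => hc' (Option.some.inj h')), hκo _ hc]
      · intro i hi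
        obtain ⟨hir, hiA⟩ := Finset.mem_erase.1 hi
        rw [m7 i hiA hir, hLb.last i hiA]
        by_cases hc : tl i = hd r
        · rw [if_pos (by rw [hc, hw₀]), hc, hκr, hp]
        · have hc' : loc (tl i) ≠ w₀ := fun h' => hc ((hloc i hiA _ (Sym2.mem_mk_right _ _)).1 h')
          rw [if_neg (fun h' => hc' (Option.some.inj h')), hκo _ hc]
      · intro i hi hni
        obtain ⟨hir, hiA⟩ := Finset.mem_erase.1 hi
        exact m5 i hiA hir (fun hw => hni ((hwi i hiA hir).1 hw))
      · intro i hi j hj hij
        obtain ⟨hir, hiA⟩ := Finset.mem_erase.1 hi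
        obtain ⟨hjr, hjA⟩ := Finset.mem_erase.1 hj
        have := m8 i hiA j hjA hir hjr hij
        rw [hNr, hNr]
        simp only [hwi i hiA hir, hwi j hjA hjr] at this
        exact this
    · -- `p` is not an end
      have hlast : (p :: rest).getLast? = some (loc (tl r)) := by
        have := hLb.last r hr
        rwa [hW, List.getLast?_cons_cons] at this
      have hpl : loc (tl r) ≠ p := by
        obtain ⟨a, l, rfl⟩ := List.exists_cons_of_ne_nil hrest
        rw [List.getLast?_cons_cons] at hlast
        have h1 : loc (tl r) ∈ a :: l := List.mem_of_mem_getLast? hlast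
        intro h2
        rw [h2] at h1
        exact (List.nodup_cons.1 (List.nodup_cons.1 hnd).2).1 h1
      have hpw : w₀ ≠ p := by
        rintro rfl
        exact (List.nodup_cons.1 hnd).1 List.mem_cons_self
      have hpEn : ¬ En (W r) p := by
        rintro (h1 | h1)
        · rw [hW, List.head?_cons] at h1
          exact hpw (Option.some.inj h1)
        · rw [hW, List.getLast?_cons_cons, hlast] at h1
          exact hpl (Option.some.inj h1)
      have hpi : ∀ i ∈ A, i ≠ r → p ∉ W i := by
        intro i hi hir hp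
        exact hpEn (hPL.sep i hi r hr hir p hp (by rw [hW]; simp)).2
      obtain ⟨W', -, -, m3, m4, m5, m6, m7, m8, m9⟩ := h I A W r w₀ p rest hPL hPO hDS hr hW hN
        (fun i hi hir _ => hpi i hi hir)
      obtain ⟨m1, m2⟩ := m3 hrest
      set loc' : V → ℂ := Function.update loc (hd r) p with hloc'
      have lr : loc' (hd r) = p := by rw [hloc', Function.update_self]
      have lo : ∀ v, v ≠ hd r → loc' v = loc v := fun v hv => by
        rw [hloc', Function.update_of_ne hv]
      have hpo : ∀ j ∈ A, ∀ v ∈ s(hd j, tl j), v ≠ hd r → p ≠ loc v := by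
        intro j hj v hv hvr hp
        by_cases hjr : j = r
        · subst hjr
          rcases Sym2.mem_iff.1 hv with h1 | h1
          · exact hvr h1
          · rw [h1] at hp
            exact hpl hp.symm
        · have := mem_of_lab hLb hj hv
          rw [← hp] at this
          exact hpi j hj hjr this
      have hLb' : Lb A hd tl loc' W' := by
        refine ⟨?_, ?_, ?_⟩
        · intro i hi j hj u hu v hv huv
          by_cases h1 : u = hd r <;> by_cases h2 : v = hd r
          · rw [h1, h2]
          · rw [h1, lr, lo v h2] at huv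
            exact absurd huv (hpo j hj v hv h2)
          · rw [h2, lr, lo u h1] at huv
            exact absurd huv.symm (hpo i hi u hu h1)
          · rw [lo u h1, lo v h2] at huv
            exact hLb.inj i hi j hj u hu v hv huv
        · intro i hi
          by_cases hir : i = r
          · rw [hir, m4, lr, List.head?_cons]
          · rw [m6 i hi hir, hLb.head i hi]
            by_cases hc : hd i = hd r
            · rw [if_pos (by rw [hc, hw₀]), hc, lr]
            · have hc' : loc (hd i) ≠ w₀ :=
                fun h' => hc ((hloc i hi _ (Sym2.mem_mk_left _ _)).1 h')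
              rw [if_neg (fun h' => hc' (Option.some.inj h')), lo _ hc]
        · intro i hi
          by_cases hir : i = r
          · rw [hir, m4, hlast, lo _ hne.symm]
          · rw [m7 i hi hir, hLb.last i hi]
            by_cases hc : tl i = hd r
            · rw [if_pos (by rw [hc, hw₀]), hc, lr]
            · have hc' : loc (tl i) ≠ w₀ :=
                fun h' => hc ((hloc i hi _ (Sym2.mem_mk_right _ _)).1 h')
              rw [if_neg (fun h' => hc' (Option.some.inj h')), lo _ hc]
      have hN' : Nx (W' r) (W' r) = 0 := by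
        rw [m4]
        have h1 := Nx_le w₀ p rest (p :: rest)
        have h2 := Nx_cc w₀ p rest (w₀ :: p :: rest)
        rw [hW] at hN
        omega
      have hlen : (W' r).length = n := by
        rw [m4]
        rw [hW, List.length_cons] at hn
        omega
      obtain ⟨W'', k1, k2, k3, k4, k5⟩ := ih loc' W' m1 m2 hLb' hN' hlen
      have hκl : ∀ v, loc' (κ v) = loc (κ v) := by
        intro v
        apply lo
        by_cases hv : v = hd r
        · rw [hv, hκr]; exact hne.symm
        · rwa [hκo v hv]
      refine ⟨W'', k1, k2, ⟨?_, ?_, ?_⟩, ?_, ?_⟩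
      · intro i hi j hj u hu v hv huv
        apply k3.inj i hi j hj u hu v hv
        have e : ∀ i, ∀ u ∈ s(κ (hd i), κ (tl i)), loc' u = loc u := by
          intro i u hu
          rcases Sym2.mem_iff.1 hu with rfl | rfl
          · exact hκl _
          · exact hκl _
        rw [e i u hu, e j v hv, huv]
      · intro i hi
        rw [k3.head i hi, hκl]
      · intro i hi
        rw [k3.last i hi, hκl]
      · intro i hi hni
        obtain ⟨hir, hiA⟩ := Finset.mem_erase.1 hi
        rw [k4 i hi hni]
        exact m5 i hiA hir (fun hw => hni ((hwi i hiA hir).1 hw))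
      · intro i hi j hj hij
        obtain ⟨hir, hiA⟩ := Finset.mem_erase.1 hi
        obtain ⟨hjr, hjA⟩ := Finset.mem_erase.1 hj
        have e1 := k5 i hi j hj hij
        have e2 := m8 i hiA j hjA hir hjr hij
        simp only [hwi i hiA hir, hwi j hjA hjr] at e2
        have e3 := m9 i hiA hir
        have e4 := m9 j hjA hjr
        rw [m4] at e1
        rw [hW, Nx_cc, Nx_cc]
        by_cases c1 : hd r ∈ s(hd i, tl i) <;> by_cases c2 : hd r ∈ s(hd j, tl j) <;>
          simp only [c1, c2, if_true, if_false] at e1 e2 ⊢ <;> omega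

end Pool.Agent.NH90.CN
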