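import Pool.Agent.NH90.CN.Stm

/-!
# Project CN: relocation of a vertex to the apex of the cone, and restriction to the graph
-/

set_option autoImplicit false

open Set Classical
open Pool.Agent.Helper770.Crossing Pool.Agent.Helper770.Sep

namespace Pool.Agent.NH90.CN

namespace Rel

variable {V W : Type} {G : SimpleGraph V} {H : SimpleGraph W}

theorem mem_map {σ : V → W} (hσ : ∀ u v, G.Adj u v → H.Adj (σ u) (σ v)) {e : Sym2 V}
    (he : e ∈ G.edgeSet) : e.map σ ∈ H.edgeSet := by
  induction e using Sym2.ind with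
  | _ u v =>
    rw [Sym2.map_mk]
    exact hσ u v he

/-- the drawing of `G` induced by an injective homomorphism into `H` -/
def pull (D : Drawing H) (σ : V → W) (hi : Function.Injective σ)
    (hσ : ∀ u v, G.Adj u v → H.Adj (σ u) (σ v)) : Drawing G where
  pos v := D.pos (σ v)
  pos_injective := D.pos_injective.comp hi
  arc e := D.arc (e.map σ)
  arc_continuousOn e he := D.arc_continuousOn _ (mem_map hσ he)
  arc_injOn e he := D.arc_injOn _ (mem_map hσ he)
  arc_ends u v h := by
    rw [Sym2.map_mk]
    exact D.arc_ends _ _ (hσ u v h)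
  arc_avoids e he t ht w := D.arc_avoids _ (mem_map hσ he) t ht (σ w)

section

variable (D : Drawing H) (σ : V → W) (hi : Function.Injective σ)
  (hσ : ∀ u v, G.Adj u v → H.Adj (σ u) (σ v))

theorem DX_pull {e f : Sym2 V} (he : e ∈ G.edgeSet) (hf : f ∈ G.edgeSet) :
    DX (pull D σ hi hσ) e f = DX D (e.map σ) (f.map σ) := by
  unfold DX
  by_cases h : e = f
  · subst h
    simp
  · have h' : e.map σ ≠ f.map σ := fun h'' => h (Sym2.map.injective hi h'')
    rw [if_pos ⟨he, hf, h⟩, if_pos ⟨mem_map hσ he, mem_map hσ hf, h'⟩]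
    rfl

theorem DX_pull_le (e f : Sym2 V) : DX (pull D σ hi hσ) e f ≤ DX D (e.map σ) (f.map σ) := by
  by_cases he : e ∈ G.edgeSet
  · by_cases hf : f ∈ G.edgeSet
    · exact (DX_pull D σ hi hσ he hf).le
    · unfold DX
      rw [if_neg (fun h => hf h.2.1)]
      exact Nat.zero_le _
  · unfold DX
    rw [if_neg (fun h => he h.1)]
    exact Nat.zero_le _

theorem fin_pull (h0 : S_CNT) [Fintype V] [Fintype W] (hD : D.crossings.Finite) :
    (pull D σ hi hσ).crossings.Finite := by
  rw [(h0 V G (pull D σ hi hσ)).1]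
  intro e he f hf hne
  exact ((h0 W H D).1.1 hD) _ (mem_map hσ he) _ (mem_map hσ hf)
    (fun h => hne (Sym2.map.injective hi h))

theorem good_pull (hD : Good D) : Good (pull D σ hi hσ) := by
  intro e he f hf hne v hve hvf
  exact hD _ (mem_map hσ he) _ (mem_map hσ hf) (fun h => hne (Sym2.map.injective hi h)) (σ v)
    (Sym2.mem_map.2 ⟨v, hve, rfl⟩) (Sym2.mem_map.2 ⟨v, hvf, rfl⟩)

end

theorem DX_comm (D : Drawing G) (e f : Sym2 V) : DX D e f = DX D f e := by
  unfold DX
  by_cases h : e ∈ G.edgeSet ∧ f ∈ G.edgeSet ∧ e ≠ f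
  · rw [if_pos h, if_pos ⟨h.2.1, h.1, h.2.2.symm⟩, Set.inter_comm]
  · rw [if_neg h, if_neg (fun h' => h ⟨h'.2.1, h'.1, h'.2.2.symm⟩)]

theorem DX_good {D : Drawing G} (hD : Good D) {e f : Sym2 V} {v : V} (he : v ∈ e) (hf : v ∈ f) :
    DX D e f = 0 := by
  unfold DX
  by_cases h : e ∈ G.edgeSet ∧ f ∈ G.edgeSet ∧ e ≠ f
  · rw [if_pos h, hD e h.1 f h.2.1 h.2.2 v he hf, Set.ncard_empty]
  · rw [if_neg h]

/-- moving `x` to the apex -/
noncomputable def mv (x : V) (v : V) : Option V := if v = x then none else some v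

theorem mv_inj (x : V) : Function.Injective (mv x) := by
  intro u v h
  unfold mv at h
  split_ifs at h with h1 h2 h2
  · rw [h1, h2]
  · exact Option.some.inj h

theorem mv_adj (x : V) (u v : V) (h : G.Adj u v) : (cone G).Adj (mv x u) (mv x v) := by
  refine ⟨fun h' => h.ne (mv_inj x h'), ?_⟩
  unfold mv
  by_cases hu : u = x
  · left
    rw [if_pos hu]
  · by_cases hv : v = x
    · right
      left
      rw [if_pos hv]
    · right
      right
      rw [if_neg hu, if_neg hv]
      exact ⟨u, v, rfl, rfl, h⟩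

theorem map_mv {x : V} {e : Sym2 V} (h : x ∉ e) : e.map (mv x) = toC e := by
  induction e using Sym2.ind with
  | _ u v =>
    rw [Sym2.mem_iff, not_or] at h
    unfold toC
    rw [Sym2.map_mk, Sym2.map_mk]
    unfold mv
    rw [if_neg (Ne.symm h.1), if_neg (Ne.symm h.2)]

theorem map_arm {x y : V} (h : y ≠ x) : s(x, y).map (mv x) = arm y := by
  rw [Sym2.map_mk]
  unfold mv arm
  rw [if_pos rfl, if_neg h]

theorem some_adj (u v : V) (h : G.Adj u v) : (cone G).Adj (some u) (some v) :=
  ⟨fun h' => h.ne (Option.some.inj h'), Or.inr (Or.inr ⟨u, v, rfl, rfl, h⟩)⟩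

theorem toC_mem {e : Sym2 V} : toC e ∈ (cone G).edgeSet ↔ e ∈ G.edgeSet := by
  induction e using Sym2.ind with
  | _ u v =>
    unfold toC
    rw [Sym2.map_mk, SimpleGraph.mem_edgeSet, SimpleGraph.mem_edgeSet]
    constructor
    · rintro ⟨-, h | h | ⟨a, b, ha, hb, h⟩⟩
      · exact absurd h (by simp)
      · exact absurd h (by simp)
      · rw [Option.some.inj ha, Option.some.inj hb]
        exact h
    · exact some_adj u v

end Rel

open Pool.Agent.NH90.CN.Rel

theorem t_REL (h0 : S_CNT) : S_REL := by
  intro V _ G D hfin hgood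
  refine ⟨fun x => ?_, ?_⟩
  · set D' := pull (G := G) D (mv x) (mv_inj x) (mv_adj x) with hD'
    have hfin' : D'.crossings.Finite := fin_pull D (mv x) (mv_inj x) (mv_adj x) h0 hfin
    have hgood' : Good D' := good_pull D (mv x) (mv_inj x) (mv_adj x) hgood
    have h1 : crossingNumber G ≤ D'.crossings.ncard := Nat.sInf_le ⟨D', hfin', rfl⟩
    have h2 := (h0 V G D').2 hfin'
    -- the parts of the sums
    set a : Sym2 V → Sym2 V → ℕ := fun e f => if x ∉ e ∧ x ∉ f then DX D (toC e) (toC f) else 0
      with ha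
    set b : Sym2 V → Sym2 V → ℕ := fun e f => if x ∈ e ∧ x ∉ f then DX D' e f else 0 with hb
    set r : Sym2 V → Sym2 V → ℕ := fun e f => if x ∈ e ∧ x ∉ f then DX D (toC e) (toC f) else 0
      with hr
    have e1 : ∀ e f, DX D' e f ≤ a e f + (b e f + b f e) := by
      intro e f
      simp only [ha, hb]
      by_cases he : x ∈ e
      · by_cases hf : x ∈ f
        · rw [DX_good hgood' he hf]
          exact Nat.zero_le _
        · rw [if_neg (fun h => h.1 he), if_pos ⟨he, hf⟩]
          omega
      · by_cases hf : x ∈ f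
        · rw [if_neg (fun h => h.2 hf), if_neg (fun h => he h.1), if_pos ⟨hf, he⟩,
            DX_comm D' f e]
          omega
        · rw [if_pos ⟨he, hf⟩]
          have := DX_pull_le D (mv x) (mv_inj x) (mv_adj (G := G) x) e f
          rw [map_mv he, map_mv hf] at this
          exact this.trans (Nat.le_add_right _ _)
    have e2 : ∀ e f, a e f + (r e f + r f e) ≤ DX D (toC e) (toC f) := by
      intro e f
      simp only [ha, hr]
      by_cases he : x ∈ e
      · by_cases hf : x ∈ f
        · rw [if_neg (fun h => h.1 he), if_neg (fun h => h.2 hf), if_neg (fun h => h.2 he)]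
          exact Nat.zero_le _
        · rw [if_neg (fun h => h.1 he), if_pos ⟨he, hf⟩, if_neg (fun h => hf h.1)]
          omega
      · by_cases hf : x ∈ f
        · rw [if_neg (fun h => h.2 hf), if_neg (fun h => he h.1), if_pos ⟨hf, he⟩,
            DX_comm D (toC f)]
          omega
        · rw [if_pos ⟨he, hf⟩, if_neg (fun h => he h.1), if_neg (fun h => hf h.1)]
          omega
    have s1 : ∑ e : Sym2 V, ∑ f : Sym2 V, DX D' e f ≤
        ∑ e : Sym2 V, ∑ f : Sym2 V, a e f + (∑ e : Sym2 V, ∑ f : Sym2 V, b e f +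
          ∑ e : Sym2 V, ∑ f : Sym2 V, b e f) := by
      have : ∑ e : Sym2 V, ∑ f : Sym2 V, b e f = ∑ e : Sym2 V, ∑ f : Sym2 V, b f e :=
        Finset.sum_comm
      conv_rhs => rw [this]
      conv_rhs =>
        enter [2, 1]
        rw [← this]
      rw [← Finset.sum_add_distrib, ← Finset.sum_add_distrib]
      refine Finset.sum_le_sum fun e _ => ?_
      rw [← Finset.sum_add_distrib, ← Finset.sum_add_distrib]
      exact Finset.sum_le_sum fun f _ => e1 e f
    have s2 : ∑ e : Sym2 V, ∑ f : Sym2 V, a e f + (∑ e : Sym2 V, ∑ f : Sym2 V, r e f +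
          ∑ e : Sym2 V, ∑ f : Sym2 V, r e f) ≤ Kk D := by
      have : ∑ e : Sym2 V, ∑ f : Sym2 V, r e f = ∑ e : Sym2 V, ∑ f : Sym2 V, r f e :=
        Finset.sum_comm
      conv_lhs =>
        enter [2, 2]
        rw [this]
      unfold Kk
      rw [← Finset.sum_add_distrib, ← Finset.sum_add_distrib]
      refine Finset.sum_le_sum fun e _ => ?_
      rw [← Finset.sum_add_distrib, ← Finset.sum_add_distrib]
      exact Finset.sum_le_sum fun f _ => e2 e f
    have s3 : ∑ e : Sym2 V, ∑ f : Sym2 V, r e f = Rr D x := rfl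
    have s4 : ∑ e : Sym2 V, ∑ f : Sym2 V, b e f ≤ ∑ y : V, Cc D y := by
      have t1 : ∑ e : Sym2 V, ∑ f : Sym2 V, b e f =
          ∑ e ∈ Finset.univ.filter (fun e : Sym2 V => x ∈ e), ∑ f : Sym2 V, b e f := by
        rw [Finset.sum_filter]
        refine Finset.sum_congr rfl fun e _ => ?_
        by_cases he : x ∈ e
        · rw [if_pos he]
        · rw [if_neg he]
          exact Finset.sum_eq_zero fun f _ => if_neg fun h => he h.1
      have t2 : Finset.univ.filter (fun e : Sym2 V => x ∈ e) =
          Finset.univ.image (fun y : V => s(x, y)) := by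
        ext e
        simp only [Finset.mem_filter, Finset.mem_univ, true_and, Finset.mem_image]
        constructor
        · intro h
          obtain ⟨y, rfl⟩ := h
          exact ⟨y, rfl⟩
        · rintro ⟨y, rfl⟩
          exact Sym2.mem_mk_left x y
      rw [t1, t2, Finset.sum_image (fun y _ z _ h => by
        rcases (by simpa using h : y = z ∨ x = z ∧ y = x) with h | ⟨h1, h2⟩
        · exact h
        · exact h2.trans h1)]
      refine Finset.sum_le_sum fun y _ => ?_
      unfold Cc
      refine Finset.sum_le_sum fun f _ => ?_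
      simp only [hb]
      by_cases hf : x ∈ f
      · rw [if_neg (fun h => h.2 hf)]
        exact Nat.zero_le _
      · rw [if_pos ⟨Sym2.mem_mk_left x y, hf⟩]
        by_cases hy : y = x
        · subst hy
          have : DX D' s(y, y) f = 0 := by
            unfold DX
            rw [if_neg]
            rintro ⟨h, -, -⟩
            exact G.loopless.irrefl y h
          rw [this]
          exact Nat.zero_le _
        · have := DX_pull_le D (mv x) (mv_inj x) (mv_adj (G := G) x) s(x, y) f
          rwa [map_mv hf, map_arm hy] at this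
    rw [s3] at s2
    omega
  · refine ⟨pull (G := G) D some (Option.some_injective V) some_adj,
      fin_pull D some (Option.some_injective V) some_adj h0 hfin,
      good_pull D some (Option.some_injective V) some_adj hgood, fun e f => ?_⟩
    by_cases he : e ∈ G.edgeSet
    · by_cases hf : f ∈ G.edgeSet
      · exact DX_pull D some (Option.some_injective V) some_adj he hf
      · unfold DX
        rw [if_neg (fun h => hf h.2.1), if_neg (fun h => hf (toC_mem.1 h.2.1))]
    · unfold DX
      rw [if_neg (fun h => he h.1), if_neg (fun h => he (toC_mem.1 h.1))]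

end Pool.Agent.NH90.CN
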