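import Pool.Agent.NH90.CN.Stm

/-!
# CN-9: removing self-crossings of polylines
-/

set_option autoImplicit false

open Set Classical
open Pool.Agent.Helper770.Crossing Pool.Agent.Helper770.Sep

namespace Pool.Agent.NH90.CN

namespace Simp94

lemma sgm (a b : ℂ) : sg s(a, b) = segment ℝ a b := by
  unfold sg
  rw [← convexHull_pair]
  congr 1
  ext z
  simp [Sym2.mem_iff]

lemma xsym {s t : Sym2 ℂ} (h : Xs s t) : Xs t s :=
  ⟨fun q hq hq' => h.1 q hq' hq, by rw [Set.inter_comm]; exact h.2⟩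

lemma xirr (s : Sym2 ℂ) : ¬ Xs s s := by
  induction s using Sym2.ind with
  | _ x y => exact fun h => h.1 x (Sym2.mem_mk_left x y) (Sym2.mem_mk_left x y)

lemma segL_app (l : List ℂ) (a : ℂ) (r : List ℂ) :
    segL (l ++ a :: r) = segL (l ++ [a]) ++ segL (a :: r) := by
  induction l with
  | nil => simp [segL]
  | cons x l ih =>
    cases l with
    | nil => simp [segL]
    | cons y l =>
      simp only [List.cons_append, segL] at ih ⊢
      rw [ih]

lemma decS {l : List ℂ} {s : Sym2 ℂ} (h : s ∈ segL l) :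
    ∃ l1 a b l2, l = l1 ++ a :: b :: l2 ∧ s = s(a, b) := by
  induction l with
  | nil => simp [segL] at h
  | cons x l ih =>
    cases l with
    | nil => simp [segL] at h
    | cons y l =>
      simp only [segL, List.mem_cons] at h
      rcases h with h | h
      · exact ⟨[], x, y, l, rfl, h⟩
      · obtain ⟨l1, a, b, l2, h1, h2⟩ := ih h
        exact ⟨x :: l1, a, b, l2, by rw [h1]; rfl, h2⟩

lemma memL {l : List ℂ} {s : Sym2 ℂ} (h : s ∈ segL l) : ∀ q ∈ s, q ∈ l := by
  obtain ⟨l1, a, b, l2, h1, h2⟩ := decS h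
  intro q hq
  rw [h2, Sym2.mem_iff] at hq
  rw [h1]
  rcases hq with rfl | rfl <;> simp

/-- two crossing segments of a polyline -/
lemma dec2 {l : List ℂ} {s s' : Sym2 ℂ} (h : s ∈ segL l) (h' : s' ∈ segL l) (hX : Xs s s') :
    ∃ l1 a a' l2 c c' l3, l = l1 ++ a :: a' :: (l2 ++ c :: c' :: l3) ∧ Xs s(a, a') s(c, c') := by
  induction l with
  | nil => simp [segL] at h
  | cons x l ih =>
    cases l with
    | nil => simp [segL] at h
    | cons y l =>
      -- the case in which the first segment is the first one of the list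
      have key : ∀ t : Sym2 ℂ, t ∈ segL (y :: l) → Xs s(x, y) t →
          ∃ l1 a a' l2 c c' l3, x :: y :: l = l1 ++ a :: a' :: (l2 ++ c :: c' :: l3) ∧
            Xs s(a, a') s(c, c') := by
        intro t ht hX'
        obtain ⟨l1, c, c', l3, h1, h2⟩ := decS ht
        cases l1 with
        | nil =>
          simp only [List.nil_append, List.cons.injEq] at h1
          exfalso
          refine hX'.1 y (Sym2.mem_mk_right x y) ?_
          rw [h2, h1.1]
          exact Sym2.mem_mk_left c c'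
        | cons z l2 =>
          simp only [List.cons_append, List.cons.injEq] at h1
          refine ⟨[], x, y, l2, c, c', l3, ?_, h2 ▸ hX'⟩
          rw [h1.2]
          rfl
      simp only [segL, List.mem_cons] at h h'
      rcases h with h | h
      · rcases h' with h' | h'
        · exact absurd hX (by rw [h, h']; exact xirr _)
        · exact key s' h' (h ▸ hX)
      · rcases h' with h' | h'
        · exact key s h (h' ▸ xsym hX)
        · obtain ⟨l1, a, a', l2, c, c', l3, h1, h2⟩ := ih h h'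
          exact ⟨x :: l1, a, a', l2, c, c', l3, by rw [h1]; rfl, h2⟩

lemma exX {l : List ℂ} (h : Nx l l ≠ 0) : ∃ s ∈ segL l, ∃ s' ∈ segL l, Xs s s' := by
  by_contra hc
  push Not at hc
  apply h
  unfold Nx
  apply List.sum_eq_zero
  intro x hx
  obtain ⟨s, hs, rfl⟩ := List.mem_map.1 hx
  unfold NS
  rw [List.countP_eq_zero]
  intro s' hs'
  simpa using hc s hs s' hs'

/-- two nondegenerate segments with a common end and another common point -/
lemma ray {q x y z : ℂ} (h1 : z ∈ segment ℝ q x) (h2 : z ∈ segment ℝ q y) (hz : z ≠ q) :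
    x ∈ segment ℝ q y ∨ y ∈ segment ℝ q x := by
  rw [segment_eq_image'] at h1 h2
  obtain ⟨t, ht, h1⟩ := h1
  obtain ⟨u, hu, h2⟩ := h2
  simp only at h1 h2
  have ht0 : 0 < t := by
    rcases ht.1.lt_or_eq with h | h
    · exact h
    · rw [← h, zero_smul, add_zero] at h1
      exact absurd h1.symm hz
  have hu0 : 0 < u := by
    rcases hu.1.lt_or_eq with h | h
    · exact h
    · rw [← h, zero_smul, add_zero] at h2
      exact absurd h2.symm hz
  have h3 : t • (x - q) = u • (y - q) := by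
    have := h1.trans h2.symm
    exact add_left_cancel this
  rcases le_total u t with h | h
  · left
    rw [segment_eq_image']
    refine ⟨u / t, ⟨by positivity, (div_le_one ht0).2 h⟩, ?_⟩
    simp only
    rw [div_eq_inv_mul, mul_smul, ← h3, smul_smul, inv_mul_cancel₀ ht0.ne', one_smul]
    abel
  · right
    rw [segment_eq_image']
    refine ⟨t / u, ⟨by positivity, (div_le_one hu0).2 h⟩, ?_⟩
    simp only
    rw [div_eq_inv_mul, mul_smul, h3, smul_smul, inv_mul_cancel₀ hu0.ne', one_smul]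
    abel

/-- no degenerate segments -/
lemma nondeg {l : List ℂ} (hl : l.Nodup) {g : Sym2 ℂ} (hg : g ∈ segL l) {q : ℂ} (hq : q ∈ g) :
    ∃ x, g = s(q, x) ∧ x ≠ q := by
  obtain ⟨l1, a, b, l2, h1, h2⟩ := decS hg
  have hab : a ≠ b := by
    rintro rfl
    rw [h1] at hl
    have := (List.nodup_append.1 hl).2.1
    simp at this
  rw [h2, Sym2.mem_iff] at hq
  rcases hq with rfl | rfl
  · exact ⟨b, h2, hab.symm⟩
  · exact ⟨a, by rw [h2, Sym2.eq_swap], hab⟩

lemma share {I : Type} {A : Finset I} {W : I → List ℂ} (hL : PL A W) (hO : PO A W) {i j : I}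
    (hi : i ∈ A) (hj : j ∈ A) {g h : Sym2 ℂ} (hg : g ∈ segL (W i)) (hh : h ∈ segL (W j)) {q z : ℂ}
    (hq : q ∈ g) (hq' : q ∈ h) (hz : z ∈ sg g) (hz' : z ∈ sg h) (hne : z ≠ q) : g = h := by
  obtain ⟨x, rfl, hx⟩ := nondeg (hL.nd i hi) hg hq
  obtain ⟨y, rfl, hy⟩ := nondeg (hL.nd j hj) hh hq'
  rw [sgm] at hz hz'
  rcases ray hz hz' hne with h | h
  · have h1 := hO j hj i hi _ hh x (memL hg x (Sym2.mem_mk_right q x)) (by rw [sgm]; exact h)
    rw [Sym2.mem_iff] at h1
    rcases h1 with h1 | h1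
    · exact absurd h1 hx
    · rw [h1]
  · have h1 := hO i hi j hj _ hg y (memL hh y (Sym2.mem_mk_right q y)) (by rw [sgm]; exact h)
    rw [Sym2.mem_iff] at h1
    rcases h1 with h1 | h1
    · exact absurd h1 hy
    · rw [h1]

/-- comparison of the numbers of crossings -/
lemma nx_le (f : Sym2 ℂ → Sym2 ℂ) {l l' m m' : List ℂ} (h1 : ((segL l').map f).Sublist (segL l))
    (h2 : ((segL m').map f).Sublist (segL m))
    (h3 : ∀ s ∈ segL l', ∀ t ∈ segL m', Xs s t → Xs (f s) (f t)) : Nx l' m' ≤ Nx l m := by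
  have e1 : Nx l' m' ≤ (((segL l').map f).map fun s => NS s m).sum := by
    unfold Nx
    rw [List.map_map]
    apply List.sum_le_sum
    intro s hs
    unfold NS
    calc (segL m').countP (fun s' => decide (Xs s s'))
        ≤ ((segL m').map f).countP (fun s' => decide (Xs (f s) s')) := by
          rw [List.countP_map]
          apply List.countP_mono_left
          intro t ht hX
          simp only [Function.comp, decide_eq_true_eq] at hX ⊢
          exact h3 s hs t ht hX
      _ ≤ (segL m).countP (fun s' => decide (Xs (f s) s')) := h2.countP_le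
  refine e1.trans ?_
  unfold Nx
  exact (h1.map _).sum_le_sum (fun _ _ => Nat.zero_le _)

lemma notEn {l u v : List ℂ} {q : ℂ} (hl : l.Nodup) (h : l = u ++ q :: v) (hu : u ≠ [])
    (hv : v ≠ []) : ¬ En l q := by
  subst h
  rintro (h1 | h1)
  · obtain ⟨x, u, rfl⟩ := List.exists_cons_of_ne_nil hu
    simp only [List.cons_append, List.head?_cons, Option.some.injEq] at h1
    subst h1
    simp at hl
  · obtain ⟨x, v, rfl⟩ := List.exists_cons_of_ne_nil hv
    have h2 : (u ++ q :: x :: v).getLast? = (x :: v).getLast? := by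
      rw [show u ++ q :: x :: v = (u ++ [q]) ++ (x :: v) by simp, List.getLast?_append_cons]
    rw [h2] at h1
    have h3 := List.mem_of_getLast? h1
    have h4 := (List.nodup_append.1 hl).2.1
    exact (List.nodup_cons.1 h4).1 h3

lemma anti {a x y : ℂ} (h1 : x ∈ segment ℝ a y) (h2 : y ∈ segment ℝ a x) : x = y :=
  (wbtw_swap_right_iff ℝ a).1 ⟨mem_segment_iff_wbtw.1 h1, mem_segment_iff_wbtw.1 h2⟩

/-- cutting one loop -/
lemma step {I : Type} {A : Finset I} {W : I → List ℂ} (hL : PL A W) (hO : PO A W) (hN : NT A W)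
    {k : I} (hk : k ∈ A) (hx : Nx (W k) (W k) ≠ 0) :
    ∃ W' : I → List ℂ, PL A W' ∧ PO A W' ∧ NT A W' ∧
      (∀ i ∈ A, (W' i).head? = (W i).head? ∧ (W' i).getLast? = (W i).getLast?) ∧
      (∀ i ∈ A, ∀ j ∈ A, Nx (W' i) (W' j) ≤ Nx (W i) (W j)) ∧
      ∑ i ∈ A, (W' i).length < ∑ i ∈ A, (W i).length := by
  obtain ⟨s, hs, s', hs', hX⟩ := exX hx
  obtain ⟨l1, a, a', l2, c, c', l3, hW, hX⟩ := dec2 hs hs' hX
  obtain ⟨p, hp1, hp2⟩ := hX.2
  obtain ⟨s1, es1⟩ : ∃ s1, s1 = s(a, a') := ⟨_, rfl⟩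
  obtain ⟨s2, es2⟩ : ∃ s2, s2 = s(c, c') := ⟨_, rfl⟩
  obtain ⟨n1, en1⟩ : ∃ n1, n1 = s(a, p) := ⟨_, rfl⟩
  obtain ⟨n2, en2⟩ : ∃ n2, n2 = s(p, c') := ⟨_, rfl⟩
  rw [← es1] at hX hp1
  rw [← es2] at hX hp2
  have hnd := hL.nd k hk
  have hseg : segL (W k) = segL (l1 ++ [a]) ++ s1 :: (segL (a' :: (l2 ++ [c])) ++
      s2 :: segL (c' :: l3)) := by
    rw [hW, segL_app, es1, es2]
    congr 1
    simp only [segL]
    congr 1
    rw [show a' :: (l2 ++ c :: c' :: l3) = (a' :: l2) ++ c :: c' :: l3 by simp, segL_app]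
    simp [segL]
  have hs1 : s1 ∈ segL (W k) := by rw [hseg]; simp
  have hs2 : s2 ∈ segL (W k) := by rw [hseg]; simp
  -- `p` is not a point of the family
  have hpF : ∀ m ∈ A, p ∉ W m := fun m hm h =>
    hX.1 p (hO k hk m hm s1 hs1 p h hp1) (hO k hk m hm s2 hs2 p h hp2)
  -- consequences of nodup
  have nd1 : a' ∉ l1 ++ [a] ∧ a ∉ c' :: l3 ∧ c ∉ l1 ++ [a] ∧ c ∉ c' :: l3 := by
    rw [hW] at hnd
    simp only [List.nodup_append, List.nodup_cons, List.mem_cons, List.mem_append,
      not_or] at hnd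
    simp only [List.mem_append, List.mem_cons, List.not_mem_nil, or_false, not_or]
    obtain ⟨-, ⟨⟨h1, h2, h3, h4, h5⟩, ⟨h6, h7⟩, -, ⟨⟨h8, h9⟩, -⟩, -⟩, h10⟩ := hnd
    refine ⟨⟨fun h => h10 a' h a' (by simp) rfl, fun h => h1 h.symm⟩, ⟨h4, h5⟩,
      ⟨fun h => h10 c h c (by simp) rfl, fun h => h3 h.symm⟩, h8, h9⟩
  obtain ⟨nd1, nd2, nd3, nd4⟩ := nd1
  have hac' : a ≠ c' := by
    rintro rfl
    exact nd2 (by simp)
  have haI : ∀ m ∈ A, m ≠ k → a' ∉ W m := by
    intro m hm hmk h
    have h1 := (hL.sep m hm k hk hmk a' h (by rw [hW]; simp)).2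
    exact notEn hnd (u := l1 ++ [a]) (v := l2 ++ c :: c' :: l3) (by rw [hW]; simp) (by simp)
      (by simp) h1
  have hcI : ∀ m ∈ A, m ≠ k → c ∉ W m := by
    intro m hm hmk h
    have h1 := (hL.sep m hm k hk hmk c h (by rw [hW]; simp)).2
    exact notEn hnd (u := l1 ++ a :: a' :: l2) (v := c' :: l3) (by rw [hW]; simp) (by simp)
      (by simp) h1
  have hpn : ∀ m ∈ A, ∀ g ∈ segL (W m), p ∉ g := fun m hm g hg h => hpF m hm (memL hg p h)
  -- no other segment contains `p`
  have hP3 : ∀ m ∈ A, ∀ g ∈ segL (W m), g ≠ s1 → g ≠ s2 → p ∉ sg g := by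
    intro m hm g hg h1 h2 hp
    have aux : ∀ t ∈ segL (W k), g ≠ t → p ∈ sg t → Xs g t := by
      intro t ht hgt hpt
      refine ⟨?_, p, hp, hpt⟩
      intro q hq hq'
      refine hgt (share hL hO hm hk hg ht hq hq' hp hpt ?_)
      rintro rfl
      exact hpn m hm g hg hq
    have h3 := hN m hm k hk k hk g hg s1 hs1 s2 hs2 (aux s1 hs1 h1 hp1) hX (aux s2 hs2 h2 hp2)
    have h4 : p ∈ sg g ∩ sg s1 ∩ sg s2 := ⟨⟨hp, hp1⟩, hp2⟩
    rw [h3] at h4
    exact h4
  have hpa' : p ≠ a' := by
    rintro rfl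
    exact hpF k hk (by rw [hW]; simp)
  have hpc : p ≠ c := by
    rintro rfl
    exact hpF k hk (by rw [hW]; simp)
  have hsub1 : sg n1 ⊆ sg s1 := by
    rw [es1, sgm] at hp1
    rw [en1, es1, sgm, sgm]
    exact (convex_segment a a').segment_subset (left_mem_segment ℝ a a') hp1
  have hsub2 : sg n2 ⊆ sg s2 := by
    rw [es2, sgm] at hp2
    rw [en2, es2, sgm, sgm]
    exact (convex_segment c c').segment_subset hp2 (right_mem_segment ℝ c c')
  have ha'n : a' ∉ sg n1 := by
    rw [es1, sgm] at hp1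
    rw [en1, sgm]
    exact fun h => hpa' (anti hp1 h)
  have hcn : c ∉ sg n2 := by
    rw [es2, sgm, segment_symm] at hp2
    rw [en2, sgm, segment_symm]
    exact fun h => hpc (anti hp2 h)
  have hK1 : ∀ m ∈ A, ∀ g ∈ segL (W m), g ≠ s1 → Xs g n1 → Xs g s1 := by
    intro m hm g hg hne hXg
    obtain ⟨z, hz1, hz2⟩ := hXg.2
    refine ⟨?_, z, hz1, hsub1 hz2⟩
    intro q hq hq'
    rw [es1, Sym2.mem_iff] at hq'
    rcases hq' with rfl | rfl
    · exact hXg.1 q hq (by rw [en1]; exact Sym2.mem_mk_left q p)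
    · refine hne (share hL hO hm hk hg hs1 hq (by rw [es1]; exact Sym2.mem_mk_right a q) hz1
        (hsub1 hz2) ?_)
      rintro rfl
      exact ha'n hz2
  have hK2 : ∀ m ∈ A, ∀ g ∈ segL (W m), g ≠ s2 → Xs g n2 → Xs g s2 := by
    intro m hm g hg hne hXg
    obtain ⟨z, hz1, hz2⟩ := hXg.2
    refine ⟨?_, z, hz1, hsub2 hz2⟩
    intro q hq hq'
    rw [es2, Sym2.mem_iff] at hq'
    rcases hq' with rfl | rfl
    · refine hne (share hL hO hm hk hg hs2 hq (by rw [es2]; exact Sym2.mem_mk_left q c') hz1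
        (hsub2 hz2) ?_)
      rintro rfl
      exact hcn hz2
    · exact hXg.1 q hq (by rw [en2]; exact Sym2.mem_mk_right p q)
  -- the new family
  obtain ⟨l', el'⟩ : ∃ l', l' = l1 ++ a :: p :: c' :: l3 := ⟨_, rfl⟩
  obtain ⟨W', eW'⟩ : ∃ W', W' = Function.update W k l' := ⟨_, rfl⟩
  have hWk : W' k = l' := by rw [eW', Function.update_self]
  have hWo : ∀ m, m ≠ k → W' m = W m := fun m hm => by rw [eW', Function.update_of_ne hm]
  have hseg' : segL l' = segL (l1 ++ [a]) ++ n1 :: n2 :: segL (c' :: l3) := by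
    rw [el', segL_app, en1, en2]
    simp only [segL]
  have hmem' : ∀ q ∈ l', q = p ∨ q ∈ W k := by
    intro q hq
    rw [el'] at hq
    rw [hW]
    simp only [List.mem_append, List.mem_cons] at hq ⊢
    tauto
  have hpn1 : p ∈ n1 := by rw [en1]; exact Sym2.mem_mk_right a p
  have hpn2 : p ∈ n2 := by rw [en2]; exact Sym2.mem_mk_left p c'
  have hclass : ∀ i ∈ A, ∀ g ∈ segL (W' i), g = n1 ∨ g = n2 ∨
      (g ∈ segL (W i) ∧ g ≠ s1 ∧ g ≠ s2) := by
    intro i hi g hg
    by_cases hik : i = k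
    · subst hik
      rw [hWk, hseg'] at hg
      simp only [List.mem_append, List.mem_cons] at hg
      rcases hg with hg | hg | hg | hg
      · refine Or.inr (Or.inr ⟨by rw [hseg]; simp [hg], ?_, ?_⟩)
        · rintro rfl
          exact nd1 (memL hg a' (by rw [es1]; exact Sym2.mem_mk_right a a'))
        · rintro rfl
          exact nd3 (memL hg c (by rw [es2]; exact Sym2.mem_mk_left c c'))
      · exact Or.inl hg
      · exact Or.inr (Or.inl hg)
      · refine Or.inr (Or.inr ⟨by rw [hseg]; simp [hg], ?_, ?_⟩)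
        · rintro rfl
          exact nd2 (memL hg a (by rw [es1]; exact Sym2.mem_mk_left a a'))
        · rintro rfl
          exact nd4 (memL hg c (by rw [es2]; exact Sym2.mem_mk_left c c'))
    · rw [hWo i hik] at hg
      refine Or.inr (Or.inr ⟨hg, ?_, ?_⟩)
      · rintro rfl
        exact haI i hi hik (memL hg a' (by rw [es1]; exact Sym2.mem_mk_right a a'))
      · rintro rfl
        exact hcI i hi hik (memL hg c (by rw [es2]; exact Sym2.mem_mk_left c c'))
  have hn12 : n2 ≠ n1 := by
    rw [en1, en2]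
    intro h
    rw [Sym2.eq_iff] at h
    rcases h with ⟨h1, h2⟩ | ⟨h1, h2⟩
    · exact hpF k hk (by rw [h1, hW]; simp)
    · exact hac' h2.symm
  obtain ⟨od, eod⟩ : ∃ od : Sym2 ℂ → Sym2 ℂ, od = fun g => if g = n1 then s1 else
      if g = n2 then s2 else g := ⟨_, rfl⟩
  have od1 : od n1 = s1 := by rw [eod]; simp
  have od2 : od n2 = s2 := by rw [eod]; simp [hn12]
  have odo : ∀ g, p ∉ g → od g = g := by
    intro g hg
    have h1 : g ≠ n1 := fun h => hg (h ▸ hpn1)
    have h2 : g ≠ n2 := fun h => hg (h ▸ hpn2)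
    rw [eod]
    simp [h1, h2]
  have odm : ∀ i ∈ A, (segL (W i)).map od = segL (W i) := by
    intro i hi
    conv_rhs => rw [← List.map_id (segL (W i))]
    apply List.map_congr_left
    intro g hg
    rw [odo g (hpn i hi g hg)]
    rfl
  have hS : ∀ i ∈ A, ((segL (W' i)).map od).Sublist (segL (W i)) := by
    intro i hi
    by_cases hik : i = k
    · subst hik
      rw [hWk, hseg', hseg]
      rw [List.map_append, List.map_cons, List.map_cons, od1, od2]
      have e1 : (segL (l1 ++ [a])).map od = segL (l1 ++ [a]) := by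
        conv_rhs => rw [← List.map_id (segL (l1 ++ [a]))]
        apply List.map_congr_left
        intro g hg
        rw [odo g (hpn i hi g (by rw [hseg]; simp [hg]))]
        rfl
      have e2 : (segL (c' :: l3)).map od = segL (c' :: l3) := by
        conv_rhs => rw [← List.map_id (segL (c' :: l3))]
        apply List.map_congr_left
        intro g hg
        rw [odo g (hpn i hi g (by rw [hseg]; simp [hg]))]
        rfl
      rw [e1, e2]
      refine List.Sublist.append (List.Sublist.refl _) ?_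
      refine List.Sublist.cons_cons s1 ?_
      exact List.sublist_append_right _ _
    · rw [hWo i hik, odm i hi]
  have hK : ∀ i ∈ A, ∀ j ∈ A, ∀ g ∈ segL (W' i), ∀ h ∈ segL (W' j), Xs g h →
      Xs (od g) (od h) := by
    intro i hi j hj g hg h hh hXgh
    rcases hclass i hi g hg with rfl | rfl | ⟨hg1, hg2, hg3⟩
    · rcases hclass j hj h hh with rfl | rfl | ⟨hh1, hh2, hh3⟩
      · exact absurd hXgh (xirr _)
      · exact absurd hpn2 (hXgh.1 p hpn1)
      · rw [od1, odo h (hpn j hj h hh1)]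
        exact xsym (hK1 j hj h hh1 hh2 (xsym hXgh))
    · rcases hclass j hj h hh with rfl | rfl | ⟨hh1, hh2, hh3⟩
      · exact absurd hpn1 (hXgh.1 p hpn2)
      · exact absurd hXgh (xirr _)
      · rw [od2, odo h (hpn j hj h hh1)]
        exact xsym (hK2 j hj h hh1 hh3 (xsym hXgh))
    · rw [odo g (hpn i hi g hg1)]
      rcases hclass j hj h hh with rfl | rfl | ⟨hh1, hh2, hh3⟩
      · rw [od1]
        exact hK1 i hi g hg1 hg2 hXgh
      · rw [od2]
        exact hK2 i hi g hg1 hg3 hXgh
      · rw [odo h (hpn j hj h hh1)]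
        exact hXgh
  have hods : ∀ i ∈ A, ∀ g ∈ segL (W' i), sg g ⊆ sg (od g) ∧ od g ∈ segL (W i) := by
    intro i hi g hg
    refine ⟨?_, (hS i hi).subset (List.mem_map_of_mem hg)⟩
    rcases hclass i hi g hg with rfl | rfl | ⟨hg1, hg2, hg3⟩
    · rw [od1]
      exact hsub1
    · rw [od2]
      exact hsub2
    · rw [odo g (hpn i hi g hg1)]
  have hends : ∀ i ∈ A, (W' i).head? = (W i).head? ∧ (W' i).getLast? = (W i).getLast? := by
    intro i hi
    by_cases hik : i = k
    · subst hik
      rw [hWk, el', hW]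
      constructor
      · cases l1 <;> simp
      · rw [show l1 ++ a :: p :: c' :: l3 = (l1 ++ [a, p]) ++ c' :: l3 by simp,
          show l1 ++ a :: a' :: (l2 ++ c :: c' :: l3) = (l1 ++ a :: a' :: (l2 ++ [c])) ++ c' :: l3 by
            simp, List.getLast?_append_cons, List.getLast?_append_cons]
    · rw [hWo i hik]
      exact ⟨rfl, rfl⟩
  have hEn : ∀ i ∈ A, ∀ q, En (W i) q → En (W' i) q := by
    intro i hi q hq
    unfold En
    rw [(hends i hi).1, (hends i hi).2]
    exact hq
  refine ⟨W', ⟨?_, ?_, ?_⟩, ?_, ?_, hends, ?_, ?_⟩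
  · intro i hi
    by_cases hik : i = k
    · subst hik
      rw [hWk, el']
      simp
      omega
    · rw [hWo i hik]
      exact hL.len i hi
  · intro i hi
    by_cases hik : i = k
    · subst hik
      rw [hWk, el']
      have h1 : (l1 ++ a :: c' :: l3).Nodup := by
        refine List.Nodup.sublist ?_ hnd
        rw [hW]
        refine List.Sublist.append (List.Sublist.refl _) ?_
        refine List.Sublist.cons_cons a ?_
        refine List.Sublist.cons a' ?_
        refine (List.Sublist.cons c (List.Sublist.refl _)).trans (List.sublist_append_right _ _)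
      have h2 : p ∉ l1 ++ a :: c' :: l3 := by
        intro h
        apply hpF i hi
        rw [hW]
        simp only [List.mem_append, List.mem_cons] at h ⊢
        tauto
      have h3 : (l1 ++ a :: p :: c' :: l3).Perm (p :: (l1 ++ a :: c' :: l3)) := by
        rw [show l1 ++ a :: p :: c' :: l3 = (l1 ++ [a]) ++ p :: (c' :: l3) by simp,
          show l1 ++ a :: c' :: l3 = (l1 ++ [a]) ++ (c' :: l3) by simp]
        exact List.perm_middle
      rw [h3.nodup_iff, List.nodup_cons]
      exact ⟨h2, h1⟩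
    · rw [hWo i hik]
      exact hL.nd i hi
  · intro i hi j hj hij q hq hq'
    have key : q ≠ p → En (W' i) q ∧ En (W' j) q := by
      intro hqp
      have h1 : q ∈ W i := by
        by_cases hik : i = k
        · subst hik
          rw [hWk] at hq
          exact (hmem' q hq).resolve_left hqp
        · rwa [hWo i hik] at hq
      have h2 : q ∈ W j := by
        by_cases hjk : j = k
        · subst hjk
          rw [hWk] at hq'
          exact (hmem' q hq').resolve_left hqp
        · rwa [hWo j hjk] at hq'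
      have h3 := hL.sep i hi j hj hij q h1 h2
      exact ⟨hEn i hi q h3.1, hEn j hj q h3.2⟩
    apply key
    rintro rfl
    by_cases hik : i = k
    · have hjk : j ≠ k := fun h => hij (hik.trans h.symm)
      rw [hWo j hjk] at hq'
      exact hpF j hj hq'
    · rw [hWo i hik] at hq
      exact hpF i hi hq
  · -- PO
    intro i hi j hj s hs q hq hqs
    have hq2 : q = p ∨ q ∈ W j := by
      by_cases hjk : j = k
      · subst hjk
        rw [hWk] at hq
        exact hmem' q hq
      · rw [hWo j hjk] at hq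
        exact Or.inr hq
    rcases hq2 with rfl | hq2
    · rcases hclass i hi s hs with rfl | rfl | ⟨hg1, hg2, hg3⟩
      · exact hpn1
      · exact hpn2
      · exact absurd hqs (hP3 i hi s hg1 hg2 hg3)
    · rcases hclass i hi s hs with rfl | rfl | ⟨hg1, hg2, hg3⟩
      · have h1 := hO k hk j hj s1 hs1 q hq2 (hsub1 hqs)
        rw [es1, Sym2.mem_iff] at h1
        rcases h1 with rfl | rfl
        · rw [en1]
          exact Sym2.mem_mk_left q p
        · exact absurd hqs ha'n
      · have h1 := hO k hk j hj s2 hs2 q hq2 (hsub2 hqs)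
        rw [es2, Sym2.mem_iff] at h1
        rcases h1 with rfl | rfl
        · exact absurd hqs hcn
        · rw [en2]
          exact Sym2.mem_mk_right p q
      · exact hO i hi j hj s hg1 q hq2 hqs
  · -- NT
    intro i hi j hj m hm s hs s' hs' s'' hs'' h1 h2 h3
    have h4 := hN i hi j hj m hm (od s) (hods i hi s hs).2 (od s') (hods j hj s' hs').2 (od s'')
      (hods m hm s'' hs'').2 (hK i hi j hj s hs s' hs' h1) (hK j hj m hm s' hs' s'' hs'' h2)
      (hK i hi m hm s hs s'' hs'' h3)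
    rw [Set.eq_empty_iff_forall_notMem] at h4 ⊢
    rintro x ⟨⟨hx1, hx2⟩, hx3⟩
    exact h4 x ⟨⟨(hods i hi s hs).1 hx1, (hods j hj s' hs').1 hx2⟩, (hods m hm s'' hs'').1 hx3⟩
  · intro i hi j hj
    exact nx_le od (hS i hi) (hS j hj) (fun s hs t ht h => hK i hi j hj s hs t ht h)
  · apply Finset.sum_lt_sum
    · intro i hi
      by_cases hik : i = k
      · subst hik
        rw [hWk, el', hW]
        simp
        omega
      · rw [hWo i hik]
    · refine ⟨k, hk, ?_⟩
      rw [hWk, el', hW]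
      simp

end Simp94

theorem t_SIMP : S_SIMP := by
  intro I A
  have main : ∀ N : ℕ, ∀ W : I → List ℂ, ∑ i ∈ A, (W i).length = N → PL A W → PO A W → NT A W →
      ∃ W' : I → List ℂ, PL A W' ∧ PO A W' ∧ NT A W' ∧
        (∀ i ∈ A, (W' i).head? = (W i).head? ∧ (W' i).getLast? = (W i).getLast?) ∧
        (∀ i ∈ A, Nx (W' i) (W' i) = 0) ∧
        ∀ i ∈ A, ∀ j ∈ A, Nx (W' i) (W' j) ≤ Nx (W i) (W j) := by
    intro N
    induction N using Nat.strong_induction_on with
    | _ N ih =>
      intro W hN hL hO hT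
      by_cases h : ∀ i ∈ A, Nx (W i) (W i) = 0
      · exact ⟨W, hL, hO, hT, fun i _ => ⟨rfl, rfl⟩, h, fun i _ j _ => le_rfl⟩
      · push Not at h
        obtain ⟨k, hk, hx⟩ := h
        obtain ⟨W1, h1, h2, h3, h4, h5, h6⟩ := Simp94.step hL hO hT hk hx
        obtain ⟨W2, g1, g2, g3, g4, g5, g6⟩ := ih _ (hN ▸ h6) W1 rfl h1 h2 h3
        refine ⟨W2, g1, g2, g3, fun i hi => ⟨(g4 i hi).1.trans (h4 i hi).1,
          (g4 i hi).2.trans (h4 i hi).2⟩, g5, fun i hi j hj => (g6 i hi j hj).trans (h5 i hi j hj)⟩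
  intro W hL hO hT
  exact main _ W rfl hL hO hT

end Pool.Agent.NH90.CN
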