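import Pool.Agent.NH90.CN.Stm

/-! CN-10: smoothing a crossing of two segments. -/

set_option autoImplicit false

open Set Classical

namespace Pool.Agent.NH90.CN

namespace SM

theorem sg_mk (a b : ℂ) : sg s(a, b) = segment ℝ a b := by
  unfold sg
  have h : {z | z ∈ s(a, b)} = ({a, b} : Set ℂ) := by
    ext z
    simp [Sym2.mem_iff]
  rw [h, convexHull_pair]

theorem convex_sg (s : Sym2 ℂ) : Convex ℝ (sg s) := convex_convexHull ℝ _

theorem mem_sg {s : Sym2 ℂ} {q : ℂ} (h : q ∈ s) : q ∈ sg s :=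
  subset_convexHull ℝ _ h

theorem isCompact_segment (a b : ℂ) : IsCompact (segment ℝ a b) := by
  rw [segment_eq_image]
  exact (isCompact_Icc).image (by fun_prop)

theorem isClosed_sg (s : Sym2 ℂ) : IsClosed (sg s) := by
  induction s using Sym2.ind with
  | _ a b =>
    rw [sg_mk]
    exact (isCompact_segment a b).isClosed

/-- a closed set which is disjoint from a segment is disjoint from the near segments -/
theorem near (a p : ℂ) (K : Set ℂ) (hK : IsClosed K) (h : Disjoint K (segment ℝ a p)) :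
    ∀ᶠ x in nhds p, Disjoint K (segment ℝ a x) := by
  obtain ⟨δ, hδ, hd⟩ := h.symm.exists_thickenings (isCompact_segment a p) hK
  filter_upwards [Metric.ball_mem_nhds p hδ] with x hx
  rw [Set.disjoint_left]
  intro z hzK hz
  obtain ⟨s, t, hs, ht, hst, rfl⟩ := hz
  have h1 : s • a + t • x ∈ Metric.thickening δ (segment ℝ a p) := by
    rw [Metric.mem_thickening_iff]
    refine ⟨s • a + t • p, ⟨s, t, hs, ht, hst, rfl⟩, ?_⟩
    have e : s • a + t • x - (s • a + t • p) = t • (x - p) := by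
      rw [smul_sub]; abel
    rw [dist_eq_norm, e, norm_smul, Real.norm_eq_abs, abs_of_nonneg ht]
    have h2 : ‖x - p‖ < δ := by rwa [Metric.mem_ball, dist_eq_norm] at hx
    have h3 : t ≤ 1 := by linarith
    calc t * ‖x - p‖ ≤ 1 * ‖x - p‖ := mul_le_mul_of_nonneg_right h3 (norm_nonneg _)
      _ < δ := by rw [one_mul]; exact h2
  exact Set.disjoint_left.1 hd h1 (Metric.self_subset_thickening hδ K hzK)

/-- what stays true near the point `p` -/
theorem ev {a c p : ℂ} (hp : p ∈ segment ℝ a c) (hpc : p ≠ c) (Q : Finset ℂ)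
    (hQ : ∀ q ∈ Q, q ∈ segment ℝ a c → q = a ∨ q = c) (S : Finset (Sym2 ℂ)) :
    ∀ᶠ x in nhds p, (∀ q ∈ Q, q ∈ segment ℝ a x → q = a) ∧
      (∀ g ∈ S, (sg g ∩ segment ℝ a x).Nonempty → (sg g ∩ segment ℝ a p).Nonempty) := by
  have hsub : segment ℝ a p ⊆ segment ℝ a c :=
    (convex_segment a c).segment_subset (left_mem_segment ℝ a c) hp
  refine Filter.Eventually.and ?_ ?_
  · rw [Filter.eventually_all_finset]
    intro q hq
    by_cases hqa : q = a
    · exact Filter.Eventually.of_forall fun _ _ => hqa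
    · have h1 : Disjoint ({q} : Set ℂ) (segment ℝ a p) := by
        rw [Set.disjoint_singleton_left]
        intro hqp
        rcases hQ q hq (hsub hqp) with h2 | h2
        · exact hqa h2
        · subst h2
          rw [mem_segment_iff_wbtw] at hp hqp
          exact hpc ((wbtw_swap_right_iff ℝ a).1 ⟨hp, hqp⟩)
      filter_upwards [near a p {q} isClosed_singleton h1] with x hx hqx
      exact absurd hqx (Set.disjoint_singleton_left.1 hx)
  · rw [Filter.eventually_all_finset]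
    intro g _
    by_cases hg : (sg g ∩ segment ℝ a p).Nonempty
    · exact Filter.Eventually.of_forall fun _ _ => hg
    · have h1 : Disjoint (sg g) (segment ℝ a p) := by
        rw [Set.disjoint_iff_inter_eq_empty]
        exact Set.not_nonempty_iff_eq_empty.1 hg
      filter_upwards [near a p (sg g) (isClosed_sg g) h1] with x hx hne
      rw [Set.disjoint_iff_inter_eq_empty.1 hx] at hne
      exact absurd hne Set.not_nonempty_empty

theorem mid {a c p x y : ℂ} (hp : p ∈ segment ℝ a c) (hx : x ∈ segment ℝ a p)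
    (hy : y ∈ segment ℝ c p) : p ∈ segment ℝ x y := by
  rw [mem_segment_iff_wbtw] at *
  have h1 : Wbtw ℝ x p c := hp.trans_left_right hx
  exact h1.trans_right_left hy.symm

/-- crossing a new segment implies crossing the old one -/
theorem xs_of {g : Sym2 ℂ} {a c p x : ℂ} (hp : p ∈ segment ℝ a c) (hpg : p ∉ sg g)
    (h : Xs g s(a, x)) (hne : (sg g ∩ segment ℝ a p).Nonempty) : Xs g s(a, c) := by
  obtain ⟨z, hzg, hz⟩ := hne
  refine ⟨fun q hq hqac => ?_, ?_⟩
  · rw [Sym2.mem_iff] at hqac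
    rcases hqac with rfl | rfl
    · exact h.1 q hq (Sym2.mem_mk_left _ _)
    · have h1 : p ∈ segment ℝ z q := mid hp hz (left_mem_segment ℝ q p)
      exact hpg ((convex_sg g).segment_subset hzg (mem_sg hq) h1)
  · refine ⟨z, hzg, ?_⟩
    rw [sg_mk]
    exact (convex_segment a c).segment_subset (left_mem_segment ℝ a c) hp hz

theorem not_both {g : Sym2 ℂ} {a c p : ℂ} (hp : p ∈ segment ℝ a c) (hpg : p ∉ sg g)
    (h1 : (sg g ∩ segment ℝ a p).Nonempty) (h2 : (sg g ∩ segment ℝ c p).Nonempty) : False := by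
  obtain ⟨z, hzg, hz⟩ := h1
  obtain ⟨y, hyg, hy⟩ := h2
  exact hpg ((convex_sg g).segment_subset hzg hyg (mid hp hz hy))

/-- two segments which meet and lie on one line: an end of one lies on the other -/
theorem not_parallel {u₁ u₂ w₁ w₂ p : ℂ} (hu : p ∈ segment ℝ u₁ u₂) (hw : p ∈ segment ℝ w₁ w₂)
    (h1 : p ≠ u₁) (h2 : p ≠ u₂) (h3 : p ≠ w₁) (h4 : p ≠ w₂)
    (n1 : u₂ ∉ segment ℝ w₁ w₂) (n2 : w₁ ∉ segment ℝ u₁ u₂) (n3 : w₂ ∉ segment ℝ u₁ u₂) :
    (u₂ - u₁).re * (w₂ - w₁).im - (u₂ - u₁).im * (w₂ - w₁).re ≠ 0 := by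
  intro hdet
  obtain ⟨a, b, ha, hb, hab, hpu⟩ := hu
  obtain ⟨c, d, hc, hd, hcd, hpw⟩ := hw
  obtain ⟨U, hU⟩ : ∃ U, U = u₂ - u₁ := ⟨_, rfl⟩
  obtain ⟨T, hT⟩ : ∃ T, T = w₂ - w₁ := ⟨_, rfl⟩
  rw [← hU, ← hT] at hdet
  have ha' : a = 1 - b := by linarith
  have hc' : c = 1 - d := by linarith
  have pU : p = u₁ + b • U := by
    rw [← hpu, ha', hU, sub_smul, one_smul, smul_sub]; abel
  have pT : p = w₁ + d • T := by
    rw [← hpw, hc', hT, sub_smul, one_smul, smul_sub]; abel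
  have ha0 : 0 < a := by
    rcases ha.lt_or_eq with h | h
    · exact h
    · exfalso
      apply h2
      have hb1 : b = 1 := by linarith
      rw [pU, hb1, hU, one_smul]; abel
  have hUne : U ≠ 0 := by
    intro h
    apply h1
    rw [pU, h, smul_zero, add_zero]
  have hTne : T ≠ 0 := by
    intro h
    apply h3
    rw [pT, h, smul_zero, add_zero]
  have hc0 : 0 < c := by
    rcases hc.lt_or_eq with h | h
    · exact h
    · exfalso
      apply h4
      have hb1 : d = 1 := by linarith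
      rw [pT, hb1, hT, one_smul]; abel
  have hnorm : 0 < U.re * U.re + U.im * U.im := by
    have := Complex.normSq_pos.2 hUne
    rwa [Complex.normSq_apply] at this
  obtain ⟨k, hk⟩ : ∃ k : ℝ, T = k • U := by
    obtain ⟨m, hm⟩ : ∃ m, m = U.re * U.re + U.im * U.im := ⟨_, rfl⟩
    rw [← hm] at hnorm
    refine ⟨(T.re * U.re + T.im * U.im) / m, ?_⟩
    apply Complex.ext
    · rw [Complex.real_smul, Complex.mul_re, Complex.ofReal_re, Complex.ofReal_im, zero_mul,
        sub_zero, div_mul_eq_mul_div, eq_div_iff hnorm.ne', hm]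
      linear_combination (-U.im) * hdet
    · rw [Complex.real_smul, Complex.mul_im, Complex.ofReal_re, Complex.ofReal_im, zero_mul,
        add_zero, div_mul_eq_mul_div, eq_div_iff hnorm.ne', hm]
      linear_combination U.re * hdet
  have inU : ∀ θ : ℝ, 0 ≤ θ → θ ≤ 1 → u₁ + θ • U ∈ segment ℝ u₁ u₂ := by
    intro θ h0 h1
    refine ⟨1 - θ, θ, by linarith, h0, by ring, ?_⟩
    rw [hU, sub_smul, one_smul, smul_sub]; abel
  have inT : ∀ θ : ℝ, 0 ≤ θ → θ ≤ 1 → w₁ + θ • T ∈ segment ℝ w₁ w₂ := by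
    intro θ h0 h1
    refine ⟨1 - θ, θ, by linarith, h0, by ring, ?_⟩
    rw [hT, sub_smul, one_smul, smul_sub]; abel
  have ew1 : w₁ = u₁ + (b - d * k) • U := by
    have h5 : u₁ + b • U = w₁ + d • T := by rw [← pU, ← pT]
    rw [hk, smul_smul] at h5
    rw [sub_smul, ← add_sub_assoc, h5]; abel
  have ew2 : w₂ = u₁ + (b + c * k) • U := by
    have h5 : w₂ = w₁ + T := by rw [hT]; abel
    rw [h5, ew1, hk, add_assoc, ← add_smul]
    congr 2
    rw [hc']; ring
  have eu2 : k ≠ 0 → u₂ = w₁ + (d + a / k) • T := by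
    intro hk0
    have h5 : u₂ = u₁ + U := by rw [hU]; abel
    rw [h5, ew1, hk, smul_smul, add_assoc, ← add_smul]
    have h6 : b - d * k + (d + a / k) * k = 1 := by
      field_simp
      linarith
    rw [h6, one_smul]
  rcases lt_trichotomy k 0 with hk0 | hk0 | hk0
  · -- `w₁` and `u₂` on the same side
    have h5 : 1 < b - d * k := by
      by_contra h6
      push Not at h6
      exact n2 (ew1 ▸ inU _ (by nlinarith) h6)
    apply n1
    rw [eu2 hk0.ne]
    refine inT _ ?_ ?_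
    · have h6 : a < -(d * k) := by linarith
      have h7 : -d ≤ a / k := by
        rw [le_div_iff_of_neg hk0]
        linarith
      linarith
    · have h7 : a / k ≤ 0 := div_nonpos_of_nonneg_of_nonpos ha0.le hk0.le
      linarith
  · apply hTne
    rw [hk, hk0, zero_smul]
  · have h5 : 1 < b + c * k := by
      by_contra h6
      push Not at h6
      exact n3 (ew2 ▸ inU _ (by nlinarith) h6)
    apply n1
    rw [eu2 hk0.ne']
    refine inT _ (by positivity) ?_
    have h6 : a < c * k := by linarith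
    have h7 : a / k ≤ c := by
      rw [div_le_iff₀ hk0]
      linarith
    linarith

/-- the affine form -/
noncomputable def Lf (U T p z : ℂ) : ℝ :=
  (U.re * T.im - U.im * T.re) * (((z - p).re * T.im - (z - p).im * T.re) -
    (U.re * (z - p).im - U.im * (z - p).re))

theorem Lf_comb (U T p x y : ℂ) {a b : ℝ} (hab : a + b = 1) :
    Lf U T p (a • x + b • y) = a * Lf U T p x + b * Lf U T p y := by
  have ha : a = 1 - b := by linarith
  subst ha
  unfold Lf
  simp only [Complex.sub_re, Complex.sub_im, Complex.add_re, Complex.add_im, Complex.real_smul,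
    Complex.mul_re, Complex.mul_im, Complex.ofReal_re, Complex.ofReal_im]
  ring

theorem Lf_pos {U T p x y z : ℂ} (hx : 0 < Lf U T p x) (hy : 0 < Lf U T p y)
    (hz : z ∈ segment ℝ x y) : 0 < Lf U T p z := by
  obtain ⟨a, b, ha, hb, hab, rfl⟩ := hz
  rw [Lf_comb U T p x y hab]
  rcases ha.lt_or_eq with h | h
  · have := mul_pos h hx
    have := mul_nonneg hb hy.le
    linarith
  · rw [← h] at hab ⊢
    have hb1 : b = 1 := by linarith
    rw [hb1]; linarith

theorem Lf_neg {U T p x y z : ℂ} (hx : Lf U T p x < 0) (hy : Lf U T p y < 0)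
    (hz : z ∈ segment ℝ x y) : Lf U T p z < 0 := by
  obtain ⟨a, b, ha, hb, hab, rfl⟩ := hz
  rw [Lf_comb U T p x y hab]
  rcases ha.lt_or_eq with h | h
  · have := mul_neg_of_pos_of_neg h hx
    have := mul_nonpos_of_nonneg_of_nonpos hb hy.le
    linarith
  · rw [← h] at hab ⊢
    have hb1 : b = 1 := by linarith
    rw [hb1]; linarith

theorem Lf_val (U T p : ℂ) (x y : ℝ) :
    Lf U T p (p + (x • U + y • T)) = (U.re * T.im - U.im * T.re) ^ 2 * (x - y) := by
  unfold Lf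
  simp only [Complex.sub_re, Complex.sub_im, Complex.add_re, Complex.add_im, Complex.real_smul,
    Complex.mul_re, Complex.mul_im, Complex.ofReal_re, Complex.ofReal_im]
  ring

end SM

theorem t_SM : S_SM := by
  intro u₁ u₂ w₁ w₂ p Q S hu1 hu2 hw1 hw2 hu hw hX hpu hpw hQu hQw hS
  have hne : ∀ q ∈ s(u₁, u₂), q ∉ s(w₁, w₂) := hX.1
  have hpu1 : p ≠ u₁ := by
    rintro rfl
    rcases hQw p hu1 hpw with h | h
    · exact hne p (Sym2.mem_mk_left _ _) (by rw [h]; exact Sym2.mem_mk_left _ _)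
    · exact hne p (Sym2.mem_mk_left _ _) (by rw [h]; exact Sym2.mem_mk_right _ _)
  have hpu2 : p ≠ u₂ := by
    rintro rfl
    rcases hQw p hu2 hpw with h | h
    · exact hne p (Sym2.mem_mk_right _ _) (by rw [h]; exact Sym2.mem_mk_left _ _)
    · exact hne p (Sym2.mem_mk_right _ _) (by rw [h]; exact Sym2.mem_mk_right _ _)
  have hpw1 : p ≠ w₁ := by
    rintro rfl
    rcases hQu p hw1 hpu with h | h
    · exact hne u₁ (Sym2.mem_mk_left _ _) (by rw [← h]; exact Sym2.mem_mk_left _ _)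
    · exact hne u₂ (Sym2.mem_mk_right _ _) (by rw [← h]; exact Sym2.mem_mk_left _ _)
  have hpw2 : p ≠ w₂ := by
    rintro rfl
    rcases hQu p hw2 hpu with h | h
    · exact hne u₁ (Sym2.mem_mk_left _ _) (by rw [← h]; exact Sym2.mem_mk_right _ _)
    · exact hne u₂ (Sym2.mem_mk_right _ _) (by rw [← h]; exact Sym2.mem_mk_right _ _)
  have n1 : u₂ ∉ segment ℝ w₁ w₂ := by
    intro h0
    rcases hQw u₂ hu2 h0 with h | h
    · exact hne u₂ (Sym2.mem_mk_right _ _) (by rw [h]; exact Sym2.mem_mk_left _ _)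
    · exact hne u₂ (Sym2.mem_mk_right _ _) (by rw [h]; exact Sym2.mem_mk_right _ _)
  have n2 : w₁ ∉ segment ℝ u₁ u₂ := by
    intro h0
    rcases hQu w₁ hw1 h0 with h | h
    · exact hne u₁ (Sym2.mem_mk_left _ _) (by rw [← h]; exact Sym2.mem_mk_left _ _)
    · exact hne u₂ (Sym2.mem_mk_right _ _) (by rw [← h]; exact Sym2.mem_mk_left _ _)
  have n3 : w₂ ∉ segment ℝ u₁ u₂ := by
    intro h0
    rcases hQu w₂ hw2 h0 with h | h
    · exact hne u₁ (Sym2.mem_mk_left _ _) (by rw [← h]; exact Sym2.mem_mk_right _ _)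
    · exact hne u₂ (Sym2.mem_mk_right _ _) (by rw [← h]; exact Sym2.mem_mk_right _ _)
  have hdet := SM.not_parallel hpu hpw hpu1 hpu2 hpw1 hpw2 n1 n2 n3
  obtain ⟨U, hU⟩ : ∃ U, U = u₂ - u₁ := ⟨_, rfl⟩
  obtain ⟨T, hT⟩ : ∃ T, T = w₂ - w₁ := ⟨_, rfl⟩
  rw [← hU, ← hT] at hdet
  have hdet2 : 0 < (U.re * T.im - U.im * T.re) ^ 2 := by positivity
  have hpQ : p ∉ Q := fun h => by
    rcases hQu p h hpu with h1 | h1
    · exact hpu1 h1
    · exact hpu2 h1
  -- coordinates
  obtain ⟨α, β, hα, hβ, hu1', hu2'⟩ : ∃ α β : ℝ, 0 < α ∧ 0 < β ∧ u₁ = p + (-α) • U ∧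
      u₂ = p + β • U := by
    obtain ⟨a, b, ha, hb, hab, h⟩ := hpu
    have ha' : a = 1 - b := by linarith
    have e1 : u₁ = p + (-b) • U := by
      rw [← h, ha', hU, sub_smul, one_smul, neg_smul, smul_sub]; abel
    have e2 : u₂ = p + a • U := by
      rw [← h, ha', hU, sub_smul, sub_smul, one_smul, one_smul, smul_sub]; abel
    refine ⟨b, a, hb.lt_of_ne ?_, ha.lt_of_ne ?_, e1, e2⟩
    · intro h0
      apply hpu1
      rw [e1, ← h0, neg_zero, zero_smul, add_zero]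
    · intro h0
      apply hpu2
      rw [e2, ← h0, zero_smul, add_zero]
  obtain ⟨γ, δ, hγ, hδ, hw1', hw2'⟩ : ∃ α β : ℝ, 0 < α ∧ 0 < β ∧ w₁ = p + (-α) • T ∧
      w₂ = p + β • T := by
    obtain ⟨a, b, ha, hb, hab, h⟩ := hpw
    have ha' : a = 1 - b := by linarith
    have e1 : w₁ = p + (-b) • T := by
      rw [← h, ha', hT, sub_smul, one_smul, neg_smul, smul_sub]; abel
    have e2 : w₂ = p + a • T := by
      rw [← h, ha', hT, sub_smul, sub_smul, one_smul, one_smul, smul_sub]; abel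
    refine ⟨b, a, hb.lt_of_ne ?_, ha.lt_of_ne ?_, e1, e2⟩
    · intro h0
      apply hpw1
      rw [e1, ← h0, neg_zero, zero_smul, add_zero]
    · intro h0
      apply hpw2
      rw [e2, ← h0, zero_smul, add_zero]
  -- what holds near `p`
  have hpu' : p ∈ segment ℝ u₂ u₁ := by rw [segment_symm]; exact hpu
  have hpw' : p ∈ segment ℝ w₂ w₁ := by rw [segment_symm]; exact hpw
  have hQu' : ∀ q ∈ Q, q ∈ segment ℝ u₂ u₁ → q = u₂ ∨ q = u₁ := fun q hq h =>
    (hQu q hq (by rw [segment_symm]; exact h)).symm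
  have hQw' : ∀ q ∈ Q, q ∈ segment ℝ w₂ w₁ → q = w₂ ∨ q = w₁ := fun q hq h =>
    (hQw q hq (by rw [segment_symm]; exact h)).symm
  have hall : ∀ᶠ x in nhds p, (x ∉ Q ∧ ∀ s ∈ S, x ∉ sg s) ∧
      ((∀ q ∈ Q, q ∈ segment ℝ w₁ x → q = w₁) ∧
        (∀ g ∈ S, (sg g ∩ segment ℝ w₁ x).Nonempty → (sg g ∩ segment ℝ w₁ p).Nonempty)) ∧
      ((∀ q ∈ Q, q ∈ segment ℝ w₂ x → q = w₂) ∧
        (∀ g ∈ S, (sg g ∩ segment ℝ w₂ x).Nonempty → (sg g ∩ segment ℝ w₂ p).Nonempty)) ∧
      ((∀ q ∈ Q, q ∈ segment ℝ u₁ x → q = u₁) ∧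
        (∀ g ∈ S, (sg g ∩ segment ℝ u₁ x).Nonempty → (sg g ∩ segment ℝ u₁ p).Nonempty)) ∧
      ((∀ q ∈ Q, q ∈ segment ℝ u₂ x → q = u₂) ∧
        (∀ g ∈ S, (sg g ∩ segment ℝ u₂ x).Nonempty → (sg g ∩ segment ℝ u₂ p).Nonempty)) := by
    refine Filter.Eventually.and (Filter.Eventually.and ?_ ?_) (Filter.Eventually.and
      (SM.ev hpw hpw2 Q hQw S) (Filter.Eventually.and (SM.ev hpw' hpw1 Q hQw' S)
        (Filter.Eventually.and (SM.ev hpu hpu2 Q hQu S) (SM.ev hpu' hpu1 Q hQu' S))))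
    · have h1 : IsOpen ((Q : Set ℂ)ᶜ) := Q.finite_toSet.isClosed.isOpen_compl
      exact h1.mem_nhds (by simpa using hpQ)
    · rw [Filter.eventually_all_finset]
      intro s hs
      exact (SM.isClosed_sg s).isOpen_compl.mem_nhds (hS s hs).1
  obtain ⟨r, hr, hball⟩ := Metric.eventually_nhds_iff.1 hall
  -- the two new points
  obtain ⟨ε, hε, hεr⟩ : ∃ ε : ℝ, 0 < ε ∧ ε * ‖U - T‖ < r := by
    refine ⟨r / (‖U - T‖ + 1), by positivity, ?_⟩
    rw [div_mul_eq_mul_div, div_lt_iff₀ (by positivity)]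
    nlinarith [norm_nonneg (U - T)]
  have hb := @hball (p + ε • (U - T)) (by
    rw [dist_eq_norm, add_sub_cancel_left, norm_smul, Real.norm_eq_abs, abs_of_pos hε]
    exact hεr)
  have hb' := @hball (p + (-ε) • (U - T)) (by
    rw [dist_eq_norm, add_sub_cancel_left, norm_smul, Real.norm_eq_abs, abs_neg, abs_of_pos hε]
    exact hεr)
  have eb : p + ε • (U - T) = p + (ε • U + (-ε) • T) := by
    rw [smul_sub, neg_smul, sub_eq_add_neg]
  have eb' : p + (-ε) • (U - T) = p + ((-ε) • U + ε • T) := by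
    rw [smul_sub, neg_smul, neg_smul, sub_neg_eq_add]
  obtain ⟨b, hbdef⟩ : ∃ b, b = p + ε • (U - T) := ⟨_, rfl⟩
  obtain ⟨b', hb'def⟩ : ∃ b', b' = p + (-ε) • (U - T) := ⟨_, rfl⟩
  rw [← hbdef] at hb eb
  rw [← hb'def] at hb' eb'
  -- the values of the affine form
  have Lb : 0 < SM.Lf U T p b := by
    rw [eb, SM.Lf_val]
    exact mul_pos hdet2 (by linarith)
  have Lb' : SM.Lf U T p b' < 0 := by
    rw [eb', SM.Lf_val]
    exact mul_neg_of_pos_of_neg hdet2 (by linarith)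
  have Lw1 : 0 < SM.Lf U T p w₁ := by
    have e : w₁ = p + ((0 : ℝ) • U + (-γ) • T) := by rw [zero_smul, zero_add]; exact hw1'
    rw [e, SM.Lf_val]
    exact mul_pos hdet2 (by linarith)
  have Lw2 : SM.Lf U T p w₂ < 0 := by
    have e : w₂ = p + ((0 : ℝ) • U + δ • T) := by rw [zero_smul, zero_add]; exact hw2'
    rw [e, SM.Lf_val]
    exact mul_neg_of_pos_of_neg hdet2 (by linarith)
  have Lu1 : SM.Lf U T p u₁ < 0 := by
    have e : u₁ = p + ((-α) • U + (0 : ℝ) • T) := by rw [zero_smul, add_zero]; exact hu1'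
    rw [e, SM.Lf_val]
    exact mul_neg_of_pos_of_neg hdet2 (by linarith)
  have Lu2 : 0 < SM.Lf U T p u₂ := by
    have e : u₂ = p + (β • U + (0 : ℝ) • T) := by rw [zero_smul, add_zero]; exact hu2'
    rw [e, SM.Lf_val]
    exact mul_pos hdet2 (by linarith)
  obtain ⟨⟨hbQ, hbS⟩, ⟨bw1, bw1'⟩, ⟨bw2, bw2'⟩, ⟨bu1, bu1'⟩, ⟨bu2, bu2'⟩⟩ := hb
  obtain ⟨⟨cbQ, cbS⟩, ⟨cw1, cw1'⟩, ⟨cw2, cw2'⟩, ⟨cu1, cu1'⟩, ⟨cu2, cu2'⟩⟩ := hb'
  refine ⟨b, b', ?_, hbQ, cbQ, fun s hs => ⟨hbS s hs, cbS s hs⟩, fun q hq => ⟨bw1 q hq, fun h => ?_,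
    cu1 q hq, fun h => ?_⟩, ?_, fun g hg => ?_⟩
  · intro h
    rw [h] at Lb
    linarith
  · exact bu2 q hq (by rw [segment_symm]; exact h)
  · exact cw2 q hq (by rw [segment_symm]; exact h)
  · intro z hz hz'
    have h1 : 0 < SM.Lf U T p z := by
      rcases hz with hz | hz
      · exact SM.Lf_pos Lw1 Lb hz
      · exact SM.Lf_pos Lb Lu2 hz
    have h2 : SM.Lf U T p z < 0 := by
      rcases hz' with hz' | hz'
      · exact SM.Lf_neg Lu1 Lb' hz'
      · exact SM.Lf_neg Lb' Lw2 hz'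
    linarith
  · have hpg := (hS g hg).1
    have m1 : Xs g s(w₁, b) → (sg g ∩ segment ℝ w₁ p).Nonempty := fun h =>
      bw1' g hg (by rw [← SM.sg_mk]; exact h.2)
    have m2 : Xs g s(b', w₂) → (sg g ∩ segment ℝ w₂ p).Nonempty := fun h =>
      cw2' g hg (by rw [← SM.sg_mk, Sym2.eq_swap]; exact h.2)
    have m3 : Xs g s(u₁, b') → (sg g ∩ segment ℝ u₁ p).Nonempty := fun h =>
      cu1' g hg (by rw [← SM.sg_mk]; exact h.2)
    have m4 : Xs g s(b, u₂) → (sg g ∩ segment ℝ u₂ p).Nonempty := fun h =>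
      bu2' g hg (by rw [← SM.sg_mk, Sym2.eq_swap]; exact h.2)
    refine ⟨fun h => SM.xs_of hpw hpg h (m1 h), fun h => ?_, fun h => SM.not_both hpw hpg (m1 h.1)
      (m2 h.2), fun h => SM.xs_of hpu hpg h (m3 h), fun h => ?_, fun h => SM.not_both hpu hpg
      (m3 h.1) (m4 h.2)⟩
    · have h1 : Xs g s(w₂, b') := by rw [Sym2.eq_swap]; exact h
      have h2 := SM.xs_of hpw' hpg h1 (m2 h)
      rw [Sym2.eq_swap] at h2
      exact h2
    · have h1 : Xs g s(u₂, b) := by rw [Sym2.eq_swap]; exact h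
      have h2 := SM.xs_of hpu' hpg h1 (m4 h)
      rw [Sym2.eq_swap] at h2
      exact h2

end Pool.Agent.NH90.CN
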