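import Pool.Agent.NH90.CN.Stm

/-!
# Project CN, CN-6: polygonal approximation of a drawing, list part (`S_T1`)
-/

set_option autoImplicit false

open Set Classical
open Pool.Agent.Helper770.Crossing Pool.Agent.Helper770.Sep

namespace Pool.Agent.NH90.CN

namespace T1

theorem segL_snoc (l : List ℂ) (a b : ℂ) : segL (l ++ [a, b]) = segL (l ++ [a]) ++ [s(a, b)] := by
  induction l with
  | nil => rfl
  | cons c l ih =>
    cases l with
    | nil => rfl
    | cons d l =>
      change s(c, d) :: segL ((d :: l) ++ [a, b]) = s(c, d) :: (segL ((d :: l) ++ [a])) ++ [s(a, b)]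
      rw [ih]
      rfl

theorem segL_rev (l : List ℂ) : segL l.reverse = (segL l).reverse := by
  induction l with
  | nil => rfl
  | cons a l ih =>
    cases l with
    | nil => rfl
    | cons b l =>
      have h1 : (a :: b :: l).reverse = l.reverse ++ [b, a] := by simp
      have h2 : (b :: l).reverse = l.reverse ++ [b] := by simp
      rw [h2] at ih
      rw [h1, segL_snoc, ih]
      change _ = (s(a, b) :: segL (b :: l)).reverse
      rw [List.reverse_cons, Sym2.eq_swap]

theorem NS_rev (s : Sym2 ℂ) (l : List ℂ) : NS s l.reverse = NS s l := by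
  unfold NS
  rw [segL_rev, List.countP_reverse]

theorem Nx_rev_left (l l' : List ℂ) : Nx l.reverse l' = Nx l l' := by
  unfold Nx
  rw [segL_rev, List.map_reverse, List.sum_reverse]

theorem Nx_rev_right (l l' : List ℂ) : Nx l l'.reverse = Nx l l' := by
  unfold Nx
  simp only [NS_rev]

theorem segL_mapg (g : ℝ → ℂ) (l : List ℝ) :
    segL (l.map g) = (l.zip l.tail).map (fun p => s(g p.1, g p.2)) := by
  induction l with
  | nil => rfl
  | cons a l ih =>
    cases l with
    | nil => rfl
    | cons b l =>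
      change s(g a, g b) :: segL ((b :: l).map g) = s(g a, g b) ::
        ((b :: l).zip l).map (fun p => s(g p.1, g p.2))
      rw [ih]
      rfl

/-- consecutive elements -/
theorem cons_of_mem (l : List ℝ) (hl : l.Pairwise (· < ·)) : ∀ p ∈ l.zip l.tail,
    p.1 ∈ l ∧ p.2 ∈ l ∧ p.1 < p.2 ∧ ∀ x ∈ l, ¬ (p.1 < x ∧ x < p.2) := by
  induction l with
  | nil =>
    intro p hp
    simp at hp
  | cons a l ih =>
    cases l with
    | nil =>
      intro p hp
      simp at hp
    | cons b l =>
      intro p hp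
      have hp' : p = (a, b) ∨ p ∈ (b :: l).zip (b :: l).tail := by
        have h1 : p ∈ (a, b) :: (b :: l).zip l := hp
        rcases List.mem_cons.1 h1 with h | h
        · exact Or.inl h
        · exact Or.inr h
      have hab : ∀ x ∈ b :: l, a < x := (List.pairwise_cons.1 hl).1
      have hbl : ∀ x ∈ l, b < x := (List.pairwise_cons.1 (List.pairwise_cons.1 hl).2).1
      rcases hp' with rfl | hp'
      · refine ⟨List.mem_cons_self, List.mem_cons_of_mem _ List.mem_cons_self,
          hab b List.mem_cons_self, ?_⟩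
        rintro x hx ⟨h1, h2⟩
        rcases List.mem_cons.1 hx with rfl | hx
        · exact lt_irrefl _ h1
        · rcases List.mem_cons.1 hx with rfl | hx
          · exact lt_irrefl _ h2
          · exact lt_asymm h2 (hbl x hx)
      · obtain ⟨h1, h2, h3, h4⟩ := ih (List.pairwise_cons.1 hl).2 p hp'
        refine ⟨List.mem_cons_of_mem _ h1, List.mem_cons_of_mem _ h2, h3, ?_⟩
        intro x hx
        rcases List.mem_cons.1 hx with rfl | hx
        · rintro ⟨h5, -⟩
          exact lt_asymm h5 (hab _ h1)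
        · exact h4 x hx

theorem fst_sub (l l' : List ℝ) : ((l.zip l').map Prod.fst).Sublist l := by
  induction l generalizing l' with
  | nil => simp
  | cons a l ih =>
    cases l' with
    | nil => simp
    | cons b l' =>
      change (a :: (l.zip l').map Prod.fst).Sublist (a :: l)
      exact (ih l').cons_cons a

theorem head_of (l : List ℝ) (hl : l.Pairwise (· < ·)) (m : ℝ) (hm : m ∈ l)
    (h : ∀ x ∈ l, m ≤ x) : l.head? = some m := by
  cases l with
  | nil => simp at hm
  | cons a l =>
    rcases List.mem_cons.1 hm with rfl | hm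
    · rfl
    · have h1 := (List.pairwise_cons.1 hl).1 m hm
      have h2 := h a List.mem_cons_self
      exact absurd h1 (not_lt.2 h2)

theorem last_of (l : List ℝ) (hl : l.Pairwise (· < ·)) (m : ℝ) (hm : m ∈ l)
    (h : ∀ x ∈ l, x ≤ m) : l.getLast? = some m := by
  induction l with
  | nil => simp at hm
  | cons a l ih =>
    cases l with
    | nil =>
      rw [List.mem_singleton] at hm
      rw [hm]
      rfl
    | cons b l =>
      rw [List.getLast?_cons_cons]
      refine ih (List.pairwise_cons.1 hl).2 ?_ (fun x hx => h x (List.mem_cons_of_mem _ hx))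
      rcases List.mem_cons.1 hm with rfl | hm
      · have h1 := (List.pairwise_cons.1 hl).1 b List.mem_cons_self
        have h2 := h b (List.mem_cons_of_mem _ List.mem_cons_self)
        exact absurd h1 (not_lt.2 h2)
      · exact hm

theorem c1 (b : ℂ → ℝ) (P : ℝ × ℝ → Prop) (B : List (ℝ × ℝ)) (hB : (B.map Prod.fst).Nodup) :
    ∀ Z : Finset ℂ, (∀ q ∈ B, P q → ∃ z ∈ Z, q.1 = b z) →
      B.countP (fun q => decide (P q)) ≤ Z.card := by
  induction B with
  | nil =>
    intro Z _
    simp
  | cons q B ih =>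
    intro Z hZ
    rw [List.map_cons, List.nodup_cons] at hB
    rw [List.countP_cons]
    by_cases hq : P q
    · obtain ⟨z, hz, hqz⟩ := hZ q List.mem_cons_self hq
      have h1 := ih hB.2 (Z.erase z) (by
        intro q' hq' hP
        obtain ⟨z', hz', hqz'⟩ := hZ q' (List.mem_cons_of_mem _ hq') hP
        refine ⟨z', Finset.mem_erase.2 ⟨?_, hz'⟩, hqz'⟩
        rintro rfl
        apply hB.1
        rw [hqz, ← hqz']
        exact List.mem_map_of_mem hq')
      have h2 := Finset.card_erase_add_one hz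
      simp only [hq, decide_true, if_true]
      omega
    · have h1 := ih hB.2 Z (fun q' hq' hP => hZ q' (List.mem_cons_of_mem _ hq') hP)
      simp only [hq, decide_false, Bool.false_eq_true, if_false]
      omega

theorem c2 (a b : ℂ → ℝ) (R : ℝ × ℝ → ℝ × ℝ → Prop) (B : List (ℝ × ℝ))
    (hB : (B.map Prod.fst).Nodup) (A : List (ℝ × ℝ)) (hA : (A.map Prod.fst).Nodup) :
    ∀ Z : Finset ℂ, (∀ p ∈ A, ∀ q ∈ B, R p q → ∃ z ∈ Z, p.1 = a z ∧ q.1 = b z) →
      (A.map (fun p => B.countP (fun q => decide (R p q)))).sum ≤ Z.card := by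
  induction A with
  | nil =>
    intro Z _
    simp
  | cons p A ih =>
    intro Z hZ
    rw [List.map_cons, List.nodup_cons] at hA
    rw [List.map_cons, List.sum_cons]
    have h1 := c1 b (R p) B hB (Z.filter fun z => a z = p.1) (by
      intro q hq hR
      obtain ⟨z, hz, h1, h2⟩ := hZ p List.mem_cons_self q hq hR
      exact ⟨z, Finset.mem_filter.2 ⟨hz, h1.symm⟩, h2⟩)
    have h2 := ih hA.2 (Z.filter fun z => ¬ a z = p.1) (by
      intro p' hp' q hq hR
      obtain ⟨z, hz, h1, h2⟩ := hZ p' (List.mem_cons_of_mem _ hp') q hq hR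
      refine ⟨z, Finset.mem_filter.2 ⟨hz, ?_⟩, h1, h2⟩
      intro h3
      apply hA.1
      rw [← h3, ← h1]
      exact List.mem_map_of_mem hp')
    have h3 := Finset.card_filter_add_card_filter_not (s := Z) (fun z => a z = p.1)
    omega

/-- the crossings of two edges -/
theorem fin_cr {V : Type} {G : SimpleGraph V} (D : Drawing G) (h : D.crossings.Finite)
    {e f : Sym2 V} (he : e ∈ G.edgeSet) (hf : f ∈ G.edgeSet) (hne : e ≠ f) :
    (D.arc e '' Ioo (0 : ℝ) 1 ∩ D.arc f '' Ioo (0 : ℝ) 1).Finite := by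
  have h1 : Function.Injective (fun z : ℂ => ((s(e, f), z) : Sym2 (Sym2 V) × ℂ)) := by
    intro z z' hz
    exact (Prod.mk.inj hz).2
  refine (h.preimage h1.injOn).subset ?_
  rintro z ⟨hz1, hz2⟩
  exact ⟨e, he, f, hf, hne, rfl, hz1, hz2⟩

end T1

open T1 in
theorem t_T1 (h : S_TOP) : S_T1 := by
  intro V _ G D hd tl hfin hht
  obtain ⟨F, α, hF, h2, h3⟩ := h V G D hfin
  obtain ⟨L, hL⟩ : ∃ L : Sym2 V → List ℝ, ∀ e, L e = (F e).sort (· ≤ ·) :=
    ⟨fun e => (F e).sort (· ≤ ·), fun _ => rfl⟩
  have hLp : ∀ e, (L e).Pairwise (· < ·) := by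
    intro e
    rw [hL]
    exact (Finset.sortedLT_sort (F e)).pairwise
  have hLm : ∀ e t, t ∈ L e ↔ t ∈ F e := by
    intro e t
    rw [hL]
    exact Finset.mem_sort _
  have hLn : ∀ e, (L e).Nodup := fun e => (hLp e).imp (fun h => ne_of_lt h)
  obtain ⟨P, hP⟩ : ∃ P : Sym2 V → List ℂ, ∀ e, P e = (L e).map (D.arc e) := ⟨_, fun _ => rfl⟩
  obtain ⟨W, hW⟩ : ∃ W : Sym2 V → List ℂ,
    ∀ e, W e = if D.arc e 0 = D.pos (hd e) then P e else (P e).reverse := ⟨_, fun _ => rfl⟩
  have hWor : ∀ e, W e = P e ∨ W e = (P e).reverse := by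
    intro e
    rw [hW]
    split_ifs
    · exact Or.inl rfl
    · exact Or.inr rfl
  have hPh : ∀ e ∈ G.edgeSet, (P e).head? = some (D.arc e 0) := by
    intro e he
    rw [hP, List.head?_map, head_of (L e) (hLp e) 0 ((hLm e 0).2 (hF e he).2.1)
      (fun x hx => ((hF e he).1 x ((hLm e x).1 hx)).1)]
    rfl
  have hPl : ∀ e ∈ G.edgeSet, (P e).getLast? = some (D.arc e 1) := by
    intro e he
    rw [hP, List.getLast?_map, last_of (L e) (hLp e) 1 ((hLm e 1).2 (hF e he).2.2)
      (fun x hx => ((hF e he).1 x ((hLm e x).1 hx)).2)]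
    rfl
  have hWm : ∀ e q, q ∈ W e → ∃ t ∈ F e, q = D.arc e t := by
    intro e q hq
    have hq' : q ∈ P e := by
      rcases hWor e with h | h
      · rwa [h] at hq
      · rw [h, List.mem_reverse] at hq
        exact hq
    rw [hP, List.mem_map] at hq'
    obtain ⟨t, ht, rfl⟩ := hq'
    exact ⟨t, (hLm e t).1 ht, rfl⟩
  have hEn : ∀ e ∈ G.edgeSet, ∀ t, (t = 0 ∨ t = 1) → En (W e) (D.arc e t) := by
    intro e he t ht
    unfold En
    rcases hWor e with h | h <;> rcases ht with rfl | rfl
    · exact Or.inl (by rw [h, hPh e he])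
    · exact Or.inr (by rw [h, hPl e he])
    · exact Or.inr (by rw [h, List.getLast?_reverse, hPh e he])
    · exact Or.inl (by rw [h, List.head?_reverse, hPl e he])
  have hmem : ∀ e, e ∈ eF G ↔ e ∈ G.edgeSet := by
    intro e
    unfold eF
    rw [Finset.mem_filter]
    exact ⟨fun h => h.2, fun h => ⟨Finset.mem_univ _, h⟩⟩
  -- the ends of the arcs
  have hends : ∀ e ∈ G.edgeSet, (D.arc e 0 = D.pos (hd e) ∧ D.arc e 1 = D.pos (tl e)) ∨
      (D.arc e 0 ≠ D.pos (hd e) ∧ D.arc e 0 = D.pos (tl e) ∧ D.arc e 1 = D.pos (hd e)) := by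
    intro e he
    have hadj : G.Adj (hd e) (tl e) := by
      rw [← SimpleGraph.mem_edgeSet, hht e he]
      exact he
    have h1 := D.arc_ends (hd e) (tl e) hadj
    rw [hht e he] at h1
    rcases h1 with h1 | h1
    · exact Or.inl h1
    · refine Or.inr ⟨?_, h1⟩
      intro h5
      rw [h1.1] at h5
      exact hadj.ne (D.pos_injective h5).symm
  refine ⟨W, ⟨?_, ?_, ?_⟩, ⟨?_, ?_, ?_⟩, ?_⟩
  · intro e he
    rw [hmem] at he
    have h5 : (W e).length = (F e).card := by
      rcases hWor e with h | h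
      · rw [h, hP, List.length_map, hL, Finset.length_sort]
      · rw [h, List.length_reverse, hP, List.length_map, hL, Finset.length_sort]
    rw [h5]
    have h6 : ({0, 1} : Finset ℝ) ⊆ F e := by
      intro x hx
      rcases Finset.mem_insert.1 hx with rfl | hx
      · exact (hF e he).2.1
      · rw [Finset.mem_singleton.1 hx]
        exact (hF e he).2.2
    have h7 := Finset.card_le_card h6
    rwa [Finset.card_pair zero_ne_one] at h7
  · intro e he
    rw [hmem] at he
    have h5 : (P e).Nodup := by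
      rw [hP]
      refine List.Nodup.map_on ?_ (hLn e)
      intro x hx y hy hxy
      exact D.arc_injOn e he ((hF e he).1 x ((hLm e x).1 hx)) ((hF e he).1 y ((hLm e y).1 hy)) hxy
    rcases hWor e with h | h
    · rw [h]
      exact h5
    · rw [h]
      exact List.nodup_reverse.2 h5
  · intro e he f hf hne q hq hq'
    rw [hmem] at he hf
    obtain ⟨t, ht, rfl⟩ := hWm e q hq
    obtain ⟨u, hu, htu⟩ := hWm f _ hq'
    obtain ⟨h5, h6⟩ := h2 e he f hf hne t ht u hu htu
    refine ⟨hEn e he t h5, ?_⟩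
    rw [htu]
    exact hEn f hf u h6
  · intro i _ j _ u _ v _ huv
    exact D.pos_injective huv
  · intro e he
    rw [hmem] at he
    rw [hW]
    rcases hends e he with h | h
    · rw [if_pos h.1, hPh e he, h.1]
    · rw [if_neg h.1, List.head?_reverse, hPl e he, h.2.2]
  · intro e he
    rw [hmem] at he
    rw [hW]
    rcases hends e he with h | h
    · rw [if_pos h.1, hPl e he, h.2]
    · rw [if_neg h.1, List.getLast?_reverse, hPh e he, h.2.1]
  · intro e he f hf hne
    have h5 : Nx (W e) (W f) = Nx (P e) (P f) := by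
      rcases hWor e with h | h <;> rcases hWor f with h' | h' <;> rw [h, h']
      · rw [Nx_rev_right]
      · rw [Nx_rev_left]
      · rw [Nx_rev_left, Nx_rev_right]
    have hfi := fin_cr D hfin he hf hne
    have h6 : DX D e f = hfi.toFinset.card := by
      unfold DX
      rw [if_pos ⟨he, hf, hne⟩, Set.ncard_eq_toFinset_card _ hfi]
    rw [h5, h6]
    have h7 : Nx (P e) (P f) = (((L e).zip (L e).tail).map (fun p =>
        ((L f).zip (L f).tail).countP (fun q => decide
          (Xs s(D.arc e p.1, D.arc e p.2) s(D.arc f q.1, D.arc f q.2))))).sum := by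
      unfold Nx
      rw [hP e, segL_mapg, List.map_map]
      congr 1
      refine List.map_congr_left fun p _ => ?_
      rw [Function.comp_apply]
      unfold NS
      rw [hP f, segL_mapg, List.countP_map]
      rfl
    rw [h7]
    refine c2 (α e) (α f) _ _ ((hLn f).sublist (fst_sub _ _)) _ ((hLn e).sublist (fst_sub _ _))
      _ ?_
    intro p hp q hq hX
    obtain ⟨a1, a2, a3, a4⟩ := cons_of_mem (L e) (hLp e) p hp
    obtain ⟨b1, b2, b3, b4⟩ := cons_of_mem (L f) (hLp f) q hq
    obtain ⟨z, hz, h8, h9⟩ := h3 e he f hf hne p.1 p.2 q.1 q.2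
      ⟨(hLm e _).1 a1, (hLm e _).1 a2, a3, fun x hx => a4 x ((hLm e x).2 hx)⟩
      ⟨(hLm f _).1 b1, (hLm f _).1 b2, b3, fun x hx => b4 x ((hLm f x).2 hx)⟩ hX
    exact ⟨z, hfi.mem_toFinset.2 hz, h8, h9⟩

end Pool.Agent.NH90.CN
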