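import Pool.Agent.NH90.CN.Stm

/-!
# Project CN, job CN-4: from a family of polylines to a drawing
-/

set_option autoImplicit false

open Set Classical
open Pool.Agent.Helper770.Crossing Pool.Agent.Helper770.Sep

namespace Pool.Agent.NH90.CN

namespace T3

/-! ### Segments -/

theorem sgmk (a b : ℂ) : sg s(a, b) = segment ℝ a b := by
  unfold sg
  have : {z | z ∈ s(a, b)} = ({a, b} : Set ℂ) := by
    ext z
    simp [Sym2.mem_iff]
  rw [this, convexHull_pair]

theorem mem_sg {s : Sym2 ℂ} {q : ℂ} (h : q ∈ s) : q ∈ sg s := subset_convexHull ℝ _ h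

theorem mem_of_segL : ∀ {l : List ℂ} {s : Sym2 ℂ}, s ∈ segL l → ∀ q ∈ s, q ∈ l
  | [], s, h, _, _ => by simp [segL] at h
  | [_], s, h, _, _ => by simp [segL] at h
  | a :: b :: l, s, h, q, hq => by
    rw [segL, List.mem_cons] at h
    rcases h with rfl | h
    · rw [Sym2.mem_iff] at hq
      rcases hq with rfl | rfl <;> simp
    · exact List.mem_cons_of_mem _ (mem_of_segL h q hq)

theorem segL_ne : ∀ {l : List ℂ} {s : Sym2 ℂ}, l.Nodup → s ∈ segL l →
    ∃ a b, a ≠ b ∧ s = s(a, b)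
  | [], s, _, h => by simp [segL] at h
  | [_], s, _, h => by simp [segL] at h
  | a :: b :: l, s, hn, h => by
    rw [segL, List.mem_cons] at h
    rw [List.nodup_cons] at hn
    rcases h with rfl | h
    · exact ⟨a, b, fun hab => hn.1 (by rw [hab]; simp), rfl⟩
    · exact segL_ne hn.2 h

theorem segL_nodup : ∀ {l : List ℂ}, l.Nodup → (segL l).Nodup
  | [], _ => by simp [segL]
  | [_], _ => by simp [segL]
  | a :: b :: l, hn => by
    rw [segL, List.nodup_cons]
    rw [List.nodup_cons] at hn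
    exact ⟨fun h => hn.1 (mem_of_segL h a (by simp)), segL_nodup hn.2⟩

/-- the other end -/
theorem other {l : List ℂ} {s : Sym2 ℂ} (hn : l.Nodup) (hs : s ∈ segL l) {q : ℂ} (hq : q ∈ s) :
    ∃ x, x ≠ q ∧ s = s(q, x) := by
  obtain ⟨a, b, hab, rfl⟩ := segL_ne hn hs
  rw [Sym2.mem_iff] at hq
  rcases hq with rfl | rfl
  · exact ⟨b, hab.symm, rfl⟩
  · exact ⟨a, hab, Sym2.eq_swap⟩

theorem mem_seg {a b z : ℂ} : z ∈ segment ℝ a b ↔ ∃ t : ℝ, 0 ≤ t ∧ t ≤ 1 ∧ z = a + (t : ℂ) * (b - a) := by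
  rw [segment_eq_image']
  constructor
  · rintro ⟨t, ⟨h0, h1⟩, rfl⟩
    exact ⟨t, h0, h1, by simp⟩
  · rintro ⟨t, h0, h1, rfl⟩
    exact ⟨t, ⟨h0, h1⟩, by simp⟩

theorem share {q x y z : ℂ} (h1 : z ∈ segment ℝ q x) (h2 : z ∈ segment ℝ q y) (hz : z ≠ q) :
    x ∈ segment ℝ q y ∨ y ∈ segment ℝ q x := by
  rw [mem_seg] at h1 h2
  obtain ⟨a, ha0, ha1, rfl⟩ := h1
  obtain ⟨b, hb0, hb1, h⟩ := h2
  have ha : 0 < a := by
    refine lt_of_le_of_ne ha0 fun h0 => hz ?_
    rw [← h0]; simp
  have hb : 0 < b := by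
    refine lt_of_le_of_ne hb0 fun h0 => hz ?_
    rw [h, ← h0]; simp
  have haC : (a : ℂ) ≠ 0 := by exact_mod_cast ha.ne'
  have hbC : (b : ℂ) ≠ 0 := by exact_mod_cast hb.ne'
  have h' : (a : ℂ) * (x - q) = b * (y - q) := by linear_combination h
  rcases le_total a b with hab | hab
  · right
    rw [mem_seg]
    refine ⟨a / b, by positivity, (div_le_one hb).2 hab, ?_⟩
    push_cast
    field_simp
    linear_combination -h'
  · left
    rw [mem_seg]
    refine ⟨b / a, by positivity, (div_le_one ha).2 hab, ?_⟩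
    push_cast
    field_simp
    linear_combination h'

theorem two {a b c d z z' : ℂ} (h1 : z ∈ segment ℝ a b) (h2 : z ∈ segment ℝ c d)
    (h3 : z' ∈ segment ℝ a b) (h4 : z' ∈ segment ℝ c d) (hz : z ≠ z')
    (hc : c ∉ segment ℝ a b) (hd : d ∉ segment ℝ a b) : a ∈ segment ℝ c d := by
  rw [mem_seg] at h1 h2 h3 h4
  obtain ⟨α, hα0, hα1, e1⟩ := h1
  obtain ⟨u, hu0, hu1, e2⟩ := h2
  obtain ⟨α', hα0', hα1', e3⟩ := h3
  obtain ⟨u', hu0', hu1', e4⟩ := h4
  have huu : u - u' ≠ 0 := by
    intro h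
    apply hz
    rw [e2, e4, show u = u' by linarith]
  have hαα : α - α' ≠ 0 := by
    intro h
    apply hz
    rw [e1, e3, show α = α' by linarith]
  have huuC : ((u : ℂ) - u') ≠ 0 := by exact_mod_cast huu
  set k : ℝ := (α - α') / (u - u') with hk
  have hk0 : k ≠ 0 := div_ne_zero hαα huu
  have hkC : (k : ℂ) ≠ 0 := by exact_mod_cast hk0
  have hkk : (k : ℂ) * (u - u') = α - α' := by
    have : k * (u - u') = α - α' := by rw [hk]; field_simp
    exact_mod_cast this
  have e5 : d - c = (k : ℂ) * (b - a) := by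
    have h5 : ((u : ℂ) - u') * (d - c) = (α - α') * (b - a) := by
      linear_combination e1 - e2 - e3 + e4
    have h6 : ((u : ℂ) - u') * (d - c) = (u - u') * (k * (b - a)) := by
      rw [h5, ← hkk]; ring
    exact mul_left_cancel₀ huuC h6
  have e6 : c = a + ((α - u * k : ℝ) : ℂ) * (b - a) := by
    push_cast
    linear_combination e1 - e2 - (u : ℂ) * e5
  have e7 : d = a + ((α - u * k + k : ℝ) : ℂ) * (b - a) := by
    push_cast
    push_cast at e6
    linear_combination e5 + e6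
  set γ : ℝ := α - u * k with hγ
  have n1 : ¬ (0 ≤ γ ∧ γ ≤ 1) := fun h => hc (mem_seg.2 ⟨γ, h.1, h.2, e6⟩)
  have n2 : ¬ (0 ≤ γ + k ∧ γ + k ≤ 1) := fun h => hd (mem_seg.2 ⟨γ + k, h.1, h.2, e7⟩)
  rw [mem_seg]
  refine ⟨-γ / k, ?_, ?_, ?_⟩
  · rcases lt_or_gt_of_ne hk0 with h | h
    · apply div_nonneg_of_nonpos _ h.le
      have : γ ≥ α := by rw [hγ]; nlinarith
      linarith
    · apply div_nonneg _ h.le
      have h6 : γ ≤ 1 := by rw [hγ]; nlinarith
      by_contra h7
      exact n1 ⟨by linarith, h6⟩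
  · rcases lt_or_gt_of_ne hk0 with h | h
    · rw [div_le_one_of_neg h]
      have h6 : γ + k ≤ 1 := by rw [hγ]; nlinarith
      by_contra h7
      exact n2 ⟨by linarith, h6⟩
    · rw [div_le_one h]
      have : γ + k ≥ 0 := by rw [hγ]; nlinarith
      linarith
  · rw [e5, e6]
    push_cast
    field_simp
    ring

/-! ### Arcs -/

theorem arc_mono {S T : Set ℂ} {p q : ℂ} (hS : IsArc S p q) (h : S ⊆ T) : IsArc T p q := by
  obtain ⟨γ, h1, h2, h3, h4, h5⟩ := hS
  exact ⟨γ, h1, h2, h3, h4, fun t ht => h (h5 t ht)⟩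

theorem arc_seg {a b : ℂ} (hab : a ≠ b) : IsArc (sg s(a, b)) a b := by
  refine ⟨fun t => a + (t : ℂ) * (b - a), ?_, ?_, by simp, by simp, ?_⟩
  · exact Continuous.continuousOn (by fun_prop)
  · intro t _ t' _ h
    have h1 : ((t : ℂ) - t') * (b - a) = 0 := by
      have h2 : a + (t : ℂ) * (b - a) = a + (t' : ℂ) * (b - a) := h
      linear_combination h2
    rcases mul_eq_zero.1 h1 with h2 | h2
    · have h3 : (t : ℂ) = t' := sub_eq_zero.1 h2
      exact_mod_cast h3
    · exact absurd (sub_eq_zero.1 h2).symm hab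
  · intro t ht
    rw [sgmk, mem_seg]
    exact ⟨t, ht.1, ht.2, rfl⟩

theorem arc_list (h2 : S_CAT) : ∀ (l : List ℂ) (a b : ℂ), l.Nodup → 2 ≤ l.length →
    l.head? = some a → l.getLast? = some b → IsArc (⋃ s ∈ segL l, sg s) a b
  | [], a, b, _, h, _, _ => by simp at h
  | [_], a, b, _, h, _, _ => by simp at h
  | [x, y], a, b, hn, _, ha, hb => by
    have ha' : x = a := by simpa using ha
    have hb' : y = b := by simpa using hb
    subst ha' hb'
    refine arc_mono (arc_seg ?_) ?_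
    · intro h
      rw [h] at hn
      simp at hn
    · intro z hz
      rw [mem_iUnion₂]
      exact ⟨s(x, y), by simp [segL], hz⟩
  | x :: y :: w :: l, a, b, hn, _, ha, hb => by
    have ha' : x = a := by simpa using ha
    subst ha'
    have hn' := hn
    rw [List.nodup_cons] at hn'
    have hb' : (y :: w :: l).getLast? = some b := by
      rw [List.getLast?_cons_cons] at hb
      exact hb
    have ih := arc_list h2 (y :: w :: l) y b hn'.2 (by simp) (by simp) hb'
    have hxy : x ≠ y := fun h => hn'.1 (by rw [h]; simp)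
    have hxb : x ≠ b := fun h => hn'.1 (by rw [h]; exact List.mem_of_getLast? hb')
    refine arc_mono (h2 _ _ x b y hxb (arc_seg hxy) ih) ?_
    intro z hz
    rw [mem_iUnion₂]
    rcases hz with hz | hz
    · exact ⟨s(x, y), by simp [segL], hz⟩
    · rw [mem_iUnion₂] at hz
      obtain ⟨s, hs, hz⟩ := hz
      refine ⟨s, ?_, hz⟩
      rw [segL]
      exact List.mem_cons_of_mem _ hs

end T3

open T3 in
theorem t_T3 (h1 : S_CNT) (h2 : S_CAT) : S_T3 := by
  intro V _ G hd tl loc W hht hPL hPO hLb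
  have memA : ∀ {e}, e ∈ G.edgeSet → e ∈ eF G := fun he => by simp [eF, he]
  -- the arcs
  have harc : ∀ e, ∃ γ : ℝ → ℂ, e ∈ G.edgeSet → ContinuousOn γ (Icc 0 1) ∧ InjOn γ (Icc 0 1) ∧
      γ 0 = loc (hd e) ∧ γ 1 = loc (tl e) ∧
      ∀ t ∈ Icc (0 : ℝ) 1, γ t ∈ ⋃ s ∈ segL (W e), sg s := by
    intro e
    by_cases he : e ∈ G.edgeSet
    · obtain ⟨γ, hγ⟩ := arc_list h2 (W e) (loc (hd e)) (loc (tl e)) (hPL.nd e (memA he))
        (hPL.len e (memA he)) (hLb.head e (memA he)) (hLb.last e (memA he))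
      exact ⟨γ, fun _ => hγ⟩
    · exact ⟨fun _ => 0, fun h => absurd h he⟩
  choose γ hγ using harc
  -- the bound
  have hbd : Bornology.IsBounded ((⋃ e ∈ eF G, ⋃ s ∈ segL (W e), sg s) ∪ range loc) := by
    apply Bornology.IsBounded.union
    · rw [Bornology.isBounded_biUnion_finset]
      intro e _
      have : (⋃ s ∈ segL (W e), sg s) = ⋃ s ∈ (segL (W e)).toFinset, sg s := by
        simp
      rw [this, Bornology.isBounded_biUnion_finset]
      intro s _
      induction s using Sym2.ind with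
      | _ a b =>
        rw [sgmk, segment_eq_image]
        exact (isCompact_Icc.image (by fun_prop)).isBounded
    · exact (finite_range loc).isBounded
  obtain ⟨R, hR⟩ := hbd.exists_norm_le
  have hR0 : ∀ e ∈ G.edgeSet, ∀ t ∈ Icc (0 : ℝ) 1, ‖γ e t‖ ≤ R := by
    intro e he t ht
    apply hR
    left
    rw [mem_iUnion₂]
    exact ⟨e, memA he, (hγ e he).2.2.2.2 t ht⟩
  have hR1 : ∀ v, ‖loc v‖ ≤ R := fun v => hR _ (Or.inr ⟨v, rfl⟩)
  have hRn : ∀ v : V, 0 ≤ R := fun v => (norm_nonneg _).trans (hR1 v)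
  -- the positions
  let idx : V → ℕ := fun v => (Fintype.equivFin V v : ℕ)
  have hidx : Function.Injective idx := fun u v h =>
    (Fintype.equivFin V).injective (Fin.ext h)
  set used : V → Prop := fun v => ∃ e ∈ G.edgeSet, v ∈ e with hused
  set pos : V → ℂ := fun v => if used v then loc v else ((R + 1 + idx v : ℝ) : ℂ) with hpos
  have hpos1 : ∀ v, used v → pos v = loc v := fun v hv => if_pos hv
  have hpos2 : ∀ v, ¬ used v → ‖pos v‖ = R + 1 + idx v := by
    intro v hv
    rw [hpos]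
    simp only [if_neg hv]
    rw [Complex.norm_real, Real.norm_of_nonneg]
    have := hRn v
    positivity
  have hend : ∀ e ∈ G.edgeSet, ∀ v ∈ e, v = hd e ∨ v = tl e := by
    intro e he v hv
    rw [← hht e he] at hv
    exact Sym2.mem_iff.1 hv
  have hhd : ∀ e ∈ G.edgeSet, hd e ∈ e := fun e he => by
    have h3 := Sym2.mem_mk_left (hd e) (tl e)
    rwa [hht e he] at h3
  have htl : ∀ e ∈ G.edgeSet, tl e ∈ e := fun e he => by
    have h3 := Sym2.mem_mk_right (hd e) (tl e)
    rwa [hht e he] at h3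
  have hinj : ∀ e ∈ G.edgeSet, ∀ f ∈ G.edgeSet, ∀ u ∈ e, ∀ v ∈ f, loc u = loc v → u = v := by
    intro e he f hf u hu v hv
    refine hLb.inj e (memA he) f (memA hf) u ?_ v ?_
    · rw [hht e he]; exact hu
    · rw [hht f hf]; exact hv
  have hposinj : Function.Injective pos := by
    intro u v huv
    by_cases hu : used u <;> by_cases hv : used v
    · rw [hpos1 u hu, hpos1 v hv] at huv
      obtain ⟨e, he, hue⟩ := hu
      obtain ⟨f, hf, hvf⟩ := hv
      exact hinj e he f hf u hue v hvf huv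
    · exfalso
      have h3 := hpos2 v hv
      rw [← huv, hpos1 u hu] at h3
      have h4 := hR1 u
      have h5 : (0 : ℝ) ≤ idx v := by positivity
      linarith
    · exfalso
      have h3 := hpos2 u hu
      rw [huv, hpos1 v hv] at h3
      have h4 := hR1 v
      have h5 : (0 : ℝ) ≤ idx u := by positivity
      linarith
    · have h3 := hpos2 u hu
      have h4 := hpos2 v hv
      rw [huv, h4] at h3
      have h5 : (idx v : ℝ) = idx u := by linarith
      exact hidx (by exact_mod_cast h5.symm)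
  -- ends of the polylines
  have hEn : ∀ e ∈ G.edgeSet, ∀ q, En (W e) q → ∃ v ∈ e, q = loc v ∧ (q = γ e 0 ∨ q = γ e 1) := by
    intro e he q hq
    rcases hq with hq | hq
    · rw [hLb.head e (memA he), Option.some_inj] at hq
      exact ⟨hd e, hhd e he, hq.symm, Or.inl (by rw [(hγ e he).2.2.1]; exact hq.symm)⟩
    · rw [hLb.last e (memA he), Option.some_inj] at hq
      exact ⟨tl e, htl e he, hq.symm, Or.inr (by rw [(hγ e he).2.2.2.1]; exact hq.symm)⟩
  have hno : ∀ e ∈ G.edgeSet, ∀ t ∈ Ioo (0 : ℝ) 1, ¬ En (W e) (γ e t) := by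
    intro e he t ht hq
    obtain ⟨v, _, _, h | h⟩ := hEn e he _ hq
    · have := (hγ e he).2.1 (Ioo_subset_Icc_self ht) (by simp) h
      exact ht.1.ne' this
    · have := (hγ e he).2.1 (Ioo_subset_Icc_self ht) (by simp) h
      exact ht.2.ne this
  have hlocmem : ∀ e ∈ G.edgeSet, ∀ v ∈ e, En (W e) (loc v) ∧ loc v ∈ W e := by
    intro e he v hv
    rcases hend e he v hv with rfl | rfl
    · have h3 := hLb.head e (memA he)
      exact ⟨Or.inl h3, List.mem_of_head? h3⟩
    · have h3 := hLb.last e (memA he)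
      exact ⟨Or.inr h3, List.mem_of_getLast? h3⟩
  let D : Drawing G :=
    { pos := pos
      pos_injective := hposinj
      arc := γ
      arc_continuousOn := fun e he => (hγ e he).1
      arc_injOn := fun e he => (hγ e he).2.1
      arc_ends := by
        intro u v huv
        have he : s(u, v) ∈ G.edgeSet := huv
        have h3 := hht _ he
        rw [(hγ _ he).2.2.1, (hγ _ he).2.2.2.1, hpos1 u ⟨_, he, Sym2.mem_mk_left _ _⟩,
          hpos1 v ⟨_, he, Sym2.mem_mk_right _ _⟩]
        rw [Sym2.eq_iff] at h3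
        rcases h3 with ⟨h3, h4⟩ | ⟨h3, h4⟩
        · left; rw [h3, h4]; exact ⟨rfl, rfl⟩
        · right; rw [h3, h4]; exact ⟨rfl, rfl⟩
      arc_avoids := by
        intro e he t ht w hw
        have ht' := Ioo_subset_Icc_self ht
        by_cases hu : used w
        · rw [hpos1 w hu] at hw
          obtain ⟨f, hf, hwf⟩ := hu
          obtain ⟨h3, h4⟩ := hlocmem f hf w hwf
          have h5 := (hγ e he).2.2.2.2 t ht'
          rw [mem_iUnion₂] at h5
          obtain ⟨s, hs, h5⟩ := h5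
          rw [hw] at h5
          have h6 := hPO e (memA he) f (memA hf) s hs _ h4 h5
          have h7 := mem_of_segL hs _ h6
          apply hno e he t ht
          rw [hw]
          by_cases hef : e = f
          · rw [hef]; exact h3
          · exact (hPL.sep e (memA he) f (memA hf) hef _ h7 h4).1
        · have h3 := hpos2 w hu
          rw [← hw] at h3
          have h4 := hR0 e he t ht'
          have h5 : (0 : ℝ) ≤ idx w := by positivity
          linarith }
  -- the crossings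
  have key : ∀ e ∈ G.edgeSet, ∀ f ∈ G.edgeSet, e ≠ f →
      (γ e '' Ioo (0 : ℝ) 1 ∩ γ f '' Ioo (0 : ℝ) 1).Finite ∧
      (γ e '' Ioo (0 : ℝ) 1 ∩ γ f '' Ioo (0 : ℝ) 1).ncard ≤ Nx (W e) (W f) := by
    intro e he f hf hef
    have hA := memA he
    have hB := memA hf
    set Z := γ e '' Ioo (0 : ℝ) 1 ∩ γ f '' Ioo (0 : ℝ) 1 with hZ
    have hex : ∀ z, ∃ p : (_ : Sym2 ℂ) × Sym2 ℂ, z ∈ Z → p.1 ∈ segL (W e) ∧ p.2 ∈ segL (W f) ∧
        z ∈ sg p.1 ∧ z ∈ sg p.2 ∧ Xs p.1 p.2 := by
      intro z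
      by_cases hz : z ∈ Z
      swap
      · exact ⟨⟨s(0, 0), s(0, 0)⟩, fun h => absurd h hz⟩
      obtain ⟨⟨t, ht, hzt⟩, ⟨u, hu, hzu⟩⟩ := hz
      have h5 := (hγ e he).2.2.2.2 t (Ioo_subset_Icc_self ht)
      have h6 := (hγ f hf).2.2.2.2 u (Ioo_subset_Icc_self hu)
      rw [mem_iUnion₂] at h5 h6
      obtain ⟨s, hs, h5⟩ := h5
      obtain ⟨s', hs', h6⟩ := h6
      rw [hzt] at h5
      rw [hzu] at h6
      refine ⟨⟨s, s'⟩, fun _ => ⟨hs, hs', h5, h6, ?_, ⟨z, h5, h6⟩⟩⟩
      intro q hq hq'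
      have q1 := mem_of_segL hs q hq
      have q2 := mem_of_segL hs' q hq'
      obtain ⟨q3, q4⟩ := hPL.sep e hA f hB hef q q1 q2
      have hzq : z ≠ q := by
        intro h
        apply hno e he t ht
        rw [hzt, h]
        exact q3
      obtain ⟨x, hx, rfl⟩ := other (hPL.nd e hA) hs hq
      obtain ⟨y, hy, rfl⟩ := other (hPL.nd f hB) hs' hq'
      have hxW : x ∈ W e := mem_of_segL hs x (Sym2.mem_mk_right _ _)
      have hyW : y ∈ W f := mem_of_segL hs' y (Sym2.mem_mk_right _ _)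
      have hxy : x = y := by
        have h5' := h5
        have h6' := h6
        rw [sgmk] at h5' h6'
        rcases share h5' h6' hzq with h7 | h7
        · rw [← sgmk] at h7
          have := hPO f hB e hA _ hs' x hxW h7
          rw [Sym2.mem_iff] at this
          exact this.resolve_left hx
        · rw [← sgmk] at h7
          have := hPO e hA f hB _ hs y hyW h7
          rw [Sym2.mem_iff] at this
          exact (this.resolve_left hy).symm
      rw [← hxy] at hyW
      obtain ⟨x3, x4⟩ := hPL.sep e hA f hB hef x hxW hyW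
      obtain ⟨u1, hu1, e1, _⟩ := hEn e he q q3
      obtain ⟨u2, hu2, e2, _⟩ := hEn f hf q q4
      obtain ⟨v1, hv1, e3, _⟩ := hEn e he x x3
      obtain ⟨v2, hv2, e4, _⟩ := hEn f hf x x4
      have huu : u1 = u2 := hinj e he f hf u1 hu1 u2 hu2 (by rw [← e1, ← e2])
      have hvv : v1 = v2 := hinj e he f hf v1 hv1 v2 hv2 (by rw [← e3, ← e4])
      have huv : u1 ≠ v1 := by
        intro h
        apply hx
        rw [e1, e3, h]
      rw [← huu] at hu2
      rw [← hvv] at hv2
      apply hef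
      rw [(Sym2.mem_and_mem_iff huv).1 ⟨hu1, hv1⟩, (Sym2.mem_and_mem_iff huv).1 ⟨hu2, hv2⟩]
    choose P hP using hex
    set T : Finset ((_ : Sym2 ℂ) × Sym2 ℂ) := (segL (W e)).toFinset.sigma
      fun s => ((segL (W f)).filter fun s' => decide (Xs s s')).toFinset with hT
    have hmaps : ∀ z ∈ Z, P z ∈ (T : Set ((_ : Sym2 ℂ) × Sym2 ℂ)) := by
      intro z hz
      obtain ⟨p1, p2, _, _, p5⟩ := hP z hz
      rw [Finset.mem_coe, hT, Finset.mem_sigma, List.mem_toFinset, List.mem_toFinset,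
        List.mem_filter]
      exact ⟨p1, p2, by simpa using p5⟩
    have hinjP : InjOn P Z := by
      intro z hz z' hz' h
      obtain ⟨p1, p2, p3, p4, p5⟩ := hP z hz
      obtain ⟨p1', p2', p3', p4', _⟩ := hP z' hz'
      rw [← h] at p3' p4'
      by_contra hne
      obtain ⟨a, b, hab, hs⟩ := segL_ne (hPL.nd e hA) p1
      obtain ⟨c, d, hcd, hs'⟩ := segL_ne (hPL.nd f hB) p2
      have hno1 : ∀ q ∈ (P z).2, q ∉ sg (P z).1 := by
        intro q hq hq'
        have := hPO e hA f hB _ p1 q (mem_of_segL p2 q hq) hq'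
        exact p5.1 q this hq
      have hno2 : ∀ q ∈ (P z).1, q ∉ sg (P z).2 := by
        intro q hq hq'
        have := hPO f hB e hA _ p2 q (mem_of_segL p1 q hq) hq'
        exact p5.1 q hq this
      rw [hs, hs'] at hno1 hno2
      rw [hs, sgmk] at p3 p3'
      rw [hs', sgmk] at p4 p4'
      rw [sgmk] at hno1 hno2
      exact hno2 a (Sym2.mem_mk_left _ _) (two p3 p4 p3' p4' hne
        (hno1 c (Sym2.mem_mk_left _ _)) (hno1 d (Sym2.mem_mk_right _ _)))
    refine ⟨Set.Finite.of_injOn hmaps hinjP (Finset.finite_toSet T), ?_⟩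
    calc Z.ncard ≤ (T : Set ((_ : Sym2 ℂ) × Sym2 ℂ)).ncard :=
          Set.ncard_le_ncard_of_injOn P hmaps hinjP (Finset.finite_toSet T)
      _ = T.card := Set.ncard_coe_finset T
      _ = ∑ s ∈ (segL (W e)).toFinset,
          ((segL (W f)).filter fun s' => decide (Xs s s')).toFinset.card := Finset.card_sigma _ _
      _ ≤ ∑ s ∈ (segL (W e)).toFinset, NS s (W f) := by
          refine Finset.sum_le_sum fun s _ => ?_
          refine (List.toFinset_card_le _).trans ?_
          rw [NS, List.countP_eq_length_filter]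
      _ = Nx (W e) (W f) := by
          rw [Nx, List.sum_toFinset _ (segL_nodup (hPL.nd e hA))]
  refine ⟨D, (h1 V G D).1.2 fun e he f hf hef => (key e he f hf hef).1, ?_⟩
  intro e he f hf hef
  rw [DX, if_pos ⟨he, hf, hef⟩]
  exact (key e he f hf hef).2

end Pool.Agent.NH90.CN
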