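import Pool.Agent.NH90.CN.Stm

/-!
# Polygonal approximation of a drawing: the topological part
-/

set_option autoImplicit false

open Set Classical
open Pool.Agent.Helper770.Crossing Pool.Agent.Helper770.Sep

namespace Pool.Agent.NH90.CN

namespace TopX

open Filter Topology

lemma pos_lower {X : Type} [TopologicalSpace X] {S : Set X} (hS : IsCompact S) {h : X → ℝ}
    (hc : ContinuousOn h S) (hp : ∀ x ∈ S, 0 < h x) : ∃ m : ℝ, 0 < m ∧ ∀ x ∈ S, m ≤ h x := by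
  rcases S.eq_empty_or_nonempty with rfl | hne
  · exact ⟨1, one_pos, fun x hx => absurd hx (Set.notMem_empty x)⟩
  · obtain ⟨x, hx, hmin⟩ := hS.exists_isMinOn hne hc
    exact ⟨h x, hp x hx, fun y hy => hmin hy⟩

lemma ev_lt {m : ℝ} (hm : 0 < m) : ∀ᶠ ρ in 𝓝[>] (0 : ℝ), ρ < m := by
  filter_upwards [Ioo_mem_nhdsGT hm] with ρ hρ using hρ.2

/-- the parameters of the points of the arc near `z` -/
def A (g : ℝ → ℂ) (z : ℂ) (ρ : ℝ) : Set ℝ := {t | t ∈ Icc (0 : ℝ) 1 ∧ ‖g t - z‖ ≤ ρ}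

noncomputable def al (ρ : ℝ) (g : ℝ → ℂ) (z : ℂ) : ℝ := sInf (A g z ρ)

noncomputable def be (ρ : ℝ) (g : ℝ → ℂ) (z : ℂ) : ℝ := sSup (A g z ρ)

lemma A_compact {g : ℝ → ℂ} (hc : ContinuousOn g (Icc 0 1)) (z : ℂ) (ρ : ℝ) :
    IsCompact (A g z ρ) := by
  have h1 : ContinuousOn (fun t => ‖g t - z‖) (Icc (0 : ℝ) 1) := (hc.sub continuousOn_const).norm
  have h2 : IsClosed (Icc (0 : ℝ) 1 ∩ (fun t => ‖g t - z‖) ⁻¹' (Iic ρ)) :=
    h1.preimage_isClosed_of_isClosed isClosed_Icc isClosed_Iic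
  exact isCompact_Icc.of_isClosed_subset h2 fun t ht => ht.1

/-- `z` is a point of the finite set on the arc -/
def On (g : ℝ → ℂ) (Z : Finset ℂ) (z : ℂ) : Prop := z ∈ Z ∧ z ∈ g '' Icc (0 : ℝ) 1

structure G1 (g : ℝ → ℂ) (Z : Finset ℂ) (ρ : ℝ) : Prop where
  off : ∀ z ∈ Z, z ∉ g '' Icc (0 : ℝ) 1 → ∀ t ∈ Icc (0 : ℝ) 1, ρ < ‖g t - z‖
  al0 : ∀ z, On g Z z → 0 ≤ al ρ g z
  lt : ∀ z, On g Z z → al ρ g z < be ρ g z
  be1 : ∀ z, On g Z z → be ρ g z ≤ 1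
  nal : ∀ z, On g Z z → ‖g (al ρ g z) - z‖ ≤ ρ
  nbe : ∀ z, On g Z z → ‖g (be ρ g z) - z‖ ≤ ρ
  btw : ∀ z, On g Z z → ∀ t ∈ Icc (0 : ℝ) 1, ‖g t - z‖ ≤ ρ → al ρ g z ≤ t ∧ t ≤ be ρ g z
  s0 : ∀ z, On g Z z → g 0 = z → al ρ g z = 0
  s1 : ∀ z, On g Z z → g 1 = z → be ρ g z = 1
  ra : ∀ z, On g Z z → g 0 ≠ z → ‖g (al ρ g z) - z‖ = ρ
  rb : ∀ z, On g Z z → g 1 ≠ z → ‖g (be ρ g z) - z‖ = ρ
  dj : ∀ z, On g Z z → ∀ z', On g Z z' → z ≠ z' → be ρ g z < al ρ g z' ∨ be ρ g z' < al ρ g z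

lemma ev_off {g : ℝ → ℂ} (hc : ContinuousOn g (Icc 0 1)) {z : ℂ} (hz : z ∉ g '' Icc (0 : ℝ) 1) :
    ∀ᶠ ρ in 𝓝[>] (0 : ℝ), ∀ t ∈ Icc (0 : ℝ) 1, ρ < ‖g t - z‖ := by
  obtain ⟨m, hm, h⟩ := pos_lower isCompact_Icc ((hc.sub continuousOn_const).norm : ContinuousOn
    (fun t => ‖g t - z‖) (Icc (0 : ℝ) 1)) (fun t ht => norm_pos_iff.2 (sub_ne_zero.2 fun h => hz
      ⟨t, ht, h⟩))
  filter_upwards [ev_lt hm] with ρ hρ t ht
  exact lt_of_lt_of_le hρ (h t ht)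

lemma ev_on {g : ℝ → ℂ} (hc : ContinuousOn g (Icc 0 1)) (hi : InjOn g (Icc 0 1)) {τ η : ℝ}
    (hτ : τ ∈ Icc (0 : ℝ) 1) (hη : 0 < η) :
    ∀ᶠ ρ in 𝓝[>] (0 : ℝ), ∀ t ∈ Icc (0 : ℝ) 1, ‖g t - g τ‖ ≤ ρ → |t - τ| < η := by
  have hS : IsCompact (Icc (0 : ℝ) 1 ∩ {t | η ≤ |t - τ|}) :=
    isCompact_Icc.inter_right (isClosed_le continuous_const (by fun_prop))
  obtain ⟨m, hm, h⟩ := pos_lower hS (h := fun t => ‖g t - g τ‖)
    (((hc.mono inter_subset_left).sub continuousOn_const).norm) (fun t ht => by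
      refine norm_pos_iff.2 (sub_ne_zero.2 fun h => ?_)
      have h1 := hi ht.1 hτ h
      have h2 : η ≤ |t - τ| := ht.2
      rw [h1, sub_self, abs_zero] at h2
      exact absurd h2 (not_le.2 hη))
  filter_upwards [ev_lt hm] with ρ hρ t ht hle
  by_contra hcon
  push Not at hcon
  exact absurd (h t ⟨ht, hcon⟩) (not_le.2 (lt_of_le_of_lt hle hρ))

theorem ev_G1 {g : ℝ → ℂ} {Z : Finset ℂ} (hc : ContinuousOn g (Icc 0 1))
    (hi : InjOn g (Icc 0 1)) (h0 : g 0 ∈ Z) (h1 : g 1 ∈ Z) :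
    ∀ᶠ ρ in 𝓝[>] (0 : ℝ), (∀ z ∈ Z, ∀ z' ∈ Z, z ≠ z' → 2 * ρ < ‖z - z'‖) → G1 g Z ρ := by
  have e1 : ∀ᶠ ρ in 𝓝[>] (0 : ℝ), ∀ z ∈ Z, z ∉ g '' Icc (0 : ℝ) 1 →
      ∀ t ∈ Icc (0 : ℝ) 1, ρ < ‖g t - z‖ := by
    rw [Filter.eventually_all_finset]
    intro z _
    by_cases h : z ∉ g '' Icc (0 : ℝ) 1
    · filter_upwards [ev_off hc h] with ρ hρ _ using hρ
    · exact Filter.Eventually.of_forall fun ρ h' => absurd h' h
  have e2 : ∀ᶠ ρ in 𝓝[>] (0 : ℝ), ∀ z ∈ Z, ∀ z' ∈ Z, ∀ τ ∈ Icc (0 : ℝ) 1, ∀ τ' ∈ Icc (0 : ℝ) 1,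
      g τ = z → g τ' = z' → z ≠ z' → (∀ t ∈ Icc (0 : ℝ) 1, ‖g t - z‖ ≤ ρ → |t - τ| < |τ - τ'| / 2) := by
    rw [Filter.eventually_all_finset]
    intro z _
    rw [Filter.eventually_all_finset]
    intro z' _
    by_cases h : ∃ τ ∈ Icc (0 : ℝ) 1, ∃ τ' ∈ Icc (0 : ℝ) 1, g τ = z ∧ g τ' = z' ∧ z ≠ z'
    · obtain ⟨τ, hτ, τ', hτ', h2, h3, h4⟩ := h
      have h5 : 0 < |τ - τ'| / 2 := by
        have : τ ≠ τ' := by
          rintro rfl
          exact h4 (h2.symm.trans h3)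
        have := abs_pos.2 (sub_ne_zero.2 this)
        linarith
      filter_upwards [ev_on hc hi hτ h5] with ρ hρ τ₁ hτ₁ τ₁' hτ₁' k2 k3 _
      have k4 : τ₁ = τ := hi hτ₁ hτ (k2.trans h2.symm)
      have k5 : τ₁' = τ' := hi hτ₁' hτ' (k3.trans h3.symm)
      rw [k4, k5, ← h2]
      exact hρ
    · refine Filter.Eventually.of_forall fun ρ τ hτ τ' hτ' k2 k3 k4 => ?_
      exact absurd ⟨τ, hτ, τ', hτ', k2, k3, k4⟩ h
  filter_upwards [e1, e2, self_mem_nhdsWithin] with ρ f1 f2 (hρ : 0 < ρ) hZ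
  have hne : ∀ z, On g Z z → (A g z ρ).Nonempty := by
    rintro z ⟨_, t, ht, rfl⟩
    exact ⟨t, ht, by rw [sub_self, norm_zero]; exact hρ.le⟩
  have hal : ∀ z, On g Z z → al ρ g z ∈ A g z ρ := fun z hz =>
    (A_compact hc z ρ).sInf_mem (hne z hz)
  have hbe : ∀ z, On g Z z → be ρ g z ∈ A g z ρ := fun z hz =>
    (A_compact hc z ρ).sSup_mem (hne z hz)
  have hbtw : ∀ z, On g Z z → ∀ t ∈ Icc (0 : ℝ) 1, ‖g t - z‖ ≤ ρ →
      al ρ g z ≤ t ∧ t ≤ be ρ g z := fun z hz t ht hle =>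
    ⟨csInf_le (A_compact hc z ρ).bddBelow ⟨ht, hle⟩, le_csSup (A_compact hc z ρ).bddAbove ⟨ht, hle⟩⟩
  have hs0 : ∀ z, On g Z z → g 0 = z → al ρ g z = 0 := by
    intro z hz h
    refine le_antisymm ?_ (hal z hz).1.1
    exact (hbtw z hz 0 ⟨le_refl _, zero_le_one⟩ (by rw [h, sub_self, norm_zero]; exact hρ.le)).1
  have hs1 : ∀ z, On g Z z → g 1 = z → be ρ g z = 1 := by
    intro z hz h
    refine le_antisymm (hbe z hz).1.2 ?_
    exact (hbtw z hz 1 ⟨zero_le_one, le_refl _⟩ (by rw [h, sub_self, norm_zero]; exact hρ.le)).2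
  have hcn : ∀ z, ContinuousOn (fun t => ‖g t - z‖) (Icc (0 : ℝ) 1) := fun z =>
    (hc.sub continuousOn_const).norm
  have hra : ∀ z, On g Z z → g 0 ≠ z → ‖g (al ρ g z) - z‖ = ρ := by
    intro z hz h
    have h2 : ρ ≤ ‖g 0 - z‖ := by
      have := hZ _ h0 _ hz.1 h
      linarith
    have h3 := hal z hz
    have h4 := intermediate_value_Icc' h3.1.1 ((hcn z).mono (Icc_subset_Icc_right h3.1.2))
    obtain ⟨t, ht, h5⟩ := h4 ⟨h3.2, h2⟩
    have h6 := (hbtw z hz t ⟨ht.1, ht.2.trans h3.1.2⟩ (le_of_eq h5)).1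
    have h7 : t = al ρ g z := le_antisymm ht.2 h6
    rw [← h7]
    exact h5
  have hrb : ∀ z, On g Z z → g 1 ≠ z → ‖g (be ρ g z) - z‖ = ρ := by
    intro z hz h
    have h2 : ρ ≤ ‖g 1 - z‖ := by
      have := hZ _ h1 _ hz.1 h
      linarith
    have h3 := hbe z hz
    have h4 := intermediate_value_Icc h3.1.2 ((hcn z).mono (Icc_subset_Icc_left h3.1.1))
    obtain ⟨t, ht, h5⟩ := h4 ⟨h3.2, h2⟩
    have h6 := (hbtw z hz t ⟨h3.1.1.trans ht.1, ht.2⟩ (le_of_eq h5)).2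
    have h7 : t = be ρ g z := le_antisymm h6 ht.1
    rw [← h7]
    exact h5
  refine ⟨f1, fun z hz => (hal z hz).1.1, ?_, fun z hz => (hbe z hz).1.2, fun z hz => (hal z hz).2,
    fun z hz => (hbe z hz).2, hbtw, hs0, hs1, hra, hrb, ?_⟩
  · intro z hz
    obtain ⟨_, τ, hτ, hgτ⟩ := hz
    have hz : On g Z z := ⟨by assumption, τ, hτ, hgτ⟩
    have h2 := hbtw z hz τ hτ (by rw [hgτ, sub_self, norm_zero]; exact hρ.le)
    by_cases h : g 0 = z
    · have h3 : g 1 ≠ z := by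
        rw [← h]
        intro h4
        have := hi ⟨zero_le_one, le_refl _⟩ ⟨le_refl _, zero_le_one⟩ h4
        exact one_ne_zero this
      have h4 := hrb z hz h3
      refine lt_of_le_of_ne (h2.1.trans h2.2) fun h5 => ?_
      rw [← h5, hs0 z hz h, h, sub_self, norm_zero] at h4
      exact hρ.ne h4
    · have h4 := hra z hz h
      refine lt_of_le_of_ne (h2.1.trans h2.2) fun h5 => ?_
      have h6 : al ρ g z = τ := le_antisymm h2.1 (h5 ▸ h2.2)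
      rw [h6, hgτ, sub_self, norm_zero] at h4
      exact hρ.ne h4
  · rintro z hz z' hz' hzz
    obtain ⟨hzZ, τ, hτ, hgτ⟩ := id hz
    obtain ⟨hzZ', τ', hτ', hgτ'⟩ := id hz'
    have k1 := f2 z hzZ z' hzZ' τ hτ τ' hτ' hgτ hgτ' hzz
    have k2 := f2 z' hzZ' z hzZ τ' hτ' τ hτ hgτ' hgτ hzz.symm
    have a1 := k1 _ (hal z hz).1 (hal z hz).2
    have a2 := k1 _ (hbe z hz).1 (hbe z hz).2
    have a3 := k2 _ (hal z' hz').1 (hal z' hz').2
    have a4 := k2 _ (hbe z' hz').1 (hbe z' hz').2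
    rw [abs_sub_comm τ' τ] at a3 a4
    rw [abs_lt] at a1 a2 a3 a4
    rcases le_total τ τ' with h | h
    · left
      rw [abs_of_nonpos (sub_nonpos.2 h)] at a1 a2 a3 a4
      linarith [a2.2, a3.1]
    · right
      rw [abs_of_nonneg (sub_nonneg.2 h)] at a1 a2 a3 a4
      linarith [a4.2, a1.1]

/-- the exceptional parameters near `z` -/
def Ex (ρ : ℝ) (g : ℝ → ℂ) (z : ℂ) (t : ℝ) : Prop :=
  (al ρ g z < t ∨ g 0 = z) ∧ (t < be ρ g z ∨ g 1 = z)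

/-- the parameters which are not exceptional -/
def T (ρ : ℝ) (g : ℝ → ℂ) (Z : Finset ℂ) : Set ℝ :=
  {t | t ∈ Icc (0 : ℝ) 1 ∧ ∀ z, On g Z z → ¬ Ex ρ g z t}

section arc

variable {g : ℝ → ℂ} {Z : Finset ℂ} {ρ : ℝ}

lemma T_far (hG : G1 g Z ρ) {t : ℝ} (ht : t ∈ T ρ g Z) {z : ℂ} (hz : z ∈ Z) : ρ ≤ ‖g t - z‖ := by
  by_cases hon : z ∈ g '' Icc (0 : ℝ) 1
  · have hO : On g Z z := ⟨hz, hon⟩
    by_contra hcon
    push Not at hcon
    have h1 := hG.btw z hO t ht.1 hcon.le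
    refine ht.2 z hO ⟨?_, ?_⟩
    · by_cases h : g 0 = z
      · exact Or.inr h
      · refine Or.inl (lt_of_le_of_ne h1.1 fun h2 => ?_)
        have h3 := hG.ra z hO h
        rw [h2] at h3
        exact absurd h3 hcon.ne
    · by_cases h : g 1 = z
      · exact Or.inr h
      · refine Or.inl (lt_of_le_of_ne h1.2 fun h2 => ?_)
        have h3 := hG.rb z hO h
        rw [← h2] at h3
        exact absurd h3 hcon.ne
  · exact (hG.off z hz hon t ht.1).le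

lemma T_compact : IsCompact (T ρ g Z) := by
  have h1 : IsClosed (T ρ g Z) := by
    have e : T ρ g Z = Icc (0 : ℝ) 1 ∩ ⋂ z, ⋂ (_ : On g Z z), {t | Ex ρ g z t}ᶜ := by
      ext t
      simp only [T, Set.mem_ofPred_eq, mem_inter_iff, mem_iInter, mem_compl_iff]
    rw [e]
    refine isClosed_Icc.inter (isClosed_iInter fun z => isClosed_iInter fun _ => ?_)
    refine IsOpen.isClosed_compl ?_
    have e2 : {t | Ex ρ g z t} = {t | al ρ g z < t ∨ g 0 = z} ∩ {t | t < be ρ g z ∨ g 1 = z} := rfl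
    rw [e2]
    refine IsOpen.inter ?_ ?_
    · by_cases h : g 0 = z
      · simp only [h, or_true]
        exact isOpen_univ
      · simp only [h, or_false]
        exact isOpen_lt continuous_const continuous_id
    · by_cases h : g 1 = z
      · simp only [h, or_true]
        exact isOpen_univ
      · simp only [h, or_false]
        exact isOpen_lt continuous_id continuous_const
  exact isCompact_Icc.of_isClosed_subset h1 fun t ht => ht.1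

lemma Ex_btw (hG : G1 g Z ρ) {z : ℂ} (hO : On g Z z) {t : ℝ} (ht : t ∈ Icc (0 : ℝ) 1)
    (hE : Ex ρ g z t) : al ρ g z ≤ t ∧ t ≤ be ρ g z := by
  constructor
  · rcases hE.1 with h | h
    · exact h.le
    · rw [hG.s0 z hO h]
      exact ht.1
  · rcases hE.2 with h | h
    · exact h.le
    · rw [hG.s1 z hO h]
      exact ht.2

lemma al_Icc (hG : G1 g Z ρ) {z : ℂ} (hO : On g Z z) : al ρ g z ∈ Icc (0 : ℝ) 1 :=
  ⟨hG.al0 z hO, (hG.lt z hO).le.trans (hG.be1 z hO)⟩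

lemma be_Icc (hG : G1 g Z ρ) {z : ℂ} (hO : On g Z z) : be ρ g z ∈ Icc (0 : ℝ) 1 :=
  ⟨(hG.al0 z hO).trans (hG.lt z hO).le, hG.be1 z hO⟩

lemma al_T (hG : G1 g Z ρ) {z : ℂ} (hO : On g Z z) (h0 : al ρ g z ≠ 0) : al ρ g z ∈ T ρ g Z := by
  refine ⟨al_Icc hG hO, fun z' hO' hE => ?_⟩
  by_cases hzz : z = z'
  · subst hzz
    rcases hE.1 with h | h
    · exact lt_irrefl _ h
    · exact h0 (hG.s0 z hO h)
  · have h1 := Ex_btw hG hO' (al_Icc hG hO) hE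
    have h2 := hG.lt z hO
    rcases hG.dj z hO z' hO' hzz with h | h
    · linarith
    · linarith

lemma be_T (hG : G1 g Z ρ) {z : ℂ} (hO : On g Z z) (h0 : be ρ g z ≠ 1) : be ρ g z ∈ T ρ g Z := by
  refine ⟨be_Icc hG hO, fun z' hO' hE => ?_⟩
  by_cases hzz : z = z'
  · subst hzz
    rcases hE.2 with h | h
    · exact lt_irrefl _ h
    · exact h0 (hG.s1 z hO h)
  · have h1 := Ex_btw hG hO' (be_Icc hG hO) hE
    have h2 := hG.lt z hO
    rcases hG.dj z hO z' hO' hzz with h | h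
    · linarith
    · linarith

lemma chord (hG : G1 g Z ρ) (hρ : 0 < ρ) {z : ℂ} (hO : On g Z z) {x : ℂ}
    (hx : x ∈ segment ℝ (g (al ρ g z)) (g (be ρ g z))) :
    ‖x - z‖ < ρ ∨ x = g (al ρ g z) ∨ x = g (be ρ g z) := by
  by_cases hne : g (al ρ g z) = g (be ρ g z)
  · rw [hne, segment_same, mem_singleton_iff] at hx
    exact Or.inr (Or.inr hx)
  · rw [← insert_endpoints_openSegment] at hx
    rcases hx with hx | hx | hx
    · exact Or.inr (Or.inl hx)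
    · exact Or.inr (Or.inr hx)
    · left
      have h1 := (strictConvex_closedBall ℝ z ρ).openSegment_subset
        (mem_closedBall_iff_norm.2 (hG.nal z hO)) (mem_closedBall_iff_norm.2 (hG.nbe z hO)) hne hx
      rw [interior_closedBall z hρ.ne', mem_ball_iff_norm] at h1
      exact h1

lemma chord_le (hG : G1 g Z ρ) {z : ℂ} (hO : On g Z z) {x : ℂ}
    (hx : x ∈ segment ℝ (g (al ρ g z)) (g (be ρ g z))) : ‖x - z‖ ≤ ρ := by
  have h1 := (convex_closedBall z ρ).segment_subset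
    (mem_closedBall_iff_norm.2 (hG.nal z hO)) (mem_closedBall_iff_norm.2 (hG.nbe z hO)) hx
  exact mem_closedBall_iff_norm.1 h1

/-- the vertices of the polygonal approximation -/
noncomputable def FF (ρ : ℝ) (g : ℝ → ℂ) (Z : Finset ℂ) (N : ℕ) : Finset ℝ :=
  ((Finset.range (N + 1)).image (fun i : ℕ => (i : ℝ) / N)).filter (fun t => t ∈ T ρ g Z) ∪
    ((Z.filter (fun z => On g Z z)).image (al ρ g) ∪ ((Z.filter (fun z => On g Z z)).image (be ρ g) ∪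
      {0, 1}))

lemma mem_FF {N : ℕ} {t : ℝ} : t ∈ FF ρ g Z N ↔ ((∃ i : ℕ, i < N + 1 ∧ (i : ℝ) / N = t) ∧ t ∈ T ρ g Z) ∨
    (∃ z, On g Z z ∧ al ρ g z = t) ∨ (∃ z, On g Z z ∧ be ρ g z = t) ∨ t = 0 ∨ t = 1 := by
  unfold FF
  simp only [Finset.mem_union, Finset.mem_filter, Finset.mem_image, Finset.mem_range,
    Finset.mem_insert, Finset.mem_singleton]
  constructor
  · rintro (h | ⟨z, ⟨_, h1⟩, h2⟩ | ⟨z, ⟨_, h1⟩, h2⟩ | h)
    · exact Or.inl h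
    · exact Or.inr (Or.inl ⟨z, h1, h2⟩)
    · exact Or.inr (Or.inr (Or.inl ⟨z, h1, h2⟩))
    · exact Or.inr (Or.inr (Or.inr h))
  · rintro (h | ⟨z, h1, h2⟩ | ⟨z, h1, h2⟩ | h)
    · exact Or.inl h
    · exact Or.inr (Or.inl ⟨z, ⟨h1.1, h1⟩, h2⟩)
    · exact Or.inr (Or.inr (Or.inl ⟨z, ⟨h1.1, h1⟩, h2⟩))
    · exact Or.inr (Or.inr (Or.inr h))

lemma FF_T (hG : G1 g Z ρ) {N : ℕ} {t : ℝ} (ht : t ∈ FF ρ g Z N) :
    t = 0 ∨ t = 1 ∨ t ∈ T ρ g Z := by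
  rcases mem_FF.1 ht with h | ⟨z, h1, h2⟩ | ⟨z, h1, h2⟩ | h
  · exact Or.inr (Or.inr h.2)
  · by_cases h : t = 0
    · exact Or.inl h
    · right; right
      rw [← h2] at h ⊢
      exact al_T hG h1 h
  · by_cases h : t = 1
    · exact Or.inr (Or.inl h)
    · right; right
      rw [← h2] at h ⊢
      exact be_T hG h1 h
  · rcases h with h | h
    · exact Or.inl h
    · exact Or.inr (Or.inl h)

lemma FF_Icc (hG : G1 g Z ρ) {N : ℕ} {t : ℝ} (ht : t ∈ FF ρ g Z N) : t ∈ Icc (0 : ℝ) 1 := by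
  rcases FF_T hG ht with h | h | h
  · rw [h]; exact ⟨le_refl _, zero_le_one⟩
  · rw [h]; exact ⟨zero_le_one, le_refl _⟩
  · exact h.1

lemma cons_FF (hG : G1 g Z ρ) (h0 : g 0 ∈ Z) (h1 : g 1 ∈ Z) {N : ℕ} (hN : 0 < N) {t t' : ℝ}
    (h : Cons (FF ρ g Z N) t t') :
    (∃ z, On g Z z ∧ t = al ρ g z ∧ t' = be ρ g z) ∨
      (t ∈ T ρ g Z ∧ t' ∈ T ρ g Z ∧ t' - t ≤ 1 / N) := by
  obtain ⟨ht, ht', hlt, hno⟩ := h
  have hI := FF_Icc hG ht
  have hI' := FF_Icc hG ht'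
  have hO0 : On g Z (g 0) := ⟨h0, 0, ⟨le_refl _, zero_le_one⟩, rfl⟩
  have hO1 : On g Z (g 1) := ⟨h1, 1, ⟨zero_le_one, le_refl _⟩, rfl⟩
  have hal : ∀ z, On g Z z → al ρ g z ∈ FF ρ g Z N := fun z hz =>
    mem_FF.2 (Or.inr (Or.inl ⟨z, hz, rfl⟩))
  have hbe : ∀ z, On g Z z → be ρ g z ∈ FF ρ g Z N := fun z hz =>
    mem_FF.2 (Or.inr (Or.inr (Or.inl ⟨z, hz, rfl⟩)))
  by_cases hmeet : ∃ z, On g Z z ∧ t < be ρ g z ∧ al ρ g z < t'
  · left
    obtain ⟨z, hO, h2, h3⟩ := hmeet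
    have h4 : al ρ g z ≤ t := by
      by_contra hc
      exact hno _ (hal z hO) ⟨not_le.1 hc, h3⟩
    have h5 : t' ≤ be ρ g z := by
      by_contra hc
      exact hno _ (hbe z hO) ⟨h2, not_le.1 hc⟩
    have h6 := hG.al0 z hO
    have h7 := hG.be1 z hO
    refine ⟨z, hO, ?_, ?_⟩
    · by_contra hc
      have h8 : al ρ g z < t := lt_of_le_of_ne h4 (Ne.symm hc)
      rcases FF_T hG ht with h | h | h
      · linarith
      · linarith
      · exact h.2 z hO ⟨Or.inl h8, Or.inl h2⟩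
    · by_contra hc
      have h8 : t' < be ρ g z := lt_of_le_of_ne h5 hc
      rcases FF_T hG ht' with h | h | h
      · linarith [hI.1]
      · linarith
      · exact h.2 z hO ⟨Or.inl h3, Or.inl h8⟩
  · right
    push Not at hmeet
    have k0 : t ∈ T ρ g Z := by
      rcases FF_T hG ht with h | h | h
      · exfalso
        have h2 := hG.s0 _ hO0 rfl
        have h3 := hG.lt _ hO0
        rw [h2] at h3
        have h4 := hmeet _ hO0 (by rw [h]; exact h3)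
        linarith
      · exfalso
        linarith [hI'.2]
      · exact h
    have k1 : t' ∈ T ρ g Z := by
      rcases FF_T hG ht' with h | h | h
      · exfalso
        linarith [hI.1]
      · exfalso
        have h2 := hG.s1 _ hO1 rfl
        have h3 := hG.lt _ hO1
        have h4 := hmeet _ hO1 (by rw [h2, ← h]; exact hlt)
        linarith
      · exact h
    refine ⟨k0, k1, ?_⟩
    by_contra hc
    push Not at hc
    have hN' : (0 : ℝ) < N := by exact_mod_cast hN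
    obtain ⟨i, hi⟩ : ∃ i : ℕ, i = ⌊t * N⌋₊ + 1 := ⟨_, rfl⟩
    have h2 : t < (i : ℝ) / N := by
      rw [lt_div_iff₀ hN', hi]
      push_cast
      exact Nat.lt_floor_add_one _
    have h3 : (i : ℝ) / N < t' := by
      have h4 : (i : ℝ) / N ≤ t + 1 / N := by
        rw [div_le_iff₀ hN', add_mul, one_div, inv_mul_cancel₀ hN'.ne', hi]
        push_cast
        have := Nat.floor_le (mul_nonneg hI.1 hN'.le)
        linarith
      linarith
    refine hno ((i : ℝ) / N) (mem_FF.2 (Or.inl ⟨⟨i, ?_, rfl⟩, ⟨by linarith [hI.1], by linarith [hI'.2]⟩,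
      fun z hO hE => ?_⟩)) ⟨h2, h3⟩
    · have h4 : (i : ℝ) / N < 1 := lt_of_lt_of_le h3 hI'.2
      rw [div_lt_one hN'] at h4
      have : i < N := by exact_mod_cast h4
      omega
    · have h4 := Ex_btw hG hO ⟨by linarith [hI.1], by linarith [hI'.2]⟩ hE
      have h5 := hmeet z hO (by linarith [h4.2])
      linarith [h4.1]

end arc

lemma ev_sep {K C : Set ℂ} (hK : IsCompact K) (hC : IsCompact C) (h : ∀ x ∈ K, x ∉ C) :
    ∀ᶠ δ in 𝓝[>] (0 : ℝ), ∀ x ∈ K, ∀ y ∈ C, δ ≤ ‖x - y‖ := by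
  obtain ⟨m, hm, h1⟩ := pos_lower (hK.prod hC) (h := fun p : ℂ × ℂ => ‖p.1 - p.2‖)
    (by fun_prop) (fun p hp => norm_pos_iff.2 (sub_ne_zero.2 fun h2 => h p.1 hp.1 (h2 ▸ hp.2)))
  filter_upwards [ev_lt hm] with δ hδ x hx y hy
  exact hδ.le.trans (h1 (x, y) ⟨hx, hy⟩)

lemma segment_compact (x y : ℂ) : IsCompact (segment ℝ x y) := by
  rw [segment_eq_image]
  exact isCompact_Icc.image (by fun_prop)

lemma seg_near {x y z : ℂ} (hx : x ∈ segment ℝ y z) : ‖y - x‖ ≤ ‖y - z‖ := by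
  have h1 := (convex_closedBall y ‖y - z‖).segment_subset
    (Metric.mem_closedBall_self (norm_nonneg _)) (by rw [mem_closedBall_iff_norm, norm_sub_rev]) hx
  rw [mem_closedBall_iff_norm, norm_sub_rev] at h1
  exact h1

theorem core {I : Type} (E : Finset I) (γ : I → ℝ → ℂ) (Z : Finset ℂ)
    (hc : ∀ e ∈ E, ContinuousOn (γ e) (Icc 0 1)) (hi : ∀ e ∈ E, InjOn (γ e) (Icc 0 1))
    (h0 : ∀ e ∈ E, γ e 0 ∈ Z) (h1 : ∀ e ∈ E, γ e 1 ∈ Z)
    (hZ : ∀ e ∈ E, ∀ f ∈ E, e ≠ f → ∀ t ∈ Icc (0 : ℝ) 1, ∀ u ∈ Icc (0 : ℝ) 1,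
      γ e t = γ f u → γ e t ∈ Z) :
    ∃ (F : I → Finset ℝ) (α : I → ℂ → ℝ),
      (∀ e ∈ E, (∀ t ∈ F e, t ∈ Icc (0 : ℝ) 1) ∧ (0 : ℝ) ∈ F e ∧ (1 : ℝ) ∈ F e) ∧
      (∀ e ∈ E, ∀ f ∈ E, e ≠ f → ∀ t ∈ F e, ∀ u ∈ F f, γ e t = γ f u →
        (t = 0 ∨ t = 1) ∧ (u = 0 ∨ u = 1)) ∧
      (∀ e ∈ E, ∀ f ∈ E, e ≠ f → ∀ t t' u u', Cons (F e) t t' → Cons (F f) u u' →
        (segment ℝ (γ e t) (γ e t') ∩ segment ℝ (γ f u) (γ f u')).Nonempty →
        ∃ z ∈ γ e '' Icc (0 : ℝ) 1 ∩ γ f '' Icc (0 : ℝ) 1, t = α e z ∧ u = α f z ∧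
          (γ e 0 = z → t = 0) ∧ (γ e 1 = z → t' = 1) ∧ (γ f 0 = z → u = 0) ∧
          (γ f 1 = z → u' = 1)) := by
  -- the radius
  have e1 : ∀ᶠ ρ in 𝓝[>] (0 : ℝ), ∀ z ∈ Z, ∀ z' ∈ Z, z ≠ z' → 2 * ρ < ‖z - z'‖ := by
    rw [Filter.eventually_all_finset]
    intro z _
    rw [Filter.eventually_all_finset]
    intro z' _
    by_cases h : z = z'
    · exact Filter.Eventually.of_forall fun ρ h' => absurd h h'
    · have h2 : 0 < ‖z - z'‖ / 2 := by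
        have := norm_pos_iff.2 (sub_ne_zero.2 h)
        linarith
      filter_upwards [ev_lt h2] with ρ hρ _
      linarith
  have e2 : ∀ᶠ ρ in 𝓝[>] (0 : ℝ), ∀ e ∈ E,
      (∀ z ∈ Z, ∀ z' ∈ Z, z ≠ z' → 2 * ρ < ‖z - z'‖) → G1 (γ e) Z ρ := by
    rw [Filter.eventually_all_finset]
    intro e he
    exact ev_G1 (hc e he) (hi e he) (h0 e he) (h1 e he)
  obtain ⟨ρ, hρZ, hG', hρ⟩ := (e1.and (e2.and self_mem_nhdsWithin)).exists
  have hρ : 0 < ρ := hρ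
  have hG : ∀ e ∈ E, G1 (γ e) Z ρ := fun e he => hG' e he hρZ
  -- the regular parts
  have hKc : ∀ e ∈ E, IsCompact (γ e '' T ρ (γ e) Z) := fun e he =>
    T_compact.image_of_continuousOn ((hc e he).mono fun t ht => ht.1)
  have hK1 : ∀ e ∈ E, ∀ f ∈ E, e ≠ f → ∀ x ∈ γ e '' T ρ (γ e) Z, x ∉ γ f '' Icc (0 : ℝ) 1 := by
    rintro e he f hf hef _ ⟨t, ht, rfl⟩ ⟨u, hu, h2⟩
    have h3 := hZ e he f hf hef t ht.1 u hu h2.symm
    have h4 := T_far (hG e he) ht h3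
    rw [sub_self, norm_zero] at h4
    linarith
  have hK2 : ∀ e ∈ E, ∀ f ∈ E, e ≠ f → ∀ z, On (γ f) Z z → ∀ x ∈ γ e '' T ρ (γ e) Z,
      x ∉ segment ℝ (γ f (al ρ (γ f) z)) (γ f (be ρ (γ f) z)) := by
    rintro e he f hf hef z hO _ ⟨t, ht, rfl⟩ h2
    rcases chord (hG f hf) hρ hO h2 with h3 | h3 | h3
    · exact absurd (T_far (hG e he) ht hO.1) (not_le.2 h3)
    · exact hK1 e he f hf hef _ ⟨t, ht, rfl⟩ ⟨_, al_Icc (hG f hf) hO, h3.symm⟩
    · exact hK1 e he f hf hef _ ⟨t, ht, rfl⟩ ⟨_, be_Icc (hG f hf) hO, h3.symm⟩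
  -- the distance
  have e3 : ∀ᶠ δ in 𝓝[>] (0 : ℝ), ∀ e ∈ E, ∀ f ∈ E, e ≠ f →
      ∀ x ∈ γ e '' T ρ (γ e) Z, ∀ y ∈ γ f '' Icc (0 : ℝ) 1, δ ≤ ‖x - y‖ := by
    rw [Filter.eventually_all_finset]
    intro e he
    rw [Filter.eventually_all_finset]
    intro f hf
    by_cases hef : e = f
    · exact Filter.Eventually.of_forall fun δ h' => absurd hef h'
    · filter_upwards [ev_sep (hKc e he) (isCompact_Icc.image_of_continuousOn (hc f hf))
        (hK1 e he f hf hef)] with δ hδ _ using hδ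
  have e4 : ∀ᶠ δ in 𝓝[>] (0 : ℝ), ∀ e ∈ E, ∀ f ∈ E, ∀ z ∈ Z, On (γ f) Z z → e ≠ f →
      ∀ x ∈ γ e '' T ρ (γ e) Z, ∀ y ∈ segment ℝ (γ f (al ρ (γ f) z)) (γ f (be ρ (γ f) z)),
        δ ≤ ‖x - y‖ := by
    rw [Filter.eventually_all_finset]
    intro e he
    rw [Filter.eventually_all_finset]
    intro f hf
    rw [Filter.eventually_all_finset]
    intro z _
    by_cases hef : On (γ f) Z z ∧ e ≠ f
    · filter_upwards [ev_sep (hKc e he) (segment_compact _ _)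
        (hK2 e he f hf hef.2 z hef.1)] with δ hδ _ _ using hδ
    · exact Filter.Eventually.of_forall fun δ h2 h3 => absurd ⟨h2, h3⟩ hef
  obtain ⟨δ, hδ1, hδ2, hδ⟩ := (e3.and (e4.and self_mem_nhdsWithin)).exists
  have hδ : 0 < δ := hδ
  -- the mesh
  have e5 : ∀ᶠ N : ℕ in atTop, ∀ e ∈ E, ∀ t ∈ Icc (0 : ℝ) 1, ∀ t' ∈ Icc (0 : ℝ) 1,
      |t - t'| ≤ 1 / N → ‖γ e t - γ e t'‖ < δ / 4 := by
    rw [Filter.eventually_all_finset]
    intro e he
    have h2 := isCompact_Icc.uniformContinuousOn_of_continuous (hc e he)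
    rw [Metric.uniformContinuousOn_iff] at h2
    obtain ⟨ε, hε, h3⟩ := h2 (δ / 4) (by linarith)
    filter_upwards [tendsto_one_div_atTop_nhds_zero_nat.eventually (gt_mem_nhds hε)]
      with N hN t ht t' ht' hle
    have h4 := h3 t ht t' ht' (by rw [Real.dist_eq]; exact lt_of_le_of_lt hle hN)
    rwa [dist_eq_norm] at h4
  obtain ⟨N, hN, hN0⟩ := (e5.and (eventually_gt_atTop 0)).exists
  -- two chords far from the exceptional points
  have key : ∀ e ∈ E, ∀ f ∈ E, e ≠ f → ∀ t t' u u', t ∈ T ρ (γ e) Z → t' ∈ T ρ (γ e) Z →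
      t < t' → t' - t ≤ 1 / N → Cons (FF ρ (γ f) Z N) u u' →
      ¬ (segment ℝ (γ e t) (γ e t') ∩ segment ℝ (γ f u) (γ f u')).Nonempty := by
    rintro e he f hf hef t t' u u' ht ht' hlt hle hcf ⟨x, hx1, hx2⟩
    have h2 : ‖γ e t - x‖ < δ / 4 := by
      refine lt_of_le_of_lt (seg_near hx1) (hN e he t ht.1 t' ht'.1 ?_)
      rw [abs_sub_comm, abs_of_pos (sub_pos.2 hlt)]
      exact hle
    rcases cons_FF (hG f hf) (h0 f hf) (h1 f hf) hN0 hcf with ⟨z, hO, h3, h4⟩ | ⟨h3, h4, h5⟩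
    · rw [h3, h4] at hx2
      have h5 := hδ2 e he f hf z hO.1 hO hef _ ⟨t, ht, rfl⟩ x hx2
      linarith
    · have h6 : ‖γ f u - x‖ < δ / 4 := by
        refine lt_of_le_of_lt (seg_near hx2) (hN f hf u h3.1 u' h4.1 ?_)
        rw [abs_sub_comm, abs_of_pos (sub_pos.2 hcf.2.2.1)]
        exact h5
      have h7 := hδ1 e he f hf hef _ ⟨t, ht, rfl⟩ _ ⟨u, h3.1, rfl⟩
      have h8 : ‖γ e t - γ f u‖ ≤ ‖γ e t - x‖ + ‖γ f u - x‖ := by
        have e : γ e t - γ f u = (γ e t - x) - (γ f u - x) := by ring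
        rw [e]
        exact norm_sub_le _ _
      linarith
  refine ⟨fun e => FF ρ (γ e) Z N, fun e z => al ρ (γ e) z, ?_, ?_, ?_⟩
  · intro e he
    exact ⟨fun t ht => FF_Icc (hG e he) ht, mem_FF.2 (Or.inr (Or.inr (Or.inr (Or.inl rfl)))),
      mem_FF.2 (Or.inr (Or.inr (Or.inr (Or.inr rfl))))⟩
  · intro e he f hf hef t ht u hu h2
    have ht1 := FF_Icc (hG e he) ht
    have hu1 := FF_Icc (hG f hf) hu
    constructor
    · rcases FF_T (hG e he) ht with h | h | h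
      · exact Or.inl h
      · exact Or.inr h
      · exact absurd ⟨u, hu1, h2.symm⟩ (hK1 e he f hf hef _ ⟨t, h, rfl⟩)
    · rcases FF_T (hG f hf) hu with h | h | h
      · exact Or.inl h
      · exact Or.inr h
      · exact absurd ⟨t, ht1, h2⟩ (hK1 f hf e he hef.symm _ ⟨u, h, rfl⟩)
  · intro e he f hf hef t t' u u' hce hcf hne
    rcases cons_FF (hG e he) (h0 e he) (h1 e he) hN0 hce with ⟨z, hO, h2, h3⟩ | ⟨h2, h3, h4⟩
    · rcases cons_FF (hG f hf) (h0 f hf) (h1 f hf) hN0 hcf with ⟨z', hO', h2', h3'⟩ | ⟨h2', h3', h4'⟩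
      · obtain ⟨x, hx1, hx2⟩ := hne
        rw [h2, h3] at hx1
        rw [h2', h3'] at hx2
        have k1 := chord_le (hG e he) hO hx1
        have k2 := chord_le (hG f hf) hO' hx2
        have hzz : z = z' := by
          by_contra hzz
          have k3 := hρZ z hO.1 z' hO'.1 hzz
          have k4 : ‖z - z'‖ ≤ ‖x - z‖ + ‖x - z'‖ := by
            have e : z - z' = (x - z') - (x - z) := by ring
            rw [e, add_comm]
            exact norm_sub_le _ _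
          linarith
        subst hzz
        refine ⟨z, ⟨hO.2, hO'.2⟩, h2, h2', fun h => ?_, fun h => ?_, fun h => ?_, fun h => ?_⟩
        · rw [h2, (hG e he).s0 z hO h]
        · rw [h3, (hG e he).s1 z hO h]
        · rw [h2', (hG f hf).s0 z hO' h]
        · rw [h3', (hG f hf).s1 z hO' h]
      · rw [inter_comm] at hne
        exact absurd hne (key f hf e he hef.symm u u' t t' h2' h3' hcf.2.2.1 h4' hce)
    · exact absurd hne (key e he f hf hef t t' u u' h2 h3 hce.2.2.1 h4 hcf)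

lemma sg_mk (a b : ℂ) : sg s(a, b) = segment ℝ a b := by
  unfold sg
  rw [← convexHull_pair]
  congr 1
  ext z
  simp [Sym2.mem_iff]

end TopX

theorem t_TOP : S_TOP := by
  intro V _ G D hD
  obtain ⟨Z, hZ⟩ : ∃ Z : Finset ℂ, ∀ z, z ∈ Z ↔ z ∈ range D.pos ∪ Prod.snd '' D.crossings := by
    have hfin : (range D.pos ∪ Prod.snd '' D.crossings).Finite :=
      (finite_range _).union (hD.image _)
    exact ⟨hfin.toFinset, fun z => hfin.mem_toFinset⟩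
  have hE : ∀ e, e ∈ eF G ↔ e ∈ G.edgeSet := by
    intro e
    unfold eF
    rw [Finset.mem_filter]
    exact ⟨fun h => h.2, fun h => ⟨Finset.mem_univ _, h⟩⟩
  have hends : ∀ e ∈ G.edgeSet, D.arc e 0 ∈ range D.pos ∧ D.arc e 1 ∈ range D.pos := by
    intro e he
    induction e with
    | _ u v =>
      rcases D.arc_ends u v he with h | h
      · exact ⟨⟨u, h.1.symm⟩, ⟨v, h.2.symm⟩⟩
      · exact ⟨⟨v, h.1.symm⟩, ⟨u, h.2.symm⟩⟩
  have hpos : ∀ e ∈ G.edgeSet, ∀ t ∈ Icc (0 : ℝ) 1, D.arc e t ∈ range D.pos → t = 0 ∨ t = 1 := by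
    rintro e he t ht ⟨w, hw⟩
    by_contra hcon
    push Not at hcon
    exact D.arc_avoids e he t ⟨lt_of_le_of_ne ht.1 (Ne.symm hcon.1), lt_of_le_of_ne ht.2 hcon.2⟩ w
      hw.symm
  obtain ⟨F, α, hF1, hF2, hF3⟩ := TopX.core (eF G) D.arc Z
    (fun e he => D.arc_continuousOn e ((hE e).1 he)) (fun e he => D.arc_injOn e ((hE e).1 he))
    (fun e he => (hZ _).2 (Or.inl (hends e ((hE e).1 he)).1))
    (fun e he => (hZ _).2 (Or.inl (hends e ((hE e).1 he)).2))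
    (fun e he f hf hef t ht u hu h => by
      rw [hE] at he hf
      rw [hZ]
      by_cases h2 : D.arc e t ∈ range D.pos
      · exact Or.inl h2
      · have h3 : t ∈ Ioo (0 : ℝ) 1 := by
          refine ⟨lt_of_le_of_ne ht.1 ?_, lt_of_le_of_ne ht.2 ?_⟩
          · rintro rfl
            exact h2 (hends e he).1
          · rintro rfl
            exact h2 (hends e he).2
        have h4 : u ∈ Ioo (0 : ℝ) 1 := by
          rw [h] at h2
          refine ⟨lt_of_le_of_ne hu.1 ?_, lt_of_le_of_ne hu.2 ?_⟩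
          · rintro rfl
            exact h2 (hends f hf).1
          · rintro rfl
            exact h2 (hends f hf).2
        exact Or.inr ⟨(s(e, f), D.arc e t), ⟨e, he, f, hf, hef, rfl, ⟨t, h3, rfl⟩, ⟨u, h4, h.symm⟩⟩,
          rfl⟩)
  refine ⟨F, α, fun e he => hF1 e ((hE e).2 he), fun e he f hf hef => hF2 e ((hE e).2 he) f
    ((hE f).2 hf) hef, ?_⟩
  intro e he f hf hef t t' u u' hce hcf hX
  obtain ⟨hX1, hX2⟩ := hX
  rw [TopX.sg_mk, TopX.sg_mk] at hX2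
  obtain ⟨z, ⟨⟨τ, hτ, h1⟩, ⟨τ', hτ', h2⟩⟩, h3, h4, h5, h6, h7, h8⟩ :=
    hF3 e ((hE e).2 he) f ((hE f).2 hf) hef t t' u u' hce hcf hX2
  by_cases hz : z ∈ range D.pos
  · exfalso
    have k1 := hpos e he τ hτ (h1 ▸ hz)
    have k2 := hpos f hf τ' hτ' (h2 ▸ hz)
    have k3 : z ∈ s(D.arc e t, D.arc e t') := by
      rw [Sym2.mem_iff]
      rcases k1 with k | k
      · rw [k] at h1
        left
        rw [h5 h1, h1]
      · rw [k] at h1
        right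
        rw [h6 h1, h1]
    have k4 : z ∈ s(D.arc f u, D.arc f u') := by
      rw [Sym2.mem_iff]
      rcases k2 with k | k
      · rw [k] at h2
        left
        rw [h7 h2, h2]
      · rw [k] at h2
        right
        rw [h8 h2, h2]
    exact hX1 z k3 k4
  · refine ⟨z, ⟨⟨τ, ⟨lt_of_le_of_ne hτ.1 ?_, lt_of_le_of_ne hτ.2 ?_⟩, h1⟩,
      ⟨τ', ⟨lt_of_le_of_ne hτ'.1 ?_, lt_of_le_of_ne hτ'.2 ?_⟩, h2⟩⟩, h3, h4⟩
    · rintro rfl
      exact hz (h1 ▸ (hends e he).1)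
    · rintro rfl
      exact hz (h1 ▸ (hends e he).2)
    · rintro rfl
      exact hz (h2 ▸ (hends f hf).1)
    · rintro rfl
      exact hz (h2 ▸ (hends f hf).2)

end Pool.Agent.NH90.CN
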