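import Pool.Agent.NH90.CN.UNXb

/-!
# Uncrossing two polylines with a common end

The common end may be taken as the first point of both polylines (reverse them if necessary). At a
crossing point the tails of the two polylines are exchanged and the crossing is smoothed; the number of
crossings decreases.
-/

set_option autoImplicit false

open Set Classical
open Pool.Agent.Helper770.Crossing Pool.Agent.Helper770.Sep

namespace Pool.Agent.NH90.CN

theorem t_UNX (h : S_SM) : S_UNX := by
  intro I A W hPL hPO hNT hDS h0 i hi j hj hij hq hN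
  obtain ⟨q, hq1, hq2⟩ := hq
  set t : I → Prop := fun k => (k = i ∨ k = j) ∧ (W k).head? ≠ some q with ht
  have key : ∀ k, (k = i ∨ k = j) → En (W k) q → (UNX.rv t W k).head? = some q := by
    intro k hk hEn
    unfold UNX.rv
    split_ifs with h1
    · rw [List.head?_reverse]
      rcases hEn with h2 | h2
      · exact absurd h2 h1.2
      · exact h2
    · by_contra h2
      exact h1 ⟨hk, h2⟩
  obtain ⟨W', a1, a2, a3, a4⟩ := UNX.main h A (UNX.rv t W) (UNX.rv_PL t hPL) (UNX.rv_PO t hPO)
    (UNX.rv_NT t hNT) (UNX.rv_DS t hDS) (fun k hk => by rw [UNX.rv_Nx]; exact h0 k hk) i hi j hj hij q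
    (key i (Or.inl rfl) hq1) (key j (Or.inr rfl) hq2) (by rw [UNX.rv_Nx]; exact hN)
  refine ⟨UNX.rv t W', UNX.rv_PL t a1, UNX.rv_PO t a2, fun k hk => ?_, ?_⟩
  · have h3 := a3 k hk
    unfold UNX.rv at h3 ⊢
    split_ifs at h3 ⊢ with h4
    · rw [List.head?_reverse, List.getLast?_reverse] at h3 ⊢
      exact ⟨h3.2, h3.1⟩
    · exact h3
  · rw [UNX.rv_TT] at a4 ⊢
    exact a4

end Pool.Agent.NH90.CN
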