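import Pool.Agent.NH90.CN.AVG
import Pool.Agent.NH90.CN.CAT
import Pool.Agent.NH90.CN.CL
import Pool.Agent.NH90.CN.CNC
import Pool.Agent.NH90.CN.CNT
import Pool.Agent.NH90.CN.DEL
import Pool.Agent.NH90.CN.Fin
import Pool.Agent.NH90.CN.GOOD
import Pool.Agent.NH90.CN.GP
import Pool.Agent.NH90.CN.GPG
import Pool.Agent.NH90.CN.II
import Pool.Agent.NH90.CN.MAD
import Pool.Agent.NH90.CN.MOVE
import Pool.Agent.NH90.CN.MRC
import Pool.Agent.NH90.CN.MV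
import Pool.Agent.NH90.CN.PLN
import Pool.Agent.NH90.CN.PRISM
import Pool.Agent.NH90.CN.RC
import Pool.Agent.NH90.CN.REL
import Pool.Agent.NH90.CN.SIMP
import Pool.Agent.NH90.CN.SM
import Pool.Agent.NH90.CN.T1
import Pool.Agent.NH90.CN.T3
import Pool.Agent.NH90.CN.TOP
import Pool.Agent.NH90.CN.UNX

set_option autoImplicit false

open Set Classical
open Pool.Agent.Helper770.Crossing Pool.Agent.Helper770.Sep

namespace Pool.Agent.NH90.CN

theorem p_T1 : S_T1 := t_T1 t_TOP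
theorem p_T3 : S_T3 := t_T3 t_CNT t_CAT
theorem p_GP : S_GP := t_GP t_GPG
theorem p_UNX : S_UNX := t_UNX t_SM
theorem p_GOOD : S_GOOD := t_GOOD t_CNT p_T1 p_GP t_SIMP p_UNX p_T3
theorem p_MRC : S_MRC := t_MRC (t_RC (t_MV t_MOVE))
theorem p_II : S_II := t_II t_CNT (t_PRISM t_CNT) p_T1 p_GP t_SIMP p_MRC p_T3
theorem p_CL : S_CL := t_CL (t_DEL t_CNT (t_PLN t_MAD))

theorem p_FIN (V : Type) [Fintype V] (G : SimpleGraph V) :
    ∃ t : ℕ, crossingNumber (cone G) = crossingNumber G + t ∧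
      (crossingNumber G : ℝ) ≤ max 6 (3 * (t : ℝ) ^ ((1 : ℝ) / 3)) * t :=
  t_FIN t_CNT (t_CNC t_CNT) p_GOOD (t_AVG p_II) (t_REL t_CNT) p_CL V G

end Pool.Agent.NH90.CN
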