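import Pool.Agent.NH90.CN.Stm2
import Pool.Agent.Helper770.Straight

/-!
# The recursion for the crossing numbers of the hypercubes
-/

set_option autoImplicit false

open Set Classical
open Pool.Agent.Helper770.Crossing Pool.Agent.Helper770.Sep

namespace Pool.Agent.NH90.CN

namespace Cub

/-- splitting off the first coordinate -/
def emb (n : ℕ) : (Fin (n + 1) → Bool) ↪ (Fin n → Bool) × Bool where
  toFun x := (Fin.tail x, x 0)
  inj' x y h := by
    have h1 : Fin.tail x = Fin.tail y := congrArg Prod.fst h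
    have h2 : x 0 = y 0 := congrArg Prod.snd h
    ext i
    refine Fin.cases ?_ (fun j => ?_) i
    · rw [h2]
    · exact congrFun h1 j

theorem adj_iff (n : ℕ) (x y : Fin (n + 1) → Bool) :
    (hypercube (n + 1)).Adj x y ↔ (prism (hypercube n)).Adj (emb n x) (emb n y) := by
  show (∃! i, x i ≠ y i) ↔ ((x 0 = y 0 ∧ ∃! i, Fin.tail x i ≠ Fin.tail y i) ∨
    (Fin.tail x = Fin.tail y ∧ x 0 ≠ y 0))
  constructor
  · rintro ⟨i, hi, hu⟩
    by_cases h0 : x 0 = y 0
    · left
      refine ⟨h0, ?_⟩
      have hi0 : i ≠ 0 := by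
        rintro rfl
        exact hi h0
      obtain ⟨j, rfl⟩ := Fin.exists_succ_eq.2 hi0
      exact ⟨j, hi, fun k hk => Fin.succ_injective _ (hu k.succ hk)⟩
    · right
      refine ⟨?_, h0⟩
      funext j
      by_contra hj
      have h1 := hu j.succ hj
      have h2 := hu 0 h0
      rw [← h2] at h1
      exact Fin.succ_ne_zero j h1
  · rintro (⟨h0, j, hj, hu⟩ | ⟨h1, h0⟩)
    · refine ⟨j.succ, hj, fun i hi => ?_⟩
      by_cases hi0 : i = 0
      · subst hi0
        exact absurd h0 hi
      · obtain ⟨k, rfl⟩ := Fin.exists_succ_eq.2 hi0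
        rw [hu k hi]
    · refine ⟨0, h0, fun i hi => ?_⟩
      by_contra hi0
      obtain ⟨k, rfl⟩ := Fin.exists_succ_eq.2 hi0
      exact hi (congrFun h1 k)

theorem comap_eq (n : ℕ) : (prism (hypercube n)).comap (emb n) = hypercube (n + 1) := by
  ext x y
  rw [SimpleGraph.comap_adj]
  exact (adj_iff n x y).symm

/-- the other end of the edge in the direction `i` -/
def flip {n : ℕ} (v : Fin n → Bool) (i : Fin n) : Fin n → Bool := Function.update v i (! v i)

theorem adj_flip {n : ℕ} (v : Fin n → Bool) (i : Fin n) : (hypercube n).Adj v (flip v i) := by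
  refine ⟨i, ?_, fun j hj => ?_⟩
  · show v i ≠ flip v i i
    unfold flip
    rw [Function.update_self]
    cases v i <;> decide
  · by_contra hne
    refine hj ?_
    unfold flip
    rw [Function.update_of_ne hne]

theorem eq_flip {n : ℕ} {v w : Fin n → Bool} (h : (hypercube n).Adj v w) : ∃ i, w = flip v i := by
  obtain ⟨i, hi, hu⟩ := h
  refine ⟨i, ?_⟩
  funext j
  unfold flip
  by_cases hj : j = i
  · subst hj
    rw [Function.update_self]
    have hi' : v j ≠ w j := hi
    revert hi'
    cases v j <;> cases w j <;> simp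
  · rw [Function.update_of_ne hj]
    by_contra hne
    exact hj (hu j fun h => hne h.symm)

theorem dgr_le {n : ℕ} (v : Fin n → Bool) : dgr (hypercube n) v ≤ n := by
  unfold dgr
  refine (Finset.card_le_card (t := (Finset.univ : Finset (Fin n)).image fun i => s(v, flip v i))
    fun e he => ?_).trans (Finset.card_image_le.trans ?_)
  · obtain ⟨he1, w, rfl⟩ := (@Finset.mem_filter _ _ (_) _ _).1 he
    have h2 : s(v, w) ∈ (hypercube n).edgeSet := ((@Finset.mem_filter _ _ (_) _ _).1 he1).2
    obtain ⟨i, rfl⟩ := eq_flip (show (hypercube n).Adj v w from h2)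
    exact Finset.mem_image_of_mem _ (Finset.mem_univ i)
  · rw [Finset.card_univ, Fintype.card_fin]

end Cub

open Cub in
theorem t_CUB (h : S_DBL) : S_CUB := by
  intro n hn
  have h1 := h (Fin n → Bool) (hypercube n) fun v => ⟨flip v ⟨0, hn⟩, adj_flip v ⟨0, hn⟩⟩
  have h2 : crossingNumber (hypercube (n + 1)) ≤ crossingNumber (prism (hypercube n)) := by
    have h3 := Pool.Agent.Helper770.Straight.crossingNumber_comap (prism (hypercube n)) (emb n)
    rw [comap_eq] at h3
    exact h3
  have h4 : ∑ v : Fin n → Bool, dgr (hypercube n) v ^ 2 ≤ n ^ 2 * 2 ^ n := by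
    have h5 : ∑ v : Fin n → Bool, dgr (hypercube n) v ^ 2 ≤ ∑ v : Fin n → Bool, n ^ 2 :=
      Finset.sum_le_sum fun v _ => Nat.pow_le_pow_left (dgr_le v) 2
    rw [Finset.sum_const, Finset.card_univ, Fintype.card_fun, Fintype.card_bool, Fintype.card_fin,
      smul_eq_mul, mul_comm] at h5
    exact h5
  omega

end Pool.Agent.NH90.CN
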