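import Pool.Agent.NH90.CN.Stm

set_option autoImplicit false

open Set Classical
open Pool.Agent.Helper770.Crossing Pool.Agent.Helper770.Sep

namespace Pool.Agent.NH90.CN

/-! ### segments -/

lemma sg_mk (a b : ℂ) : sg s(a, b) = segment ℝ a b := by
  have : {z : ℂ | z ∈ s(a, b)} = {a, b} := by ext z; simp
  rw [sg, this, convexHull_pair]

lemma Xs_symm {s s' : Sym2 ℂ} (h : Xs s s') : Xs s' s :=
  ⟨fun q hq hq' => h.1 q hq' hq, by rw [inter_comm]; exact h.2⟩

lemma Xs_comm (s s' : Sym2 ℂ) : Xs s s' ↔ Xs s' s := ⟨Xs_symm, Xs_symm⟩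

lemma Xs_irrefl (s : Sym2 ℂ) : ¬ Xs s s := by
  intro h
  induction s with
  | _ a b => exact h.1 a (Sym2.mem_mk_left a b) (Sym2.mem_mk_left a b)

lemma mem_sg_of_mem {s : Sym2 ℂ} {q : ℂ} (h : q ∈ s) : q ∈ sg s := subset_convexHull ℝ _ h

lemma convex_sg (s : Sym2 ℂ) : Convex ℝ (sg s) := convex_convexHull ℝ _

lemma isCompact_sg (s : Sym2 ℂ) : IsCompact (sg s) := by
  induction s with
  | _ a b =>
    rw [sg_mk, ← Path.range_segment]
    exact isCompact_range (by fun_prop)

lemma isClosed_sg (s : Sym2 ℂ) : IsClosed (sg s) := (isCompact_sg s).isClosed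

/-- two segments with a common end that meet in another point: an end of one lies on the other -/
lemma share {q x y z : ℂ} (h1 : z ∈ segment ℝ q x) (h2 : z ∈ segment ℝ q y) (hz : z ≠ q) :
    x ∈ segment ℝ q y ∨ y ∈ segment ℝ q x := by
  rw [segment_eq_image'] at h1 h2
  obtain ⟨s, hs, rfl⟩ := h1
  obtain ⟨t, ht, h⟩ := h2
  simp only at h hz
  have hs0 : s ≠ 0 := fun h0 => hz (by simp [h0])
  have ht0 : t ≠ 0 := fun h0 => hz (by rw [← h, h0]; simp)
  have hsp : 0 < s := lt_of_le_of_ne hs.1 hs0.symm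
  have htp : 0 < t := lt_of_le_of_ne ht.1 ht0.symm
  have h' : s • (x - q) = t • (y - q) := (add_left_cancel h).symm
  rw [segment_eq_image', segment_eq_image']
  rcases le_total t s with hts | hts
  · left
    refine ⟨t / s, ⟨by positivity, (div_le_one hsp).2 hts⟩, ?_⟩
    simp only
    rw [div_eq_inv_mul, mul_smul, ← h', smul_smul, inv_mul_cancel₀ hs0, one_smul]; ring
  · right
    refine ⟨s / t, ⟨by positivity, (div_le_one htp).2 hts⟩, ?_⟩
    simp only
    rw [div_eq_inv_mul, mul_smul, h', smul_smul, inv_mul_cancel₀ ht0, one_smul]; ring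

lemma line_coord {a b z w : ℂ} (h1 : z ∈ segment ℝ a b) (h2 : w ∈ segment ℝ a b) (hne : z ≠ w) :
    ∃ α β : ℝ, a = z + (α : ℂ) * (w - z) ∧ b = z + (β : ℂ) * (w - z) ∧
      ((α ≤ 0 ∧ 1 ≤ β) ∨ (β ≤ 0 ∧ 1 ≤ α)) := by
  rw [segment_eq_image'] at h1 h2
  obtain ⟨s, hs, rfl⟩ := h1
  obtain ⟨t, ht, rfl⟩ := h2
  simp only [Complex.real_smul] at hne ⊢
  have hst : t - s ≠ 0 := fun h => hne (by rw [sub_eq_zero.1 h])
  have hstc : ((t : ℂ) - s) ≠ 0 := by exact_mod_cast hst
  refine ⟨-s / (t - s), (1 - s) / (t - s), ?_, ?_, ?_⟩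
  · push_cast; field_simp; ring
  · push_cast; field_simp; ring
  · rcases lt_or_gt_of_ne hst with h | h
    · right
      constructor
      · exact div_nonpos_of_nonneg_of_nonpos (by linarith [hs.2]) h.le
      · rw [le_div_iff_of_neg h]; linarith [ht.1]
    · left
      constructor
      · exact div_nonpos_of_nonpos_of_nonneg (by linarith [hs.1]) h.le
      · rw [le_div_iff₀ h]; linarith [ht.2]

lemma mem_seg_coord {z w : ℂ} {α β γ : ℝ} (h : (α ≤ γ ∧ γ ≤ β) ∨ (β ≤ γ ∧ γ ≤ α)) :
    z + (γ : ℂ) * (w - z) ∈ segment ℝ (z + (α : ℂ) * (w - z)) (z + (β : ℂ) * (w - z)) := by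
  by_cases hab : α = β
  · have : γ = α := by rcases h with h | h <;> linarith [h.1, h.2]
    rw [this]; exact left_mem_segment _ _ _
  rw [segment_eq_image']
  have hne : β - α ≠ 0 := fun h => hab (by linarith)
  have hnec : ((β : ℂ) - α) ≠ 0 := by exact_mod_cast hne
  refine ⟨(γ - α) / (β - α), ?_, ?_⟩
  · rcases h with h | h
    · have hp : 0 < β - α := lt_of_le_of_ne (by linarith [h.1, h.2]) (Ne.symm hne)
      exact ⟨div_nonneg (by linarith) hp.le, (div_le_one hp).2 (by linarith)⟩
    · have hp : β - α < 0 := lt_of_le_of_ne (by linarith [h.1, h.2]) hne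
      exact ⟨div_nonneg_of_nonpos (by linarith) hp.le, (div_le_one_of_neg hp).2 (by linarith)⟩
  · simp only [Complex.real_smul]
    push_cast; field_simp; ring

/-- two segments with two common points: an end of one lies on the other -/
lemma two_points {a b c d z w : ℂ} (h1 : z ∈ segment ℝ a b) (h2 : w ∈ segment ℝ a b)
    (h3 : z ∈ segment ℝ c d) (h4 : w ∈ segment ℝ c d) (hne : z ≠ w) :
    a ∈ segment ℝ c d ∨ b ∈ segment ℝ c d ∨ c ∈ segment ℝ a b ∨ d ∈ segment ℝ a b := by
  obtain ⟨α, β, ha, hb, hab⟩ := line_coord h1 h2 hne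
  obtain ⟨γ, δ, hc, hd, hcd⟩ := line_coord h3 h4 hne
  rw [ha, hb, hc, hd]
  rcases hab with hab | hab <;> rcases hcd with hcd | hcd
  · rcases le_total α γ with h | h
    · right; right; left; exact mem_seg_coord (by left; constructor <;> linarith)
    · left; exact mem_seg_coord (by left; constructor <;> linarith)
  · rcases le_total α δ with h | h
    · right; right; right; exact mem_seg_coord (by left; constructor <;> linarith)
    · left; exact mem_seg_coord (by right; constructor <;> linarith)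
  · rcases le_total β γ with h | h
    · right; right; left; exact mem_seg_coord (by right; constructor <;> linarith)
    · right; left; exact mem_seg_coord (by left; constructor <;> linarith)
  · rcases le_total β δ with h | h
    · right; right; right; exact mem_seg_coord (by right; constructor <;> linarith)
    · right; left; exact mem_seg_coord (by right; constructor <;> linarith)

/-! ### lists of segments -/

@[simp] lemma segL_nil : segL [] = [] := rfl
@[simp] lemma segL_single (a : ℂ) : segL [a] = [] := rfl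
@[simp] lemma segL_cons (a b : ℂ) (l : List ℂ) : segL (a :: b :: l) = s(a, b) :: segL (b :: l) := rfl

lemma segL_map (φ : ℂ → ℂ) : ∀ l : List ℂ, segL (l.map φ) = (segL l).map (Sym2.map φ)
  | [] => rfl
  | [_] => rfl
  | a :: b :: l => by
    have := segL_map φ (b :: l)
    simp only [List.map_cons] at this
    simp only [List.map_cons, segL_cons, Sym2.map_mk, this]

lemma segL_append (l : List ℂ) (a : ℂ) (l' : List ℂ) :
    segL (l ++ a :: l') = segL (l ++ [a]) ++ segL (a :: l') := by
  induction l with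
  | nil => simp
  | cons x l ih =>
    cases l with
    | nil => simp
    | cons y l => simpa using ih

lemma segL_reverse (l : List ℂ) : segL l.reverse = (segL l).reverse := by
  induction l with
  | nil => simp
  | cons x l ih =>
    cases l with
    | nil => simp
    | cons y l =>
      rw [segL_cons, List.reverse_cons (a := s(x, y)), ← ih, List.reverse_cons, List.reverse_cons,
        List.append_assoc, List.singleton_append, segL_append, segL_cons, segL_single, Sym2.eq_swap]

lemma mem_of_mem_segL {l : List ℂ} {s : Sym2 ℂ} {q : ℂ} (hs : s ∈ segL l) (hq : q ∈ s) :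
    q ∈ l := by
  induction l with
  | nil => simp at hs
  | cons x l ih =>
    cases l with
    | nil => simp at hs
    | cons y l =>
      rw [segL_cons, List.mem_cons] at hs
      rcases hs with rfl | hs
      · rw [Sym2.mem_iff] at hq
        rcases hq with rfl | rfl <;> simp
      · exact List.mem_cons_of_mem _ (ih hs)

/-- a segment of a list is a pair of consecutive elements -/
lemma exists_split {l : List ℂ} {s : Sym2 ℂ} (hs : s ∈ segL l) :
    ∃ (l₁ : List ℂ) (a b : ℂ) (l₂ : List ℂ), l = l₁ ++ a :: b :: l₂ ∧ s = s(a, b) := by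
  induction l with
  | nil => simp at hs
  | cons x l ih =>
    cases l with
    | nil => simp at hs
    | cons y l =>
      rw [segL_cons, List.mem_cons] at hs
      rcases hs with rfl | hs
      · exact ⟨[], x, y, l, rfl, rfl⟩
      · obtain ⟨l₁, a, b, l₂, h, h'⟩ := ih hs
        exact ⟨x :: l₁, a, b, l₂, by rw [h]; rfl, h'⟩

lemma ne_of_mem_segL {l : List ℂ} (hl : l.Nodup) {a b : ℂ} (h : s(a, b) ∈ segL l) : a ≠ b := by
  obtain ⟨l₁, c, d, l₂, h1, h2⟩ := exists_split h
  rw [h1] at hl
  have hcd : c ≠ d := by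
    rw [List.nodup_append] at hl
    have := hl.2.1
    simp only [List.nodup_cons, List.mem_cons, not_or] at this
    exact this.1.1
  rcases Sym2.eq_iff.1 h2 with ⟨rfl, rfl⟩ | ⟨rfl, rfl⟩
  · exact hcd
  · exact hcd.symm

lemma segL_nodup {l : List ℂ} (hl : l.Nodup) : (segL l).Nodup := by
  induction l with
  | nil => simp
  | cons x l ih =>
    cases l with
    | nil => simp
    | cons y l =>
      rw [segL_cons, List.nodup_cons]
      refine ⟨fun h => ?_, ih (List.nodup_cons.1 hl).2⟩
      exact (List.nodup_cons.1 hl).1 (mem_of_mem_segL h (Sym2.mem_mk_left x y))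

lemma mem_segL_mid (l₁ : List ℂ) (a b : ℂ) (l₂ : List ℂ) : s(a, b) ∈ segL (l₁ ++ a :: b :: l₂) := by
  rw [segL_append]; simp

/-! ### counting -/

@[simp] lemma NS_nil (s : Sym2 ℂ) : NS s [] = 0 := rfl
@[simp] lemma NS_single (s : Sym2 ℂ) (a : ℂ) : NS s [a] = 0 := rfl
lemma NS_cons (s : Sym2 ℂ) (a b : ℂ) (l : List ℂ) :
    NS s (a :: b :: l) = (if Xs s s(a, b) then 1 else 0) + NS s (b :: l) := by
  simp only [NS, segL_cons, List.countP_cons]
  by_cases h : Xs s s(a, b) <;> simp [h, add_comm]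

lemma NS_append (s : Sym2 ℂ) (l : List ℂ) (a : ℂ) (l' : List ℂ) :
    NS s (l ++ a :: l') = NS s (l ++ [a]) + NS s (a :: l') := by
  simp only [NS]
  rw [segL_append, List.countP_append]

lemma NS_reverse (s : Sym2 ℂ) (l : List ℂ) : NS s l.reverse = NS s l := by
  simp only [NS, segL_reverse, List.countP_reverse]

lemma NS_eq_card (s : Sym2 ℂ) {l : List ℂ} (hl : l.Nodup) :
    NS s l = ((segL l).toFinset.filter (fun s' => Xs s s')).card := by
  rw [NS, List.countP_eq_length_filter, ← List.toFinset_card_of_nodup ((segL_nodup hl).filter _)]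
  congr 1
  ext x; simp

lemma NS_eq_zero (s : Sym2 ℂ) (l : List ℂ) : NS s l = 0 ↔ ∀ s' ∈ segL l, ¬ Xs s s' := by
  simp [NS, List.countP_eq_zero]

@[simp] lemma Nx_nil (l : List ℂ) : Nx [] l = 0 := rfl
@[simp] lemma Nx_single (a : ℂ) (l : List ℂ) : Nx [a] l = 0 := rfl
lemma Nx_cons (a b : ℂ) (l l' : List ℂ) : Nx (a :: b :: l) l' = NS s(a, b) l' + Nx (b :: l) l' := by
  simp [Nx]

lemma Nx_append (l : List ℂ) (a : ℂ) (l' m : List ℂ) :
    Nx (l ++ a :: l') m = Nx (l ++ [a]) m + Nx (a :: l') m := by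
  simp only [Nx]
  rw [segL_append, List.map_append, List.sum_append]

lemma Nx_nil_right (l : List ℂ) : Nx l [] = 0 := by simp [Nx]
lemma Nx_single_right (l : List ℂ) (a : ℂ) : Nx l [a] = 0 := by simp [Nx]

lemma Nx_cons_right (l : List ℂ) (a b : ℂ) (l' : List ℂ) :
    Nx l (a :: b :: l') = NS s(a, b) l + Nx l (b :: l') := by
  have key : ∀ L : List (Sym2 ℂ), (L.map (fun s => NS s (a :: b :: l'))).sum =
      L.countP (fun s' => decide (Xs s(a, b) s')) + (L.map (fun s => NS s (b :: l'))).sum := by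
    intro L
    induction L with
    | nil => simp
    | cons s L ih =>
      rw [List.map_cons, List.sum_cons, ih, NS_cons, List.map_cons, List.sum_cons,
        List.countP_cons]
      by_cases h : Xs s s(a, b)
      · have h' := Xs_symm h
        simp only [h, h', if_true, decide_true]; omega
      · have h' : ¬ Xs s(a, b) s := fun h'' => h (Xs_symm h'')
        simp only [h, h', if_false, decide_false, Bool.false_eq_true]; omega
  exact key _

lemma Nx_comm (l l' : List ℂ) : Nx l l' = Nx l' l := by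
  induction l with
  | nil => simp [Nx_nil_right]
  | cons x l ih =>
    cases l with
    | nil => simp [Nx_single_right]
    | cons y l => rw [Nx_cons, Nx_cons_right, ih]

lemma Nx_append_right (l : List ℂ) (a : ℂ) (l' m : List ℂ) :
    Nx m (l ++ a :: l') = Nx m (l ++ [a]) + Nx m (a :: l') := by
  rw [Nx_comm, Nx_append, Nx_comm _ m, Nx_comm _ m]

lemma Nx_reverse_left (l l' : List ℂ) : Nx l.reverse l' = Nx l l' := by
  simp only [Nx, segL_reverse, List.map_reverse, List.sum_reverse]

lemma Nx_reverse_right (l l' : List ℂ) : Nx l l'.reverse = Nx l l' := by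
  simp only [Nx, NS_reverse]

lemma Nx_eq_zero (l l' : List ℂ) : Nx l l' = 0 ↔ ∀ s ∈ segL l, ∀ s' ∈ segL l', ¬ Xs s s' := by
  simp only [Nx, List.sum_eq_zero_iff, List.mem_map, forall_exists_index, and_imp,
    forall_apply_eq_imp_iff₂, NS_eq_zero]

/-- for nodup lists `Nx` is a cardinality -/
lemma Nx_eq_card {l l' : List ℂ} (hl : l.Nodup) (hl' : l'.Nodup) :
    Nx l l' = (((segL l).toFinset ×ˢ (segL l').toFinset).filter (fun p => Xs p.1 p.2)).card := by
  rw [Finset.card_filter, Finset.sum_product]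
  rw [Nx, ← List.sum_toFinset _ (segL_nodup hl)]
  refine Finset.sum_congr rfl fun s _ => ?_
  rw [NS_eq_card s hl', Finset.card_filter]

/-! ### families -/

lemma En_mem {l : List ℂ} {q : ℂ} (h : En l q) : q ∈ l := by
  rcases h with h | h
  · exact List.mem_of_mem_head? h
  · exact List.mem_of_mem_getLast? h

lemma En_reverse {l : List ℂ} {q : ℂ} : En l.reverse q ↔ En l q := by
  simp only [En, List.head?_reverse, List.getLast?_reverse]; tauto

lemma PL.mono {I : Type} {A B : Finset I} {W : I → List ℂ} (h : PL A W) (hB : B ⊆ A) : PL B W :=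
  ⟨fun i hi => h.len i (hB hi), fun i hi => h.nd i (hB hi),
    fun i hi j hj => h.sep i (hB hi) j (hB hj)⟩

lemma PO.mono {I : Type} {A B : Finset I} {W : I → List ℂ} (h : PO A W) (hB : B ⊆ A) : PO B W :=
  fun i hi j hj => h i (hB hi) j (hB hj)

lemma Lb.mono {V I : Type} {A B : Finset I} {hd tl : I → V} {loc : V → ℂ} {W : I → List ℂ}
    (h : Lb A hd tl loc W) (hB : B ⊆ A) : Lb B hd tl loc W :=
  ⟨fun i hi j hj => h.inj i (hB hi) j (hB hj), fun i hi => h.head i (hB hi),
    fun i hi => h.last i (hB hi)⟩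

/-- an end of `W i` is the location of a label of `i` -/
lemma Lb.exists_label {V I : Type} {A : Finset I} {hd tl : I → V} {loc : V → ℂ} {W : I → List ℂ}
    (h : Lb A hd tl loc W) {i : I} (hi : i ∈ A) {q : ℂ} (hq : En (W i) q) :
    ∃ v ∈ s(hd i, tl i), loc v = q := by
  rcases hq with hq | hq
  · rw [h.head i hi] at hq
    exact ⟨hd i, Sym2.mem_mk_left _ _, by simpa using hq⟩
  · rw [h.last i hi] at hq
    exact ⟨tl i, Sym2.mem_mk_right _ _, by simpa using hq⟩

lemma Lb.en {V I : Type} {A : Finset I} {hd tl : I → V} {loc : V → ℂ} {W : I → List ℂ}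
    (h : Lb A hd tl loc W) {i : I} (hi : i ∈ A) {v : V} (hv : v ∈ s(hd i, tl i)) :
    En (W i) (loc v) := by
  rcases Sym2.mem_iff.1 hv with rfl | rfl
  · exact Or.inl (h.head i hi)
  · exact Or.inr (h.last i hi)

lemma DS_of_Lb {V I : Type} {A : Finset I} {hd tl : I → V} {loc : V → ℂ} {W : I → List ℂ}
    (hP : PL A W) (h : Lb A hd tl loc W)
    (hnp : ∀ i ∈ A, ∀ j ∈ A, i ≠ j → s(hd i, tl i) ≠ s(hd j, tl j)) : DS A W := by
  intro i hi j hj hij s hs hs'
  induction s with
  | _ x y =>
    have hxy := ne_of_mem_segL (hP.nd i hi) hs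
    have hx := hP.sep i hi j hj hij x (mem_of_mem_segL hs (Sym2.mem_mk_left x y))
      (mem_of_mem_segL hs' (Sym2.mem_mk_left x y))
    have hy := hP.sep i hi j hj hij y (mem_of_mem_segL hs (Sym2.mem_mk_right x y))
      (mem_of_mem_segL hs' (Sym2.mem_mk_right x y))
    obtain ⟨u, hu, hux⟩ := h.exists_label hi hx.1
    obtain ⟨u', hu', hux'⟩ := h.exists_label hj hx.2
    obtain ⟨v, hv, hvy⟩ := h.exists_label hi hy.1
    obtain ⟨v', hv', hvy'⟩ := h.exists_label hj hy.2
    have e1 : u = u' := h.inj i hi j hj u hu u' hu' (hux.trans hux'.symm)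
    have e2 : v = v' := h.inj i hi j hj v hv v' hv' (hvy.trans hvy'.symm)
    have huv : u ≠ v := by rintro rfl; exact hxy (hux.symm.trans hvy)
    subst e1 e2
    apply hnp i hi j hj hij
    rw [(Sym2.mem_and_mem_iff huv).1 ⟨hu, hv⟩, (Sym2.mem_and_mem_iff huv).1 ⟨hu', hv'⟩]

end Pool.Agent.NH90.CN
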