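import Pool.Agent.NH90.CN.Stm2
import Pool.Agent.NH90.CN.Base
import Pool.Agent.NH90.CN.GOOD

/-!
# HC-5: the crossing number of a prism
-/

set_option autoImplicit false

open Set Classical
open Pool.Agent.Helper770.Crossing Pool.Agent.Helper770.Sep

namespace Pool.Agent.NH90.CN

namespace DBL

/-! ### the edges of the prism -/

section edges

variable {V : Type} {G : SimpleGraph V}

lemma pg_inj {i j : Bool} {e f : Sym2 V} (h : pg i e = pg j f) : i = j ∧ e = f := by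
  induction e with
  | h a b =>
    induction f with
    | h c d =>
      rw [pg, pg, Sym2.map_mk, Sym2.map_mk, Sym2.eq_iff] at h
      simp only [Prod.mk.injEq] at h
      rcases h with ⟨⟨h1, h2⟩, ⟨h3, h4⟩⟩ | ⟨⟨h1, h2⟩, ⟨h3, h4⟩⟩
      · exact ⟨h2, by rw [h1, h3]⟩
      · exact ⟨h2, by rw [h1, h3, Sym2.eq_swap]⟩

lemma rung_inj {y z : V} (h : rung y = rung z) : y = z := by
  rw [rung, rung, Sym2.eq_iff] at h
  rcases h with ⟨h, -⟩ | ⟨h, -⟩
  · exact (Prod.mk.inj h).1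
  · exact (Prod.mk.inj h).1

lemma pg_ne_rung (i : Bool) (e : Sym2 V) (y : V) : pg i e ≠ rung y := by
  intro h
  have h1 : (y, false) ∈ pg i e := h ▸ Sym2.mem_mk_left _ _
  have h2 : (y, true) ∈ pg i e := h ▸ Sym2.mem_mk_right _ _
  rw [pg, Sym2.mem_map] at h1 h2
  obtain ⟨a, -, ha⟩ := h1
  obtain ⟨b, -, hb⟩ := h2
  have e1 := (Prod.mk.inj ha).2
  have e2 := (Prod.mk.inj hb).2
  rw [e1] at e2
  exact Bool.false_ne_true e2

lemma edge_cases {x : Sym2 (V × Bool)} (hx : x ∈ (prism G).edgeSet) :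
    (∃ i e, e ∈ G.edgeSet ∧ x = pg i e) ∨ ∃ y, x = rung y := by
  induction x with
  | h a b =>
    obtain ⟨a, i⟩ := a
    obtain ⟨b, j⟩ := b
    rw [SimpleGraph.mem_edgeSet] at hx
    rcases hx with ⟨h1, h2⟩ | ⟨h1, h2⟩
    · dsimp only at h1 h2
      subst h1
      exact Or.inl ⟨i, s(a, b), (SimpleGraph.mem_edgeSet _).2 h2, rfl⟩
    · dsimp only at h1 h2
      subst h1
      refine Or.inr ⟨a, ?_⟩
      cases i <;> cases j
      · exact absurd rfl h2
      · rfl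
      · exact Sym2.eq_swap
      · exact absurd rfl h2

lemma exists_psi (V : Type) : ∃ ψ : Sym2 (V × Bool) → (Sym2 V × Bool) ⊕ V,
    (∀ b e, ψ (pg b e) = Sum.inl (e, b)) ∧ ∀ y, ψ (rung y) = Sum.inr y := by
  refine ⟨fun x => if h : ∃ p : Bool × Sym2 V, x = pg p.1 p.2 then
      Sum.inl (h.choose.2, h.choose.1)
    else if h : ∃ y, x = rung y then Sum.inr h.choose else Sum.inr (Quot.out x).1.1,
    fun i e => ?_, fun y => ?_⟩
  · have h : ∃ p : Bool × Sym2 V, pg i e = pg p.1 p.2 := ⟨(i, e), rfl⟩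
    show dite _ _ _ = _
    rw [dif_pos h]
    obtain ⟨h1, h2⟩ := pg_inj h.choose_spec
    rw [← h1, ← h2]
  · have h : ¬ ∃ p : Bool × Sym2 V, rung y = pg p.1 p.2 := fun ⟨p, hp⟩ =>
      pg_ne_rung _ _ _ hp.symm
    have h' : ∃ z, rung y = rung z := ⟨y, rfl⟩
    show dite _ _ _ = _
    rw [dif_neg h, dif_pos h', ← rung_inj h'.choose_spec]

end edges

/-! ### change of the index set -/

section comap

variable {I J : Type} {A : Finset I} {B : Finset J} {W : I → List ℂ} {ψ : J → I}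

lemma PL_comap (h : PL A W) (hm : ∀ j ∈ B, ψ j ∈ A) (hi : ∀ j ∈ B, ∀ k ∈ B, ψ j = ψ k → j = k) :
    PL B (fun j => W (ψ j)) :=
  ⟨fun i hi' => h.len _ (hm i hi'), fun i hi' => h.nd _ (hm i hi'),
    fun i hi' j hj hij => h.sep _ (hm i hi') _ (hm j hj) fun he => hij (hi i hi' j hj he)⟩

lemma PO_comap (h : PO A W) (hm : ∀ j ∈ B, ψ j ∈ A) : PO B (fun j => W (ψ j)) :=
  fun i hi j hj => h _ (hm i hi) _ (hm j hj)

lemma Lb_comap {V : Type} {hd tl : I → V} {loc : V → ℂ} (h : Lb A hd tl loc W)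
    (hm : ∀ j ∈ B, ψ j ∈ A) :
    Lb B (fun j => hd (ψ j)) (fun j => tl (ψ j)) loc (fun j => W (ψ j)) :=
  ⟨fun i hi j hj => h.inj _ (hm i hi) _ (hm j hj), fun i hi => h.head _ (hm i hi),
    fun i hi => h.last _ (hm i hi)⟩

lemma sum_comap (F : I → ℕ) (hm : ∀ j ∈ B, ψ j ∈ A)
    (hi : ∀ j ∈ B, ∀ k ∈ B, ψ j = ψ k → j = k) : ∑ j ∈ B, F (ψ j) ≤ ∑ i ∈ A, F i := by
  rw [← Finset.sum_image (f := F) (s := B) (g := ψ) (fun j hj k hk h => hi j hj k hk h)]
  refine Finset.sum_le_sum_of_subset fun i hi' => ?_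
  obtain ⟨j, hj, rfl⟩ := Finset.mem_image.1 hi'
  exact hm j hj

lemma TT_comap (hm : ∀ j ∈ B, ψ j ∈ A) (hi : ∀ j ∈ B, ∀ k ∈ B, ψ j = ψ k → j = k) :
    TT B (fun j => W (ψ j)) ≤ TT A W := by
  unfold TT
  calc ∑ i ∈ B, ∑ j ∈ B, (if i = j then 0 else Nx (W (ψ i)) (W (ψ j)))
      = ∑ i ∈ B, ∑ j ∈ B, (if ψ i = ψ j then 0 else Nx (W (ψ i)) (W (ψ j))) := by
        refine Finset.sum_congr rfl fun i hi' => Finset.sum_congr rfl fun j hj => ?_
        by_cases h : i = j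
        · rw [if_pos h, if_pos (congrArg ψ h)]
        · rw [if_neg h, if_neg fun h' => h (hi i hi' j hj h')]
    _ ≤ ∑ i ∈ B, ∑ j ∈ A, (if ψ i = j then 0 else Nx (W (ψ i)) (W j)) := by
        refine Finset.sum_le_sum fun i _ => ?_
        exact sum_comap (fun j => if ψ i = j then 0 else Nx (W (ψ i)) (W j)) hm hi
    _ ≤ _ := sum_comap (fun i => ∑ j ∈ A, if i = j then 0 else Nx (W i) (W j)) hm hi

end comap

/-! ### counting -/

/-- the terms of `TT` -/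
noncomputable def off {I : Type} (W : I → List ℂ) (i j : I) : ℕ :=
  if i = j then 0 else Nx (W i) (W j)

lemma off_le {I : Type} (W : I → List ℂ) (i j : I) : off W i j ≤ Nx (W i) (W j) := by
  unfold off
  split_ifs
  · exact Nat.zero_le _
  · exact le_rfl

lemma off_self {I : Type} (W : I → List ℂ) (i : I) : off W i i = 0 := if_pos rfl

lemma off_ne {I : Type} (W : I → List ℂ) {i j : I} (h : i ≠ j) : off W i j = Nx (W i) (W j) :=
  if_neg h

lemma TT_eq {I : Type} (A : Finset I) (W : I → List ℂ) : TT A W = ∑ i ∈ A, ∑ j ∈ A, off W i j :=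
  rfl

/-- crossings of the doubled family -/
lemma TT_double {V I : Type} [Fintype V] (A : Finset I) (W : I → List ℂ)
    (W₂ : (I × Bool) ⊕ V → List ℂ) (cnt : I → I → ℕ) (hS : ∀ i ∈ A, Nx (W i) (W i) = 0)
    (h1 : ∀ i ∈ A, ∀ j ∈ A, ∀ b c, Nx (W₂ (Sum.inl (i, b))) (W₂ (Sum.inl (j, c))) ≤
      Nx (W i) (W j) + if b = c then 0 else cnt i j)
    (h2 : ∀ v : V, ∀ x ∈ (A ×ˢ (Finset.univ : Finset Bool)).disjSum (Finset.univ : Finset V),
      Nx (W₂ (Sum.inr v)) (W₂ x) = 0) :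
    TT ((A ×ˢ (Finset.univ : Finset Bool)).disjSum (Finset.univ : Finset V)) W₂ ≤
      4 * TT A W + 2 * ∑ i ∈ A, ∑ j ∈ A, cnt i j := by
  rw [TT_eq, TT_eq, Finset.sum_disjSum]
  have e2 : ∑ v : V, ∑ x ∈ (A ×ˢ (Finset.univ : Finset Bool)).disjSum (Finset.univ : Finset V),
      off W₂ (Sum.inr v) x = 0 := by
    refine Finset.sum_eq_zero fun v _ => Finset.sum_eq_zero fun x hx => ?_
    have := off_le W₂ (Sum.inr v) x
    rw [h2 v x hx] at this
    omega
  rw [e2, add_zero]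
  have e3 : ∀ p ∈ A ×ˢ (Finset.univ : Finset Bool),
      ∑ x ∈ (A ×ˢ (Finset.univ : Finset Bool)).disjSum (Finset.univ : Finset V),
        off W₂ (Sum.inl p) x ≤
      ∑ q ∈ A ×ˢ (Finset.univ : Finset Bool), (off W p.1 q.1 +
        if p.2 = q.2 then 0 else cnt p.1 q.1) := by
    intro p hp
    rw [Finset.sum_disjSum]
    have e4 : ∑ v : V, off W₂ (Sum.inl p) (Sum.inr v) = 0 := by
      refine Finset.sum_eq_zero fun v _ => ?_
      have := off_le W₂ (Sum.inl p) (Sum.inr v)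
      rw [Nx_comm, h2 v (Sum.inl p) (Finset.inl_mem_disjSum.2 hp)] at this
      omega
    rw [e4, add_zero]
    refine Finset.sum_le_sum fun q hq => ?_
    obtain ⟨i, b⟩ := p
    obtain ⟨j, c⟩ := q
    have hi : i ∈ A := (Finset.mem_product.1 hp).1
    have hj : j ∈ A := (Finset.mem_product.1 hq).1
    refine (off_le _ _ _).trans ((h1 i hi j hj b c).trans ?_)
    refine Nat.add_le_add_right ?_ _
    by_cases h : i = j
    · subst h
      rw [hS i hi]
      exact Nat.zero_le _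
    · exact (off_ne W h).ge
  refine (Finset.sum_le_sum e3).trans (le_of_eq ?_)
  rw [Finset.sum_product, Finset.mul_sum, Finset.mul_sum, ← Finset.sum_add_distrib]
  refine Finset.sum_congr rfl fun i _ => ?_
  rw [Finset.mul_sum, Finset.mul_sum, ← Finset.sum_add_distrib, Fintype.sum_bool,
    Finset.sum_product, Finset.sum_product, ← Finset.sum_add_distrib]
  refine Finset.sum_congr rfl fun j _ => ?_
  rw [Fintype.sum_bool, Fintype.sum_bool]
  simp only [reduceCtorEq, if_true, if_false]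
  ring

lemma sum_cnt {V : Type} [Fintype V] (G : SimpleGraph V) (hd tl : Sym2 V → V)
    (he : ∀ e ∈ G.edgeSet, s(hd e, tl e) = e) :
    ∑ i ∈ eF G, ∑ j ∈ eF G, ((Finset.univ : Finset V).filter
      (fun v => v ∈ s(hd i, tl i) ∧ v ∈ s(hd j, tl j))).card = ∑ v : V, dgr G v ^ 2 := by
  have h1 : ∀ i ∈ eF G, ∀ j ∈ eF G, ((Finset.univ : Finset V).filter
      (fun v => v ∈ s(hd i, tl i) ∧ v ∈ s(hd j, tl j))).card =
      ∑ v : V, (if v ∈ i then 1 else 0) * (if v ∈ j then 1 else 0) := by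
    intro i hi j hj
    rw [he i (Finset.mem_filter.1 hi).2, he j (Finset.mem_filter.1 hj).2, Finset.card_filter]
    refine Finset.sum_congr rfl fun v _ => ?_
    by_cases h : v ∈ i <;> by_cases h' : v ∈ j <;> simp [h, h']
  rw [Finset.sum_congr rfl fun i hi => Finset.sum_congr rfl fun j hj => h1 i hi j hj]
  rw [Finset.sum_congr rfl fun i _ => Finset.sum_comm, Finset.sum_comm]
  refine Finset.sum_congr rfl fun v _ => ?_
  rw [sq, dgr, Finset.card_filter, Finset.sum_mul_sum]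

end DBL

open DBL GOOD in
/-- HC-5 -/
theorem t_DBL (h0 : S_CNT) (h1 : S_T1) (h2 : S_GP) (h3 : S_SIMP) (h4 : S_2G) (h5 : S_SPL)
    (h6 : S_T3) : S_DBL := by
  intro V _ G hiso
  obtain ⟨D0, hf0, hn0⟩ := Pool.Agent.Helper770.Exist.crossingNumber_attained G
  obtain ⟨hd, tl, he⟩ : ∃ hd tl : Sym2 V → V, ∀ e ∈ G.edgeSet, s(hd e, tl e) = e :=
    ⟨fun e => (Quot.out e).1, fun e => (Quot.out e).2, fun e _ => Quot.out_eq e⟩
  obtain ⟨W0, hP0, hL0, hN0⟩ := h1 V G D0 hd tl hf0 he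
  obtain ⟨φ, hφ, hP1, hO1, hT1, hN1⟩ := h2 (Sym2 V) (eF G) W0 hP0
  have hL1 := lb_map hL0 hφ
  obtain ⟨W, hP2, hO2, hT2, hE2, hS2, hN2⟩ := h3 (Sym2 V) (eF G) _ hP1 hO1 hT1
  have hL2 := lb_of hL1 hE2
  have mem : ∀ {e : Sym2 V}, e ∈ G.edgeSet → e ∈ eF G := fun {e} h =>
    Finset.mem_filter.2 ⟨Finset.mem_univ _, h⟩
  have mem' : ∀ {e : Sym2 V}, e ∈ eF G → e ∈ G.edgeSet := fun {e} h => (Finset.mem_filter.1 h).2
  have hTT : TT (eF G) W ≤ 2 * crossingNumber G := by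
    rw [← hn0, (h0 V G D0).2 hf0]
    refine le_sum D0 fun e hee f hff hef => ?_
    exact (hN2 e (mem hee) f (mem hff)).trans
      ((hN1 e (mem hee) f (mem hff)).trans (hN0 e hee f hff hef))
  obtain ⟨W₁, hP3, hO3, hE3, hN3⟩ := h4 (Sym2 V) (eF G) W hP2 hO2 hS2
  have hL3 : Lb (eF G ×ˢ (Finset.univ : Finset Bool)) (fun p => hd p.1) (fun p => tl p.1)
      (fun v => φ (D0.pos v)) W₁ := by
    refine ⟨fun p hp q hq => ?_, fun p hp => ?_, fun p hp => ?_⟩
    · exact hL2.inj p.1 (Finset.mem_product.1 hp).1 q.1 (Finset.mem_product.1 hq).1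
    · have hp1 := (Finset.mem_product.1 hp).1
      exact (hE3 p.1 hp1 p.2).1.trans (hL2.head p.1 hp1)
    · have hp1 := (Finset.mem_product.1 hp).1
      exact (hE3 p.1 hp1 p.2).2.trans (hL2.last p.1 hp1)
  have hcov : ∀ v : V, ∃ i ∈ eF G, v ∈ s(hd i, tl i) := by
    intro v
    obtain ⟨w, hw⟩ := hiso v
    have hvw : s(v, w) ∈ G.edgeSet := (SimpleGraph.mem_edgeSet _).2 hw
    refine ⟨s(v, w), mem hvw, ?_⟩
    rw [he _ hvw]
    exact Sym2.mem_mk_left _ _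
  obtain ⟨loc₂, W₂, hP4, hO4, hL4, hN4, hR4⟩ := h5 V (Sym2 V) (eF G) hd tl _ W₁ hP3 hO3 hL3 hcov
  obtain ⟨ψ, hψ1, hψ2⟩ := exists_psi V
  have hm : ∀ x ∈ eF (prism G), ψ x ∈
      (eF G ×ˢ (Finset.univ : Finset Bool)).disjSum (Finset.univ : Finset V) := by
    intro x hx
    rcases edge_cases (Finset.mem_filter.1 hx).2 with ⟨i, e, hee, rfl⟩ | ⟨y, rfl⟩
    · rw [hψ1]
      exact Finset.inl_mem_disjSum.2 (Finset.mem_product.2 ⟨mem hee, Finset.mem_univ _⟩)
    · rw [hψ2]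
      exact Finset.inr_mem_disjSum.2 (Finset.mem_univ _)
  have hinj : ∀ x ∈ eF (prism G), ∀ y ∈ eF (prism G), ψ x = ψ y → x = y := by
    intro x hx y hy hxy
    rcases edge_cases (Finset.mem_filter.1 hx).2 with ⟨i, e, -, rfl⟩ | ⟨v, rfl⟩ <;>
      rcases edge_cases (Finset.mem_filter.1 hy).2 with ⟨j, f, -, rfl⟩ | ⟨w, rfl⟩
    · rw [hψ1, hψ1] at hxy
      have := Sum.inl.inj hxy
      rw [(Prod.mk.inj this).1, (Prod.mk.inj this).2]
    · rw [hψ1, hψ2] at hxy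
      exact absurd hxy (by simp)
    · rw [hψ1, hψ2] at hxy
      exact absurd hxy (by simp)
    · rw [hψ2, hψ2] at hxy
      rw [Sum.inr.inj hxy]
  have hP5 := PL_comap hP4 hm hinj
  have hO5 := PO_comap hO4 hm
  have hL5 := Lb_comap hL4 hm
  have he5 : ∀ x ∈ (prism G).edgeSet,
      s(Sum.elim (fun p : Sym2 V × Bool => (hd p.1, p.2)) (fun v => (v, false)) (ψ x),
        Sum.elim (fun p : Sym2 V × Bool => (tl p.1, p.2)) (fun v => (v, true)) (ψ x)) = x := by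
    intro x hx
    rcases edge_cases hx with ⟨i, e, hee, rfl⟩ | ⟨y, rfl⟩
    · rw [hψ1]
      show s((hd e, i), (tl e, i)) = pg i e
      conv_rhs => rw [← he e hee]
      rfl
    · rw [hψ2]
      rfl
  obtain ⟨P, hfP, hDP⟩ := h6 (V × Bool) (prism G) _ _ loc₂ (fun x => W₂ (ψ x)) he5 hP5 hO5 hL5
  have g1 := (h0 (V × Bool) (prism G) P).2 hfP
  have g2 := GOOD.sum_le P hDP
  have g3 := cr_le P hfP
  have g4 := TT_comap (W := W₂) hm hinj
  have g5 := TT_double (eF G) W W₂ (fun i j => ((Finset.univ : Finset V).filter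
      (fun v => v ∈ s(hd i, tl i) ∧ v ∈ s(hd j, tl j))).card) hS2 (fun i hi j hj b c => by
        refine (hN4 i hi j hj b c).trans ?_
        exact Nat.add_le_add_right (hN3 i hi j hj b c) _) hR4
  have g6 := sum_cnt G hd tl he
  rw [g6] at g5
  omega

end Pool.Agent.NH90.CN
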