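import Pool.Agent.NH90.CN.Stm2

/-! HC-7: convergence of the normalised crossing numbers of hypercubes -/

set_option autoImplicit false

namespace Pool.Agent.NH90.CN

open Set Classical
open Pool.Agent.Helper770.Crossing Pool.Agent.Helper770.Sep

theorem t_LIM (h : S_CUB) : S_LIM := by
  set a : ℕ → ℝ := fun n => (crossingNumber (hypercube n) : ℝ) / 4 ^ n with ha
  set c : ℕ → ℝ := fun n => ((n : ℝ) ^ 2 + 2 * n + 3) / 2 ^ (n + 1) with hc
  have ha0 : ∀ n, 0 ≤ a n := fun n => by
    simp only [ha]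
    positivity
  have hc0 : ∀ n, 0 ≤ c n := fun n => by
    simp only [hc]
    positivity
  have hstep : ∀ n, 1 ≤ n → a (n + 1) + c (n + 1) ≤ a n + c n := by
    intro n hn
    have h1 : (crossingNumber (hypercube (n + 1)) : ℝ) ≤
        4 * (crossingNumber (hypercube n) : ℝ) + (n : ℝ) ^ 2 * 2 ^ n := by
      exact_mod_cast h n hn
    have h4 : (4 : ℝ) ^ (n + 1) = 2 ^ (n + 2) * 2 ^ n := by
      rw [show (4 : ℝ) = 2 ^ 2 by norm_num, ← pow_mul, ← pow_add]
      congr 1
      ring
    have h2 : a (n + 1) ≤ a n + (n : ℝ) ^ 2 / 2 ^ (n + 2) := by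
      simp only [ha]
      rw [div_le_iff₀ (by positivity)]
      have h5 : ((crossingNumber (hypercube n) : ℝ) / 4 ^ n + (n : ℝ) ^ 2 / 2 ^ (n + 2)) *
          4 ^ (n + 1) = 4 * (crossingNumber (hypercube n) : ℝ) + (n : ℝ) ^ 2 * 2 ^ n := by
        rw [add_mul]
        congr 1
        · rw [pow_succ]
          field_simp
        · rw [h4]
          field_simp
      rw [h5]
      exact h1
    have h3 : (n : ℝ) ^ 2 / 2 ^ (n + 2) + c (n + 1) = c n := by
      simp only [hc]
      push_cast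
      rw [pow_succ (2 : ℝ) (n + 1)]
      field_simp
      ring
    linarith
  set b : ℕ → ℝ := fun n => a (n + 1) + c (n + 1) with hb
  have hanti : Antitone b := antitone_nat_of_succ_le fun n => hstep (n + 1) (by omega)
  have hbdd : BddBelow (Set.range b) := ⟨0, by
    rintro _ ⟨n, rfl⟩
    exact add_nonneg (ha0 _) (hc0 _)⟩
  have hlim := tendsto_atTop_ciInf hanti hbdd
  have hclim : Filter.Tendsto c Filter.atTop (nhds 0) := by
    have t2 := tendsto_pow_const_div_const_pow_of_one_lt 2 (one_lt_two (α := ℝ))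
    have t1 := tendsto_pow_const_div_const_pow_of_one_lt 1 (one_lt_two (α := ℝ))
    have t0 := tendsto_pow_const_div_const_pow_of_one_lt 0 (one_lt_two (α := ℝ))
    have t := ((t2.add (t1.const_mul 2)).add (t0.const_mul 3)).const_mul (1 / 2 : ℝ)
    have e : (1 / 2 : ℝ) * (0 + 2 * 0 + 3 * 0) = 0 := by norm_num
    rw [e] at t
    refine t.congr fun n => ?_
    simp only [hc]
    rw [pow_succ (2 : ℝ) n, pow_one, pow_zero]
    field_simp
  have hc1 : Filter.Tendsto (fun n => c (n + 1)) Filter.atTop (nhds 0) :=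
    (Filter.tendsto_add_atTop_iff_nat 1).2 hclim
  have ha1 : Filter.Tendsto (fun n => a (n + 1)) Filter.atTop (nhds (⨅ i, b i)) := by
    have t := hlim.sub hc1
    rw [sub_zero] at t
    refine t.congr fun n => ?_
    simp only [hb]
    ring
  refine ⟨⨅ i, b i, (Filter.tendsto_add_atTop_iff_nat 1).1 ha1, fun n hn => ?_⟩
  obtain ⟨m, rfl⟩ : ∃ m, n = m + 1 := ⟨n - 1, by omega⟩
  exact ciInf_le hbdd m

end Pool.Agent.NH90.CN
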