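import Pool.Agent.NH90.CN.PARb

/-!
# HC-1: adding a parallel copy of a polyline
-/

set_option autoImplicit false

open Set Classical Filter Topology
open Pool.Agent.Helper770.Crossing Pool.Agent.Helper770.Sep

namespace Pool.Agent.NH90.CN.PARp

theorem seg1 {a b : ℂ} {τ : ℝ} (h0 : 0 ≤ τ) {x : ℂ}
    (hx : x ∈ segment ℝ a (a + (τ : ℂ) * (b - a))) :
    ∃ s : ℝ, 0 ≤ s ∧ s ≤ τ ∧ x = a + (s : ℂ) * (b - a) := by
  rw [segment_eq_image'] at hx
  obtain ⟨θ, hθ, rfl⟩ := hx
  refine ⟨θ * τ, mul_nonneg hθ.1 h0, by nlinarith [hθ.1, hθ.2], ?_⟩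
  simp only [Complex.real_smul]
  push_cast
  ring

theorem seg2 {a b : ℂ} {τ : ℝ} (h1 : τ ≤ 1) {x : ℂ}
    (hx : x ∈ segment ℝ (a + (τ : ℂ) * (b - a)) b) :
    ∃ s : ℝ, τ ≤ s ∧ s ≤ 1 ∧ x = a + (s : ℂ) * (b - a) := by
  rw [segment_eq_image'] at hx
  obtain ⟨θ, hθ, rfl⟩ := hx
  refine ⟨τ + θ * (1 - τ), ?_, ?_, ?_⟩
  · have := mul_nonneg hθ.1 (sub_nonneg.2 h1); linarith
  · nlinarith [hθ.1, hθ.2]
  · simp only [Complex.real_smul]
    push_cast
    ring

theorem seg_par {a b : ℂ} {s : ℝ} (h0 : 0 ≤ s) (h1 : s ≤ 1) :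
    a + (s : ℂ) * (b - a) ∈ segment ℝ a b := by
  rw [segment_eq_image']
  exact ⟨s, ⟨h0, h1⟩, by simp⟩

theorem par_inj {a b : ℂ} (hab : a ≠ b) {s t : ℝ}
    (h : a + (s : ℂ) * (b - a) = a + (t : ℂ) * (b - a)) : s = t := by
  have h1 : b - a ≠ 0 := sub_ne_zero.2 (Ne.symm hab)
  have h2 : ((s : ℂ)) * (b - a) = (t : ℂ) * (b - a) := add_left_cancel h
  exact_mod_cast mul_right_cancel₀ h1 h2

theorem NS_two {s₁ s₂ s : Sym2 ℂ} {l : List ℂ} (h1 : ∀ t ∈ segL l, Xs s₁ t → Xs s t)
    (h2 : ∀ t ∈ segL l, Xs s₂ t → Xs s t) (h3 : ∀ t ∈ segL l, ¬ (Xs s₁ t ∧ Xs s₂ t)) :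
    NS s₁ l + NS s₂ l ≤ NS s l := by
  unfold NS
  revert h1 h2 h3
  generalize segL l = L
  intro h1 h2 h3
  induction L with
  | nil => simp
  | cons t L ih =>
    have ih' := ih (fun t ht => h1 t (List.mem_cons_of_mem _ ht))
      (fun t ht => h2 t (List.mem_cons_of_mem _ ht)) (fun t ht => h3 t (List.mem_cons_of_mem _ ht))
    have a1 := h1 t List.mem_cons_self
    have a2 := h2 t List.mem_cons_self
    have a3 := h3 t List.mem_cons_self
    simp only [List.countP_cons, decide_eq_true_eq]
    by_cases b1 : Xs s₁ t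
    · have b2 : ¬ Xs s₂ t := fun h => a3 ⟨b1, h⟩
      have b3 := a1 b1
      simp only [b1, b2, b3, if_true, if_false]; omega
    · by_cases b2 : Xs s₂ t
      · have b3 := a2 b2
        simp only [b1, b2, b3, if_true, if_false]; omega
      · simp only [b1, b2, if_false]
        split_ifs <;> omega

theorem main1 {I : Type} {A : Finset I} {W : I → List ℂ} {i : I} (hPL : PL A W) (hPO : PO A W)
    (hi : i ∈ A) {a b : ℂ} (hW : W i = [a, b]) : ∃ l : List ℂ, Good1 A W i l := by
  have hab : a ≠ b := by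
    have h1 := hPL.nd i hi
    rw [hW] at h1
    simpa using h1
  have hsegW : segL (W i) = [s(a, b)] := by rw [hW]; rfl
  have haW : a ∈ W i := by rw [hW]; simp
  have hbW : b ∈ W i := by rw [hW]; simp
  have hsW : s(a, b) ∈ segL (W i) := by rw [hsegW]; simp
  -- points of the family on `[a, b]`
  have honab : ∀ j ∈ A, ∀ q ∈ W j, q ∈ segment ℝ a b → q = a ∨ q = b := by
    intro j hj q hq h
    rw [← sg_mk] at h
    exact Sym2.mem_iff.1 (hPO i hi j hj _ hsW q hq h)
  -- other segments meet `[a, b]` in at most one point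
  have hsub : ∀ j ∈ A, ∀ t ∈ segL (W j), t ≠ s(a, b) → ∀ z ∈ sg t, ∀ z' ∈ sg t,
      z ∈ segment ℝ a b → z' ∈ segment ℝ a b → z = z' := by
    intro j hj t ht hne z hz z' hz' hza hza'
    by_contra hzz
    induction t with
    | _ x y =>
      have hxm := mem_of_mem_segL ht (Sym2.mem_mk_left x y)
      have hym := mem_of_mem_segL ht (Sym2.mem_mk_right x y)
      have hxy := ne_of_mem_segL (hPL.nd j hj) ht
      have hPa : a ∈ segment ℝ x y → a = x ∨ a = y := by
        intro h; rw [← sg_mk] at h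
        exact Sym2.mem_iff.1 (hPO j hj i hi _ ht a haW h)
      have hPb : b ∈ segment ℝ x y → b = x ∨ b = y := by
        intro h; rw [← sg_mk] at h
        exact Sym2.mem_iff.1 (hPO j hj i hi _ ht b hbW h)
      rw [sg_mk] at hz hz'
      -- a common endpoint
      have hcommon : a = x ∨ a = y ∨ b = x ∨ b = y := by
        rcases two_points hza hza' hz hz' hzz with h | h | h | h
        · rcases hPa h with h | h
          · left; exact h
          · right; left; exact h
        · rcases hPb h with h | h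
          · right; right; left; exact h
          · right; right; right; exact h
        · rcases honab j hj x hxm h with h | h
          · left; exact h.symm
          · right; right; left; exact h.symm
        · rcases honab j hj y hym h with h | h
          · right; left; exact h.symm
          · right; right; right; exact h.symm
      have main : ∀ p q u v : ℂ, (p = a ∧ q = b ∨ p = b ∧ q = a) → (u = x ∧ v = y ∨ u = y ∧ v = x) →
          p = u → False := by
        intro p q u v h1 h2 h3
        have e1 : segment ℝ a b = segment ℝ p q := by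
          rcases h1 with ⟨rfl, rfl⟩ | ⟨rfl, rfl⟩
          · rfl
          · exact segment_symm ℝ _ _
        have e2 : segment ℝ x y = segment ℝ u v := by
          rcases h2 with ⟨rfl, rfl⟩ | ⟨rfl, rfl⟩
          · rfl
          · exact segment_symm ℝ _ _
        obtain ⟨y', hy1, hy2, hy3⟩ : ∃ y', y' ∈ segment ℝ p q ∧ y' ∈ segment ℝ u v ∧ y' ≠ p := by
          by_cases hzp : z = p
          · refine ⟨z', ?_, ?_, ?_⟩
            · rw [← e1]; exact hza'
            · rw [← e2]; exact hz'
            · rw [← hzp]; exact Ne.symm hzz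
          · refine ⟨z, ?_, ?_, hzp⟩
            · rw [← e1]; exact hza
            · rw [← e2]; exact hz
        rw [← h3] at hy2
        have hqv : q = v := by
          rcases share hy1 hy2 hy3 with h | h
          · have h4 : q ∈ segment ℝ x y := by rw [e2, ← h3]; exact h
            have hq : q = x ∨ q = y := by
              rcases h1 with ⟨h5, h6⟩ | ⟨h5, h6⟩
              · rw [h6] at h4 ⊢; exact hPb h4
              · rw [h6] at h4 ⊢; exact hPa h4
            have hqu : q ≠ u := by
              rw [← h3]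
              rcases h1 with ⟨h5, h6⟩ | ⟨h5, h6⟩
              · rw [h5, h6]; exact hab.symm
              · rw [h5, h6]; exact hab
            rcases h2 with ⟨h7, h8⟩ | ⟨h7, h8⟩
            · rcases hq with h9 | h9
              · exact absurd (h9.trans h7.symm) hqu
              · exact h9.trans h8.symm
            · rcases hq with h9 | h9
              · exact h9.trans h8.symm
              · exact absurd (h9.trans h7.symm) hqu
          · have h4 : v ∈ segment ℝ a b := by rw [e1]; exact h
            have hvm : v ∈ W j := by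
              rcases h2 with ⟨h7, h8⟩ | ⟨h7, h8⟩
              · rw [h8]; exact hym
              · rw [h8]; exact hxm
            have hv := honab j hj v hvm h4
            have hvu : v ≠ p := by
              rw [h3]
              rcases h2 with ⟨h7, h8⟩ | ⟨h7, h8⟩
              · rw [h7, h8]; exact hxy.symm
              · rw [h7, h8]; exact hxy
            rcases h1 with ⟨h5, h6⟩ | ⟨h5, h6⟩
            · rcases hv with h9 | h9
              · exact absurd (h9.trans h5.symm) hvu
              · exact h6.trans h9.symm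
            · rcases hv with h9 | h9
              · exact h6.trans h9.symm
              · exact absurd (h9.trans h5.symm) hvu
        apply hne
        have e3 : s(x, y) = s(u, v) := by
          rcases h2 with ⟨h7, h8⟩ | ⟨h7, h8⟩
          · rw [h7, h8]
          · rw [h7, h8, Sym2.eq_swap]
        have e4 : s(a, b) = s(p, q) := by
          rcases h1 with ⟨h7, h8⟩ | ⟨h7, h8⟩
          · rw [h7, h8]
          · rw [h7, h8, Sym2.eq_swap]
        rw [e3, e4, h3, hqv]
      rcases hcommon with h | h | h | h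
      · exact main a b x y (Or.inl ⟨rfl, rfl⟩) (Or.inl ⟨rfl, rfl⟩) h
      · exact main a b y x (Or.inl ⟨rfl, rfl⟩) (Or.inr ⟨rfl, rfl⟩) h
      · exact main b a x y (Or.inr ⟨rfl, rfl⟩) (Or.inl ⟨rfl, rfl⟩) h
      · exact main b a y x (Or.inr ⟨rfl, rfl⟩) (Or.inr ⟨rfl, rfl⟩) h
  -- the middle point
  obtain ⟨τ, hτ0, hτ1, hτ⟩ : ∃ τ : ℝ, 0 < τ ∧ τ < 1 ∧ ∀ j ∈ A, ∀ t ∈ segL (W j), t ≠ s(a, b) →
      a + (τ : ℂ) * (b - a) ∉ sg t := by
    set L : Finset (Sym2 ℂ) := A.biUnion (fun j => (segL (W j)).toFinset) with hL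
    have hfin : (⋃ t ∈ L.filter (fun t => t ≠ s(a, b)),
        {τ : ℝ | τ ∈ Ioo (0 : ℝ) 1 ∧ a + (τ : ℂ) * (b - a) ∈ sg t}).Finite := by
      apply Set.Finite.biUnion (Finset.finite_toSet _)
      intro t ht
      apply Set.Subsingleton.finite
      intro τ hτ τ' hτ'
      have ht' := Finset.mem_filter.1 (Finset.mem_coe.1 ht)
      obtain ⟨j, hj, htj⟩ := Finset.mem_biUnion.1 ht'.1
      rw [List.mem_toFinset] at htj
      exact par_inj hab (hsub j hj t htj ht'.2 _ hτ.2 _ hτ'.2 (seg_par hτ.1.1.le hτ.1.2.le)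
        (seg_par hτ'.1.1.le hτ'.1.2.le))
    obtain ⟨τ, hτ, hτ'⟩ := ((Ioo_infinite (show (0 : ℝ) < 1 by norm_num)).sdiff hfin).nonempty
    refine ⟨τ, hτ.1, hτ.2, ?_⟩
    intro j hj t ht hne h
    apply hτ'
    simp only [Set.mem_iUnion]
    refine ⟨t, Finset.mem_filter.2 ⟨Finset.mem_biUnion.2 ⟨j, hj, List.mem_toFinset.2 ht⟩, hne⟩,
      hτ, h⟩
  set c : ℂ := a + (τ : ℂ) * (b - a) with hc
  have hbc : b ∉ segment ℝ a c := by
    intro h
    obtain ⟨s, h1, h2, h3⟩ := seg1 hτ0.le h
    have h4 : a + ((1 : ℝ) : ℂ) * (b - a) = a + (s : ℂ) * (b - a) := by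
      rw [← h3]; push_cast; ring
    have := par_inj hab h4
    linarith
  have hac : a ∉ segment ℝ c b := by
    intro h
    obtain ⟨s, h1, h2, h3⟩ := seg2 hτ1.le h
    have h4 : a + ((0 : ℝ) : ℂ) * (b - a) = a + (s : ℂ) * (b - a) := by
      rw [← h3]; push_cast; ring
    have := par_inj hab h4
    linarith
  have hsub1 : segment ℝ a c ⊆ segment ℝ a b := by
    intro x hx
    obtain ⟨s, h1, h2, rfl⟩ := seg1 hτ0.le hx
    exact seg_par h1 (by linarith)
  have hsub2 : segment ℝ c b ⊆ segment ℝ a b := by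
    intro x hx
    obtain ⟨s, h1, h2, rfl⟩ := seg2 hτ1.le hx
    exact seg_par (by linarith) h2
  have hint : ∀ x, x ∈ segment ℝ a c → x ∈ segment ℝ c b → x = c := by
    intro x hx hx'
    obtain ⟨s, h1, h2, rfl⟩ := seg1 hτ0.le hx
    obtain ⟨s', h1', h2', h3'⟩ := seg2 hτ1.le hx'
    have := par_inj hab h3'
    have e : s = τ := by linarith
    rw [e]
  -- the direction
  set n : ℂ := Complex.I * (b - a) with hn
  have hnpos : 0 < cr (b - a) n := by
    have h1 : b - a ≠ 0 := sub_ne_zero.2 (Ne.symm hab)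
    have h2 : cr (b - a) n = Complex.normSq (b - a) := by
      rw [hn, Complex.normSq_apply]
      simp only [cr, Complex.mul_re, Complex.mul_im, Complex.I_re, Complex.I_im]
      ring
    rw [h2]
    exact Complex.normSq_pos.2 h1
  set S : Finset (ℂ × ℂ) := (A.biUnion (fun j => (W j).toFinset)).image (fun q => (q, (0 : ℂ))) ∪
    {(c, n)} with hS
  have hS1 : ∀ j ∈ A, ∀ q ∈ W j, (q, (0 : ℂ)) ∈ S := by
    intro j hj q hq
    rw [hS, Finset.mem_union]
    left
    exact Finset.mem_image.2 ⟨q, Finset.mem_biUnion.2 ⟨j, hj, List.mem_toFinset.2 hq⟩, rfl⟩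
  have hS2 : (c, n) ∈ S := by rw [hS]; simp
  obtain ⟨ε, hD, hε⟩ := ((ev_disj S).and self_mem_nhdsWithin).exists
  have hε : 0 < ε := hε
  have mv0 : ∀ q : ℂ, mv ε (q, 0) = q := by intro q; simp [mv]
  set c' : ℂ := mv ε (c, n) with hc'
  have ha0 := hS1 i hi a haW
  have hb0 := hS1 i hi b hbW
  have hDa : ∀ j ∈ A, ∀ x ∈ W j, ∀ y ∈ W j, Disjoint (segment ℝ a c) (segment ℝ x y) →
      Disjoint (segment ℝ a c') (segment ℝ x y) := by
    intro j hj x hx y hy h
    have := hD _ ha0 _ hS2 _ (hS1 j hj x hx) _ (hS1 j hj y hy) h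
    rwa [mv0, mv0, mv0] at this
  have hDb : ∀ j ∈ A, ∀ x ∈ W j, ∀ y ∈ W j, Disjoint (segment ℝ c b) (segment ℝ x y) →
      Disjoint (segment ℝ c' b) (segment ℝ x y) := by
    intro j hj x hx y hy h
    have := hD _ hS2 _ hb0 _ (hS1 j hj x hx) _ (hS1 j hj y hy) h
    rwa [mv0, mv0, mv0] at this
  have hDc : ∀ j ∈ A, ∀ x ∈ W j, ∀ y ∈ W j, c ∉ segment ℝ x y → c' ∉ segment ℝ x y := by
    intro j hj x hx y hy h
    have h1 := hD _ hS2 _ hS2 _ (hS1 j hj x hx) _ (hS1 j hj y hy)
    simp only [segment_same, Set.disjoint_singleton_left] at h1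
    have h2 := h1 h
    rwa [mv0, mv0] at h2
  have hDa' : ∀ j ∈ A, ∀ q ∈ W j, q ∉ segment ℝ a c → q ∉ segment ℝ a c' := by
    intro j hj q hq h
    have h1 := hDa j hj q hq q hq
    rw [segment_same, Set.disjoint_singleton_right, Set.disjoint_singleton_right] at h1
    exact h1 h
  have hDb' : ∀ j ∈ A, ∀ q ∈ W j, q ∉ segment ℝ c b → q ∉ segment ℝ c' b := by
    intro j hj q hq h
    have h1 := hDb j hj q hq q hq
    rw [segment_same, Set.disjoint_singleton_right, Set.disjoint_singleton_right] at h1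
    exact h1 h
  have cr_self : ∀ d : ℂ, cr d d = 0 := by intro d; unfold cr; ring
  have cr_zero : ∀ d : ℂ, cr d 0 = 0 := by intro d; simp [cr]
  -- `c'` is not on `[a, b]`
  have hc'ab : c' ∉ segment ℝ a b := by
    intro h
    have h1 : cr (b - a) (c' - a) ≤ 0 := by
      apply K_nonpos _ _ h
      · rw [sub_self, cr_zero]
      · rw [cr_self]
    have h2 : cr (b - a) (c' - a) = ε * cr (b - a) n := by
      rw [hc', hc]
      simp only [cr, mv, Complex.sub_re, Complex.sub_im, Complex.add_re, Complex.add_im,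
        Complex.re_ofReal_mul, Complex.im_ofReal_mul]
      ring
    have h3 := mul_pos hε hnpos
    linarith
  have hc'seg : ∀ j ∈ A, ∀ s ∈ segL (W j), c' ∉ sg s := by
    intro j hj s hs
    by_cases hne : s = s(a, b)
    · rw [hne, sg_mk]; exact hc'ab
    · have h1 := hτ j hj s hs hne
      induction s with
      | _ x y =>
        rw [sg_mk] at h1 ⊢
        exact hDc j hj x (mem_of_mem_segL hs (Sym2.mem_mk_left x y)) y
          (mem_of_mem_segL hs (Sym2.mem_mk_right x y)) h1
  have hc'a : c' ≠ a := by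
    intro h; apply hc'ab; rw [h]; exact left_mem_segment _ _ _
  have hc'b : c' ≠ b := by
    intro h; apply hc'ab; rw [h]; exact right_mem_segment _ _ _
  have hsegl : segL [a, c', b] = [s(a, c'), s(c', b)] := rfl
  have hEn : ∀ q, En [a, c', b] q ↔ q = a ∨ q = b := by
    intro q
    unfold En
    simp only [List.head?_cons, Option.some.injEq, List.getLast?_cons_cons, List.getLast?_singleton]
    exact ⟨fun h => h.imp Eq.symm Eq.symm, fun h => h.imp Eq.symm Eq.symm⟩
  refine ⟨[a, c', b], ?_, ?_, ?_, ?_, ?_, ?_, ?_, ?_, ?_⟩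
  · rw [hW]; rfl
  · rw [hW]; rfl
  · simp
  · simp only [List.nodup_cons, List.mem_cons, List.not_mem_nil, or_false, not_or,
      not_false_eq_true, List.nodup_nil, and_true]
    exact ⟨⟨hc'a.symm, hab⟩, hc'b⟩
  · -- H1
    intro q hq hne j hj s hs
    rw [hEn, not_or] at hne
    have hqc : q = c' := by
      simp only [List.mem_cons, List.not_mem_nil, or_false] at hq
      rcases hq with h | h | h
      · exact absurd h hne.1
      · exact h
      · exact absurd h hne.2
    rw [hqc]
    exact hc'seg j hj s hs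
  · -- H2
    intro T hT q hq hqT
    rw [hsegl] at hT
    simp only [List.mem_cons, List.not_mem_nil, or_false] at hT hq
    rcases hT with rfl | rfl
    · rw [sg_mk] at hqT
      rcases hq with rfl | rfl | rfl
      · exact Sym2.mem_mk_left _ _
      · exact Sym2.mem_mk_right _ _
      · exact absurd hqT (hDa' i hi _ hbW hbc)
    · rw [sg_mk] at hqT
      rcases hq with rfl | rfl | rfl
      · exact absurd hqT (hDb' i hi _ haW hac)
      · exact Sym2.mem_mk_left _ _
      · exact Sym2.mem_mk_right _ _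
  · -- H3
    intro T hT j hj q hq hqT
    rw [hsegl] at hT
    simp only [List.mem_cons, List.not_mem_nil, or_false] at hT
    rcases hT with rfl | rfl
    · rw [sg_mk] at hqT
      have h1 : q ∈ segment ℝ a c := by
        by_contra hcon
        exact hDa' j hj q hq hcon hqT
      rcases honab j hj q hq (hsub1 h1) with h | h
      · rw [h]; exact Sym2.mem_mk_left _ _
      · rw [h] at h1; exact absurd h1 hbc
    · rw [sg_mk] at hqT
      have h1 : q ∈ segment ℝ c b := by
        by_contra hcon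
        exact hDb' j hj q hq hcon hqT
      rcases honab j hj q hq (hsub2 h1) with h | h
      · rw [h] at h1; exact absurd h1 hac
      · rw [h]; exact Sym2.mem_mk_right _ _
  · -- X0
    rw [Nx_eq_zero, hsegl]
    intro s hs s' hs' hx
    simp only [List.mem_cons, List.not_mem_nil, or_false] at hs hs'
    have h1 : c' ∈ s := by
      rcases hs with rfl | rfl
      · exact Sym2.mem_mk_right _ _
      · exact Sym2.mem_mk_left _ _
    have h2 : c' ∈ s' := by
      rcases hs' with rfl | rfl
      · exact Sym2.mem_mk_right _ _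
      · exact Sym2.mem_mk_left _ _
    exact hx.1 c' h1 h2
  · -- X1
    intro j hj
    have e1 : Nx [a, c', b] (W j) = NS s(a, c') (W j) + NS s(c', b) (W j) := by
      rw [Nx_cons, Nx_cons, Nx_single]; ring
    have e2 : Nx (W i) (W j) = NS s(a, b) (W j) := by
      rw [hW, Nx_cons, Nx_single]; ring
    rw [e1, e2]
    -- crossings of the two halves
    have ha1 : ∀ t ∈ segL (W j), Xs s(a, c') t → t ≠ s(a, b) ∧ ∃ z ∈ sg t, z ∈ segment ℝ a c := by
      intro t ht hx
      refine ⟨?_, ?_⟩
      · rintro rfl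
        exact hx.1 a (Sym2.mem_mk_left _ _) (Sym2.mem_mk_left _ _)
      · by_contra hcon
        induction t with
        | _ x y =>
          obtain ⟨z, hz1, hz2⟩ := hx.2
          rw [sg_mk] at hz1 hz2
          have h1 := hDa j hj x (mem_of_mem_segL ht (Sym2.mem_mk_left x y)) y
            (mem_of_mem_segL ht (Sym2.mem_mk_right x y)) (by
              rw [Set.disjoint_left]
              intro u hu hu'
              exact hcon ⟨u, by rw [sg_mk]; exact hu', hu⟩)
          exact Set.disjoint_left.1 h1 hz1 hz2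
    have hb1 : ∀ t ∈ segL (W j), Xs s(c', b) t → t ≠ s(a, b) ∧ ∃ z ∈ sg t, z ∈ segment ℝ c b := by
      intro t ht hx
      refine ⟨?_, ?_⟩
      · rintro rfl
        exact hx.1 b (Sym2.mem_mk_right _ _) (Sym2.mem_mk_right _ _)
      · by_contra hcon
        induction t with
        | _ x y =>
          obtain ⟨z, hz1, hz2⟩ := hx.2
          rw [sg_mk] at hz1 hz2
          have h1 := hDb j hj x (mem_of_mem_segL ht (Sym2.mem_mk_left x y)) y
            (mem_of_mem_segL ht (Sym2.mem_mk_right x y)) (by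
              rw [Set.disjoint_left]
              intro u hu hu'
              exact hcon ⟨u, by rw [sg_mk]; exact hu', hu⟩)
          exact Set.disjoint_left.1 h1 hz1 hz2
    apply NS_two
    · intro t ht hx
      obtain ⟨hne, z, hz, hza⟩ := ha1 t ht hx
      refine ⟨?_, ⟨z, by rw [sg_mk]; exact hsub1 hza, hz⟩⟩
      intro q hq hqt
      rcases Sym2.mem_iff.1 hq with rfl | rfl
      · exact hx.1 _ (Sym2.mem_mk_left _ _) hqt
      · have := hsub j hj t ht hne _ (mem_sg_of_mem hqt) z hz (right_mem_segment _ _ _) (hsub1 hza)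
        rw [← this] at hza
        exact hbc hza
    · intro t ht hx
      obtain ⟨hne, z, hz, hza⟩ := hb1 t ht hx
      refine ⟨?_, ⟨z, by rw [sg_mk]; exact hsub2 hza, hz⟩⟩
      intro q hq hqt
      rcases Sym2.mem_iff.1 hq with rfl | rfl
      · have := hsub j hj t ht hne _ (mem_sg_of_mem hqt) z hz (left_mem_segment _ _ _) (hsub2 hza)
        rw [← this] at hza
        exact hac hza
      · exact hx.1 _ (Sym2.mem_mk_right _ _) hqt
    · rintro t ht ⟨hx1, hx2⟩
      obtain ⟨hne, z, hz, hza⟩ := ha1 t ht hx1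
      obtain ⟨-, z', hz', hza'⟩ := hb1 t ht hx2
      have h1 := hsub j hj t ht hne z hz z' hz' (hsub1 hza) (hsub2 hza')
      rw [← h1] at hza'
      have h2 := hint z hza hza'
      rw [h2] at hz
      exact hτ j hj t ht hne hz

end Pool.Agent.NH90.CN.PARp

namespace Pool.Agent.NH90.CN

theorem t_PAR : S_PAR := by
  intro I A W i i' hPL hPO hi hi' h0
  have hex : ∃ l : List ℂ, PARp.Good1 A W i l := by
    obtain ⟨m, w, hm, hW⟩ := PARp.exists_fn (W i) (hPL.len i hi)
    rcases Nat.lt_or_ge m 2 with h | h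
    · have hm1 : m = 1 := by omega
      subst hm1
      exact PARp.main1 hPL hPO hi (a := w 0) (b := w 1) (by rw [hW]; rfl)
    · exact PARp.main2 hPL hPO hi h0 h hW
  obtain ⟨l, hl⟩ := hex
  obtain ⟨h1, h2⟩ := PARp.fam hPL hPO hi hi' hl.len hl.nd hl.hh hl.ht hl.H1 hl.H2 hl.H3
  exact ⟨l, hl.hh, hl.ht, h1, h2, hl.X0, hl.X1⟩

end Pool.Agent.NH90.CN
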