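import Pool.Agent.NH90.CN.Stm2
import Pool.Agent.NH90.CN.Base

set_option autoImplicit false

open Set Classical
open Pool.Agent.Helper770.Crossing Pool.Agent.Helper770.Sep

namespace Pool.Agent.NH90.CN

namespace SPLaux

/-- head and last labels after splitting the vertices of `S` -/
noncomputable def lab {V I : Type} (f : I → V) (c : Bool) (S : Finset V) :
    (I × Bool) ⊕ V → V × Bool :=
  Sum.elim (fun p => (f p.1, p.2 && decide (f p.1 ∈ S))) (fun v => (v, c))

@[simp] lemma lab_inl {V I : Type} (f : I → V) (c : Bool) (S : Finset V) (i : I) (b : Bool) :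
    lab f c S (Sum.inl (i, b)) = (f i, b && decide (f i ∈ S)) := rfl

@[simp] lemma lab_inr {V I : Type} (f : I → V) (c : Bool) (S : Finset V) (v : V) :
    lab f c S (Sum.inr v) = (v, c) := rfl

/-- the index set after splitting the vertices of `S` -/
noncomputable def idx {V I : Type} (A : Finset I) (S : Finset V) : Finset ((I × Bool) ⊕ V) :=
  (A ×ˢ (Finset.univ : Finset Bool)).disjSum S

lemma mem_inl {V I : Type} {A : Finset I} {S : Finset V} {i : I} {b : Bool} :
    (Sum.inl (i, b) : (I × Bool) ⊕ V) ∈ idx A S ↔ i ∈ A := by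
  simp [idx]

lemma mem_inr {V I : Type} {A : Finset I} {S : Finset V} {v : V} :
    (Sum.inr v : (I × Bool) ⊕ V) ∈ idx A S ↔ v ∈ S := by
  simp [idx]

lemma idx_insert {V I : Type} (A : Finset I) (S : Finset V) (u : V) :
    idx A (insert u S) = insert (Sum.inr u) (idx A S) := by
  ext x
  rcases x with ⟨i, b⟩ | w
  · simp [idx]
  · simp [idx]

/-- the induction statement -/
def St {V I : Type} [Fintype V] (A : Finset I) (hd tl : I → V) (loc : V → ℂ)
    (W₁ : I × Bool → List ℂ) (S : Finset V) : Prop :=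
  ∃ (loc₂ : V × Bool → ℂ) (W₂ : (I × Bool) ⊕ V → List ℂ),
    (∀ v, loc₂ (v, false) = loc v) ∧ PL (idx A S) W₂ ∧ PO (idx A S) W₂ ∧
    Lb (idx A S) (lab hd false S) (lab tl true S) loc₂ W₂ ∧
    (∀ i ∈ A, ∀ j ∈ A, ∀ b c, Nx (W₂ (Sum.inl (i, b))) (W₂ (Sum.inl (j, c))) ≤
      Nx (W₁ (i, b)) (W₁ (j, c)) + if b = c then 0 else
        (S.filter (fun v => v ∈ s(hd i, tl i) ∧ v ∈ s(hd j, tl j))).card) ∧
    (∀ v ∈ S, ∀ x ∈ idx A S, Nx (W₂ (Sum.inr v)) (W₂ x) = 0)

lemma Nx_pair_self (v w : ℂ) : Nx [v, w] [v, w] = 0 := by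
  rw [Nx_eq_zero]
  intro s hs s' hs'
  simp only [segL_cons, segL_single, List.mem_singleton] at hs hs'
  subst hs hs'
  exact Xs_irrefl _

lemma base {V I : Type} [Fintype V] (A : Finset I) (hd tl : I → V) (loc : V → ℂ)
    (W₁ : I × Bool → List ℂ) (hP : PL (A ×ˢ (Finset.univ : Finset Bool)) W₁)
    (hO : PO (A ×ˢ (Finset.univ : Finset Bool)) W₁)
    (hL : Lb (A ×ˢ (Finset.univ : Finset Bool)) (fun p => hd p.1) (fun p => tl p.1) loc W₁) :
    St A hd tl loc W₁ ∅ := by
  have key : ∀ x ∈ idx A (∅ : Finset V), ∃ p ∈ A ×ˢ (Finset.univ : Finset Bool),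
      x = Sum.inl p := by
    intro x hx
    rcases x with p | w
    · exact ⟨p, by simpa [idx] using hx, rfl⟩
    · simp [idx] at hx
  refine ⟨fun p => loc p.1, Sum.elim W₁ (fun _ => []), fun v => rfl, ⟨?_, ?_, ?_⟩, ?_,
    ⟨?_, ?_, ?_⟩, ?_, ?_⟩
  · intro x hx
    obtain ⟨p, hp, rfl⟩ := key x hx
    exact hP.len p hp
  · intro x hx
    obtain ⟨p, hp, rfl⟩ := key x hx
    exact hP.nd p hp
  · intro x hx y hy hxy
    obtain ⟨p, hp, rfl⟩ := key x hx
    obtain ⟨q, hq, rfl⟩ := key y hy
    exact hP.sep p hp q hq (fun h => hxy (by rw [h]))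
  · intro x hx y hy
    obtain ⟨p, hp, rfl⟩ := key x hx
    obtain ⟨q, hq, rfl⟩ := key y hy
    exact hO p hp q hq
  · intro x hx y hy a ha b hb hab
    obtain ⟨⟨i, c⟩, hp, rfl⟩ := key x hx
    obtain ⟨⟨j, d⟩, hq, rfl⟩ := key y hy
    obtain ⟨a, a'⟩ := a
    obtain ⟨b, b'⟩ := b
    simp only [lab_inl, Finset.notMem_empty, decide_false, Bool.and_false, Sym2.mem_iff,
      Prod.mk.injEq] at ha hb
    have ha1 : a ∈ s(hd i, tl i) := by
      rw [Sym2.mem_iff]; rcases ha with ha | ha
      · exact Or.inl ha.1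
      · exact Or.inr ha.1
    have hb1 : b ∈ s(hd j, tl j) := by
      rw [Sym2.mem_iff]; rcases hb with hb | hb
      · exact Or.inl hb.1
      · exact Or.inr hb.1
    have ha2 : a' = false := by rcases ha with ha | ha <;> exact ha.2
    have hb2 : b' = false := by rcases hb with hb | hb <;> exact hb.2
    have := hL.inj (i, c) hp (j, d) hq a ha1 b hb1 hab
    rw [ha2, hb2, this]
  · intro x hx
    obtain ⟨p, hp, rfl⟩ := key x hx
    exact hL.head p hp
  · intro x hx
    obtain ⟨p, hp, rfl⟩ := key x hx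
    exact hL.last p hp
  · intro i hi j hj b c
    exact Nat.le_add_right _ _
  · intro v hv
    simp at hv

lemma insert_inst {X : Type} (d₁ d₂ : DecidableEq X) (a : X) (s : Finset X) :
    @insert _ _ (@Finset.instInsert _ d₁) a s = @insert _ _ (@Finset.instInsert _ d₂) a s := by
  ext x
  rw [@Finset.mem_insert _ d₁, @Finset.mem_insert _ d₂]

lemma step (h : S_SPLIT) {V I : Type} [Fintype V] (A : Finset I) (hd tl : I → V) (loc : V → ℂ)
    (W₁ : I × Bool → List ℂ) (S : Finset V) (u : V) (hu : u ∉ S)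
    (hlab : ∃ i ∈ A, u ∈ s(hd i, tl i)) (hS : St A hd tl loc W₁ S) :
    St A hd tl loc W₁ (insert u S) := by
  obtain ⟨lc, W, hlc, hP, hO, hL, hB, hZ⟩ := hS
  obtain ⟨i₀, hi₀, hui₀⟩ := hlab
  -- the label `(u, false)`
  have f1 : ∀ (i : I) (b : Bool), u ∈ s(hd i, tl i) →
      (u, false) ∈ s(lab hd false S (Sum.inl (i, b)), lab tl true S (Sum.inl (i, b))) := by
    intro i b hi
    rw [Sym2.mem_iff] at hi ⊢
    rcases hi with hi | hi
    · left; rw [lab_inl, ← hi]; simp [hu]
    · right; rw [lab_inl, ← hi]; simp [hu]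
  have f1' : ∀ (i : I) (b : Bool),
      (u, false) ∈ s(lab hd false S (Sum.inl (i, b)), lab tl true S (Sum.inl (i, b))) →
      u ∈ s(hd i, tl i) := by
    intro i b hi
    rw [Sym2.mem_iff] at hi ⊢
    rcases hi with hi | hi
    · left; rw [lab_inl] at hi; exact (Prod.mk.injEq _ _ _ _ ▸ hi).1
    · right; rw [lab_inl] at hi; exact (Prod.mk.injEq _ _ _ _ ▸ hi).1
  have hend : ∀ b, En (W (Sum.inl (i₀, b))) (loc u) := by
    intro b
    rw [← hlc u]
    exact hL.en (mem_inl.2 hi₀) (f1 i₀ b hui₀)
  have f2 : ∀ x ∈ idx A S, loc u ∈ W x → En (W x) (loc u) := by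
    intro x hx hv
    by_cases hxt : x = Sum.inl (i₀, true)
    · rw [hxt]; exact hend true
    · exact (hP.sep x hx _ (mem_inl.2 hi₀) hxt (loc u) hv (En_mem (hend true))).1
  have f3 : ∀ x ∈ idx A S, loc u ∈ W x ↔ (u, false) ∈ s(lab hd false S x, lab tl true S x) := by
    intro x hx
    constructor
    · intro hv
      obtain ⟨a, ha, hla⟩ := hL.exists_label hx (f2 x hx hv)
      have : a = (u, false) := hL.inj x hx _ (mem_inl.2 hi₀) a ha (u, false) (f1 i₀ true hui₀)
        (by rw [hla, hlc])
      rw [← this]; exact ha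
    · intro hv
      have := En_mem (hL.en hx hv)
      rwa [hlc] at this
  have f4 : ∀ x ∈ idx A S, ∀ a ∈ s(lab hd false S x, lab tl true S x),
      lc a = loc u → a = (u, false) := by
    intro x hx a ha hla
    exact hL.inj x hx _ (mem_inl.2 hi₀) a ha (u, false) (f1 i₀ true hui₀)
        (by rw [hla, hlc])
  set M : Finset ((I × Bool) ⊕ V) := A.image (fun i => Sum.inl (i, true)) with hM
  have hMl : ∀ i ∈ A, ∀ b, (Sum.inl (i, b) : (I × Bool) ⊕ V) ∈ M ↔ b = true := by
    intro i hi b
    rw [hM, Finset.mem_image]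
    constructor
    · rintro ⟨j, hj, hj'⟩
      simp only [Sum.inl.injEq, Prod.mk.injEq] at hj'
      exact hj'.2.symm
    · rintro rfl
      exact ⟨i, hi, rfl⟩
  have hMr : ∀ w, (Sum.inr w : (I × Bool) ⊕ V) ∉ M := by
    intro w hw
    rw [hM, Finset.mem_image] at hw
    obtain ⟨j, hj, hj'⟩ := hw
    exact absurd hj' (by simp)
  have hr : (Sum.inr u : (I × Bool) ⊕ V) ∉ idx A S := fun hh => hu (mem_inr.1 hh)
  obtain ⟨v', hv'v, hv'W, hP', hO', hB', hZ'⟩ := h ((I × Bool) ⊕ V) (idx A S) M W (Sum.inr u)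
    (loc u) hP hO hr ⟨_, mem_inl.2 hi₀, En_mem (hend true)⟩ f2
  have hidx : @insert _ _ (@Finset.instInsert _ (fun a b => propDecidable (a = b)))
      (Sum.inr u : (I × Bool) ⊕ V) (idx A S) = idx A (insert u S) := by
    rw [idx_insert]
    exact insert_inst _ _ _ _
  rw [hidx] at hP' hO'
  -- values of the new family
  set W' := spl W M (Sum.inr u) (loc u) v' with hW'
  have w1 : W' (Sum.inr u) = [loc u, v'] := by
    rw [hW']; simp [spl]
  have w2 : ∀ i ∈ A, W' (Sum.inl (i, true)) =
      (W (Sum.inl (i, true))).map (fun x => if x = loc u then v' else x) := by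
    intro i hi
    rw [hW']
    have : (Sum.inl (i, true) : (I × Bool) ⊕ V) ∈ M := (hMl i hi true).2 rfl
    simp [spl, this]
  have w3 : ∀ i ∈ A, W' (Sum.inl (i, false)) = W (Sum.inl (i, false)) := by
    intro i hi
    rw [hW']
    have : (Sum.inl (i, false) : (I × Bool) ⊕ V) ∉ M := by
      rw [hMl i hi false]; simp
    simp [spl, this]
  have w4 : ∀ w ∈ S, W' (Sum.inr w) = W (Sum.inr w) := by
    intro w hw
    have hwu : w ≠ u := fun hh => hu (hh ▸ hw)
    rw [hW']
    simp [spl, hMr w, hwu]
  have lc1 : Function.update lc (u, true) v' (u, true) = v' := Function.update_self _ _ _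
  have lc2 : ∀ a : V × Bool, a ≠ (u, true) → Function.update lc (u, true) v' a = lc a := by
    intro a ha
    exact Function.update_of_ne ha _ _
  -- heads and tails
  have endl : ∀ (f : I → V) (i : I) (hi : i ∈ A) (b : Bool),
      (lab f false S (Sum.inl (i, b)) ∈
        s(lab hd false S (Sum.inl (i, b)), lab tl true S (Sum.inl (i, b)))) →
      (if b = true then (if lc (lab f false S (Sum.inl (i, b))) = loc u then v' else
        lc (lab f false S (Sum.inl (i, b)))) else lc (lab f false S (Sum.inl (i, b)))) =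
      Function.update lc (u, true) v' (lab f false (insert u S) (Sum.inl (i, b))) := by
    intro f i hi b hmem
    cases b with
    | false =>
      simp only [Bool.false_eq_true, if_false, lab_inl, Bool.false_and]
      rw [lc2 _ (by simp)]
    | true =>
      simp only [if_true]
      by_cases hfu : f i = u
      · have e1 : lab f false S (Sum.inl (i, true)) = (u, false) := by
          simp [hfu, hu]
        have e2 : lab f false (insert u S) (Sum.inl (i, true)) = (u, true) := by
          simp [hfu]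
        rw [e1, e2, lc1, hlc, if_pos rfl]
      · have e2 : lab f false (insert u S) (Sum.inl (i, true)) =
            lab f false S (Sum.inl (i, true)) := by
          simp [hfu]
        have e3 : lc (lab f false S (Sum.inl (i, true))) ≠ loc u := by
          intro hh
          have := f4 _ (mem_inl.2 hi) _ hmem hh
          rw [lab_inl, Prod.mk.injEq] at this
          exact hfu this.1
        rw [e2, if_neg e3, lc2 _ (by
          rw [lab_inl]
          intro hh
          exact hfu (Prod.mk.injEq _ _ _ _ ▸ hh).1)]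
  -- new labels are old labels
  have f5 : ∀ x ∈ idx A (insert u S),
      ∀ a ∈ s(lab hd false (insert u S) x, lab tl true (insert u S) x), a ≠ (u, true) →
      ∃ y ∈ idx A S, a ∈ s(lab hd false S y, lab tl true S y) := by
    intro x hx a ha hau
    rcases x with ⟨i, b⟩ | w
    · have hi : i ∈ A := mem_inl.1 hx
      have key : ∀ f : I → V, a = lab f false (insert u S) (Sum.inl (i, b)) →
          a = lab f false S (Sum.inl (i, b)) := by
        intro f hf
        by_cases hfu : f i = u
        · have hb : b = false := by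
            cases b with
            | false => rfl
            | true => exact absurd (by rw [hf]; simp [hfu]) hau
          rw [hf, hb]; simp
        · rw [hf]; simp [hfu]
      refine ⟨Sum.inl (i, b), mem_inl.2 hi, ?_⟩
      rw [Sym2.mem_iff] at ha ⊢
      rcases ha with ha | ha
      · left; exact key hd ha
      · right; exact key tl ha
    · have hw : w ∈ insert u S := mem_inr.1 hx
      rw [Finset.mem_insert] at hw
      rcases hw with rfl | hw
      · rw [Sym2.mem_iff] at ha
        rcases ha with ha | ha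
        · refine ⟨Sum.inl (i₀, true), mem_inl.2 hi₀, ?_⟩
          rw [ha]; exact f1 i₀ true hui₀
        · exact absurd ha hau
      · exact ⟨Sum.inr w, mem_inr.2 hw, ha⟩
  refine ⟨Function.update lc (u, true) v', W', ?_, ?_, ?_, ⟨?_, ?_, ?_⟩, ?_, ?_⟩
  · intro v
    rw [lc2 _ (by simp), hlc]
  · exact hP'
  · exact hO'
  · -- injectivity
    have half : ∀ x ∈ idx A (insert u S),
        ∀ a ∈ s(lab hd false (insert u S) x, lab tl true (insert u S) x), a ≠ (u, true) →
        Function.update lc (u, true) v' a ≠ v' := by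
      intro x hx a ha hau hh
      obtain ⟨y, hy, hay⟩ := f5 x hx a ha hau
      rw [lc2 a hau] at hh
      have := En_mem (hL.en hy hay)
      rw [hh] at this
      exact hv'W y hy this
    intro x hx y hy a ha b hb hab
    by_cases hau : a = (u, true)
    · by_cases hbu : b = (u, true)
      · rw [hau, hbu]
      · exfalso
        rw [hau, lc1] at hab
        exact half y hy b hb hbu hab.symm
    · by_cases hbu : b = (u, true)
      · exfalso
        rw [hbu, lc1] at hab
        exact half x hx a ha hau hab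
      · obtain ⟨x', hx', hax⟩ := f5 x hx a ha hau
        obtain ⟨y', hy', hby⟩ := f5 y hy b hb hbu
        rw [lc2 a hau, lc2 b hbu] at hab
        exact hL.inj x' hx' y' hy' a hax b hby hab
  · intro x hx
    rcases x with ⟨i, b⟩ | w
    · have hi : i ∈ A := mem_inl.1 hx
      have he := endl hd i hi b (Sym2.mem_mk_left _ _)
      have hh := hL.head (Sum.inl (i, b)) (mem_inl.2 hi)
      rw [← he]
      cases b with
      | false =>
        rw [w3 i hi, hh]; simp
      | true =>
        rw [w2 i hi, List.head?_map, hh]; simp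
    · have hw : w ∈ insert u S := mem_inr.1 hx
      rw [Finset.mem_insert] at hw
      rcases hw with rfl | hw
      · rw [w1, lab_inr, lc2 _ (by simp), hlc]; rfl
      · have hwu : w ≠ u := fun hh => hu (hh ▸ hw)
        rw [w4 w hw, hL.head _ (mem_inr.2 hw), lab_inr, lab_inr, lc2 _ (by simp)]
  · intro x hx
    rcases x with ⟨i, b⟩ | w
    · have hi : i ∈ A := mem_inl.1 hx
      have he := endl tl i hi b (Sym2.mem_mk_right _ _)
      have hh := hL.last (Sum.inl (i, b)) (mem_inl.2 hi)
      have e0 : ∀ T : Finset V, lab tl true T (Sum.inl (i, b)) =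
        lab tl false T (Sum.inl (i, b)) := fun T => rfl
      rw [e0] at hh ⊢
      rw [← he]
      cases b with
      | false =>
        rw [w3 i hi, hh]; simp
      | true =>
        rw [w2 i hi, List.getLast?_map, hh]; simp
    · have hw : w ∈ insert u S := mem_inr.1 hx
      rw [Finset.mem_insert] at hw
      rcases hw with rfl | hw
      · rw [w1, lab_inr, lc1]; rfl
      · have hwu : w ≠ u := fun hh => hu (hh ▸ hw)
        rw [w4 w hw, hL.last _ (mem_inr.2 hw), lab_inr, lab_inr, lc2 _ (by simp [hwu])]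
  · -- the bound
    intro i hi j hj b c
    have b1 := hB' (Sum.inl (i, b)) (mem_inl.2 hi) (Sum.inl (j, c)) (mem_inl.2 hj)
    have b2 := hB i hi j hj b c
    have hc : (loc u ∈ W (Sum.inl (i, b)) ∧ loc u ∈ W (Sum.inl (j, c)) ∧
        ¬ ((Sum.inl (i, b) : (I × Bool) ⊕ V) ∈ M ↔ (Sum.inl (j, c) : (I × Bool) ⊕ V) ∈ M)) →
        (u ∈ s(hd i, tl i) ∧ u ∈ s(hd j, tl j)) ∧ b ≠ c := by
      rintro ⟨h1, h2, h3⟩
      rw [f3 _ (mem_inl.2 hi)] at h1
      rw [f3 _ (mem_inl.2 hj)] at h2
      rw [hMl i hi b, hMl j hj c] at h3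
      exact ⟨⟨f1' i b h1, f1' j c h2⟩, fun hbc => h3 (by rw [hbc])⟩
    by_cases hbc : b = c
    · rw [if_pos hbc] at b2 ⊢
      rw [if_neg (fun hh => (hc hh).2 hbc)] at b1
      omega
    · rw [if_neg hbc] at b2 ⊢
      by_cases hui : u ∈ s(hd i, tl i) ∧ u ∈ s(hd j, tl j)
      · rw [Finset.filter_insert, if_pos hui, Finset.card_insert_of_notMem (by
          intro hh
          exact hu (Finset.mem_filter.1 hh).1)]
        split_ifs at b1 <;> omega
      · rw [Finset.filter_insert, if_neg hui]
        rw [if_neg (fun hh => hui (hc hh).1)] at b1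
        omega
  · -- zeros
    intro w hw x hx
    rw [idx_insert, Finset.mem_insert] at hx
    rw [Finset.mem_insert] at hw
    rcases hw with rfl | hw
    · rw [w1]
      rcases hx with rfl | hx
      · rw [w1]; exact Nx_pair_self _ _
      · exact hZ' x hx
    · rcases hx with rfl | hx
      · rw [w1, Nx_comm]
        exact hZ' (Sum.inr w) (mem_inr.2 hw)
      · have b1 := hB' (Sum.inr w) (mem_inr.2 hw) x hx
        have b2 := hZ w hw x hx
        have hwu : w ≠ u := fun hh => hu (hh ▸ hw)
        have : ¬ (loc u ∈ W (Sum.inr w) ∧ loc u ∈ W x ∧ ¬ (Sum.inr w ∈ M ↔ x ∈ M)) := by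
          rintro ⟨h1, -, -⟩
          rw [f3 _ (mem_inr.2 hw), Sym2.mem_iff, lab_inr, lab_inr, Prod.mk.injEq,
            Prod.mk.injEq] at h1
          rcases h1 with h1 | h1 <;> exact hwu h1.1.symm
        rw [if_neg this] at b1
        exact Nat.le_zero.1 (by rw [b2] at b1; exact b1)

end SPLaux

open SPLaux in
theorem t_SPL (h : S_SPLIT) : S_SPL := by
  intro V I _ A hd tl loc W₁ hP hO hL hall
  have key : ∀ S : Finset V, St A hd tl loc W₁ S := by
    intro S
    induction S using Finset.induction_on with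
    | empty => exact base A hd tl loc W₁ hP hO hL
    | insert u S hu ih => exact step h A hd tl loc W₁ S u hu (hall u) ih
  obtain ⟨lc, W, hlc, hP', hO', hL', hB, hZ⟩ := key Finset.univ
  have e1 : lab hd false (Finset.univ : Finset V) =
      Sum.elim (fun p => (hd p.1, p.2)) (fun v => (v, false)) := by
    funext x
    rcases x with ⟨i, b⟩ | w
    · simp
    · rfl
  have e2 : lab tl true (Finset.univ : Finset V) =
      Sum.elim (fun p => (tl p.1, p.2)) (fun v => (v, true)) := by
    funext x
    rcases x with ⟨i, b⟩ | w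
    · simp
    · rfl
  rw [e1, e2] at hL'
  exact ⟨lc, W, hP', hO', hL', hB, fun v x hx => hZ v (Finset.mem_univ v) x hx⟩

end Pool.Agent.NH90.CN
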