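import Pool.Agent.NH90.CN.Stm2
import Pool.Agent.NH90.CN.Base

/-!
# HC-3: splitting a vertex
-/

set_option autoImplicit false

open Set Classical
open Pool.Agent.Helper770.Crossing Pool.Agent.Helper770.Sep

namespace Pool.Agent.NH90.CN

namespace Split94

/-! ### the choice of the new point -/

lemma tube {K : Set ℂ} (hK : IsClosed K) {v g : ℂ} (h : Disjoint K (segment ℝ v g)) :
    ∀ᶠ w in nhds v, Disjoint K (segment ℝ w g) := by
  have h1 : ∀ᶠ w in nhds v, ∀ s ∈ Icc (0 : ℝ) 1, w + s • (g - w) ∉ K := by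
    apply IsCompact.eventually_forall_of_forall_eventually isCompact_Icc
    intro s hs
    have hcont : Continuous fun z : ℂ × ℝ => z.1 + z.2 • (g - z.1) := by fun_prop
    have hopen : IsOpen ((fun z : ℂ × ℝ => z.1 + z.2 • (g - z.1)) ⁻¹' Kᶜ) :=
      hK.isOpen_compl.preimage hcont
    refine hopen.mem_nhds ?_
    show v + s • (g - v) ∉ K
    intro hv
    refine Set.disjoint_left.1 h hv ?_
    rw [segment_eq_image']
    exact ⟨s, hs, rfl⟩
  filter_upwards [h1] with w hw
  rw [Set.disjoint_left]
  intro z hz hz'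
  rw [segment_eq_image'] at hz'
  obtain ⟨s, hs, rfl⟩ := hz'
  exact hw s hs hz

/-- a direction which is not parallel to finitely many nonzero vectors -/
lemma direction (F : Finset ℂ) : ∃ ζ : ℂ, ζ ≠ 0 ∧ ∀ z ∈ F, z ≠ 0 → ∀ c : ℝ, z ≠ (c : ℂ) * ζ := by
  obtain ⟨τ, hτ⟩ := Infinite.exists_notMem_finset (F.image fun z : ℂ => z.im / z.re)
  refine ⟨1 + τ * Complex.I, ?_, ?_⟩
  · intro h
    have := congrArg Complex.re h
    simp at this
  · intro z hz hz0 c hc
    have h1 : z.re = c := by rw [hc]; simp
    have h2 : z.im = c * τ := by rw [hc]; simp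
    by_cases h0 : c = 0
    · apply hz0
      rw [hc, h0]
      simp
    · apply hτ
      rw [Finset.mem_image]
      refine ⟨z, hz, ?_⟩
      rw [h1, h2]
      field_simp

lemma choice (P : Finset ℂ) (S : Finset (Sym2 ℂ)) (v : ℂ) : ∃ v' : ℂ, v' ≠ v ∧
    (∀ q ∈ P, q ≠ v → ∀ c : ℝ, q - v ≠ (c : ℂ) * (v' - v)) ∧
    (∀ g ∈ P, ∀ t ∈ S, Disjoint (sg t) (segment ℝ v g) → Disjoint (sg t) (segment ℝ v' g)) ∧
    (∀ g ∈ P, ∀ q ∈ P, q ∉ segment ℝ v g → q ∉ segment ℝ v' g) := by
  obtain ⟨ζ, hζ, hF⟩ := direction (P.image fun q => q - v)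
  have e1 : ∀ᶠ w in nhds v, ∀ g ∈ P, ∀ t ∈ S, Disjoint (sg t) (segment ℝ v g) →
      Disjoint (sg t) (segment ℝ w g) := by
    rw [Filter.eventually_all_finset]
    intro g _
    rw [Filter.eventually_all_finset]
    intro t _
    by_cases h : Disjoint (sg t) (segment ℝ v g)
    · filter_upwards [tube (isClosed_sg t) h] with w hw _
      exact hw
    · exact Filter.Eventually.of_forall fun w h' => absurd h' h
  have e2 : ∀ᶠ w in nhds v, ∀ g ∈ P, ∀ q ∈ P, q ∉ segment ℝ v g → q ∉ segment ℝ w g := by
    rw [Filter.eventually_all_finset]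
    intro g _
    rw [Filter.eventually_all_finset]
    intro q _
    by_cases h : q ∈ segment ℝ v g
    · exact Filter.Eventually.of_forall fun w h' => absurd h h'
    · filter_upwards [tube (isClosed_singleton (x := q)) (by
        rw [Set.disjoint_singleton_left]; exact h)] with w hw _
      rwa [Set.disjoint_singleton_left] at hw
  have e3 : Filter.Tendsto (fun ε : ℝ => v + (ε : ℂ) * ζ) (nhdsWithin 0 (Ioi 0)) (nhds v) := by
    have hc : Continuous fun ε : ℝ => v + (ε : ℂ) * ζ := by fun_prop
    have := hc.tendsto 0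
    simp only [Complex.ofReal_zero, zero_mul, add_zero] at this
    exact this.mono_left nhdsWithin_le_nhds
  have e4 := e3.eventually (e1.and e2)
  have e5 : ∀ᶠ ε : ℝ in nhdsWithin 0 (Ioi 0), 0 < ε := eventually_mem_nhdsWithin
  obtain ⟨ε, ⟨h1, h2⟩, hε⟩ := (e4.and e5).exists
  have hεc : (ε : ℂ) ≠ 0 := by exact_mod_cast hε.ne'
  refine ⟨v + (ε : ℂ) * ζ, ?_, ?_, h1, h2⟩
  · intro h
    have : (ε : ℂ) * ζ = 0 := by
      have := congrArg (fun z => z - v) h
      simpa using this
    rcases mul_eq_zero.1 this with h' | h'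
    · exact hεc h'
    · exact hζ h'
  · intro q hq hqv c hc
    refine hF (q - v) (Finset.mem_image.2 ⟨q, hq, rfl⟩) (sub_ne_zero.2 hqv) (c * ε) ?_
    rw [hc]
    push_cast
    ring

/-! ### counting -/

lemma countP_le {α : Type} (L : List α) (p q e : α → Prop) (h : ∀ u ∈ L, p u → q u ∨ e u) :
    L.countP (fun u => decide (p u)) ≤
      L.countP (fun u => decide (q u)) + L.countP (fun u => decide (e u)) := by
  induction L with
  | nil => simp
  | cons x L ih =>
    have ih := ih (fun u hu => h u (List.mem_cons_of_mem _ hu))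
    have hx := h x List.mem_cons_self
    simp only [List.countP_cons, decide_eq_true_eq]
    by_cases h1 : p x
    · rcases hx h1 with h2 | h2
      · simp only [h1, h2, if_true]
        omega
      · simp only [h1, h2, if_true]
        split_ifs <;> omega
    · simp only [h1, if_false]
      omega

lemma sum_le {α : Type} (L L' : List α) (p q e : α → α → Prop)
    (h : ∀ t ∈ L, ∀ u ∈ L', p t u → q t u ∨ e t u) :
    (L.map fun t => L'.countP (fun u => decide (p t u))).sum ≤
      (L.map fun t => L'.countP (fun u => decide (q t u))).sum +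
      (L.map fun t => L'.countP (fun u => decide (e t u))).sum := by
  induction L with
  | nil => simp
  | cons x L ih =>
    have ih := ih (fun t ht => h t (List.mem_cons_of_mem _ ht))
    have hx := countP_le L' (p x) (q x) (e x) (h x List.mem_cons_self)
    simp only [List.map_cons, List.sum_cons]
    omega

lemma sum_prod {α : Type} (L L' : List α) (e : α → α → Prop) (p q : α → Prop)
    (h : ∀ t ∈ L, ∀ u ∈ L', e t u → p t ∧ q u) :
    (L.map fun t => L'.countP (fun u => decide (e t u))).sum ≤
      L.countP (fun t => decide (p t)) * L'.countP (fun u => decide (q u)) := by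
  induction L with
  | nil => simp
  | cons x L ih =>
    have ih := ih (fun t ht => h t (List.mem_cons_of_mem _ ht))
    rw [List.map_cons, List.sum_cons, List.countP_cons]
    by_cases hx : p x
    · have h1 : L'.countP (fun u => decide (e x u)) ≤ L'.countP (fun u => decide (q u)) := by
        apply List.countP_mono_left
        intro u hu
        simp only [decide_eq_true_eq]
        exact fun h' => (h x List.mem_cons_self u hu h').2
      simp only [hx, decide_true, if_true]
      rw [add_mul, one_mul]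
      omega
    · have h1 : L'.countP (fun u => decide (e x u)) = 0 := by
        rw [List.countP_eq_zero]
        intro u hu
        simp only [decide_eq_true_eq]
        exact fun h' => hx (h x List.mem_cons_self u hu h').1
      rw [h1]
      simpa [hx] using ih

/-- an end lies on at most one segment -/
lemma one_seg {l : List ℂ} (hl : l.Nodup) {v : ℂ} (hv : v ∈ l → En l v) (p : Sym2 ℂ → Prop)
    (hp : ∀ t, p t ↔ v ∈ t) : (segL l).countP (fun t => decide (p t)) ≤ 1 := by
  have key : ∀ m : List ℂ, m.Nodup → m.head? = some v →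
      (segL m).countP (fun t => decide (p t)) ≤ 1 := by
    intro m hm hh
    cases m with
    | nil => simp
    | cons x m =>
      cases m with
      | nil => simp
      | cons y m =>
        simp only [List.head?_cons, Option.some.injEq] at hh
        subst hh
        rw [segL_cons, List.countP_cons]
        have h0 : (segL (y :: m)).countP (fun t => decide (p t)) = 0 := by
          rw [List.countP_eq_zero]
          intro t ht
          simp only [decide_eq_true_eq]
          exact fun h => (List.nodup_cons.1 hm).1 (mem_of_mem_segL ht ((hp t).1 h))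
        rw [h0]
        split_ifs <;> omega
  by_cases h : v ∈ l
  · rcases hv h with h1 | h1
    · exact key l hl h1
    · have h2 := key l.reverse (List.nodup_reverse.2 hl) (by rw [List.head?_reverse]; exact h1)
      rwa [segL_reverse, List.countP_reverse] at h2
  · have h0 : (segL l).countP (fun t => decide (p t)) = 0 := by
      rw [List.countP_eq_zero]
      intro t ht
      simp only [decide_eq_true_eq]
      exact fun h' => h (mem_of_mem_segL ht ((hp t).1 h'))
    omega

lemma Nx_map (φ ψ : ℂ → ℂ) (l l' : List ℂ) : Nx (l.map φ) (l'.map ψ) =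
    ((segL l).map fun t => (segL l').countP
      (fun u => decide (Xs (Sym2.map φ t) (Sym2.map ψ u)))).sum := by
  unfold Nx NS
  rw [segL_map, segL_map, List.map_map]
  congr 1
  apply List.map_congr_left
  intro t _
  simp only [Function.comp, List.countP_map]
  rfl

lemma par_mul {a b : ℂ} {c : ℝ} (h : a = (c : ℂ) * b) (ha : a ≠ 0) :
    b = ((c⁻¹ : ℝ) : ℂ) * a := by
  have hc : (c : ℂ) ≠ 0 := by
    intro h0
    rw [h0, zero_mul] at h
    exact ha h
  rw [h]
  push_cast
  field_simp

lemma En_map {l : List ℂ} {x : ℂ} (φ : ℂ → ℂ) (h : En l x) : En (l.map φ) (φ x) := by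
  rcases h with h | h
  · left
    rw [List.head?_map, h]
    rfl
  · right
    rw [List.getLast?_map, h]
    rfl

end Split94

open Split94 in
theorem t_SPLIT : S_SPLIT := by
  intro I A M W r v hL hO hr hv hE
  obtain ⟨P, hP⟩ : ∃ P : Finset ℂ, ∀ q, q ∈ P ↔ ∃ i ∈ A, q ∈ W i :=
    ⟨A.biUnion fun i => (W i).toFinset, fun q => by simp⟩
  obtain ⟨S, hS⟩ : ∃ S : Finset (Sym2 ℂ), ∀ t, t ∈ S ↔ ∃ i ∈ A, t ∈ segL (W i) :=
    ⟨A.biUnion fun i => (segL (W i)).toFinset, fun t => by simp⟩
  have hvP : v ∈ P := (hP v).2 hv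
  obtain ⟨v', hv', hpar, hdis, hpt⟩ := choice P S v
  have hsub : v' - v ≠ 0 := sub_ne_zero.2 hv'
  -- the new point is not in the family
  have hv'P : v' ∉ P := by
    intro h
    exact hpar v' h hv' 1 (by simp)
  have hv'W : ∀ i ∈ A, v' ∉ W i := fun i hi h => hv'P ((hP v').2 ⟨i, hi, h⟩)
  have hPO : ∀ i ∈ A, ∀ t ∈ segL (W i), ∀ q ∈ P, q ∈ sg t → q ∈ t := by
    intro i hi t ht q hq hqt
    obtain ⟨j, hj, hqj⟩ := (hP q).1 hq
    exact hO i hi j hj t ht q hqj hqt
  -- segments with the end `v`
  have hform : ∀ i ∈ A, ∀ t ∈ segL (W i), v ∈ t → ∃ g, g ≠ v ∧ g ∈ P ∧ t = s(v, g) := by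
    intro i hi t ht hvt
    induction t with
    | _ a b =>
      have hab := ne_of_mem_segL (hL.nd i hi) ht
      rcases Sym2.mem_iff.1 hvt with rfl | rfl
      · exact ⟨b, hab.symm, (hP b).2 ⟨i, hi, mem_of_mem_segL ht (Sym2.mem_mk_right _ _)⟩, rfl⟩
      · exact ⟨a, hab, (hP a).2 ⟨i, hi, mem_of_mem_segL ht (Sym2.mem_mk_left _ _)⟩,
          Sym2.eq_swap⟩
  -- segments without the end `v`
  have hfree : ∀ i ∈ A, ∀ t ∈ segL (W i), v ∉ t → Disjoint (sg t) (segment ℝ v' v) := by
    intro i hi t ht hvt
    apply hdis v hvP t ((hS t).2 ⟨i, hi, ht⟩)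
    rw [segment_same, Set.disjoint_singleton_right]
    exact fun h => hvt (hPO i hi t ht v hvP h)
  -- the new point is on no segment of the family
  have hv't : ∀ i ∈ A, ∀ t ∈ segL (W i), v' ∉ sg t := by
    intro i hi t ht h
    by_cases hvt : v ∈ t
    · obtain ⟨g, hg, hgP, rfl⟩ := hform i hi t ht hvt
      rw [sg_mk, segment_eq_image'] at h
      obtain ⟨c, -, hc⟩ := h
      simp only [Complex.real_smul] at hc
      have h1 : v' - v = (c : ℂ) * (g - v) := by rw [← hc]; ring
      exact hpar g hgP hg _ (par_mul h1 hsub)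
    · exact Set.disjoint_left.1 (hfree i hi t ht hvt) h (left_mem_segment ℝ v' v)
  have hvg : ∀ g ∈ P, g ≠ v → v ∉ segment ℝ v' g := by
    intro g hg hgv h
    rw [segment_symm, segment_eq_image'] at h
    obtain ⟨c, -, hc⟩ := h
    simp only [Complex.real_smul] at hc
    -- v = g + c (v' - g)
    have h1 : ((1 - c : ℝ) : ℂ) * (g - v) = (-c : ℝ) * (v' - v) := by
      push_cast
      linear_combination hc
    by_cases h0 : (1 - c : ℝ) = 0
    · rw [h0] at h1
      have hc1 : c = 1 := by linarith
      rw [hc1] at h1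
      apply hsub
      have : (0 : ℂ) = -(v' - v) := by
        have h2 := h1
        push_cast at h2
        linear_combination h2
      linear_combination this
    · refine hpar g hg hgv ((1 - c)⁻¹ * (-c)) ?_
      have h0c : ((1 - c : ℝ) : ℂ) ≠ 0 := by exact_mod_cast h0
      have h2 : g - v = ((1 - c : ℝ) : ℂ)⁻¹ * (((1 - c : ℝ) : ℂ) * (g - v)) := by
        rw [← mul_assoc, inv_mul_cancel₀ h0c, one_mul]
      rw [h2, h1]
      push_cast
      ring
  have hqv : ∀ q ∈ P, q ≠ v → q ∉ segment ℝ v v' := by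
    intro q hq hqv h
    rw [segment_eq_image'] at h
    obtain ⟨c, -, hc⟩ := h
    simp only [Complex.real_smul] at hc
    exact hpar q hq hqv c (by rw [← hc]; ring)
  -- the maps
  obtain ⟨φ, hφ⟩ : ∃ φ : ℂ → ℂ, φ = fun x => if x = v then v' else x := ⟨_, rfl⟩
  have hφv : φ v = v' := by rw [hφ]; simp
  have hφo : ∀ x, x ≠ v → φ x = x := fun x hx => by rw [hφ]; simp [hx]
  obtain ⟨ψ, hψ⟩ : ∃ ψ : I → ℂ → ℂ, ψ = fun i => if i ∈ M then φ else id := ⟨_, rfl⟩
  have hψM : ∀ i, i ∈ M → ψ i = φ := fun i hi => by rw [hψ]; simp [hi]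
  have hψN : ∀ i, i ∉ M → ψ i = id := fun i hi => by rw [hψ]; simp [hi]
  have hψo : ∀ i x, x ≠ v → ψ i x = x := by
    intro i x hx
    by_cases h : i ∈ M
    · rw [hψM i h, hφo x hx]
    · rw [hψN i h]
      rfl
  have hWr : spl W M r v v' r = [v, v'] := by simp [spl]
  have hWi : ∀ i ∈ A, spl W M r v v' i = (W i).map (ψ i) := by
    intro i hi
    have hne : i ≠ r := fun h => hr (h ▸ hi)
    unfold spl
    rw [if_neg hne]
    by_cases h : i ∈ M
    · rw [if_pos h, hψM i h, hφ]
    · rw [if_neg h, hψN i h, List.map_id]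
  -- points of the new polylines
  have hptsN : ∀ i ∈ A, ∀ x ∈ W i, ψ i x ≠ v' → ψ i x = x := by
    intro i hi x hx h
    by_cases hxv : x = v
    · by_cases hM : i ∈ M
      · rw [hψM i hM, hxv, hφv] at h
        exact absurd rfl h
      · rw [hψN i hM]
        rfl
    · exact hψo i x hxv
  have hptsE : ∀ i ∈ A, ∀ x ∈ W i, ψ i x = v' → x = v ∧ i ∈ M := by
    intro i hi x hx h
    by_cases hM : i ∈ M
    · refine ⟨?_, hM⟩
      by_contra hxv
      rw [hψo i x hxv] at h
      exact hv'W i hi (h ▸ hx)
    · rw [hψN i hM] at h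
      exact absurd (h ▸ hx) (hv'W i hi)
  have hptsv : ∀ i ∈ A, ∀ x ∈ W i, ψ i x = v → x = v ∧ i ∉ M := by
    intro i hi x hx h
    by_cases hxv : x = v
    · refine ⟨hxv, fun hM => ?_⟩
      rw [hψM i hM, hxv, hφv] at h
      exact hv' h
    · rw [hψo i x hxv] at h
      exact absurd h hxv
  -- segments of the new polylines
  have hseg : ∀ i ∈ A, ∀ t ∈ segL (W i), (Sym2.map (ψ i) t = t ∧ (i ∈ M → v ∉ t)) ∨
      (i ∈ M ∧ ∃ g, g ≠ v ∧ g ∈ P ∧ t = s(v, g) ∧ Sym2.map (ψ i) t = s(v', g)) := by
    intro i hi t ht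
    by_cases hM : i ∈ M
    · by_cases hvt : v ∈ t
      · obtain ⟨g, hg, hgP, rfl⟩ := hform i hi t ht hvt
        refine Or.inr ⟨hM, g, hg, hgP, rfl, ?_⟩
        rw [Sym2.map_mk, hψM i hM, hφv, hφo g hg]
      · refine Or.inl ⟨?_, fun _ => hvt⟩
        have : Sym2.map (ψ i) t = Sym2.map id t := by
          apply Sym2.map_congr
          intro x hx
          rw [hψo i x (fun h => hvt (h ▸ hx))]
          rfl
        rw [this, Sym2.map_id]
        rfl
    · refine Or.inl ⟨?_, fun h => absurd h hM⟩
      rw [hψN i hM, Sym2.map_id]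
      rfl
  have hmemseg : ∀ i ∈ A, ∀ s ∈ segL (spl W M r v v' i), ∃ t ∈ segL (W i),
      s = Sym2.map (ψ i) t := by
    intro i hi s hs
    rw [hWi i hi, segL_map, List.mem_map] at hs
    obtain ⟨t, ht, h⟩ := hs
    exact ⟨t, ht, h.symm⟩
  have hEv : ∀ i ∈ A, v ∈ W i → En (spl W M r v v' i) (ψ i v) := by
    intro i hi h
    rw [hWi i hi]
    exact En_map _ (hE i hi h)
  refine ⟨v', hv', hv'W, ⟨?_, ?_, ?_⟩, ?_, ?_, ?_⟩
  · -- length
    intro i hi
    rcases Finset.mem_insert.1 hi with rfl | hi
    · rw [hWr]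
      simp
    · rw [hWi i hi, List.length_map]
      exact hL.len i hi
  · -- nodup
    intro i hi
    rcases Finset.mem_insert.1 hi with rfl | hi
    · rw [hWr]
      simp [hv'.symm]
    · rw [hWi i hi]
      apply List.Nodup.map_on _ (hL.nd i hi)
      intro x hx y hy hxy
      by_cases h : ψ i x = v'
      · rw [(hptsE i hi x hx h).1, (hptsE i hi y hy (hxy ▸ h)).1]
      · rw [← hptsN i hi x hx h, hxy, hptsN i hi y hy (fun h' => h (hxy.trans h'))]
  · -- sep
    have key : ∀ j ∈ A, ∀ q, q ∈ [v, v'] → q ∈ spl W M r v v' j →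
        En [v, v'] q ∧ En (spl W M r v v' j) q := by
      intro j hj q hq hq'
      rw [hWi j hj, List.mem_map] at hq'
      obtain ⟨y, hy, hyq⟩ := hq'
      simp only [List.mem_cons, List.not_mem_nil, or_false] at hq
      rcases hq with rfl | rfl
      · refine ⟨Or.inl rfl, ?_⟩
        have h1 := (hptsv j hj y hy hyq).1
        have h2 := hEv j hj (h1 ▸ hy)
        have e1 : ψ j q = q := (congrArg (ψ j) h1.symm).trans hyq
        rwa [e1] at h2
      · refine ⟨Or.inr rfl, ?_⟩
        have h1 := (hptsE j hj y hy hyq).1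
        have h2 := hEv j hj (h1 ▸ hy)
        have e1 : ψ j v = q := (congrArg (ψ j) h1.symm).trans hyq
        rwa [e1] at h2
    intro i hi j hj hij q hq hq'
    rcases Finset.mem_insert.1 hi with rfl | hiA
    · rcases Finset.mem_insert.1 hj with rfl | hjA
      · exact absurd rfl hij
      · rw [hWr] at hq ⊢
        exact key j hjA q hq hq'
    · rcases Finset.mem_insert.1 hj with rfl | hjA
      · rw [hWr] at hq' ⊢
        exact (key i hiA q hq' hq).symm
      · have hq0 := hq
        have hq0' := hq'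
        rw [hWi i hiA, List.mem_map] at hq0
        rw [hWi j hjA, List.mem_map] at hq0'
        obtain ⟨x, hx, hxq⟩ := hq0
        obtain ⟨y, hy, hyq⟩ := hq0'
        by_cases h : q = v'
        · have h1 := (hptsE i hiA x hx (hxq.trans h)).1
          have h2 := (hptsE j hjA y hy (hyq.trans h)).1
          have h3 := hEv i hiA (h1 ▸ hx)
          have h4 := hEv j hjA (h2 ▸ hy)
          have e1 : ψ i v = q := (congrArg (ψ i) h1.symm).trans hxq
          have e2 : ψ j v = q := (congrArg (ψ j) h2.symm).trans hyq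
          rw [e1] at h3
          rw [e2] at h4
          exact ⟨h3, h4⟩
        · have h1 := hptsN i hiA x hx (fun h' => h (hxq.symm.trans h'))
          have h2 := hptsN j hjA y hy (fun h' => h (hyq.symm.trans h'))
          have hxq' : x = q := h1.symm.trans hxq
          have hyq' : y = q := h2.symm.trans hyq
          have h3 := hL.sep i hiA j hjA hij q (hxq' ▸ hx) (hyq' ▸ hy)
          have h4 := En_map (ψ i) h3.1
          have h5 := En_map (ψ j) h3.2
          rw [← hWi i hiA, ← hxq', hxq] at h4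
          rw [← hWi j hjA, ← hyq', hyq] at h5
          exact ⟨h4, h5⟩
  · -- PO
    have hpoints : ∀ j ∈ insert r A, ∀ q ∈ spl W M r v v' j, q = v' ∨ q ∈ P := by
      intro j hj q hq
      rcases Finset.mem_insert.1 hj with rfl | hjA
      · rw [hWr] at hq
        simp only [List.mem_cons, List.not_mem_nil, or_false] at hq
        rcases hq with rfl | rfl
        · exact Or.inr hvP
        · exact Or.inl rfl
      · rw [hWi j hjA, List.mem_map] at hq
        obtain ⟨x, hx, hxq⟩ := hq
        by_cases h : q = v'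
        · exact Or.inl h
        · right
          have h1 := hptsN j hjA x hx (fun h' => h (hxq.symm.trans h'))
          rw [← hxq, h1]
          exact (hP x).2 ⟨j, hjA, hx⟩
    intro i hi j hj s hs q hq hqs
    have hq2 := hpoints j hj q hq
    rcases Finset.mem_insert.1 hi with rfl | hiA
    · rw [hWr] at hs
      simp only [segL_cons, segL_single, List.mem_cons, List.not_mem_nil, or_false] at hs
      subst hs
      rcases hq2 with rfl | hqP
      · exact Sym2.mem_mk_right _ _
      · by_cases h : q = v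
        · rw [h]
          exact Sym2.mem_mk_left _ _
        · rw [sg_mk] at hqs
          exact absurd hqs (hqv q hqP h)
    · obtain ⟨t, ht, rfl⟩ := hmemseg i hiA s hs
      rcases hseg i hiA t ht with ⟨h1, -⟩ | ⟨hM, g, hg, hgP, htg, h1⟩
      · rw [h1] at hqs ⊢
        rcases hq2 with rfl | hqP
        · exact absurd hqs (hv't i hiA t ht)
        · exact hPO i hiA t ht q hqP hqs
      · rw [h1] at hqs ⊢
        rcases hq2 with rfl | hqP
        · exact Sym2.mem_mk_left _ _
        · rw [sg_mk] at hqs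
          by_cases h : q = v
          · rw [h] at hqs
            exact absurd hqs (hvg g hgP hg)
          · have h2 : q ∈ segment ℝ v g := by
              by_contra h'
              exact hpt g hgP q hqP h' hqs
            have h3 := hPO i hiA t ht q hqP (by rw [htg, sg_mk]; exact h2)
            rw [htg, Sym2.mem_iff] at h3
            rcases h3 with h3 | h3
            · exact absurd h3 h
            · rw [h3]
              exact Sym2.mem_mk_right _ _
  · -- the numbers of crossings
    intro i hi j hj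
    rw [hWi i hi, hWi j hj, Nx_map]
    have key : ∀ t ∈ segL (W i), ∀ u ∈ segL (W j),
        Xs (Sym2.map (ψ i) t) (Sym2.map (ψ j) u) →
        Xs t u ∨ ((v ∈ t ∧ ¬ (i ∈ M ↔ j ∈ M)) ∧ v ∈ u) := by
      intro t ht u hu hX
      -- one moved segment and one which is not moved
      have side : ∀ a ∈ A, ∀ w ∈ segL (W a), v ∉ w → ∀ g ∈ P, Xs s(v', g) w → Xs s(v, g) w := by
        intro a ha w hw hvw g hg hX
        refine ⟨?_, ?_⟩
        · intro q hq hq'
          rcases Sym2.mem_iff.1 hq with rfl | rfl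
          · exact hvw hq'
          · exact hX.1 q (Sym2.mem_mk_right _ _) hq'
        · by_contra hne
          rw [Set.not_nonempty_iff_eq_empty, ← Set.disjoint_iff_inter_eq_empty, sg_mk] at hne
          have h2 := hdis g hg w ((hS w).2 ⟨a, ha, hw⟩) hne.symm
          obtain ⟨z, hz1, hz2⟩ := hX.2
          rw [sg_mk] at hz1
          exact Set.disjoint_left.1 h2 hz2 hz1
      rcases hseg i hi t ht with ⟨h1, h1'⟩ | ⟨hM, g, hg, hgP, htg, h1⟩
      · rcases hseg j hj u hu with ⟨h2, h2'⟩ | ⟨hM', g', hg', hgP', hug, h2⟩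
        · rw [h1, h2] at hX
          exact Or.inl hX
        · by_cases hvt : v ∈ t
          · right
            refine ⟨⟨hvt, fun h => h1' (h.2 hM') hvt⟩, ?_⟩
            rw [hug]
            exact Sym2.mem_mk_left _ _
          · left
            rw [h1, h2] at hX
            rw [hug]
            exact Xs_symm (side i hi t ht hvt g' hgP' (Xs_symm hX))
      · rcases hseg j hj u hu with ⟨h2, h2'⟩ | ⟨hM', g', hg', hgP', hug, h2⟩
        · by_cases hvu : v ∈ u
          · right
            refine ⟨⟨?_, fun h => h2' (h.1 hM) hvu⟩, hvu⟩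
            rw [htg]
            exact Sym2.mem_mk_left _ _
          · left
            rw [h1, h2] at hX
            rw [htg]
            exact side j hj u hu hvu g hgP hX
        · rw [h1, h2] at hX
          exact absurd (Sym2.mem_mk_left v' g') (hX.1 v' (Sym2.mem_mk_left v' g))
    refine (sum_le _ _ _ _ _ key).trans ?_
    have h0 : ((segL (W i)).map fun t => (segL (W j)).countP (fun u => decide (Xs t u))).sum
        = Nx (W i) (W j) := rfl
    rw [h0]
    refine Nat.add_le_add_left ?_ _
    have c1 := one_seg (hL.nd i hi) (hE i hi) (fun t => v ∈ t) (fun _ => Iff.rfl)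
    have c2 := one_seg (hL.nd j hj) (hE j hj) (fun t => v ∈ t) (fun _ => Iff.rfl)
    by_cases hc : v ∈ W i ∧ v ∈ W j ∧ ¬ (i ∈ M ↔ j ∈ M)
    · rw [if_pos hc]
      refine (sum_prod _ _ _ (fun t => v ∈ t) (fun u => v ∈ u) (fun t _ u _ h => ⟨h.1.1, h.2⟩)).trans ?_
      calc _ ≤ 1 * 1 := Nat.mul_le_mul c1 c2
        _ = 1 := rfl
    · rw [if_neg hc]
      refine (sum_prod _ _ _ (fun _ => False) (fun u => v ∈ u) ?_).trans ?_
      · intro t ht u hu h
        exact absurd ⟨mem_of_mem_segL ht h.1.1, mem_of_mem_segL hu h.2, h.1.2⟩ hc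
      · simp
  · -- the short segment
    intro i hi
    rw [Nx_eq_zero]
    intro s hs s' hs' hX
    simp only [segL_cons, segL_single, List.mem_cons, List.not_mem_nil, or_false] at hs
    subst hs
    obtain ⟨t, ht, rfl⟩ := hmemseg i hi s' hs'
    rcases hseg i hi t ht with ⟨h1, -⟩ | ⟨hM, g, hg, hgP, htg, h1⟩
    · rw [h1] at hX
      by_cases hvt : v ∈ t
      · exact hX.1 v (Sym2.mem_mk_left _ _) hvt
      · obtain ⟨z, hz1, hz2⟩ := hX.2
        rw [sg_mk, segment_symm] at hz1
        exact Set.disjoint_left.1 (hfree i hi t ht hvt) hz2 hz1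
    · rw [h1] at hX
      exact hX.1 v' (Sym2.mem_mk_right _ _) (Sym2.mem_mk_left _ _)

end Pool.Agent.NH90.CN
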