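import Pool.Agent.NH90.CN.Stm2
import Pool.Agent.NH90.CN.Base

/-! Project HC, job HC-2: doubling every polyline (helper86). -/

set_option autoImplicit false

open Set Classical
open Pool.Agent.Helper770.Crossing Pool.Agent.Helper770.Sep

namespace Pool.Agent.NH90.CN

theorem PL_congr_mem {J : Type} {A B : Finset J} {W : J → List ℂ} (h : ∀ x ∈ A, x ∈ B)
    (hB : PL B W) : PL A W :=
  ⟨fun x hx => hB.len x (h x hx), fun x hx => hB.nd x (h x hx),
    fun x hx y hy => hB.sep x (h x hx) y (h y hy)⟩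

theorem PO_congr_mem {J : Type} {A B : Finset J} {W : J → List ℂ} (h : ∀ x ∈ A, x ∈ B)
    (hB : PO B W) : PO A W :=
  fun x hx y hy => hB x (h x hx) y (h y hy)

theorem par_ex (h : S_PAR) (I : Type) (A : Finset I) (W : I → List ℂ) (i i' : I) (h1 : PL A W)
    (h2 : PO A W) (hi : i ∈ A) (hi' : i' ∉ A) (h0 : Nx (W i) (W i) = 0) :
    ∃ W₂ : I → List ℂ, (W₂ i').head? = (W i).head? ∧ (W₂ i').getLast? = (W i).getLast? ∧
      (∀ x, x ≠ i' → W₂ x = W x) ∧
      (∀ B : Finset I, (∀ x ∈ B, x = i' ∨ x ∈ A) → PL B W₂ ∧ PO B W₂) ∧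
      Nx (W₂ i') (W₂ i') = 0 ∧ ∀ j ∈ A, Nx (W₂ i') (W j) ≤ Nx (W i) (W j) := by
  obtain ⟨l, l1, l2, l3, l4, l5, l6⟩ := h I A W i i' h1 h2 hi hi' h0
  refine ⟨Function.update W i' l, ?_, ?_, ?_, ?_, ?_, ?_⟩
  · rwa [Function.update_self]
  · rwa [Function.update_self]
  · intro x hx
    rw [Function.update_of_ne hx]
  · intro B hB
    have hB' : ∀ x ∈ B, x ∈ insert i' A := fun x hx => Finset.mem_insert.2 (hB x hx)
    exact ⟨PL_congr_mem hB' l3, PO_congr_mem hB' l4⟩
  · rwa [Function.update_self]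
  · rwa [Function.update_self]

theorem t_2G (h : S_PAR) : S_2G := by
  intro I A W hPL hPO hN
  -- the index set of a stage
  let S : Finset I → Finset (I × Bool) := fun B =>
    (A ×ˢ (Finset.univ : Finset Bool)).filter (fun x => x.2 = true → x.1 ∈ B)
  have hS : ∀ (B : Finset I) (x : I × Bool), x ∈ S B ↔ x.1 ∈ A ∧ (x.2 = true → x.1 ∈ B) := by
    intro B x
    simp only [S, Finset.mem_filter, Finset.mem_product, Finset.mem_univ, and_true]
  have main : ∀ B : Finset I, B ⊆ A → ∃ W₁ : I × Bool → List ℂ, PL (S B) W₁ ∧ PO (S B) W₁ ∧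
      (∀ i ∈ A, W₁ (i, false) = W i) ∧
      (∀ x ∈ S B, (W₁ x).head? = (W x.1).head? ∧ (W₁ x).getLast? = (W x.1).getLast?) ∧
      ∀ x ∈ S B, ∀ y ∈ S B, Nx (W₁ x) (W₁ y) ≤ Nx (W x.1) (W y.1) := by
    intro B
    induction B using Finset.induction_on with
    | empty =>
      intro _
      have hf : ∀ x ∈ S ∅, x.1 ∈ A ∧ x.2 = false := by
        intro x hx
        obtain ⟨h1, h2⟩ := (hS ∅ x).1 hx
        refine ⟨h1, ?_⟩
        cases hx2 : x.2
        · rfl
        · exact absurd (h2 hx2) (Finset.notMem_empty _)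
      refine ⟨fun x => W x.1, ⟨?_, ?_, ?_⟩, ?_, fun _ _ => rfl, fun _ _ => ⟨rfl, rfl⟩,
        fun _ _ _ _ => le_rfl⟩
      · exact fun x hx => hPL.len x.1 (hf x hx).1
      · exact fun x hx => hPL.nd x.1 (hf x hx).1
      · intro x hx y hy hxy q hq hq'
        refine hPL.sep x.1 (hf x hx).1 y.1 (hf y hy).1 ?_ q hq hq'
        intro h1
        exact hxy (Prod.ext h1 ((hf x hx).2.trans (hf y hy).2.symm))
      · exact fun x hx y hy => hPO x.1 (hf x hx).1 y.1 (hf y hy).1
    | insert i₀ B hi₀ ih =>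
      intro hB
      have hi₀A : i₀ ∈ A := hB (Finset.mem_insert_self _ _)
      obtain ⟨W₁, h1, h2, h3, h4, h5⟩ := ih fun x hx => hB (Finset.mem_insert_of_mem hx)
      have m1 : ((i₀, false) : I × Bool) ∈ S B := by
        rw [hS]
        exact ⟨hi₀A, fun h => absurd h Bool.false_ne_true⟩
      have m2 : ((i₀, true) : I × Bool) ∉ S B := by
        rw [hS]
        exact fun h => hi₀ (h.2 rfl)
      obtain ⟨W₂, l1, l2, u2, l3, l5, l6⟩ := par_ex h (I × Bool) (S B) W₁ (i₀, false) (i₀, true)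
        h1 h2 m1 m2 (by rw [h3 i₀ hi₀A]; exact hN i₀ hi₀A)
      rw [h3 i₀ hi₀A] at l1 l2 l6
      have hsub : ∀ x ∈ S (insert i₀ B), x = (i₀, true) ∨ (x ≠ (i₀, true) ∧ x ∈ S B) := by
        intro x hx
        by_cases hx0 : x = (i₀, true)
        · exact Or.inl hx0
        · right
          refine ⟨hx0, ?_⟩
          obtain ⟨a1, a2⟩ := (hS _ x).1 hx
          rw [hS]
          refine ⟨a1, fun hx2 => ?_⟩
          rcases Finset.mem_insert.1 (a2 hx2) with h | h
          · exact absurd (Prod.ext h hx2) hx0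
          · exact h
      obtain ⟨l3, l4⟩ := l3 (S (insert i₀ B)) fun x hx => (hsub x hx).imp id And.right
      refine ⟨W₂, l3, l4, ?_, ?_, ?_⟩
      · intro i hi
        rw [u2 _ (by simp), h3 i hi]
      · intro x hx
        rcases hsub x hx with h | h
        · rw [h]
          exact ⟨l1, l2⟩
        · rw [u2 x h.1]
          exact h4 x h.2
      · have key : ∀ y ∈ S B, Nx (W₂ (i₀, true)) (W₁ y) ≤ Nx (W i₀) (W y.1) := by
          intro y hy
          refine (l6 y hy).trans ?_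
          have := h5 _ m1 y hy
          rwa [h3 i₀ hi₀A] at this
        intro x hx y hy
        rcases hsub x hx with h | h <;> rcases hsub y hy with h' | h'
        · rw [h, h', l5]
          exact Nat.zero_le _
        · rw [h, u2 y h'.1]
          exact key y h'.2
        · rw [h', u2 x h.1, Nx_comm, Nx_comm (W x.1)]
          exact key x h.2
        · rw [u2 x h.1, u2 y h'.1]
          exact h5 x h.2 y h'.2
  obtain ⟨W₁, h1, h2, -, h4, h5⟩ := main A (Finset.Subset.refl A)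
  have hm : ∀ x : I × Bool, x ∈ A ×ˢ (Finset.univ : Finset Bool) → x ∈ S A := by
    intro x hx
    rw [Finset.mem_product] at hx
    rw [hS]
    exact ⟨hx.1, fun _ => hx.1⟩
  refine ⟨W₁, ⟨fun x hx => h1.len x (hm x hx), fun x hx => h1.nd x (hm x hx),
    fun x hx y hy => h1.sep x (hm x hx) y (hm y hy)⟩,
    fun x hx y hy => h2 x (hm x hx) y (hm y hy), fun i hi b => ?_, fun i hi j hj b c => ?_⟩
  · exact h4 (i, b) (hm _ (Finset.mem_product.2 ⟨hi, Finset.mem_univ _⟩))
  · exact h5 (i, b) (hm _ (Finset.mem_product.2 ⟨hi, Finset.mem_univ _⟩)) (j, c)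
      (hm _ (Finset.mem_product.2 ⟨hj, Finset.mem_univ _⟩))

end Pool.Agent.NH90.CN
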