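import Pool.Agent.NH90.CN.All
import Pool.Agent.NH90.CN.PAR
import Pool.Agent.NH90.CN.TwoG
import Pool.Agent.NH90.CN.SPLIT
import Pool.Agent.NH90.CN.SPL
import Pool.Agent.NH90.CN.DBL
import Pool.Agent.NH90.CN.CUB
import Pool.Agent.NH90.CN.LIM

set_option autoImplicit false

open Set Classical
open Pool.Agent.Helper770.Crossing Pool.Agent.Helper770.Sep

namespace Pool.Agent.NH90.CN

theorem p_DBL : S_DBL := t_DBL t_CNT p_T1 p_GP t_SIMP (t_2G t_PAR) (t_SPL t_SPLIT) p_T3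
theorem p_CUB : S_CUB := t_CUB p_DBL
theorem p_LIM : S_LIM := t_LIM p_CUB

end Pool.Agent.NH90.CN
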