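import Pool.Agent.NH90.CN.MVa

set_option autoImplicit false

open Set Classical
open Pool.Agent.Helper770.Crossing Pool.Agent.Helper770.Sep

namespace Pool.Agent.NH90.CN

open MVp

theorem t_MV (h : S_MOVE) : S_MV := by
  intro I A W r a p rest hPL hPO hDS hr hW hN0 hp
  -- basic facts
  have hndr : (a :: p :: rest).Nodup := hW ▸ hPL.nd r hr
  have hanot : a ∉ p :: rest := (List.nodup_cons.1 hndr).1
  have hndp : (p :: rest).Nodup := (List.nodup_cons.1 hndr).2
  have haW : a ∈ W r := by rw [hW]; exact List.mem_cons_self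
  have hpW : p ∈ W r := by rw [hW]; simp
  have hap : a ≠ p := fun e => hanot (e ▸ List.mem_cons_self)
  have hsegr : segL (W r) = s(a, p) :: segL (p :: rest) := by rw [hW, segL]
  have haend : ∀ i ∈ A, i ≠ r → a ∈ W i → En (W i) a := fun i hi hir ha =>
    (hPL.sep i hi r hr hir a ha haW).1
  -- the finite sets
  set P : Finset ℂ := A.biUnion (fun i => (W i).toFinset) with hPdef
  set N : Finset ℂ := P.filter (fun g => ∃ i ∈ A, i ≠ r ∧ s(a, g) ∈ segL (W i)) with hNdef
  set Q : Finset ℂ := P.erase a with hQdef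
  set S : Finset (Sym2 ℂ) :=
    (A.biUnion (fun i => (segL (W i)).toFinset)).filter (fun s => a ∉ s) with hSdef
  have mQ : ∀ i ∈ A, ∀ q ∈ W i, q ≠ a → q ∈ Q := by
    intro i hi q hq hqa
    rw [hQdef, Finset.mem_erase, hPdef, Finset.mem_biUnion]
    exact ⟨hqa, i, hi, List.mem_toFinset.2 hq⟩
  have mQ' : ∀ q ∈ Q, q ≠ a ∧ ∃ i ∈ A, q ∈ W i := by
    intro q hq
    rw [hQdef, Finset.mem_erase, hPdef, Finset.mem_biUnion] at hq
    obtain ⟨h1, i, hi, h2⟩ := hq
    exact ⟨h1, i, hi, List.mem_toFinset.1 h2⟩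
  have mN : ∀ i ∈ A, i ≠ r → ∀ g, s(a, g) ∈ segL (W i) → g ∈ N := by
    intro i hi hir g hg
    rw [hNdef, Finset.mem_filter, hPdef, Finset.mem_biUnion]
    exact ⟨⟨i, hi, List.mem_toFinset.2 (mem_of_segL _ _ hg g (Sym2.mem_mk_right a g))⟩,
      i, hi, hir, hg⟩
  have mN' : ∀ g ∈ N, ∃ i ∈ A, i ≠ r ∧ s(a, g) ∈ segL (W i) := by
    intro g hg
    rw [hNdef, Finset.mem_filter] at hg
    exact hg.2
  have mS : ∀ i ∈ A, ∀ s ∈ segL (W i), a ∉ s → s ∈ S := by
    intro i hi s hs has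
    rw [hSdef, Finset.mem_filter, Finset.mem_biUnion]
    exact ⟨⟨i, hi, List.mem_toFinset.2 hs⟩, has⟩
  have mS' : ∀ s ∈ S, (∃ i ∈ A, s ∈ segL (W i)) ∧ a ∉ s := by
    intro s hs
    rw [hSdef, Finset.mem_filter, Finset.mem_biUnion] at hs
    obtain ⟨⟨i, hi, h1⟩, h2⟩ := hs
    exact ⟨⟨i, hi, List.mem_toFinset.1 h1⟩, h2⟩
  have gW : ∀ i ∈ A, ∀ g, s(a, g) ∈ segL (W i) → g ∈ W i ∧ a ∈ W i ∧ g ≠ a := by
    intro i hi g hg
    refine ⟨mem_of_segL _ _ hg g (Sym2.mem_mk_right a g),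
      mem_of_segL _ _ hg a (Sym2.mem_mk_left a g), ?_⟩
    rintro rfl
    exact not_diag_segL _ _ (hPL.nd i hi) hg
  -- the hypotheses of `S_MOVE`
  have c2 : p ∈ Q := mQ r hr p hpW hap.symm
  have c3 : p ∉ N := by
    intro hpN
    obtain ⟨i, hi, hir, hs⟩ := mN' p hpN
    exact hp i hi hir (gW i hi p hs).2.1 (gW i hi p hs).1
  have c4 : a ∉ Q := fun ha => (mQ' a ha).1 rfl
  have c5 : N ⊆ Q := by
    intro g hg
    obtain ⟨i, hi, hir, hs⟩ := mN' g hg
    exact mQ i hi g (gW i hi g hs).1 (gW i hi g hs).2.2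
  have c6 : ∀ q ∈ Q, q ∈ segment ℝ a p → q = p := by
    intro q hq hqs
    obtain ⟨hqa, j, hj, hqj⟩ := mQ' q hq
    have h1 := hPO r hr j hj s(a, p) (by rw [hsegr]; exact List.mem_cons_self) q hqj
      (by rw [sg_mk]; exact hqs)
    rw [Sym2.mem_iff] at h1
    exact h1.resolve_left hqa
  have c7 : ∀ g ∈ N, ∀ q ∈ Q, q ∈ segment ℝ a g → q = g := by
    intro g hg q hq hqs
    obtain ⟨i, hi, hir, hs⟩ := mN' g hg
    obtain ⟨hqa, j, hj, hqj⟩ := mQ' q hq
    have h1 := hPO i hi j hj s(a, g) hs q hqj (by rw [sg_mk]; exact hqs)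
    rw [Sym2.mem_iff] at h1
    exact h1.resolve_left hqa
  have c8 : ∀ s ∈ S, a ∉ sg s ∧ (∀ q ∈ s, q ∈ Q) ∧ ∀ q ∈ Q, q ∈ sg s → q ∈ s := by
    intro s hs
    obtain ⟨⟨i, hi, h1⟩, h2⟩ := mS' s hs
    refine ⟨fun h3 => h2 (hPO i hi r hr s h1 a haW h3), ?_, ?_⟩
    · intro q hq
      refine mQ i hi q (mem_of_segL _ _ h1 q hq) ?_
      rintro rfl
      exact h2 hq
    · intro q hq hqs
      obtain ⟨hqa, j, hj, hqj⟩ := mQ' q hq
      exact hPO i hi j hj s h1 q hqj hqs
  obtain ⟨b, B1, B2, B3, B4, B5⟩ := h a p N Q S hap c2 c3 c4 c5 c6 c7 c8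
  -- the new family
  have hex : ∀ i, ∃ l', (i = r → l' = p :: rest) ∧ (i ∈ A → i ≠ r → a ∉ W i → l' = W i) ∧
      (i ∈ A → i ≠ r → a ∈ W i → ∃ g M, Mv a p b (W i) l' g M) := by
    intro i
    by_cases hir : i = r
    · exact ⟨p :: rest, fun _ => rfl, fun _ h => absurd hir h, fun _ h => absurd hir h⟩
    · by_cases hi : i ∈ A
      · by_cases ha : a ∈ W i
        · obtain ⟨l', g, M, h1⟩ := Mv_ex a p b (W i) (hPL.nd i hi) (hPL.len i hi)
            (haend i hi hir ha)
          exact ⟨l', fun h => absurd h hir, fun _ _ h => absurd ha h, fun _ _ _ => ⟨g, M, h1⟩⟩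
        · exact ⟨W i, fun h => absurd h hir, fun _ _ _ => rfl, fun _ _ h => absurd h ha⟩
      · exact ⟨[], fun h => absurd h hir, fun h => absurd h hi, fun h => absurd h hi⟩
  choose W' hWr hWu hWm using hex
  have hWr' : W' r = p :: rest := hWr r rfl
  -- facts on moved polylines
  have hMvN : ∀ i ∈ A, i ≠ r → ∀ g M, Mv a p b (W i) (W' i) g M → s(a, g) ∈ segL (W i) := by
    intro i hi hir g M hM
    exact hM.pm.mem_iff.2 List.mem_cons_self
  have hMvS : ∀ i ∈ A, i ≠ r → ∀ g M, Mv a p b (W i) (W' i) g M → ∀ s ∈ M, s ∈ S := by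
    intro i hi hir g M hM s hs
    exact mS i hi s (hM.pm.mem_iff.2 (List.mem_cons_of_mem _ hs)) (hM.na s hs)
  have hne : ∀ i ∈ A, ∀ j ∈ A, i ≠ j → ∀ g h, s(a, g) ∈ segL (W i) → s(a, h) ∈ segL (W j) →
      g ≠ h := by
    rintro i hi j hj hij g h hg hh rfl
    exact hDS i hi j hj hij _ hg hh
  have hsubg : ∀ g ∈ N, segment ℝ (b g) g ⊆ segment ℝ a g := by
    intro g hg
    exact (convex_segment a g).segment_subset (openSegment_subset_segment ℝ a g (B1 g hg).1)
      (right_mem_segment ℝ a g)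
  have hunS : ∀ i ∈ A, a ∉ W i → ∀ s ∈ segL (W i), s ∈ S := by
    intro i hi ha s hs
    exact mS i hi s hs (fun h => ha (mem_of_segL _ s hs a h))
  have hrS : ∀ s ∈ segL (p :: rest), s ∈ S := by
    intro s hs
    refine mS r hr s (by rw [hsegr]; exact List.mem_cons_of_mem _ hs) ?_
    exact fun h => hanot (mem_of_segL _ s hs a h)
  -- classification of the new segments and the new points
  have clS : ∀ i ∈ A, ∀ s ∈ segL (W' i), s ∈ S ∨ ∃ g ∈ N, s = s(b g, p) ∨ s = s(b g, g) := by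
    intro i hi s hs
    by_cases hir : i = r
    · subst hir
      rw [hWr'] at hs
      exact Or.inl (hrS s hs)
    · by_cases ha : a ∈ W i
      · obtain ⟨g, M, hM⟩ := hWm i hi hir ha
        have h1 := hM.pm'.mem_iff.1 hs
        rw [List.mem_cons, List.mem_cons] at h1
        rcases h1 with h1 | h1 | h1
        · exact Or.inr ⟨g, mN i hi hir g (hMvN i hi hir g M hM), Or.inl h1⟩
        · exact Or.inr ⟨g, mN i hi hir g (hMvN i hi hir g M hM), Or.inr h1⟩
        · exact Or.inl (hMvS i hi hir g M hM s h1)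
      · rw [hWu i hi hir ha] at hs
        exact Or.inl (hunS i hi ha s hs)
  have clQ : ∀ i ∈ A, ∀ q ∈ W' i, (q ∈ Q ∧ (q = p ∨ q ∈ W i)) ∨
      (i ≠ r ∧ ∃ g, s(a, g) ∈ segL (W i) ∧ q = b g) := by
    intro i hi q hq
    by_cases hir : i = r
    · subst hir
      rw [hWr'] at hq
      have h1 : q ∈ W i := by rw [hW]; exact List.mem_cons_of_mem _ hq
      refine Or.inl ⟨mQ i hi q h1 ?_, Or.inr h1⟩
      rintro rfl
      exact hanot hq
    · by_cases ha : a ∈ W i
      · obtain ⟨g, M, hM⟩ := hWm i hi hir ha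
        rcases (hM.mem q).1 hq with h1 | h1 | h1
        · exact Or.inl ⟨h1 ▸ c2, Or.inl h1⟩
        · exact Or.inr ⟨hir, g, hMvN i hi hir g M hM, h1⟩
        · exact Or.inl ⟨mQ i hi q h1.1 h1.2, Or.inr h1.1⟩
      · rw [hWu i hi hir ha] at hq
        refine Or.inl ⟨mQ i hi q hq ?_, Or.inr hq⟩
        rintro rfl
        exact ha hq
  -- no three points on a line
  have hPO' : PO A W' := by
    intro i hi j hj s hs q hq hqs
    rcases clS i hi s hs with h1 | ⟨g, hg, h1⟩
    · rcases clQ j hj q hq with ⟨h2, -⟩ | ⟨hjr, k, hk, h2⟩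
      · exact (c8 s h1).2.2 q h2 hqs
      · rw [h2] at hqs
        exact absurd hqs (B2 k (mN j hj hjr k hk) s h1)
    · rcases h1 with h1 | h1
      · rw [h1, sg_mk] at hqs
        rw [h1, Sym2.mem_iff]
        rcases clQ j hj q hq with ⟨h2, -⟩ | ⟨hjr, k, hk, h2⟩
        · exact Or.inr (B4 g hg q h2 hqs)
        · by_cases hkg : k = g
          · rw [h2, hkg]; exact Or.inl rfl
          · rw [h2] at hqs
            exact absurd hqs (B3 k (mN j hj hjr k hk) g hg hkg).2.1
      · rw [h1, sg_mk] at hqs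
        rw [h1, Sym2.mem_iff]
        rcases clQ j hj q hq with ⟨h2, -⟩ | ⟨hjr, k, hk, h2⟩
        · exact Or.inr (c7 g hg q h2 (hsubg g hg hqs))
        · by_cases hkg : k = g
          · rw [h2, hkg]; exact Or.inl rfl
          · rw [h2, segment_symm] at hqs
            exact absurd hqs (B3 k (mN j hj hjr k hk) g hg hkg).2.2
  have hlen' : ∀ i ∈ A, i ≠ r → 2 ≤ (W' i).length := by
    intro i hi hir
    by_cases ha : a ∈ W i
    · obtain ⟨g, M, hM⟩ := hWm i hi hir ha
      exact hM.len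
    · rw [hWu i hi hir ha]
      exact hPL.len i hi
  have hnd' : ∀ i ∈ A, (W' i).Nodup := by
    intro i hi
    by_cases hir : i = r
    · subst hir
      rw [hWr']
      exact hndp
    · by_cases ha : a ∈ W i
      · obtain ⟨g, M, hM⟩ := hWm i hi hir ha
        have hg := mN i hi hir g (hMvN i hi hir g M hM)
        refine hM.nd (hp i hi hir ha) ?_ ?_
        · intro hbg
          by_cases hba : b g = a
          · have h1 := (B1 g hg).1
            rw [hba, left_mem_openSegment_iff] at h1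
            exact (gW i hi g (hMvN i hi hir g M hM)).2.2 h1.symm
          · exact (B1 g hg).2 (mQ i hi _ hbg hba)
        · intro e
          exact (B1 g hg).2 (e ▸ c2)
      · rw [hWu i hi hir ha]
        exact hPL.nd i hi
  have henp : ∀ i ∈ A, i ≠ r → a ∈ W i → En (W' i) p := by
    intro i hi hir ha
    obtain ⟨g, M, hM⟩ := hWm i hi hir ha
    rcases haend i hi hir ha with h1 | h1
    · exact Or.inl (by rw [hM.hh, if_pos h1])
    · exact Or.inr (by rw [hM.hl, if_pos h1])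
  have henq : ∀ i ∈ A, ∀ q, q ≠ a → En (W i) q → En (W' i) q := by
    intro i hi q hqa hE
    by_cases hir : i = r
    · subst hir
      rw [hWr']
      rw [hW] at hE
      rcases hE with h1 | h1
      · simp only [List.head?_cons, Option.some.injEq] at h1
        exact absurd h1.symm hqa
      · right
        rwa [List.getLast?_cons_cons] at h1
    · by_cases ha : a ∈ W i
      · obtain ⟨g, M, hM⟩ := hWm i hi hir ha
        rcases hE with h1 | h1
        · refine Or.inl ?_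
          rw [hM.hh, if_neg, h1]
          rw [h1]
          exact fun e => hqa (Option.some.inj e)
        · refine Or.inr ?_
          rw [hM.hl, if_neg, h1]
          rw [h1]
          exact fun e => hqa (Option.some.inj e)
      · rw [hWu i hi hir ha]
        exact hE
  have hpE : ∀ i ∈ A, p ∈ W' i → En (W' i) p := by
    intro i hi hpi
    by_cases hir : i = r
    · subst hir
      rw [hWr']
      exact Or.inl rfl
    · by_cases ha : a ∈ W i
      · exact henp i hi hir ha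
      · rw [hWu i hi hir ha] at hpi ⊢
        exact (hPL.sep i hi r hr hir p hpi hpW).1
  have hsep1 : ∀ i ∈ A, ∀ j ∈ A, i ≠ j → ∀ q ∈ W' i, q ∈ W' j → En (W' i) q := by
    intro i hi j hj hij q hqi hqj
    by_cases hqp : q = p
    · rw [hqp] at hqi ⊢
      exact hpE i hi hqi
    · rcases clQ i hi q hqi with ⟨h1, h2⟩ | ⟨hir, g, hg, h1⟩
      · rcases clQ j hj q hqj with ⟨h3, h4⟩ | ⟨hjr, k, hk, h3⟩
        · have h5 := h2.resolve_left hqp
          have h6 := h4.resolve_left hqp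
          exact henq i hi q (fun e => c4 (e ▸ h1)) (hPL.sep i hi j hj hij q h5 h6).1
        · rw [h3] at h1
          exact absurd h1 (B1 k (mN j hj hjr k hk)).2
      · have hgN := mN i hi hir g hg
        rcases clQ j hj q hqj with ⟨h3, h4⟩ | ⟨hjr, k, hk, h3⟩
        · rw [h1] at h3
          exact absurd h3 (B1 g hgN).2
        · have hgk := hne i hi j hj hij g k hg hk
          have h4 := (B3 g hgN k (mN j hj hjr k hk) hgk).2.2
          rw [← h1, h3] at h4
          exact absurd (right_mem_segment ℝ k (b k)) h4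
  have hsep' : ∀ i ∈ A, ∀ j ∈ A, i ≠ j → ∀ q ∈ W' i, q ∈ W' j → En (W' i) q ∧ En (W' j) q :=
    fun i hi j hj hij q hqi hqj =>
      ⟨hsep1 i hi j hj hij q hqi hqj, hsep1 j hj i hi hij.symm q hqj hqi⟩
  -- crossings
  have X1 : ∀ g ∈ N, ∀ t ∈ S, Xs s(b g, g) t → Xs s(a, g) t := by
    intro g hg t ht hX
    refine ⟨?_, ?_⟩
    · intro q hq
      rw [Sym2.mem_iff] at hq
      rcases hq with rfl | rfl
      · exact (mS' t ht).2
      · exact hX.1 q (Sym2.mem_mk_right _ _)
    · obtain ⟨z, hz1, hz2⟩ := hX.2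
      refine ⟨z, ?_, hz2⟩
      rw [sg_mk] at hz1 ⊢
      exact hsubg g hg hz1
  have X2 : ∀ g ∈ N, ∀ t ∈ S, Xs s(b g, p) t → Xs s(a, p) t := fun g hg t ht hX =>
    Xs_symm (B5 g hg t ht (Xs_symm hX))
  have X3 : ∀ g ∈ N, ∀ k ∈ N, ¬ Xs s(b g, p) s(b k, p) := fun g hg k hk hX =>
    hX.1 p (Sym2.mem_mk_right _ _) (Sym2.mem_mk_right _ _)
  have X4 : ∀ g ∈ N, ∀ k ∈ N, g ≠ k → ¬ Xs s(b g, p) s(b k, k) := by
    intro g hg k hk hgk hX
    obtain ⟨z, hz1, hz2⟩ := hX.2
    rw [sg_mk] at hz1 hz2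
    rw [segment_symm] at hz2
    exact Set.disjoint_left.1 (B3 g hg k hk hgk).1 hz1 hz2
  have X5 : ∀ g ∈ N, ∀ k ∈ N, g ≠ k → ¬ Xs s(b g, g) s(b k, k) := by
    intro g hg k hk hgk hX
    obtain ⟨z, hz1, hz2⟩ := hX.2
    rw [sg_mk] at hz1 hz2
    obtain ⟨u, hu, hu1, hzu⟩ := ray_of_seg (B1 g hg).1 hz1
    obtain ⟨v, hv, hv1, hzv⟩ := ray_of_seg (B1 k hk).1 hz2
    rcases le_total u v with huv | huv
    · exact hgk (c7 g hg k (c5 hk) (seg_of_ray hu huv (hzu.symm.trans hzv))).symm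
    · exact hgk (c7 k hk g (c5 hg) (seg_of_ray hv huv (hzv.symm.trans hzu)))
  have F1 : ∀ j ∈ A, j ≠ r → ∀ k M, Mv a p b (W j) (W' j) k M → ∀ s ∈ S,
      Cx s (segL (W' j)) ≤ (if Xs s s(a, p) then 1 else 0) + Cx s (segL (W j)) := by
    intro j hj hjr k M hM s hs
    have hk := mN j hj hjr k (hMvN j hj hjr k M hM)
    rw [Cx_perm s hM.pm', Cx_perm s hM.pm, Cx_cons, Cx_cons, Cx_cons]
    have h1 : (if Xs s s(b k, p) then 1 else 0 : ℕ) ≤ (if Xs s s(a, p) then 1 else 0) :=
      ind_le (B5 k hk s hs)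
    have h2 : (if Xs s s(b k, k) then 1 else 0 : ℕ) ≤ (if Xs s s(a, k) then 1 else 0) :=
      ind_le (fun h => Xs_symm (X1 k hk s hs (Xs_symm h)))
    omega
  have F2 : ∀ j ∈ A, j ≠ r → ∀ k M, Mv a p b (W j) (W' j) k M → ∀ L : List (Sym2 ℂ),
      (∀ s ∈ L, s ∈ S) → (L.map (fun s => Cx s (segL (W' j)))).sum ≤
        Cx s(a, p) L + (L.map (fun s => Cx s (segL (W j)))).sum := by
    intro j hj hjr k M hM L hL
    rw [← sum_ind s(a, p) L, ← List.sum_map_add]
    exact sum_le (fun s hs => F1 j hj hjr k M hM s (hL s hs))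
  have hNx : ∀ i ∈ A, ∀ j ∈ A, i ≠ r → j ≠ r → i ≠ j → Nx (W' i) (W' j) ≤ Nx (W i) (W j) +
      (if a ∈ W i then NS s(a, p) (W j) else 0) + if a ∈ W j then NS s(a, p) (W i) else 0 := by
    intro i hi j hj hir hjr hij
    by_cases hai : a ∈ W i
    · obtain ⟨g, M, hM⟩ := hWm i hi hir hai
      have hg := mN i hi hir g (hMvN i hi hir g M hM)
      have hMS := hMvS i hi hir g M hM
      rw [if_pos hai, Nx_perm hM.pm', Nx_perm hM.pm, NS_eq]
      simp only [List.map_cons, List.sum_cons]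
      by_cases haj : a ∈ W j
      · obtain ⟨k, M', hM'⟩ := hWm j hj hjr haj
        have hk := mN j hj hjr k (hMvN j hj hjr k M' hM')
        have hgk := hne i hi j hj hij g k (hMvN i hi hir g M hM) (hMvN j hj hjr k M' hM')
        have hMS' := hMvS j hj hjr k M' hM'
        rw [if_pos haj, NS_eq]
        have h1 := F2 j hj hjr k M' hM' M hMS
        have h2 : Cx s(a, p) M ≤ Cx s(a, p) (segL (W i)) := by
          rw [Cx_perm _ hM.pm, Cx_cons]
          omega
        have h3 : Cx s(b g, p) (segL (W' j)) ≤ Cx s(a, p) (segL (W j)) := by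
          rw [Cx_perm _ hM'.pm', Cx_perm _ hM'.pm, Cx_cons, Cx_cons, Cx_cons,
            if_neg (X3 g hg k hk), if_neg (X4 g hg k hk hgk)]
          have := Cx_mono (L := M') (fun t ht => X2 g hg t (hMS' t ht))
          omega
        have h4 : Cx s(b g, g) (segL (W' j)) ≤ Cx s(a, g) (segL (W j)) := by
          rw [Cx_perm _ hM'.pm', Cx_perm _ hM'.pm, Cx_cons, Cx_cons, Cx_cons,
            if_neg (fun h => X4 k hk g hg hgk.symm (Xs_symm h)), if_neg (X5 g hg k hk hgk)]
          have := Cx_mono (L := M') (fun t ht => X1 g hg t (hMS' t ht))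
          omega
        omega
      · have hun := hunS j hj haj
        rw [if_neg haj, hWu j hj hjr haj]
        have h3 := Cx_mono (L := segL (W j)) (fun t ht => X2 g hg t (hun t ht))
        have h4 := Cx_mono (L := segL (W j)) (fun t ht => X1 g hg t (hun t ht))
        omega
    · rw [if_neg hai, hWu i hi hir hai]
      by_cases haj : a ∈ W j
      · obtain ⟨k, M', hM'⟩ := hWm j hj hjr haj
        have h1 := F2 j hj hjr k M' hM' (segL (W i)) (hunS i hi hai)
        rw [if_pos haj, NS_eq, Nx_eq, Nx_eq]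
        omega
      · rw [hWu j hj hjr haj, if_neg haj]
        omega
  have hNr : ∀ j ∈ A, j ≠ r → Nx (p :: rest) (W' j) ≤ Nx (p :: rest) (W j) := by
    intro j hj hjr
    by_cases haj : a ∈ W j
    · obtain ⟨k, M', hM'⟩ := hWm j hj hjr haj
      rw [Nx_eq, Nx_eq]
      refine sum_le (fun s hs => ?_)
      have h1 := F1 j hj hjr k M' hM' s (hrS s hs)
      rw [if_neg (no_X hN0 (by rw [hsegr]; exact List.mem_cons_of_mem _ hs)
        (by rw [hsegr]; exact List.mem_cons_self))] at h1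
      omega
    · rw [hWu j hj hjr haj]
  refine ⟨W', ⟨?_, ?_, ?_⟩, ?_, ?_, hWr', fun i hi hir ha => hWu i hi hir ha, ?_, ?_, hNx, hNr⟩
  · intro i hi
    exact hlen' i (Finset.mem_of_mem_erase hi) (Finset.ne_of_mem_erase hi)
  · intro i hi
    exact hnd' i (Finset.mem_of_mem_erase hi)
  · intro i hi j hj
    exact hsep' i (Finset.mem_of_mem_erase hi) j (Finset.mem_of_mem_erase hj)
  · intro i hi j hj
    exact hPO' i (Finset.mem_of_mem_erase hi) j (Finset.mem_of_mem_erase hj)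
  · intro hrest
    refine ⟨⟨?_, hnd', hsep'⟩, hPO'⟩
    intro i hi
    by_cases hir : i = r
    · subst hir
      rw [hWr']
      have := List.length_pos_iff.2 hrest
      simp only [List.length_cons]
      omega
    · exact hlen' i hi hir
  · intro i hi hir
    by_cases ha : a ∈ W i
    · obtain ⟨g, M, hM⟩ := hWm i hi hir ha
      exact hM.hh
    · rw [hWu i hi hir ha, if_neg]
      intro e
      exact ha (List.mem_of_mem_head? e)
  · intro i hi hir
    by_cases ha : a ∈ W i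
    · obtain ⟨g, M, hM⟩ := hWm i hi hir ha
      exact hM.hl
    · rw [hWu i hi hir ha, if_neg]
      intro e
      exact ha (List.mem_of_getLast? e)

end Pool.Agent.NH90.CN
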