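import Pool.Agent.NH90.CN.Stm

set_option autoImplicit false

open Set Classical
open Pool.Agent.Helper770.Crossing Pool.Agent.Helper770.Sep

namespace Pool.Agent.NH90.CN

namespace MVp

/-! ## Basic lemmas on segments -/

theorem sg_mk (a b : ℂ) : sg s(a, b) = segment ℝ a b := by
  unfold sg
  rw [← convexHull_pair]
  congr 1
  ext z
  simp

theorem Xs_symm {s t : Sym2 ℂ} (h : Xs s t) : Xs t s :=
  ⟨fun q hq hq' => h.1 q hq' hq, by rw [Set.inter_comm]; exact h.2⟩

theorem mem_of_segL : ∀ (l : List ℂ) (s : Sym2 ℂ), s ∈ segL l → ∀ q ∈ s, q ∈ l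
  | [], _, h, _, _ => by simp [segL] at h
  | [_], _, h, _, _ => by simp [segL] at h
  | a :: b :: l, s, h, q, hq => by
    rw [segL, List.mem_cons] at h
    rcases h with h | h
    · subst h
      rw [Sym2.mem_iff] at hq
      rcases hq with rfl | rfl
      · exact List.mem_cons_self
      · exact List.mem_cons_of_mem _ List.mem_cons_self
    · exact List.mem_cons_of_mem _ (mem_of_segL (b :: l) s h q hq)

theorem not_diag_segL : ∀ (l : List ℂ) (a : ℂ), l.Nodup → s(a, a) ∉ segL l
  | [], _, _ => by simp [segL]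
  | [_], _, _ => by simp [segL]
  | x :: y :: l, a, h => by
    rw [segL, List.mem_cons]
    rintro (h1 | h1)
    · rw [Sym2.eq_iff] at h1
      have hxy : x = y := by
        rcases h1 with ⟨h1, h2⟩ | ⟨h1, h2⟩
        · exact h1.symm.trans h2
        · exact h2.symm.trans h1
      rw [hxy] at h
      simp at h
    · exact not_diag_segL (y :: l) a (List.nodup_cons.1 h).2 h1

theorem segL_concat : ∀ (l : List ℂ) (x y : ℂ),
    segL (l ++ [x, y]) = segL (l ++ [x]) ++ [s(x, y)]
  | [], x, y => by simp [segL]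
  | [z], x, y => by simp [segL]
  | z :: w :: l, x, y => by
    have h := segL_concat (w :: l) x y
    simp only [List.cons_append] at h ⊢
    rw [segL, segL, h]
    simp

theorem segL_rev : ∀ (l : List ℂ), (segL l.reverse).Perm (segL l)
  | [] => by simp [segL]
  | [z] => by simp [segL]
  | z :: w :: l => by
    have h := segL_rev (w :: l)
    have e : (z :: w :: l).reverse = l.reverse ++ [w, z] := by simp
    have e' : (w :: l).reverse = l.reverse ++ [w] := by simp
    rw [e, segL_concat, ← e', segL, Sym2.eq_swap]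
    exact (List.perm_append_comm).trans (List.Perm.cons _ h)

/-- the number of elements of `L` crossed by `s` -/
noncomputable def Cx (s : Sym2 ℂ) (L : List (Sym2 ℂ)) : ℕ := L.countP (fun s' => decide (Xs s s'))

theorem NS_eq (s : Sym2 ℂ) (l : List ℂ) : NS s l = Cx s (segL l) := rfl

theorem Nx_eq (l l' : List ℂ) : Nx l l' = ((segL l).map (fun s => Cx s (segL l'))).sum := rfl

theorem Cx_perm {L L' : List (Sym2 ℂ)} (s : Sym2 ℂ) (h : L.Perm L') : Cx s L = Cx s L' :=
  h.countP_eq _

theorem Cx_cons (s t : Sym2 ℂ) (L : List (Sym2 ℂ)) :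
    Cx s (t :: L) = (if Xs s t then 1 else 0) + Cx s L := by
  unfold Cx
  rw [List.countP_cons, add_comm]
  simp

theorem Cx_mono {s s' : Sym2 ℂ} {L : List (Sym2 ℂ)} (h : ∀ t ∈ L, Xs s t → Xs s' t) :
    Cx s L ≤ Cx s' L := by
  unfold Cx
  apply List.countP_mono_left
  intro t ht
  simpa using h t ht

theorem sum_ind (t : Sym2 ℂ) : ∀ (L : List (Sym2 ℂ)),
    (L.map (fun s => if Xs s t then 1 else 0)).sum = Cx t L
  | [] => by simp [Cx]
  | s :: L => by
    rw [List.map_cons, List.sum_cons, sum_ind t L, Cx_cons]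
    congr 1
    by_cases h : Xs s t
    · rw [if_pos h, if_pos (Xs_symm h)]
    · rw [if_neg h, if_neg (fun h' => h (Xs_symm h'))]

theorem Nx_perm {l l' : List ℂ} {L : List (Sym2 ℂ)} (h : (segL l).Perm L) :
    Nx l l' = (L.map (fun s => Cx s (segL l'))).sum := by
  rw [Nx_eq]
  exact (h.map _).sum_eq

theorem sum_le {L : List (Sym2 ℂ)} {f g : Sym2 ℂ → ℕ} (h : ∀ s ∈ L, f s ≤ g s) :
    (L.map f).sum ≤ (L.map g).sum := List.sum_le_sum h

theorem no_X {l l' : List ℂ} (h : Nx l l' = 0) {s t : Sym2 ℂ} (hs : s ∈ segL l)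
    (ht : t ∈ segL l') : ¬ Xs s t := by
  intro hX
  rw [Nx_eq] at h
  have h1 := List.sum_eq_zero_iff.1 h (Cx s (segL l')) (List.mem_map_of_mem hs)
  unfold Cx at h1
  rw [List.countP_eq_zero] at h1
  exact h1 t ht (by simpa using hX)

/-- `l'` is obtained from `l` by moving the end `a` to `p`, with the new point `b g` near `a` on
the segment at `a` -/
structure Mv (a p : ℂ) (b : ℂ → ℂ) (l l' : List ℂ) (g : ℂ) (M : List (Sym2 ℂ)) : Prop where
  pm : (segL l).Perm (s(a, g) :: M)
  pm' : (segL l').Perm (s(b g, p) :: s(b g, g) :: M)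
  na : ∀ s ∈ M, a ∉ s
  mem : ∀ q, q ∈ l' ↔ q = p ∨ q = b g ∨ (q ∈ l ∧ q ≠ a)
  nd : p ∉ l → b g ∉ l → b g ≠ p → l'.Nodup
  len : 2 ≤ l'.length
  hh : l'.head? = if l.head? = some a then some p else l.head?
  hl : l'.getLast? = if l.getLast? = some a then some p else l.getLast?

theorem Mv_reverse {a p : ℂ} {b : ℂ → ℂ} {l l' : List ℂ} {g : ℂ} {M : List (Sym2 ℂ)}
    (h : Mv a p b l l' g M) : Mv a p b l.reverse l'.reverse g M where
  pm := (segL_rev l).trans h.pm
  pm' := (segL_rev l').trans h.pm'
  na := h.na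
  mem := by
    intro q
    rw [List.mem_reverse, List.mem_reverse]
    exact h.mem q
  nd := by
    intro h1 h2 h3
    rw [List.mem_reverse] at h1 h2
    exact List.nodup_reverse.2 (h.nd h1 h2 h3)
  len := by
    rw [List.length_reverse]
    exact h.len
  hh := by
    rw [List.head?_reverse, List.head?_reverse]
    exact h.hl
  hl := by
    rw [List.getLast?_reverse, List.getLast?_reverse]
    exact h.hh

theorem Mv_head (a p : ℂ) (b : ℂ → ℂ) (g : ℂ) (l : List ℂ) (hnd : (a :: g :: l).Nodup) :
    Mv a p b (a :: g :: l) (p :: b g :: g :: l) g (segL (g :: l)) where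
  pm := by rw [segL]
  pm' := by
    rw [segL, segL, Sym2.eq_swap]
  na := by
    intro s hs ha
    exact (List.nodup_cons.1 hnd).1 (mem_of_segL _ s hs a ha)
  mem := by
    intro q
    have h1 : a ∉ g :: l := (List.nodup_cons.1 hnd).1
    constructor
    · intro hq
      rw [List.mem_cons, List.mem_cons] at hq
      rcases hq with hq | hq | hq
      · exact Or.inl hq
      · exact Or.inr (Or.inl hq)
      · refine Or.inr (Or.inr ⟨List.mem_cons_of_mem _ hq, ?_⟩)
        rintro rfl
        exact h1 hq
    · rintro (hq | hq | ⟨hq, hqa⟩)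
      · rw [hq]; simp
      · rw [hq]; simp
      · rw [List.mem_cons] at hq
        rcases hq with hq | hq
        · exact absurd hq hqa
        · exact List.mem_cons_of_mem _ (List.mem_cons_of_mem _ hq)
  nd := by
    intro h1 h2 h3
    rw [List.nodup_cons, List.nodup_cons]
    refine ⟨?_, ?_, (List.nodup_cons.1 hnd).2⟩
    · intro h
      rw [List.mem_cons] at h
      rcases h with h | h
      · exact h3 h.symm
      · exact h1 (List.mem_cons_of_mem _ h)
    · intro h
      exact h2 (List.mem_cons_of_mem _ h)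
  len := by simp
  hh := by simp
  hl := by
    have h1 : a ∉ g :: l := (List.nodup_cons.1 hnd).1
    have e1 : (p :: b g :: g :: l).getLast? = (g :: l).getLast? := by
      simp [List.getLast?_cons_cons]
    have e2 : (a :: g :: l).getLast? = (g :: l).getLast? := by
      simp [List.getLast?_cons_cons]
    rw [e1, e2, if_neg]
    intro h
    exact h1 (List.mem_of_getLast? h)

/-- existence of the moved list -/
theorem Mv_ex (a p : ℂ) (b : ℂ → ℂ) (l : List ℂ) (hnd : l.Nodup) (hlen : 2 ≤ l.length)
    (hEn : En l a) : ∃ l' g M, Mv a p b l l' g M := by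
  rcases hEn with h | h
  · match l, h, hnd, hlen with
    | [], h, _, _ => simp at h
    | [x], h, _, h2 => simp at h2
    | x :: g :: l, h, hnd, _ =>
      simp only [List.head?_cons, Option.some.injEq] at h
      subst h
      exact ⟨_, _, _, Mv_head _ p b g l hnd⟩
  · rw [← List.head?_reverse] at h
    have hnd' : l.reverse.Nodup := List.nodup_reverse.2 hnd
    have hlen' : 2 ≤ l.reverse.length := by rwa [List.length_reverse]
    generalize hL : l.reverse = L at h hnd' hlen'
    match L, h, hnd', hlen', hL with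
    | [], h, _, _, _ => simp at h
    | [x], h, _, h2, _ => simp at h2
    | x :: g :: l0, h, hnd', _, hL =>
      simp only [List.head?_cons, Option.some.injEq] at h
      subst h
      have h1 := Mv_reverse (Mv_head x p b g l0 hnd')
      rw [← hL, List.reverse_reverse] at h1
      exact ⟨_, _, _, h1⟩

theorem ind_le {x y : Prop} (h : x → y) : (if x then 1 else 0 : ℕ) ≤ (if y then 1 else 0) := by
  by_cases hx : x
  · rw [if_pos hx, if_pos (h hx)]
  · rw [if_neg hx]
    exact Nat.zero_le _

theorem ray_of_seg {a b g z : ℂ} (hb : b ∈ openSegment ℝ a g) (hz : z ∈ segment ℝ b g) :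
    ∃ u : ℝ, 0 < u ∧ u ≤ 1 ∧ z = a + u • (g - a) := by
  obtain ⟨c, s, hc, hs, hcs, rfl⟩ := hb
  obtain ⟨d, t, hd, ht, hdt, rfl⟩ := hz
  refine ⟨d * s + t, ?_, ?_, ?_⟩
  · rcases hd.eq_or_lt with h | h
    · rw [← h] at hdt ⊢
      linarith
    · have := mul_pos h hs
      linarith
  · have h1 : s ≤ 1 := by linarith
    have := mul_le_mul_of_nonneg_left h1 hd
    linarith
  · have e1 : c = 1 - s := by linarith
    have e2 : d = 1 - t := by linarith
    subst e1 e2
    simp only [Complex.real_smul]
    push_cast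
    ring

theorem seg_of_ray {a g k : ℂ} {u v : ℝ} (hu : 0 < u) (huv : u ≤ v)
    (h : a + u • (g - a) = a + v • (k - a)) : k ∈ segment ℝ a g := by
  have hv : 0 < v := lt_of_lt_of_le hu huv
  have hvc : (v : ℂ) ≠ 0 := by exact_mod_cast hv.ne'
  refine ⟨1 - u / v, u / v, ?_, by positivity, by ring, ?_⟩
  · have := (div_le_one hv).2 huv
    linarith
  · simp only [Complex.real_smul] at h ⊢
    push_cast
    have h1 : (u : ℂ) * (g - a) = v * (k - a) := by linear_combination h
    field_simp
    linear_combination h1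

end MVp

end Pool.Agent.NH90.CN
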