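import Pool.Agent.NH90.CN.Stm

set_option autoImplicit false

open Set Classical
open Pool.Agent.Helper770.Crossing Pool.Agent.Helper770.Sep

namespace Pool.Agent.NH90.CN

/-! ## Doubling of drawings (prisms and hypercubes) -/

/-- adding a parallel copy `l` of the polyline `W i` -/
def S_PAR : Prop := ∀ (I : Type) (A : Finset I) (W : I → List ℂ) (i i' : I), PL A W → PO A W →
  i ∈ A → i' ∉ A → Nx (W i) (W i) = 0 →
  ∃ l : List ℂ, l.head? = (W i).head? ∧ l.getLast? = (W i).getLast? ∧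
    PL (insert i' A) (Function.update W i' l) ∧ PO (insert i' A) (Function.update W i' l) ∧
    Nx l l = 0 ∧ ∀ j ∈ A, Nx l (W j) ≤ Nx (W i) (W j)

/-- doubling every polyline -/
def S_2G : Prop := ∀ (I : Type) (A : Finset I) (W : I → List ℂ), PL A W → PO A W →
  (∀ i ∈ A, Nx (W i) (W i) = 0) →
  ∃ W₁ : I × Bool → List ℂ, PL (A ×ˢ (Finset.univ : Finset Bool)) W₁ ∧
    PO (A ×ˢ (Finset.univ : Finset Bool)) W₁ ∧
    (∀ i ∈ A, ∀ b, (W₁ (i, b)).head? = (W i).head? ∧ (W₁ (i, b)).getLast? = (W i).getLast?) ∧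
    ∀ i ∈ A, ∀ j ∈ A, ∀ b c, Nx (W₁ (i, b)) (W₁ (j, c)) ≤ Nx (W i) (W j)

/-- the family after moving the end `v` of the polylines in `M` to `v'`; `r` becomes `[v, v']` -/
noncomputable def spl {I : Type} (W : I → List ℂ) (M : Finset I) (r : I) (v v' : ℂ) :
    I → List ℂ := fun i =>
  if i = r then [v, v'] else
    if i ∈ M then (W i).map (fun x => if x = v then v' else x) else W i

/-- splitting a vertex `v` into two nearby vertices `v`, `v'` joined by a short segment -/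
def S_SPLIT : Prop := ∀ (I : Type) (A M : Finset I) (W : I → List ℂ) (r : I) (v : ℂ),
  PL A W → PO A W → r ∉ A → (∃ i ∈ A, v ∈ W i) → (∀ i ∈ A, v ∈ W i → En (W i) v) →
  ∃ v' : ℂ, v' ≠ v ∧ (∀ i ∈ A, v' ∉ W i) ∧
    PL (insert r A) (spl W M r v v') ∧ PO (insert r A) (spl W M r v v') ∧
    (∀ i ∈ A, ∀ j ∈ A, Nx (spl W M r v v' i) (spl W M r v v' j) ≤ Nx (W i) (W j) +
      if v ∈ W i ∧ v ∈ W j ∧ ¬ (i ∈ M ↔ j ∈ M) then 1 else 0) ∧
    (∀ i ∈ A, Nx [v, v'] (spl W M r v v' i) = 0)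

/-- splitting every vertex of a doubled family -/
def S_SPL : Prop := ∀ (V I : Type) [Fintype V] (A : Finset I) (hd tl : I → V) (loc : V → ℂ)
  (W₁ : I × Bool → List ℂ), PL (A ×ˢ (Finset.univ : Finset Bool)) W₁ →
  PO (A ×ˢ (Finset.univ : Finset Bool)) W₁ →
  Lb (A ×ˢ (Finset.univ : Finset Bool)) (fun p => hd p.1) (fun p => tl p.1) loc W₁ →
  (∀ v : V, ∃ i ∈ A, v ∈ s(hd i, tl i)) →
  ∃ (loc₂ : V × Bool → ℂ) (W₂ : (I × Bool) ⊕ V → List ℂ),
    PL ((A ×ˢ (Finset.univ : Finset Bool)).disjSum (Finset.univ : Finset V)) W₂ ∧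
    PO ((A ×ˢ (Finset.univ : Finset Bool)).disjSum (Finset.univ : Finset V)) W₂ ∧
    Lb ((A ×ˢ (Finset.univ : Finset Bool)).disjSum (Finset.univ : Finset V))
      (Sum.elim (fun p => (hd p.1, p.2)) (fun v => (v, false)))
      (Sum.elim (fun p => (tl p.1, p.2)) (fun v => (v, true))) loc₂ W₂ ∧
    (∀ i ∈ A, ∀ j ∈ A, ∀ b c, Nx (W₂ (Sum.inl (i, b))) (W₂ (Sum.inl (j, c))) ≤
      Nx (W₁ (i, b)) (W₁ (j, c)) + if b = c then 0 else
        ((Finset.univ : Finset V).filter (fun v => v ∈ s(hd i, tl i) ∧ v ∈ s(hd j, tl j))).card) ∧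
    (∀ v : V, ∀ x ∈ (A ×ˢ (Finset.univ : Finset Bool)).disjSum (Finset.univ : Finset V),
      Nx (W₂ (Sum.inr v)) (W₂ x) = 0)

/-- degree of a vertex, as a number of edges -/
noncomputable def dgr {V : Type} [Fintype V] (G : SimpleGraph V) (v : V) : ℕ :=
  ((eF G).filter (fun e => v ∈ e)).card

/-- the crossing number of a prism -/
def S_DBL : Prop := ∀ (V : Type) [Fintype V] (G : SimpleGraph V), (∀ v, ∃ w, G.Adj v w) →
  crossingNumber (prism G) ≤ 4 * crossingNumber G + ∑ v : V, dgr G v ^ 2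

/-- the crossing numbers of hypercubes -/
def S_CUB : Prop := ∀ n : ℕ, 1 ≤ n →
  crossingNumber (hypercube (n + 1)) ≤ 4 * crossingNumber (hypercube n) + n ^ 2 * 2 ^ n

/-- the normalised crossing numbers of hypercubes converge -/
def S_LIM : Prop := ∃ L : ℝ, Filter.Tendsto
    (fun n : ℕ => (crossingNumber (hypercube n) : ℝ) / 4 ^ n) Filter.atTop (nhds L) ∧
  ∀ n : ℕ, 1 ≤ n → L ≤ (crossingNumber (hypercube n) : ℝ) / 4 ^ n + (n ^ 2 + 2 * n + 3) / 2 ^ (n + 1)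

end Pool.Agent.NH90.CN
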