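import Pool.Agent.NH90.CN.Base
import Pool.Agent.NH90.CN.Stm2

/-!
# HC-1: adding a parallel copy of a polyline: preparations
-/

set_option autoImplicit false

open Set Classical Filter Topology
open Pool.Agent.Helper770.Crossing Pool.Agent.Helper770.Sep

namespace Pool.Agent.NH90.CN.PARp

/-! ### moving points -/

/-- the moving point `q + ε v` -/
noncomputable def mv (ε : ℝ) (p : ℂ × ℂ) : ℂ := p.1 + (ε : ℂ) * p.2

theorem segment_subset {x y x' y' : ℂ} {δ : ℝ} (hx : dist x' x < δ)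
    (hy : dist y' y < δ) : segment ℝ x' y' ⊆ Metric.thickening δ (segment ℝ x y) := by
  intro z hz
  obtain ⟨a, b, ha, hb, hab, rfl⟩ := hz
  rw [Metric.mem_thickening_iff]
  refine ⟨a • x + b • y, ⟨a, b, ha, hb, hab, rfl⟩, ?_⟩
  rw [dist_eq_norm] at hx hy ⊢
  have e : a • x' + b • y' - (a • x + b • y) = a • (x' - x) + b • (y' - y) := by
    rw [smul_sub, smul_sub]; abel
  rw [e]
  have h1 : ‖a • (x' - x) + b • (y' - y)‖ ≤ a * ‖x' - x‖ + b * ‖y' - y‖ := by
    refine (norm_add_le _ _).trans (le_of_eq ?_)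
    rw [norm_smul, norm_smul, Real.norm_of_nonneg ha, Real.norm_of_nonneg hb]
  refine h1.trans_lt ?_
  rcases lt_or_eq_of_le ha with h | h
  · have h2 : a * ‖x' - x‖ < a * δ := mul_lt_mul_of_pos_left hx h
    have h3 : b * ‖y' - y‖ ≤ b * δ := mul_le_mul_of_nonneg_left hy.le hb
    have h4 : a * δ + b * δ = δ := by rw [← add_mul, hab, one_mul]
    linarith
  · have hb1 : b = 1 := by linarith
    rw [← h, hb1]
    linarith

theorem compact_segment (x y : ℂ) : IsCompact (segment ℝ x y) := by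
  rw [segment_eq_image]
  refine isCompact_Icc.image ?_
  fun_prop

theorem ev_mv (p : ℂ × ℂ) {δ : ℝ} (hδ : 0 < δ) : ∀ᶠ ε : ℝ in 𝓝[>] 0, dist (mv ε p) p.1 < δ := by
  have h1 : Continuous (fun ε : ℝ => mv ε p) := by unfold mv; fun_prop
  have h2 : Tendsto (fun ε : ℝ => mv ε p) (𝓝[>] 0) (𝓝 p.1) := by
    have h3 := h1.tendsto 0
    have h4 : mv 0 p = p.1 := by simp [mv]
    rw [h4] at h3
    exact h3.mono_left nhdsWithin_le_nhds
  exact h2.eventually (Metric.ball_mem_nhds _ hδ)

theorem ev_disj (S : Finset (ℂ × ℂ)) : ∀ᶠ ε : ℝ in 𝓝[>] 0, ∀ a ∈ S, ∀ b ∈ S, ∀ c ∈ S, ∀ d ∈ S,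
    Disjoint (segment ℝ a.1 b.1) (segment ℝ c.1 d.1) →
    Disjoint (segment ℝ (mv ε a) (mv ε b)) (segment ℝ (mv ε c) (mv ε d)) := by
  rw [eventually_all_finset]
  intro a _
  rw [eventually_all_finset]
  intro b _
  rw [eventually_all_finset]
  intro c _
  rw [eventually_all_finset]
  intro d _
  by_cases hd : Disjoint (segment ℝ a.1 b.1) (segment ℝ c.1 d.1)
  · obtain ⟨δ, h0, hδ⟩ := hd.exists_thickenings (compact_segment _ _) (compact_segment _ _).isClosed
    filter_upwards [ev_mv a h0, ev_mv b h0, ev_mv c h0, ev_mv d h0] with ε h1 h2 h3 h4 _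
    exact hδ.mono (segment_subset h1 h2) (segment_subset h3 h4)
  · exact Eventually.of_forall fun _ h => absurd h hd

theorem ev_pos {F : ℝ → ℝ} (hF : Continuous F) (h : 0 < F 0) : ∀ᶠ ε : ℝ in 𝓝[>] 0, 0 < F ε :=
  (((hF.tendsto 0).mono_left nhdsWithin_le_nhds)).eventually (lt_mem_nhds h)

/-! ### sides of a line -/

/-- cross product -/
def cr (a b : ℂ) : ℝ := a.re * b.im - a.im * b.re

theorem cr_comb {d p a b : ℂ} {s t : ℝ} (h : s + t = 1) :
    cr d (s • a + t • b - p) = s * cr d (a - p) + t * cr d (b - p) := by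
  have ht : t = 1 - s := by linarith
  subst ht
  simp only [cr, Complex.sub_re, Complex.sub_im, Complex.add_re, Complex.add_im, Complex.real_smul,
    Complex.re_ofReal_mul, Complex.im_ofReal_mul]
  ring

theorem K_left {d p a b x : ℂ} (ha : 0 ≤ cr d (a - p)) (hb : 0 < cr d (b - p))
    (hx : x ∈ segment ℝ a b) (h : cr d (x - p) ≤ 0) : x = a := by
  obtain ⟨s, t, hs, ht, hst, rfl⟩ := hx
  rw [cr_comb hst] at h
  have h1 : 0 ≤ s * cr d (a - p) := mul_nonneg hs ha
  have ht0 : t = 0 := by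
    by_contra hne
    have : 0 < t * cr d (b - p) := mul_pos (lt_of_le_of_ne ht (Ne.symm hne)) hb
    linarith
  have hs1 : s = 1 := by linarith
  rw [ht0, hs1]; simp

theorem K_right {d p a b x : ℂ} (ha : 0 < cr d (a - p)) (hb : 0 ≤ cr d (b - p))
    (hx : x ∈ segment ℝ a b) (h : cr d (x - p) ≤ 0) : x = b := by
  rw [segment_symm] at hx
  exact K_left hb ha hx h

theorem K_pos {d p a b x : ℂ} (ha : 0 < cr d (a - p)) (hb : 0 < cr d (b - p))
    (hx : x ∈ segment ℝ a b) : 0 < cr d (x - p) := by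
  by_contra h
  have h1 := K_left ha.le hb hx (not_lt.1 h)
  rw [h1] at h
  exact h ha

theorem K_nonpos {d p a b x : ℂ} (ha : cr d (a - p) ≤ 0) (hb : cr d (b - p) ≤ 0)
    (hx : x ∈ segment ℝ a b) : cr d (x - p) ≤ 0 := by
  obtain ⟨s, t, hs, ht, hst, rfl⟩ := hx
  rw [cr_comb hst]
  have h1 := mul_nonneg hs (neg_nonneg.2 ha)
  have h2 := mul_nonneg ht (neg_nonneg.2 hb)
  nlinarith

theorem exists_left (d d' : ℂ) (hd : d ≠ 0) (h : ∀ r : ℝ, r ≤ 0 → d' ≠ (r : ℂ) * d) :
    ∃ n : ℂ, 0 < cr d n ∧ 0 < cr d' n := by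
  rcases lt_trichotomy (cr d d') 0 with h1 | h1 | h1
  · refine ⟨d - d', ?_, ?_⟩
    · simp only [cr, Complex.sub_re, Complex.sub_im] at h1 ⊢; linarith
    · simp only [cr, Complex.sub_re, Complex.sub_im] at h1 ⊢; linarith
  · have hN : 0 < d.re ^ 2 + d.im ^ 2 := by
      by_contra hneg
      have h2 : d.re ^ 2 + d.im ^ 2 = 0 := le_antisymm (not_lt.1 hneg) (by positivity)
      apply hd
      apply Complex.ext
      · simp only [Complex.zero_re]; nlinarith [sq_nonneg d.re, sq_nonneg d.im]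
      · simp only [Complex.zero_im]; nlinarith [sq_nonneg d.re, sq_nonneg d.im]
    set r : ℝ := (d.re * d'.re + d.im * d'.im) / (d.re ^ 2 + d.im ^ 2) with hr
    have e1 : d' = (r : ℂ) * d := by
      have h3 : d.re * d'.im = d.im * d'.re := by unfold cr at h1; linarith
      apply Complex.ext
      · rw [Complex.re_ofReal_mul, hr, div_mul_eq_mul_div, eq_div_iff hN.ne']
        linear_combination (-d.im) * h3
      · rw [Complex.im_ofReal_mul, hr, div_mul_eq_mul_div, eq_div_iff hN.ne']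
        linear_combination d.re * h3
    have hrp : 0 < r := by
      by_contra hneg
      exact h r (not_lt.1 hneg) e1
    refine ⟨Complex.I * d, ?_, ?_⟩
    · simp only [cr, Complex.mul_re, Complex.mul_im, Complex.I_re, Complex.I_im]
      nlinarith
    · rw [e1]
      simp only [cr, Complex.mul_re, Complex.mul_im, Complex.I_re, Complex.I_im, Complex.ofReal_re,
        Complex.ofReal_im]
      have := mul_pos hrp hN
      nlinarith
  · refine ⟨d' - d, ?_, ?_⟩
    · simp only [cr, Complex.sub_re, Complex.sub_im] at h1 ⊢; linarith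
    · simp only [cr, Complex.sub_re, Complex.sub_im] at h1 ⊢; linarith

/-! ### lists -/

theorem segL_range (f : ℕ → ℂ) (m : ℕ) :
    segL ((List.range (m + 1)).map f) = (List.range m).map (fun k => s(f k, f (k + 1))) := by
  induction m with
  | zero => simp
  | succ m ih =>
    have e1 : (List.range (m + 1 + 1)).map f = (List.range m).map f ++ f m :: [f (m + 1)] := by
      rw [List.range_succ, List.range_succ]; simp
    have e2 : (List.range (m + 1)).map f = (List.range m).map f ++ [f m] := by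
      rw [List.range_succ]; simp
    rw [e1, segL_append, ← e2, ih, List.range_succ (n := m)]
    simp

theorem exists_fn (l : List ℂ) (h : 2 ≤ l.length) :
    ∃ (m : ℕ) (w : ℕ → ℂ), 1 ≤ m ∧ l = (List.range (m + 1)).map w := by
  refine ⟨l.length - 1, fun k => l.getD k 0, by omega, ?_⟩
  apply List.ext_getElem
  · simp; omega
  · intro k h1 h2
    simp [h1]

theorem inj_of_nodup {m : ℕ} {w : ℕ → ℂ} (h : ((List.range (m + 1)).map w).Nodup) :
    ∀ j ≤ m, ∀ k ≤ m, w j = w k → j = k := by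
  intro j hj k hk e
  rw [List.nodup_map_iff_inj_on List.nodup_range] at h
  exact h j (by simp; omega) k (by simp; omega) e

theorem nodup_of_inj {m : ℕ} {w : ℕ → ℂ} (h : ∀ j ≤ m, ∀ k ≤ m, w j = w k → j = k) :
    ((List.range (m + 1)).map w).Nodup := by
  rw [List.nodup_map_iff_inj_on List.nodup_range]
  intro j hj k hk e
  rw [List.mem_range] at hj hk
  exact h j (by omega) k (by omega) e

theorem head_range (m : ℕ) (w : ℕ → ℂ) : ((List.range (m + 1)).map w).head? = some (w 0) := by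
  rw [List.range_succ_eq_map]; simp

theorem last_range (m : ℕ) (w : ℕ → ℂ) : ((List.range (m + 1)).map w).getLast? = some (w m) := by
  rw [List.range_succ]; simp

theorem En_range {m : ℕ} {w : ℕ → ℂ} {q : ℂ} : En ((List.range (m + 1)).map w) q ↔
    q = w 0 ∨ q = w m := by
  unfold En
  rw [head_range, last_range]
  simp only [Option.some.injEq]
  exact ⟨fun h => h.imp Eq.symm Eq.symm, fun h => h.imp Eq.symm Eq.symm⟩

theorem Nx_range (f : ℕ → ℂ) (m : ℕ) (l : List ℂ) :
    Nx ((List.range (m + 1)).map f) l = ∑ k ∈ Finset.range m, NS s(f k, f (k + 1)) l := by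
  unfold Nx
  rw [segL_range, List.map_map, Finset.sum_range, ← List.sum_ofFn]
  congr 1
  apply List.ext_getElem
  · simp
  · intro k h1 h2
    simp

theorem NS_mono {s s' : Sym2 ℂ} {l : List ℂ} (h : ∀ t ∈ segL l, Xs s t → Xs s' t) :
    NS s l ≤ NS s' l := by
  unfold NS
  apply List.countP_mono_left
  intro t ht h1
  simp only [decide_eq_true_eq] at h1 ⊢
  exact h t ht h1

theorem exists_seg {l : List ℂ} (h : 2 ≤ l.length) {q : ℂ} (hq : q ∈ l) : ∃ s ∈ segL l, q ∈ s := by
  obtain ⟨m, w, hm, rfl⟩ := exists_fn l h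
  rw [segL_range]
  rw [List.mem_map] at hq
  obtain ⟨k, hk, rfl⟩ := hq
  rw [List.mem_range] at hk
  rcases Nat.lt_or_ge k m with h1 | h1
  · exact ⟨_, List.mem_map.2 ⟨k, List.mem_range.2 h1, rfl⟩, Sym2.mem_mk_left _ _⟩
  · refine ⟨_, List.mem_map.2 ⟨m - 1, List.mem_range.2 (by omega), rfl⟩, ?_⟩
    have e : m - 1 + 1 = k := by omega
    simp only [e]
    exact Sym2.mem_mk_right _ _

/-! ### adding a polyline to a family -/

theorem fam {I : Type} {A : Finset I} {W : I → List ℂ} {i i' : I} {l : List ℂ} (hPL : PL A W)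
    (hPO : PO A W) (hi : i ∈ A) (hi' : i' ∉ A) (hlen : 2 ≤ l.length) (hnd : l.Nodup)
    (hh : l.head? = (W i).head?) (ht : l.getLast? = (W i).getLast?)
    (H1 : ∀ q ∈ l, ¬ En l q → ∀ j ∈ A, ∀ s ∈ segL (W j), q ∉ sg s)
    (H2 : ∀ T ∈ segL l, ∀ q ∈ l, q ∈ sg T → q ∈ T)
    (H3 : ∀ T ∈ segL l, ∀ j ∈ A, ∀ q ∈ W j, q ∈ sg T → q ∈ T) :
    PL (insert i' A) (Function.update W i' l) ∧ PO (insert i' A) (Function.update W i' l) := by
  have hEn : ∀ q, En l q → En (W i) q := by
    intro q hq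
    unfold En at hq ⊢
    rw [← hh, ← ht]; exact hq
  have hu : ∀ j ∈ A, Function.update W i' l j = W j := by
    intro j hj
    apply Function.update_of_ne
    rintro rfl
    exact hi' hj
  have hu' : Function.update W i' l i' = l := Function.update_self _ _ _
  have hsep : ∀ j ∈ A, ∀ q ∈ l, q ∈ W j → En l q ∧ En (W j) q := by
    intro j hj q hq hqj
    have h1 : En l q := by
      by_contra hne
      obtain ⟨s, hs, hqs⟩ := exists_seg (hPL.len j hj) hqj
      exact H1 q hq hne j hj s hs (mem_sg_of_mem hqs)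
    refine ⟨h1, ?_⟩
    have h2 := hEn q h1
    by_cases hij : i = j
    · rw [← hij]; exact h2
    · exact (hPL.sep i hi j hj hij q (En_mem h2) hqj).2
  refine ⟨⟨?_, ?_, ?_⟩, ?_⟩
  · intro j hj
    rcases Finset.mem_insert.1 hj with rfl | ha
    · rw [hu']; exact hlen
    · rw [hu j ha]; exact hPL.len j ha
  · intro j hj
    rcases Finset.mem_insert.1 hj with rfl | ha
    · rw [hu']; exact hnd
    · rw [hu j ha]; exact hPL.nd j ha
  · intro j hj k hk hjk q
    rcases Finset.mem_insert.1 hj with rfl | ha <;> rcases Finset.mem_insert.1 hk with rfl | hb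
    · exact absurd rfl hjk
    · rw [hu', hu k hb]; exact hsep k hb q
    · rw [hu', hu j ha]; exact fun h1 h2 => (hsep j ha q h2 h1).symm
    · rw [hu j ha, hu k hb]; exact hPL.sep j ha k hb hjk q
  · intro j hj k hk s hs q hq hqs
    rcases Finset.mem_insert.1 hj with rfl | ha <;> rcases Finset.mem_insert.1 hk with rfl | hb
    · rw [hu'] at hs hq; exact H2 s hs q hq hqs
    · rw [hu'] at hs; rw [hu k hb] at hq; exact H3 s hs k hb q hq hqs
    · rw [hu j ha] at hs; rw [hu'] at hq
      have h1 : En l q := by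
        by_contra hne
        exact H1 q hq hne j ha s hs hqs
      exact hPO j ha i hi s hs q (En_mem (hEn q h1)) hqs
    · rw [hu j ha] at hs; rw [hu k hb] at hq; exact hPO j ha k hb s hs q hq hqs

end Pool.Agent.NH90.CN.PARp
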