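import Pool.Agent.NH90.CN.PARa

/-!
# HC-1: adding a parallel copy of a polyline with at least two segments
-/

set_option autoImplicit false

open Set Classical Filter Topology
open Pool.Agent.Helper770.Crossing Pool.Agent.Helper770.Sep

namespace Pool.Agent.NH90.CN.PARp

/-- the conclusion of the construction -/
structure Good1 {I : Type} (A : Finset I) (W : I → List ℂ) (i : I) (l : List ℂ) : Prop where
  hh : l.head? = (W i).head?
  ht : l.getLast? = (W i).getLast?
  len : 2 ≤ l.length
  nd : l.Nodup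
  H1 : ∀ q ∈ l, ¬ En l q → ∀ j ∈ A, ∀ s ∈ segL (W j), q ∉ sg s
  H2 : ∀ T ∈ segL l, ∀ q ∈ l, q ∈ sg T → q ∈ T
  H3 : ∀ T ∈ segL l, ∀ j ∈ A, ∀ q ∈ W j, q ∈ sg T → q ∈ T
  X0 : Nx l l = 0
  X1 : ∀ j ∈ A, Nx l (W j) ≤ Nx (W i) (W j)

theorem not_anti {a b c : ℂ} (h1 : c ∉ segment ℝ a b) (h2 : a ∉ segment ℝ b c) (r : ℝ)
    (hr : r ≤ 0) : c - b ≠ (r : ℂ) * (b - a) := by
  intro e
  rcases le_total (-1) r with h | h
  · apply h1
    rw [segment_eq_image]
    refine ⟨1 + r, ⟨by linarith, by linarith⟩, ?_⟩
    have e1 : c = b + (r : ℂ) * (b - a) := by rw [← e]; ring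
    rw [e1]
    simp only [Complex.real_smul]
    push_cast
    ring
  · apply h2
    have hr0 : r ≠ 0 := by linarith
    have hr0c : (r : ℂ) ≠ 0 := by exact_mod_cast hr0
    rw [segment_eq_image]
    refine ⟨-(1 / r), ⟨?_, ?_⟩, ?_⟩
    · have : 1 / r ≤ 0 := div_nonpos_of_nonneg_of_nonpos zero_le_one (by linarith)
      linarith
    · rw [neg_le, neg_le_iff_add_nonneg] 
      have : -1 ≤ 1 / r := by
        rw [le_div_iff_of_neg (by linarith)]; linarith
      linarith
    · have e1 : c = b + (r : ℂ) * (b - a) := by rw [← e]; ring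
      rw [e1]
      simp only [Complex.real_smul]
      push_cast
      field_simp
      ring

theorem main2 {I : Type} {A : Finset I} {W : I → List ℂ} {i : I} (hPL : PL A W) (hPO : PO A W)
    (hi : i ∈ A) (h0 : Nx (W i) (W i) = 0) {m : ℕ} {w : ℕ → ℂ} (hm : 2 ≤ m)
    (hW : W i = (List.range (m + 1)).map w) : ∃ l : List ℂ, Good1 A W i l := by
  have hsegW : segL (W i) = (List.range m).map (fun k => s(w k, w (k + 1))) := by
    rw [hW, segL_range]
  have hinj : ∀ j ≤ m, ∀ k ≤ m, w j = w k → j = k := by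
    apply inj_of_nodup
    rw [← hW]; exact hPL.nd i hi
  have hmemW : ∀ k ≤ m, w k ∈ W i := by
    intro k hk
    rw [hW]
    exact List.mem_map.2 ⟨k, List.mem_range.2 (by omega), rfl⟩
  have hsk : ∀ k < m, s(w k, w (k + 1)) ∈ segL (W i) := by
    intro k hk
    rw [hsegW]
    exact List.mem_map.2 ⟨k, List.mem_range.2 hk, rfl⟩
  -- points on the segments
  have hon : ∀ k < m, ∀ j ≤ m, w j ∈ segment ℝ (w k) (w (k + 1)) → j = k ∨ j = k + 1 := by
    intro k hk j hj h
    rw [← sg_mk] at h
    have h1 := hPO i hi i hi _ (hsk k hk) _ (hmemW j hj) h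
    rw [Sym2.mem_iff] at h1
    rcases h1 with h | h
    · left; exact hinj _ hj _ (by omega) h
    · right; exact hinj _ hj _ (by omega) h
  have hdis : ∀ k < m, ∀ j < m, (k + 2 ≤ j ∨ j + 2 ≤ k) →
      Disjoint (segment ℝ (w k) (w (k + 1))) (segment ℝ (w j) (w (j + 1))) := by
    intro k hk j hj hkj
    rw [Set.disjoint_iff_inter_eq_empty, ← Set.not_nonempty_iff_eq_empty]
    intro hne
    apply (Nx_eq_zero _ _).1 h0 _ (hsk k hk) _ (hsk j hj)
    refine ⟨?_, by rw [sg_mk, sg_mk]; exact hne⟩
    intro q hq hq'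
    rw [Sym2.mem_iff] at hq hq'
    rcases hq with rfl | rfl <;> rcases hq' with h | h <;>
      (have := hinj _ (by omega) _ (by omega) h; omega)
  -- ends
  have hEnW : ∀ q, En (W i) q → q = w 0 ∨ q = w m := by
    intro q hq
    rw [hW] at hq
    exact En_range.1 hq
  -- directions
  have hdir : ∀ k, 0 < k → k < m → ∃ n : ℂ, 0 < cr (w k - w (k - 1)) n ∧
      0 < cr (w (k + 1) - w k) n := by
    intro k hk hkm
    apply exists_left
    · rw [sub_ne_zero]
      intro e
      have := hinj _ (by omega) _ (by omega) e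
      omega
    · intro r hr
      apply not_anti _ _ r hr
      · intro h
        have e : k - 1 + 1 = k := by omega
        have h1 := hon (k - 1) (by omega) (k + 1) (by omega) (by rw [e]; exact h)
        omega
      · intro h
        have h1 := hon k hkm (k - 1) (by omega) h
        omega
  obtain ⟨n, hn, hn0⟩ : ∃ n : ℕ → ℂ, (∀ k, 0 < k → k < m → 0 < cr (w k - w (k - 1)) (n k) ∧
      0 < cr (w (k + 1) - w k) (n k)) ∧ ∀ k, ¬ (0 < k ∧ k < m) → n k = 0 := by
    refine ⟨fun k => if h : 0 < k ∧ k < m then (hdir k h.1 h.2).choose else 0, ?_, ?_⟩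
    · intro k h1 h2
      have h3 := (hdir k h1 h2).choose_spec
      simp only [dif_pos (show 0 < k ∧ k < m from ⟨h1, h2⟩)]
      exact h3
    · intro k hk
      simp only [dif_neg hk]
  -- moving points
  set S : Finset (ℂ × ℂ) := (A.biUnion (fun j => (W j).toFinset)).image (fun q => (q, (0 : ℂ))) ∪
    (Finset.range (m + 1)).image (fun k => (w k, n k)) with hS
  have hS1 : ∀ j ∈ A, ∀ q ∈ W j, (q, (0 : ℂ)) ∈ S := by
    intro j hj q hq
    rw [hS, Finset.mem_union]
    left
    exact Finset.mem_image.2 ⟨q, Finset.mem_biUnion.2 ⟨j, hj, List.mem_toFinset.2 hq⟩, rfl⟩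
  have hS2 : ∀ k ≤ m, (w k, n k) ∈ S := by
    intro k hk
    rw [hS, Finset.mem_union]
    right
    exact Finset.mem_image.2 ⟨k, Finset.mem_range.2 (by omega), rfl⟩
  have hev7 : ∀ᶠ ε : ℝ in 𝓝[>] 0, ∀ k ∈ Finset.range m, 0 < cr (w (k + 1) - w k) (w (k + 2) - w (k + 1)) →
      0 < cr (w (k + 2) - w (k + 1)) (mv ε (w k, n k) - w (k + 1)) ∧
      0 < cr (w (k + 1) - w k) (mv ε (w (k + 2), n (k + 2)) - w (k + 1)) := by
    rw [eventually_all_finset]
    intro k _
    by_cases hc : 0 < cr (w (k + 1) - w k) (w (k + 2) - w (k + 1))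
    · have h1 : ∀ᶠ ε : ℝ in 𝓝[>] 0,
          0 < cr (w (k + 2) - w (k + 1)) (mv ε (w k, n k) - w (k + 1)) := by
        apply ev_pos
        · unfold cr mv; fun_prop
        · simp only [cr, mv, Complex.sub_re, Complex.sub_im, Complex.ofReal_zero, zero_mul,
            add_zero] at hc ⊢
          linarith
      have h2 : ∀ᶠ ε : ℝ in 𝓝[>] 0,
          0 < cr (w (k + 1) - w k) (mv ε (w (k + 2), n (k + 2)) - w (k + 1)) := by
        apply ev_pos
        · unfold cr mv; fun_prop
        · simp only [cr, mv, Complex.sub_re, Complex.sub_im, Complex.ofReal_zero, zero_mul,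
            add_zero] at hc ⊢
          linarith
      filter_upwards [h1, h2] with ε h3 h4 _
      exact ⟨h3, h4⟩
    · exact Eventually.of_forall fun _ h => absurd h hc
  obtain ⟨ε, ⟨hD, h7⟩, hε⟩ := (((ev_disj S).and hev7).and self_mem_nhdsWithin).exists
  have hε : 0 < ε := hε
  have mv0 : ∀ q : ℂ, mv ε (q, 0) = q := by intro q; simp [mv]
  set wt : ℕ → ℂ := fun k => mv ε (w k, n k) with hwt
  have hwt0 : wt 0 = w 0 := by
    simp only [hwt, hn0 0 (by omega)]
    exact mv0 _
  have hwtm : wt m = w m := by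
    simp only [hwt, hn0 m (by omega)]
    exact mv0 _
  -- forms of the disjointness
  have hD1 : ∀ k < m, ∀ j ∈ A, ∀ x ∈ W j, ∀ y ∈ W j,
      Disjoint (segment ℝ (w k) (w (k + 1))) (segment ℝ x y) →
      Disjoint (segment ℝ (wt k) (wt (k + 1))) (segment ℝ x y) := by
    intro k hk j hj x hx y hy h
    have := hD _ (hS2 k (by omega)) _ (hS2 (k + 1) (by omega)) _ (hS1 j hj x hx) _ (hS1 j hj y hy) h
    rwa [mv0, mv0] at this
  have hD2 : ∀ k < m, ∀ j < m,
      Disjoint (segment ℝ (w k) (w (k + 1))) (segment ℝ (w j) (w (j + 1))) →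
      Disjoint (segment ℝ (wt k) (wt (k + 1))) (segment ℝ (wt j) (wt (j + 1))) := by
    intro k hk j hj h
    exact hD _ (hS2 k (by omega)) _ (hS2 (k + 1) (by omega)) _ (hS2 j (by omega)) _
      (hS2 (j + 1) (by omega)) h
  have hD3 : ∀ k < m, ∀ j ∈ A, ∀ q ∈ W j, q ∉ segment ℝ (w k) (w (k + 1)) →
      q ∉ segment ℝ (wt k) (wt (k + 1)) := by
    intro k hk j hj q hq h
    have h1 := hD1 k hk j hj q hq q hq
    rw [segment_same, Set.disjoint_singleton_right, Set.disjoint_singleton_right] at h1
    exact h1 h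
  have hD4 : ∀ k ≤ m, ∀ j ∈ A, ∀ x ∈ W j, ∀ y ∈ W j, w k ∉ segment ℝ x y →
      wt k ∉ segment ℝ x y := by
    intro k hk j hj x hx y hy h
    have h1 := hD _ (hS2 k hk) _ (hS2 k hk) _ (hS1 j hj x hx) _ (hS1 j hj y hy)
    simp only [segment_same, Set.disjoint_singleton_left] at h1
    have h2 := h1 h
    rwa [mv0, mv0] at h2
  have hD5 : ∀ k < m, ∀ j ≤ m, w j ∉ segment ℝ (w k) (w (k + 1)) →
      wt j ∉ segment ℝ (wt k) (wt (k + 1)) := by
    intro k hk j hj h
    have h1 := hD _ (hS2 j hj) _ (hS2 j hj) _ (hS2 k (by omega)) _ (hS2 (k + 1) (by omega))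
    simp only [segment_same, Set.disjoint_singleton_left] at h1
    exact h1 h
  have hD6 : ∀ j ≤ m, ∀ k ≤ m, wt j = wt k → j = k := by
    intro j hj k hk e
    by_contra hne
    have h1 := hD _ (hS2 j hj) _ (hS2 j hj) _ (hS2 k hk) _ (hS2 k hk)
    simp only [segment_same, Set.disjoint_singleton] at h1
    exact h1 (fun e' => hne (hinj j hj k hk e')) e
  -- sides
  have hcr : ∀ (d p q v : ℂ), cr d (mv ε (q, v) - p) = cr d (q - p) + ε * cr d v := by
    intro d p q v
    simp only [cr, mv, Complex.sub_re, Complex.sub_im, Complex.add_re, Complex.add_im,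
      Complex.re_ofReal_mul, Complex.im_ofReal_mul]
    ring
  have cr_self : ∀ d : ℂ, cr d d = 0 := by intro d; unfold cr; ring
  have cr_zero : ∀ d : ℂ, cr d 0 = 0 := by intro d; simp [cr]
  have side1 : ∀ k < m, 0 ≤ cr (w (k + 1) - w k) (wt k - w k) ∧
      (0 < k → 0 < cr (w (k + 1) - w k) (wt k - w k)) := by
    intro k hk
    have e : cr (w (k + 1) - w k) (wt k - w k) = ε * cr (w (k + 1) - w k) (n k) := by
      simp only [hwt]
      rw [hcr, sub_self, cr_zero, zero_add]
    rcases Nat.eq_zero_or_pos k with h | h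
    · refine ⟨?_, fun h' => by omega⟩
      rw [e, hn0 k (by omega), cr_zero, mul_zero]
    · have h1 := mul_pos hε (hn k h hk).2
      rw [e]
      exact ⟨h1.le, fun _ => h1⟩
  have side2 : ∀ k < m, 0 ≤ cr (w (k + 1) - w k) (wt (k + 1) - w k) ∧
      (k + 1 < m → 0 < cr (w (k + 1) - w k) (wt (k + 1) - w k)) := by
    intro k hk
    have e : cr (w (k + 1) - w k) (wt (k + 1) - w k) = ε * cr (w (k + 1) - w k) (n (k + 1)) := by
      simp only [hwt]
      rw [hcr, cr_self, zero_add]
    rcases Nat.lt_or_ge (k + 1) m with h | h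
    · have h1 := mul_pos hε (hn (k + 1) (by omega) h).1
      rw [e]
      exact ⟨h1.le, fun _ => h1⟩
    · refine ⟨?_, fun h' => by omega⟩
      rw [e, hn0 (k + 1) (by omega), cr_zero, mul_zero]
  have K : ∀ k < m, ∀ x ∈ segment ℝ (wt k) (wt (k + 1)), cr (w (k + 1) - w k) (x - w k) ≤ 0 →
      (k = 0 ∧ x = w 0) ∨ (k + 1 = m ∧ x = w m) := by
    intro k hk x hx h
    rcases Nat.lt_or_ge (k + 1) m with h1 | h1
    · left
      have h2 := K_left (side1 k hk).1 ((side2 k hk).2 h1) hx h
      have hk0 : k = 0 := by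
        by_contra hne
        have h3 := (side1 k hk).2 (Nat.pos_of_ne_zero hne)
        rw [← h2] at h3
        linarith
      refine ⟨hk0, ?_⟩
      rw [h2, hk0, hwt0]
    · right
      have hkm : k + 1 = m := by omega
      refine ⟨hkm, ?_⟩
      have h2 := K_right ((side1 k hk).2 (by omega)) (side2 k hk).1 hx h
      rw [h2, hkm, hwtm]
  -- the new segments and the old ones of the same polyline
  have hX : ∀ k < m, ∀ j < m, ¬ Xs s(wt k, wt (k + 1)) s(w j, w (j + 1)) := by
    intro k hk j hj hx
    obtain ⟨x, hx1, hx2⟩ := hx.2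
    rw [sg_mk] at hx1 hx2
    have hc0 : ∀ q, q ∈ s(wt k, wt (k + 1)) → q ∈ s(w j, w (j + 1)) → False := hx.1
    have hk0 : k = 0 → w 0 ∈ s(wt k, wt (k + 1)) := by
      rintro rfl
      rw [hwt0]; exact Sym2.mem_mk_left _ _
    have hkm : k + 1 = m → w m ∈ s(wt k, wt (k + 1)) := by
      rintro h
      rw [h, hwtm]; exact Sym2.mem_mk_right _ _
    rcases lt_trichotomy j k with hjk | hjk | hjk
    · by_cases h2 : j + 2 ≤ k
      · exact Set.disjoint_left.1 (hD1 k hk i hi _ (hmemW j (by omega)) _ (hmemW (j + 1) (by omega))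
          (hdis k hk j hj (Or.inr h2))) hx1 hx2
      · have hkj : k = j + 1 := by omega
        subst hkj
        by_cases hc : 0 < cr (w (j + 1) - w j) (w (j + 2) - w (j + 1))
        · have h3 := (h7 j (Finset.mem_range.2 hj) hc).2
          have h4 : 0 < cr (w (j + 1) - w j) (wt (j + 1) - w (j + 1)) := by
            simp only [hwt]
            rw [hcr, sub_self, cr_zero, zero_add]
            exact mul_pos hε (hn (j + 1) (by omega) hk).1
          have h5 := K_pos h4 h3 hx1
          have h6 : cr (w (j + 1) - w j) (x - w (j + 1)) ≤ 0 := by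
            apply K_nonpos _ _ hx2
            · apply le_of_eq; unfold cr; simp only [Complex.sub_re, Complex.sub_im]; ring
            · rw [sub_self, cr_zero]
          linarith
        · have h3 : cr (w (j + 2) - w (j + 1)) (x - w (j + 1)) ≤ 0 := by
            apply K_nonpos _ _ hx2
            · simp only [cr, Complex.sub_re, Complex.sub_im] at hc ⊢; linarith
            · rw [sub_self, cr_zero]
          rcases K (j + 1) hk x hx1 h3 with h4 | h4
          · omega
          · rw [h4.2] at hx2
            have := hon j hj m le_rfl hx2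
            omega
    · subst hjk
      have h1 : cr (w (j + 1) - w j) (x - w j) ≤ 0 := by
        apply K_nonpos _ _ hx2
        · rw [sub_self, cr_zero]
        · rw [cr_self]
      rcases K j hk x hx1 h1 with h2 | h2
      · exact hc0 (w 0) (hk0 h2.1) (by rw [h2.1]; exact Sym2.mem_mk_left _ _)
      · exact hc0 (w m) (hkm h2.1) (by rw [h2.1]; exact Sym2.mem_mk_right _ _)
    · by_cases h2 : k + 2 ≤ j
      · exact Set.disjoint_left.1 (hD1 k hk i hi _ (hmemW j (by omega)) _ (hmemW (j + 1) (by omega))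
          (hdis k hk j hj (Or.inl h2))) hx1 hx2
      · have hkj : j = k + 1 := by omega
        subst hkj
        by_cases hc : 0 < cr (w (k + 1) - w k) (w (k + 2) - w (k + 1))
        · have h3 := (h7 k (Finset.mem_range.2 hk) hc).1
          have h4 : 0 < cr (w (k + 2) - w (k + 1)) (wt (k + 1) - w (k + 1)) := by
            simp only [hwt]
            rw [hcr, sub_self, cr_zero, zero_add]
            exact mul_pos hε (hn (k + 1) (by omega) hj).2
          have h5 := K_pos h3 h4 hx1
          have h6 : cr (w (k + 2) - w (k + 1)) (x - w (k + 1)) ≤ 0 := by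
            apply K_nonpos _ _ hx2
            · rw [sub_self, cr_zero]
            · rw [cr_self]
          linarith
        · have h3 : cr (w (k + 1) - w k) (x - w k) ≤ 0 := by
            apply K_nonpos _ _ hx2
            · rw [cr_self]
            · simp only [cr, Complex.sub_re, Complex.sub_im] at hc ⊢; linarith
          rcases K k hk x hx1 h3 with h4 | h4
          · rw [h4.2] at hx2
            have := hon (k + 1) hj 0 (by omega) hx2
            omega
          · omega
  set l : List ℂ := (List.range (m + 1)).map wt with hl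
  have hsegl : segL l = (List.range m).map (fun k => s(wt k, wt (k + 1))) := by
    rw [hl, segL_range]
  have hmeml : ∀ q ∈ l, ∃ k ≤ m, q = wt k := by
    intro q hq
    rw [hl] at hq
    obtain ⟨k, hk, rfl⟩ := List.mem_map.1 hq
    exact ⟨k, by rw [List.mem_range] at hk; omega, rfl⟩
  have hmems : ∀ T ∈ segL l, ∃ k < m, T = s(wt k, wt (k + 1)) := by
    intro T hT
    rw [hsegl] at hT
    obtain ⟨k, hk, rfl⟩ := List.mem_map.1 hT
    exact ⟨k, List.mem_range.1 hk, rfl⟩
  have hmemsW : ∀ T ∈ segL (W i), ∃ k < m, T = s(w k, w (k + 1)) := by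
    intro T hT
    rw [hsegW] at hT
    obtain ⟨k, hk, rfl⟩ := List.mem_map.1 hT
    exact ⟨k, List.mem_range.1 hk, rfl⟩
  refine ⟨l, ?_, ?_, ?_, ?_, ?_, ?_, ?_, ?_, ?_⟩
  · rw [hW, hl, head_range, head_range, hwt0]
  · rw [hW, hl, last_range, last_range, hwtm]
  · rw [hl]; simp; omega
  · exact nodup_of_inj hD6
  · -- H1
    intro q hq hne j hj s hs hqs
    obtain ⟨k, hk, rfl⟩ := hmeml q hq
    have hk' : 0 < k ∧ k < m := by
      by_contra hcon
      apply hne
      rw [hl, En_range]
      by_cases h : k = 0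
      · left; rw [h]
      · right; have : k = m := by omega
        rw [this]
    induction s with
    | _ x y =>
      have hx := mem_of_mem_segL hs (Sym2.mem_mk_left x y)
      have hy := mem_of_mem_segL hs (Sym2.mem_mk_right x y)
      have hwk : w k ∈ sg s(x, y) := by
        by_contra hcon
        rw [sg_mk] at hcon hqs
        exact hD4 k hk j hj x hx y hy hcon hqs
      have h1 := hPO j hj i hi _ hs _ (hmemW k hk) hwk
      have h2 : w k ∈ W j := mem_of_mem_segL hs h1
      have hji : j = i := by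
        by_contra hji
        rcases hEnW _ (hPL.sep i hi j hj (Ne.symm hji) _ (hmemW k hk) h2).1 with h | h
        · have := hinj _ hk _ (by omega) h; omega
        · have := hinj _ hk _ le_rfl h; omega
      subst hji
      obtain ⟨k', hk'', e⟩ := hmemsW _ hs
      rw [e] at hqs h1
      rw [sg_mk] at hqs
      rw [Sym2.mem_iff] at h1
      rcases h1 with h | h
      · have e1 := hinj _ hk _ (by omega) h
        subst e1
        have h3 := (side1 k hk'').2 hk'.1
        have h4 : cr (w (k + 1) - w k) (wt k - w k) ≤ 0 := by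
          apply K_nonpos _ _ hqs
          · rw [sub_self, cr_zero]
          · rw [cr_self]
        linarith
      · have e1 := hinj _ hk _ (by omega) h
        subst e1
        have h3 := (side2 k' hk'').2 hk'.2
        have h4 : cr (w (k' + 1) - w k') (wt (k' + 1) - w k') ≤ 0 := by
          apply K_nonpos _ _ hqs
          · rw [sub_self, cr_zero]
          · rw [cr_self]
        linarith
  · -- H2
    intro T hT q hq hqT
    obtain ⟨k, hk, rfl⟩ := hmems T hT
    obtain ⟨j, hj, rfl⟩ := hmeml q hq
    rw [sg_mk] at hqT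
    have h1 : w j ∈ segment ℝ (w k) (w (k + 1)) := by
      by_contra hcon
      exact hD5 k hk j hj hcon hqT
    rcases hon k hk j hj h1 with h | h
    · rw [h]; exact Sym2.mem_mk_left _ _
    · rw [h]; exact Sym2.mem_mk_right _ _
  · -- H3
    intro T hT j hj q hq hqT
    obtain ⟨k, hk, rfl⟩ := hmems T hT
    rw [sg_mk] at hqT
    have h1 : q ∈ segment ℝ (w k) (w (k + 1)) := by
      by_contra hcon
      exact hD3 k hk j hj q hq hcon hqT
    have h2 : cr (w (k + 1) - w k) (q - w k) ≤ 0 := by
      apply K_nonpos _ _ h1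
      · rw [sub_self, cr_zero]
      · rw [cr_self]
    rcases K k hk q hqT h2 with h | h
    · rw [h.2, h.1, hwt0]; exact Sym2.mem_mk_left _ _
    · rw [h.2, h.1, hwtm]; exact Sym2.mem_mk_right _ _
  · -- X0
    rw [Nx_eq_zero]
    intro s hs s' hs' hx
    obtain ⟨k, hk, rfl⟩ := hmems s hs
    obtain ⟨j, hj, rfl⟩ := hmems s' hs'
    by_cases h1 : k + 2 ≤ j ∨ j + 2 ≤ k
    · obtain ⟨x, hx1, hx2⟩ := hx.2
      rw [sg_mk] at hx1 hx2
      exact Set.disjoint_left.1 (hD2 k hk j hj (hdis k hk j hj h1)) hx1 hx2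
    · have h2 : j = k ∨ j = k + 1 ∨ k = j + 1 := by omega
      rcases h2 with rfl | rfl | rfl
      · exact Xs_irrefl _ hx
      · exact hx.1 (wt (k + 1)) (Sym2.mem_mk_right _ _) (Sym2.mem_mk_left _ _)
      · exact hx.1 (wt (j + 1)) (Sym2.mem_mk_left _ _) (Sym2.mem_mk_right _ _)
  · -- X1
    intro j hj
    by_cases hji : j = i
    · subst hji
      have : Nx l (W j) = 0 := by
        rw [Nx_eq_zero]
        intro s hs s' hs'
        obtain ⟨k, hk, rfl⟩ := hmems s hs
        obtain ⟨k', hk', rfl⟩ := hmemsW s' hs'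
        exact hX k hk k' hk'
      omega
    · rw [hl, Nx_range]
      conv_rhs => rw [hW, Nx_range]
      refine Finset.sum_le_sum fun k hk => ?_
      rw [Finset.mem_range] at hk
      apply NS_mono
      intro t ht hx
      induction t with
      | _ x y =>
        have hxm := mem_of_mem_segL ht (Sym2.mem_mk_left x y)
        have hym := mem_of_mem_segL ht (Sym2.mem_mk_right x y)
        refine ⟨?_, ?_⟩
        · intro q hq hqt
          have hqi : q ∈ W i := mem_of_mem_segL (hsk k hk) hq
          have hqj : q ∈ W j := mem_of_mem_segL ht hqt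
          rcases hEnW _ (hPL.sep i hi j hj (Ne.symm hji) _ hqi hqj).1 with h | h
          · rw [h] at hq
            have hk0 : k = 0 := by
              rcases Sym2.mem_iff.1 hq with h1 | h1
              · exact (hinj _ (by omega) _ (by omega) h1).symm
              · have := hinj _ (by omega) _ (by omega) h1; omega
            refine hx.1 q ?_ hqt
            rw [h, hk0, hwt0]
            exact Sym2.mem_mk_left _ _
          · rw [h] at hq
            have hk0 : k + 1 = m := by
              rcases Sym2.mem_iff.1 hq with h1 | h1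
              · have := hinj _ (by omega) _ (by omega) h1; omega
              · exact (hinj _ (by omega) _ (by omega) h1).symm
            refine hx.1 q ?_ hqt
            rw [h, hk0, hwtm]
            exact Sym2.mem_mk_right _ _
        · by_contra hcon
          rw [Set.not_nonempty_iff_eq_empty, sg_mk, sg_mk, ← Set.disjoint_iff_inter_eq_empty] at hcon
          have h1 := hD1 k hk j hj x hxm y hym hcon
          obtain ⟨z, hz1, hz2⟩ := hx.2
          rw [sg_mk] at hz1 hz2
          exact Set.disjoint_left.1 h1 hz1 hz2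

end Pool.Agent.NH90.CN.PARp
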