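import Pool.Agent.NH90.CN.Stm

set_option autoImplicit false

open Set Classical
open Pool.Agent.Helper770.Crossing Pool.Agent.Helper770.Sep

namespace Pool.Agent.NH90.CN
namespace UNX

/-! ## Segments and lists -/

lemma sg_mk (a b : ℂ) : sg s(a, b) = segment ℝ a b := by
  have : {z : ℂ | z ∈ s(a, b)} = {a, b} := by
    ext z; simp
  rw [sg, this, convexHull_pair]

lemma Xs_symm {s s' : Sym2 ℂ} (h : Xs s s') : Xs s' s :=
  ⟨fun q hq hq' => h.1 q hq' hq, by rw [inter_comm]; exact h.2⟩

lemma Xs_comm (s s' : Sym2 ℂ) : Xs s s' ↔ Xs s' s := ⟨Xs_symm, Xs_symm⟩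

lemma share {a c d p : ℂ} (hp : p ≠ a) (h1 : p ∈ segment ℝ a c) (h2 : p ∈ segment ℝ a d) :
    c ∈ segment ℝ a d ∨ d ∈ segment ℝ a c := by
  rw [segment_eq_image'] at h1 h2 ⊢
  rw [segment_eq_image']
  obtain ⟨s, ⟨hs0, hs1⟩, hs⟩ := h1
  obtain ⟨t, ⟨ht0, ht1⟩, ht⟩ := h2
  simp only at hs ht
  have hs' : s ≠ 0 := by
    rintro rfl; apply hp; rw [← hs]; simp
  have ht' : t ≠ 0 := by
    rintro rfl; apply hp; rw [← ht]; simp
  have hs2 : 0 < s := lt_of_le_of_ne hs0 (Ne.symm hs')
  have ht2 : 0 < t := lt_of_le_of_ne ht0 (Ne.symm ht')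
  have key : s • (c - a) = t • (d - a) := by
    have := hs.trans ht.symm
    exact add_left_cancel this
  rcases le_total s t with hst | hst
  · right
    refine ⟨s / t, ⟨by positivity, (div_le_one ht2).2 hst⟩, ?_⟩
    simp only
    rw [div_eq_inv_mul, mul_smul, key, smul_smul, inv_mul_cancel₀ ht', one_smul]
    ring
  · left
    refine ⟨t / s, ⟨by positivity, (div_le_one hs2).2 hst⟩, ?_⟩
    simp only
    rw [div_eq_inv_mul, mul_smul, ← key, smul_smul, inv_mul_cancel₀ hs', one_smul]
    ring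

lemma segL_append (l : List ℂ) (a : ℂ) (l' : List ℂ) :
    segL (l ++ a :: l') = segL (l ++ [a]) ++ segL (a :: l') := by
  induction l with
  | nil => simp [segL]
  | cons c l ih =>
    cases l with
    | nil => simp [segL]
    | cons d l =>
      simp only [List.cons_append, segL] at ih ⊢
      rw [ih]

lemma segL_reverse (l : List ℂ) : segL l.reverse = (segL l).reverse := by
  induction l with
  | nil => simp [segL]
  | cons a l ih =>
    cases l with
    | nil => simp [segL]
    | cons b l =>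
      have h1 : (a :: b :: l).reverse = l.reverse ++ b :: [a] := by simp
      have h2 : (b :: l).reverse = l.reverse ++ [b] := by simp
      rw [h1, segL_append, ← h2, ih]
      simp [segL, Sym2.eq_swap]

lemma mem_segL {l : List ℂ} {s : Sym2 ℂ} (h : s ∈ segL l) :
    ∃ l₁ a b l₂, l = l₁ ++ a :: b :: l₂ ∧ s = s(a, b) := by
  induction l with
  | nil => simp [segL] at h
  | cons a l ih =>
    cases l with
    | nil => simp [segL] at h
    | cons b l =>
      simp only [segL, List.mem_cons] at h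
      rcases h with h | h
      · exact ⟨[], a, b, l, by simp, h⟩
      · obtain ⟨l₁, a', b', l₂, h1, h2⟩ := ih h
        exact ⟨a :: l₁, a', b', l₂, by simp [h1], h2⟩

lemma mem_of_mem_segL {l : List ℂ} {s : Sym2 ℂ} (h : s ∈ segL l) {q : ℂ} (hq : q ∈ s) : q ∈ l := by
  obtain ⟨l₁, a, b, l₂, h1, h2⟩ := mem_segL h
  rw [h2, Sym2.mem_iff] at hq
  rw [h1]
  rcases hq with rfl | rfl <;> simp

/-- the number of crossing pairs of two lists of segments -/
noncomputable def cc (L L' : List (Sym2 ℂ)) : ℕ :=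
  (L.map (fun s => L'.countP (fun s' => decide (Xs s s')))).sum

lemma Nx_eq (l l' : List ℂ) : Nx l l' = cc (segL l) (segL l') := rfl

lemma cc_append_left (L₁ L₂ L : List (Sym2 ℂ)) : cc (L₁ ++ L₂) L = cc L₁ L + cc L₂ L := by
  simp [cc]

lemma cc_cons_left (s : Sym2 ℂ) (L L' : List (Sym2 ℂ)) :
    cc (s :: L) L' = L'.countP (fun s' => decide (Xs s s')) + cc L L' := by
  simp [cc]

lemma cc_nil_left (L : List (Sym2 ℂ)) : cc [] L = 0 := by simp [cc]

lemma cc_nil_right (L : List (Sym2 ℂ)) : cc L [] = 0 := by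
  induction L with
  | nil => simp [cc]
  | cons s L ih => rw [cc_cons_left, ih]; simp

lemma cc_cons_right (s : Sym2 ℂ) (L L' : List (Sym2 ℂ)) :
    cc L (s :: L') = L.countP (fun s' => decide (Xs s s')) + cc L L' := by
  induction L with
  | nil => simp [cc]
  | cons t L ih =>
    rw [cc_cons_left, cc_cons_left, ih, List.countP_cons, List.countP_cons]
    have : (if decide (Xs t s) = true then 1 else 0) = (if decide (Xs s t) = true then 1 else 0) := by
      simp only [decide_eq_true_eq, Xs_comm t s]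
    rw [this]
    omega

lemma cc_comm (L L' : List (Sym2 ℂ)) : cc L L' = cc L' L := by
  induction L with
  | nil => rw [cc_nil_left, cc_nil_right]
  | cons s L ih => rw [cc_cons_left, cc_cons_right, ih]

lemma cc_append_right (L L₁ L₂ : List (Sym2 ℂ)) : cc L (L₁ ++ L₂) = cc L L₁ + cc L L₂ := by
  rw [cc_comm, cc_append_left, cc_comm L₁, cc_comm L₂]

lemma cc_reverse_left (L L' : List (Sym2 ℂ)) : cc L.reverse L' = cc L L' := by
  simp [cc, List.sum_reverse]

lemma cc_reverse_right (L L' : List (Sym2 ℂ)) : cc L L'.reverse = cc L L' := by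
  rw [cc_comm, cc_reverse_left, cc_comm]

lemma cc_single_mono {L : List (Sym2 ℂ)} {x y : Sym2 ℂ} (h : ∀ g ∈ L, Xs g x → Xs g y) :
    cc L [x] ≤ cc L [y] := by
  rw [cc_cons_right, cc_cons_right]
  apply Nat.add_le_add_right
  apply List.countP_mono_left
  intro g hg h1
  simp only [decide_eq_true_eq] at h1 ⊢
  exact Xs_symm (h g hg (Xs_symm h1))

lemma cc_single_pair {L : List (Sym2 ℂ)} {x x' y : Sym2 ℂ} (h : ∀ g ∈ L, Xs g x → Xs g y)
    (h' : ∀ g ∈ L, Xs g x' → Xs g y) (h2 : ∀ g ∈ L, ¬ (Xs g x ∧ Xs g x')) :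
    cc L [x] + cc L [x'] ≤ cc L [y] := by
  induction L with
  | nil => simp [cc]
  | cons g L ih =>
    have ih' := ih (fun g hg => h g (List.mem_cons_of_mem _ hg))
      (fun g hg => h' g (List.mem_cons_of_mem _ hg)) (fun g hg => h2 g (List.mem_cons_of_mem _ hg))
    have a1 := h g List.mem_cons_self
    have a2 := h' g List.mem_cons_self
    have a3 := h2 g List.mem_cons_self
    rw [cc_cons_left, cc_cons_left, cc_cons_left]
    simp only [List.countP_cons, List.countP_nil, decide_eq_true_eq]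
    by_cases b1 : Xs g x <;> by_cases b2 : Xs g x' <;> by_cases b3 : Xs g y <;>
      simp only [b1, b2, b3, if_true, if_false] <;> first | omega | (exfalso; tauto)

lemma cc_pos {L L' : List (Sym2 ℂ)} (h : cc L L' ≠ 0) : ∃ s ∈ L, ∃ s' ∈ L', Xs s s' := by
  induction L with
  | nil => exact absurd (cc_nil_left _) h
  | cons g L ih =>
    rw [cc_cons_left] at h
    by_cases h1 : cc L L' = 0
    · have : L'.countP (fun s' => decide (Xs g s')) ≠ 0 := by omega
      obtain ⟨s', hs', h2⟩ := List.countP_pos_iff.1 (Nat.pos_of_ne_zero this)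
      exact ⟨g, List.mem_cons_self, s', hs', by simpa using h2⟩
    · obtain ⟨s, hs, s', hs', h2⟩ := ih h1
      exact ⟨s, List.mem_cons_of_mem _ hs, s', hs', h2⟩

/-! ## Sums -/

lemma sum_split {I : Type} (A : Finset I) (i j : I) (hi : i ∈ A) (hj : j ∈ A) (hij : i ≠ j)
    (F : I → I → ℕ) (hs : ∀ k l, F k l = F l k) :
    (∑ k ∈ A, ∑ l ∈ A, if k = l then 0 else F k l) = 2 * F i j +
      2 * (∑ k ∈ (A.erase i).erase j, (F k i + F k j)) +
      ∑ k ∈ (A.erase i).erase j, ∑ l ∈ (A.erase i).erase j, if k = l then 0 else F k l := by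
  set B := (A.erase i).erase j with hB
  have hiB : i ∉ insert j B := by
    rw [hB]; simp [hij]
  have hjB : j ∉ B := by rw [hB]; simp
  have hA : A = insert i (insert j B) := by
    rw [hB, Finset.insert_erase (Finset.mem_erase.2 ⟨hij.symm, hj⟩), Finset.insert_erase hi]
  have hiB' : i ∉ B := fun h => hiB (Finset.mem_insert_of_mem h)
  have e1 : ∀ k ∈ B, (∑ l ∈ A, if k = l then 0 else F k l) =
      F k i + F k j + ∑ l ∈ B, if k = l then 0 else F k l := by
    intro k hk
    have h1 : k ≠ i := fun h => hiB' (h ▸ hk)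
    have h2 : k ≠ j := fun h => hjB (h ▸ hk)
    rw [hA, Finset.sum_insert hiB, Finset.sum_insert hjB, if_neg h1, if_neg h2, add_assoc]
  have e2 : (∑ l ∈ A, if i = l then 0 else F i l) = F i j + ∑ l ∈ B, F l i := by
    rw [hA, Finset.sum_insert hiB, Finset.sum_insert hjB, if_pos rfl, if_neg hij, zero_add]
    congr 1
    apply Finset.sum_congr rfl
    intro l hl
    rw [if_neg (by rintro rfl; exact hiB' hl), hs]
  have e3 : (∑ l ∈ A, if j = l then 0 else F j l) = F i j + ∑ l ∈ B, F l j := by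
    rw [hA, Finset.sum_insert hiB, Finset.sum_insert hjB, if_pos rfl, if_neg hij.symm, zero_add, hs]
    congr 1
    apply Finset.sum_congr rfl
    intro l hl
    rw [if_neg (by rintro rfl; exact hjB hl), hs]
  have e4 : (∑ k ∈ A, ∑ l ∈ A, if k = l then 0 else F k l) =
      (∑ l ∈ A, if i = l then 0 else F i l) + ((∑ l ∈ A, if j = l then 0 else F j l) +
      ∑ k ∈ B, ∑ l ∈ A, if k = l then 0 else F k l) := by
    conv_lhs => rw [hA]
    rw [← hA]
    have : ∀ g : I → ℕ, ∑ k ∈ A, g k = g i + (g j + ∑ k ∈ B, g k) := by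
      intro g
      rw [hA, Finset.sum_insert hiB, Finset.sum_insert hjB]
    rw [this]
  rw [e4, e2, e3, Finset.sum_congr rfl e1, Finset.sum_add_distrib, Finset.sum_add_distrib]
  ring

lemma sum_lt {I : Type} (A : Finset I) (i j : I) (hi : i ∈ A) (hj : j ∈ A) (hij : i ≠ j)
    (F F' : I → I → ℕ) (hs : ∀ k l, F k l = F l k) (hs' : ∀ k l, F' k l = F' l k)
    (h1 : ∀ k ∈ A, ∀ l ∈ A, k ≠ i → k ≠ j → l ≠ i → l ≠ j → F' k l ≤ F k l)
    (h2 : ∀ k ∈ A, k ≠ i → k ≠ j → F' k i + F' k j ≤ F k i + F k j) (h3 : F' i j < F i j) :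
    (∑ k ∈ A, ∑ l ∈ A, if k = l then 0 else F' k l) <
      ∑ k ∈ A, ∑ l ∈ A, if k = l then 0 else F k l := by
  rw [sum_split A i j hi hj hij F hs, sum_split A i j hi hj hij F' hs']
  have a1 : (∑ k ∈ (A.erase i).erase j, (F' k i + F' k j)) ≤
      ∑ k ∈ (A.erase i).erase j, (F k i + F k j) := by
    apply Finset.sum_le_sum
    intro k hk
    simp only [Finset.mem_erase] at hk
    exact h2 k hk.2.2 hk.2.1 hk.1
  have a2 : (∑ k ∈ (A.erase i).erase j, ∑ l ∈ (A.erase i).erase j, if k = l then 0 else F' k l) ≤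
      ∑ k ∈ (A.erase i).erase j, ∑ l ∈ (A.erase i).erase j, if k = l then 0 else F k l := by
    apply Finset.sum_le_sum
    intro k hk
    apply Finset.sum_le_sum
    intro l hl
    simp only [Finset.mem_erase] at hk hl
    split_ifs
    · exact le_rfl
    · exact h1 k hk.2.2 l hl.2.2 hk.2.1 hk.1 hl.2.1 hl.1
  omega

/-! ## Reversing some of the polylines -/

/-- reverse the polylines with `t k` -/
noncomputable def rv {I : Type} (t : I → Prop) (W : I → List ℂ) : I → List ℂ :=
  fun k => if t k then (W k).reverse else W k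

section
variable {I : Type} {A : Finset I} {W : I → List ℂ} (t : I → Prop)

lemma rv_mem (k : I) (q : ℂ) : q ∈ rv t W k ↔ q ∈ W k := by
  unfold rv; split_ifs <;> simp

lemma rv_seg (k : I) (s : Sym2 ℂ) : s ∈ segL (rv t W k) ↔ s ∈ segL (W k) := by
  unfold rv; split_ifs
  · rw [segL_reverse, List.mem_reverse]
  · rfl

lemma rv_En (k : I) (q : ℂ) : En (rv t W k) q ↔ En (W k) q := by
  unfold rv En; split_ifs
  · simp [or_comm]
  · rfl

lemma rv_Nx (k l : I) : Nx (rv t W k) (rv t W l) = Nx (W k) (W l) := by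
  rw [Nx_eq, Nx_eq]
  unfold rv
  split_ifs <;> simp only [segL_reverse, cc_reverse_left, cc_reverse_right]

lemma rv_PL (h : PL A W) : PL A (rv t W) := by
  refine ⟨fun i hi => ?_, fun i hi => ?_, fun i hi j hj hij q h1 h2 => ?_⟩
  · have := h.len i hi
    unfold rv; split_ifs <;> simpa using this
  · have := h.nd i hi
    unfold rv; split_ifs <;> simpa using this
  · rw [rv_mem] at h1 h2
    rw [rv_En, rv_En]
    exact h.sep i hi j hj hij q h1 h2

lemma rv_PO (h : PO A W) : PO A (rv t W) := by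
  intro i hi j hj s hs q hq
  rw [rv_seg] at hs
  rw [rv_mem] at hq
  exact h i hi j hj s hs q hq

lemma rv_NT (h : NT A W) : NT A (rv t W) := by
  intro i hi j hj k hk s hs s' hs' s'' hs''
  rw [rv_seg] at hs hs' hs''
  exact h i hi j hj k hk s hs s' hs' s'' hs''

lemma rv_DS (h : DS A W) : DS A (rv t W) := by
  intro i hi j hj hij s hs
  rw [rv_seg] at hs ⊢
  exact h i hi j hj hij s hs

lemma rv_TT : TT A (rv t W) = TT A W := by
  unfold TT
  refine Finset.sum_congr rfl fun i _ => Finset.sum_congr rfl fun j _ => ?_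
  rw [rv_Nx]

end

end UNX
end Pool.Agent.NH90.CN
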